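import Mathlib
import Pool.Agent.CA31.Defs

/-!
GU (helper72's theorem, msg 14874/14876 for MP_b47bfb_co): for a circular-arc family and a position `y`
(here the cut position `0` of the model), if all cliques have at most `w` elements then the family
has a proper colouring with `w + ⌈|A_y| / 2⌉` colours.
-/

set_option autoImplicit false

namespace Pool.Agent.CA

open Finset Pool.Agent.CA31
open scoped Classical

/-- clique inside a set of vertices -/
def Clq {V : Type} (G : SimpleGraph V) (K : Finset V) : Prop :=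
  ∀ u ∈ K, ∀ v ∈ K, u ≠ v → G.Adj u v

/-- stable set -/
def Stb {V : Type} (G : SimpleGraph V) (K : Finset V) : Prop :=
  ∀ u ∈ K, ∀ v ∈ K, ¬ G.Adj u v

/-! ### Covering positions by two chains -/

theorem cover_aux {V : Type} (o c : V → ℕ) (P : Finset V) :
    ∀ n : ℕ, ∀ Zs : Finset ℕ, Zs.card = n → (∀ z ∈ Zs, ∃ g ∈ P, o g < z ∧ z ≤ c g) →
      ∀ z0 ∈ Zs, (∀ z ∈ Zs, z0 ≤ z) →
      ∃ Ja Jb : Finset V, Ja ⊆ P ∧ Jb ⊆ P ∧
        (∀ u ∈ Ja, ∀ v ∈ Ja, u ≠ v → c u < o v ∨ c v < o u) ∧
        (∀ u ∈ Jb, ∀ v ∈ Jb, u ≠ v → c u < o v ∨ c v < o u) ∧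
        (∀ z ∈ Zs, ∃ g ∈ Ja ∪ Jb, o g < z ∧ z ≤ c g) ∧
        (∀ g ∈ Jb, z0 ≤ o g) ∧
        (∀ g ∈ Ja ∪ Jb, ∃ z ∈ Zs, o g < z ∧ z ≤ c g) ∧
        ((∀ g ∈ Ja, ∃ z ∈ Zs, c g < z) ∨ (∀ g ∈ Jb, ∃ z ∈ Zs, c g < z)) := by
  intro n
  induction n using Nat.strong_induction_on with
  | _ n ih =>
    intro Zs hcard hcov z0 hz0 hmin
    obtain ⟨g0, hg0, hg01, hg02⟩ := hcov z0 hz0
    obtain ⟨h0, hh0, hmax⟩ := Finset.exists_max_image (P.filter (fun g => o g < z0 ∧ z0 ≤ c g)) c
      ⟨g0, Finset.mem_filter.2 ⟨hg0, hg01, hg02⟩⟩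
    rw [Finset.mem_filter] at hh0
    obtain ⟨hh0P, hh01, hh02⟩ := hh0
    have hmax' : ∀ g ∈ P, o g < z0 → z0 ≤ c g → c g ≤ c h0 := fun g hg h1 h2 =>
      hmax g (Finset.mem_filter.2 ⟨hg, h1, h2⟩)
    by_cases hemp : (Zs.filter (fun z => c h0 < z)) = ∅
    · have hall : ∀ z ∈ Zs, z ≤ c h0 := by
        intro z hz
        by_contra hc
        push Not at hc
        have : z ∈ Zs.filter (fun z => c h0 < z) := Finset.mem_filter.2 ⟨hz, hc⟩
        rw [hemp] at this
        simp at this
      refine ⟨{h0}, ∅, ?_, ?_, ?_, ?_, ?_, ?_, ?_, ?_⟩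
      · intro x hx
        rw [Finset.mem_singleton] at hx
        rw [hx]; exact hh0P
      · exact Finset.empty_subset _
      · intro u hu v hv huv
        rw [Finset.mem_singleton] at hu hv
        exact absurd (hu.trans hv.symm) huv
      · intro u hu
        simp at hu
      · intro z hz
        refine ⟨h0, by simp, lt_of_lt_of_le hh01 (hmin z hz), hall z hz⟩
      · intro g hg
        simp at hg
      · intro g hg
        simp only [Finset.union_empty, Finset.mem_singleton] at hg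
        rw [hg]
        exact ⟨z0, hz0, hh01, hh02⟩
      · right
        intro g hg
        simp at hg
    · obtain ⟨z1, hz1, hz1min⟩ := Finset.exists_min_image (Zs.filter (fun z => c h0 < z)) id
        (Finset.nonempty_iff_ne_empty.2 hemp)
      have hsub : ∀ z ∈ Zs.filter (fun z => c h0 < z), z ∈ Zs := fun z hz =>
        (Finset.mem_filter.1 hz).1
      have hgt : ∀ z ∈ Zs.filter (fun z => c h0 < z), c h0 < z := fun z hz =>
        (Finset.mem_filter.1 hz).2
      have hlt : (Zs.filter (fun z => c h0 < z)).card < n := by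
        rw [← hcard]
        apply Finset.card_lt_card
        rw [Finset.ssubset_iff_subset_ne]
        refine ⟨Finset.filter_subset _ _, fun he => ?_⟩
        rw [← he] at hz0
        have := hgt z0 hz0
        omega
      obtain ⟨Ja, Jb, i1, i2, i3, i4, i5, i6, i7, i8⟩ := ih _ hlt _ rfl
        (fun z hz => hcov z (hsub z hz)) z1 hz1 (fun z hz => hz1min z hz)
      have hcz1 : c h0 < z1 := hgt z1 hz1
      refine ⟨insert h0 Jb, Ja, ?_, i1, ?_, i3, ?_, ?_, ?_, ?_⟩
      · intro x hx
        rcases Finset.mem_insert.1 hx with rfl | hx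
        · exact hh0P
        · exact i2 hx
      · intro u hu v hv huv
        rcases Finset.mem_insert.1 hu with hu1 | hu1
        · rcases Finset.mem_insert.1 hv with hv1 | hv1
          · exact absurd (hu1.trans hv1.symm) huv
          · left
            rw [hu1]
            exact lt_of_lt_of_le hcz1 (i6 v hv1)
        · rcases Finset.mem_insert.1 hv with hv1 | hv1
          · right
            rw [hv1]
            exact lt_of_lt_of_le hcz1 (i6 u hu1)
          · exact i4 u hu1 v hv1 huv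
      · intro z hz
        by_cases hzc : z ≤ c h0
        · exact ⟨h0, by simp, lt_of_lt_of_le hh01 (hmin z hz), hzc⟩
        · push Not at hzc
          obtain ⟨g, hg, hg1, hg2⟩ := i5 z (Finset.mem_filter.2 ⟨hz, hzc⟩)
          refine ⟨g, ?_, hg1, hg2⟩
          rw [Finset.mem_union] at hg ⊢
          rcases hg with hg | hg
          · exact Or.inr hg
          · exact Or.inl (Finset.mem_insert_of_mem hg)
      · intro g hg
        by_contra hc
        push Not at hc
        obtain ⟨z, hz, hz1', hz2⟩ := i7 g (Finset.mem_union_left _ hg)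
        have h1 := hgt z hz
        have h2 := hmax' g (i1 hg) hc (by omega)
        omega
      · intro g hg
        rw [Finset.mem_union] at hg
        rcases hg with hg | hg
        · rcases Finset.mem_insert.1 hg with rfl | hg
          · exact ⟨z0, hz0, hh01, hh02⟩
          · obtain ⟨z, hz, h1⟩ := i7 g (Finset.mem_union_right _ hg)
            exact ⟨z, hsub z hz, h1⟩
        · obtain ⟨z, hz, h1⟩ := i7 g (Finset.mem_union_left _ hg)
          exact ⟨z, hsub z hz, h1⟩
      · rcases i8 with i8 | i8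
        · right
          intro g hg
          obtain ⟨z, hz, h1⟩ := i8 g hg
          exact ⟨z, hsub z hz, h1⟩
        · left
          intro g hg
          rcases Finset.mem_insert.1 hg with rfl | hg
          · exact ⟨z1, hsub z1 hz1, hcz1⟩
          · obtain ⟨z, hz, h1⟩ := i8 g hg
            exact ⟨z, hsub z hz, h1⟩

theorem cover {V : Type} (o c : V → ℕ) (P : Finset V) (Zs : Finset ℕ)
    (hcov : ∀ z ∈ Zs, ∃ g ∈ P, o g < z ∧ z ≤ c g) :
    ∃ J1 J2 : Finset V, J1 ⊆ P ∧ J2 ⊆ P ∧
      (∀ u ∈ J1, ∀ v ∈ J1, u ≠ v → c u < o v ∨ c v < o u) ∧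
      (∀ u ∈ J2, ∀ v ∈ J2, u ≠ v → c u < o v ∨ c v < o u) ∧
      (∀ z ∈ Zs, ∃ g ∈ J1 ∪ J2, o g < z ∧ z ≤ c g) ∧
      (∀ g ∈ J1, ∃ z ∈ Zs, c g < z) := by
  by_cases hemp : Zs = ∅
  · subst hemp
    refine ⟨∅, ∅, Finset.empty_subset _, Finset.empty_subset _, ?_, ?_, ?_, ?_⟩ <;>
      intro x hx <;> simp at hx
  · obtain ⟨z0, hz0, hmin⟩ := Finset.exists_min_image Zs id (Finset.nonempty_iff_ne_empty.2 hemp)
    obtain ⟨Ja, Jb, i1, i2, i3, i4, i5, _, _, i8⟩ := cover_aux o c P _ Zs rfl hcov z0 hz0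
      (fun z hz => hmin z hz)
    rcases i8 with i8 | i8
    · exact ⟨Ja, Jb, i1, i2, i3, i4, i5, i8⟩
    · refine ⟨Jb, Ja, i2, i1, i4, i3, ?_, i8⟩
      intro z hz
      obtain ⟨g, hg, h1⟩ := i5 z hz
      exact ⟨g, by rw [Finset.union_comm]; exact hg, h1⟩

variable {V : Type} [Fintype V] {M : Model V} {G : SimpleGraph V}

/-! ### Bad cliques -/

theorem exists_inside (hG : M.IsModelOf G) {S K : Finset V} {w : ℕ}
    (hw : ∀ K ⊆ S, Clq G K → K.card ≤ w) (hKS : K ⊆ S) (hK : Clq G K) (hKw : K.card = w)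
    {b : V} (hbS : b ∈ S) (hb : M.IsA b) (hbK : b ∉ K) :
    ∃ x ∈ K, M.IsH x ∧ M.c b < M.o x ∧ M.c x < M.o b := by
  by_contra hno
  push Not at hno
  have hadj : ∀ x ∈ K, G.Adj b x := by
    intro x hx
    have hne : b ≠ x := fun h => hbK (h ▸ hx)
    rcases M.isH_or_isA x with hx' | hx'
    · rw [Model.adj_AH hG hb hx']
      by_contra hc
      push Not at hc
      have h1 := M.o_ne_c x b
      have h2 := M.o_ne_c b x
      have := hno x hx hx' (by omega)
      omega
    · exact (Model.adj_AA hG hb hx').2 hne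
  have hclq : Clq G (insert b K) := by
    intro u hu v hv huv
    rcases Finset.mem_insert.1 hu with hu1 | hu1
    · rcases Finset.mem_insert.1 hv with hv1 | hv1
      · exact absurd (hu1.trans hv1.symm) huv
      · rw [hu1]; exact hadj v hv1
    · rcases Finset.mem_insert.1 hv with hv1 | hv1
      · rw [hv1]; exact (hadj u hu1).symm
      · exact hK u hu1 v hv1 huv
  have hsub : insert b K ⊆ S := Finset.insert_subset hbS hKS
  have := hw _ hsub hclq
  rw [Finset.card_insert_of_notMem hbK] at this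
  omega

/-- the H-arcs of a clique have a common position -/
theorem helly (hG : M.IsModelOf G) {K : Finset V} (hK : Clq G K) {x : V} (hx : x ∈ K)
    (hxH : M.IsH x) : ∃ z, (∀ h ∈ K, M.IsH h → M.o h < z ∧ z ≤ M.c h) ∧
      (∀ n, (∃ h ∈ K, M.IsH h ∧ n < M.o h) → n < z) := by
  obtain ⟨y, hy, hmax⟩ := Finset.exists_max_image (K.filter (fun v => M.IsH v)) M.o
    ⟨x, Finset.mem_filter.2 ⟨hx, hxH⟩⟩
  rw [Finset.mem_filter] at hy
  refine ⟨M.o y + 1, ?_, ?_⟩
  · intro h hh hhH
    have h1 := hmax h (Finset.mem_filter.2 ⟨hh, hhH⟩)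
    refine ⟨by omega, ?_⟩
    by_cases he : h = y
    · subst he
      have := hhH
      unfold Model.IsH at this
      omega
    · have := (Model.adj_HH hG hhH hy.2).1 (hK h hh y hy.1 he)
      omega
  · rintro n ⟨h, hh, hhH, hn⟩
    have h1 := hmax h (Finset.mem_filter.2 ⟨hh, hhH⟩)
    omega

/-- the last step: from a cover of the bad positions to the two stable sets -/
theorem finish (hG : M.IsModelOf G) {S : Finset V} {w : ℕ} {b1 b2 : V}
    (hb1S : b1 ∈ S) (hb2S : b2 ∈ S) (hb1 : M.IsA b1) (hb2 : M.IsA b2) (hne : b1 ≠ b2)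
    (P : Finset V) (hPS : P ⊆ S) (hP : ∀ g ∈ P, M.IsH g ∧ M.c b1 < M.o g ∧ M.c b2 < M.o g ∧
      M.c g < M.o b2)
    (hbad : ∀ K ⊆ S, Clq G K → K.card = w → b1 ∉ K → b2 ∉ K →
      ∃ z, (∀ h ∈ S, M.IsH h → M.o h < z → z ≤ M.c h → h ∈ K) ∧
        (∃ g ∈ P, M.o g < z ∧ z ≤ M.c g) ∧ z ≤ M.o b1) :
    ∃ I1 I2 : Finset V, I1 ⊆ S ∧ I2 ⊆ S ∧ Stb G I1 ∧ Stb G I2 ∧
      (∃ b1 ∈ I1, ∃ b2 ∈ I2, b1 ≠ b2 ∧ M.IsA b1 ∧ M.IsA b2) ∧
      ∀ K ⊆ S, Clq G K → K.card = w → ∃ x ∈ K, x ∈ I1 ∪ I2 := by
  obtain ⟨J1, J2, j1, j2, j3, j4, j5, j6⟩ := cover M.o M.c P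
    ((Finset.range (M.o b1 + 1)).filter (fun z => ∃ g ∈ P, M.o g < z ∧ z ≤ M.c g)) (by
      intro z hz
      exact (Finset.mem_filter.1 hz).2)
  have hchain : ∀ J : Finset V, J ⊆ P →
      (∀ u ∈ J, ∀ v ∈ J, u ≠ v → M.c u < M.o v ∨ M.c v < M.o u) → Stb G J := by
    intro J hJ hch u hu v hv hadj
    have huH := (hP u (hJ hu)).1
    have hvH := (hP v (hJ hv)).1
    have h1 := (Model.adj_HH hG huH hvH).1 hadj
    have h2 := hch u hu v hv h1.1
    omega
  have hins : ∀ (J : Finset V) (b : V), M.IsA b → J ⊆ P → Stb G J →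
      (∀ g ∈ J, M.c b < M.o g ∧ M.c g < M.o b) → Stb G (insert b J) := by
    intro J b hb hJ hst hw u hu v hv hadj
    have key : ∀ g ∈ J, ¬ G.Adj b g := by
      intro g hg hadj
      rw [Model.adj_AH hG hb (hP g (hJ hg)).1] at hadj
      have := hw g hg
      omega
    rcases Finset.mem_insert.1 hu with hu1 | hu1
    · rcases Finset.mem_insert.1 hv with hv1 | hv1
      · rw [hu1, hv1] at hadj
        exact G.loopless.irrefl _ hadj
      · rw [hu1] at hadj
        exact key v hv1 hadj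
    · rcases Finset.mem_insert.1 hv with hv1 | hv1
      · rw [hv1] at hadj
        exact key u hu1 hadj.symm
      · exact hst u hu1 v hv1 hadj
  refine ⟨insert b1 J1, insert b2 J2, Finset.insert_subset hb1S (j1.trans hPS),
    Finset.insert_subset hb2S (j2.trans hPS), ?_, ?_, ?_, ?_⟩
  · apply hins J1 b1 hb1 j1 (hchain J1 j1 j3)
    intro g hg
    obtain ⟨z, hz, hlt⟩ := j6 g hg
    rw [Finset.mem_filter, Finset.mem_range] at hz
    exact ⟨(hP g (j1 hg)).2.1, by omega⟩
  · apply hins J2 b2 hb2 j2 (hchain J2 j2 j4)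
    intro g hg
    have := hP g (j2 hg)
    exact ⟨this.2.2.1, this.2.2.2⟩
  · exact ⟨b1, Finset.mem_insert_self _ _, b2, Finset.mem_insert_self _ _, hne, hb1, hb2⟩
  · intro K hKS hK hKw
    by_cases h1 : b1 ∈ K
    · exact ⟨b1, h1, Finset.mem_union_left _ (Finset.mem_insert_self _ _)⟩
    by_cases h2 : b2 ∈ K
    · exact ⟨b2, h2, Finset.mem_union_right _ (Finset.mem_insert_self _ _)⟩
    obtain ⟨z, hz1, hz2, hz3⟩ := hbad K hKS hK hKw h1 h2
    obtain ⟨g, hg, hg1, hg2⟩ := j5 z (Finset.mem_filter.2 ⟨Finset.mem_range.2 (by omega), hz2⟩)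
    rw [Finset.mem_union] at hg
    rcases hg with hg | hg
    · exact ⟨g, hz1 g (hPS (j1 hg)) (hP g (j1 hg)).1 hg1 hg2,
        Finset.mem_union_left _ (Finset.mem_insert_of_mem hg)⟩
    · exact ⟨g, hz1 g (hPS (j2 hg)) (hP g (j2 hg)).1 hg1 hg2,
        Finset.mem_union_right _ (Finset.mem_insert_of_mem hg)⟩

/-- the H-arcs of `S` through `z` which meet all arcs of `B` -/
noncomputable def Zf (M : Model V) (G : SimpleGraph V) (S B : Finset V) (z : ℕ) : Finset V :=
  S.filter (fun h => M.IsH h ∧ M.o h < z ∧ z ≤ M.c h ∧ ∀ b ∈ B, G.Adj b h)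

theorem mem_Zf {S B : Finset V} {z : ℕ} {h : V} : h ∈ Zf M G S B z ↔
    h ∈ S ∧ M.IsH h ∧ M.o h < z ∧ z ≤ M.c h ∧ ∀ b ∈ B, G.Adj b h := by
  unfold Zf
  rw [Finset.mem_filter]

theorem clq_Zf (hG : M.IsModelOf G) {S B : Finset V} {z : ℕ} (hB : ∀ b ∈ B, M.IsA b) :
    Clq G (B ∪ Zf M G S B z) := by
  intro u hu v hv huv
  rw [Finset.mem_union] at hu hv
  rcases hu with hu | hu
  · rcases hv with hv | hv
    · exact (Model.adj_AA hG (hB u hu) (hB v hv)).2 huv
    · exact (mem_Zf.1 hv).2.2.2.2 u hu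
  · rcases hv with hv | hv
    · exact ((mem_Zf.1 hu).2.2.2.2 v hv).symm
    · have h1 := mem_Zf.1 hu
      have h2 := mem_Zf.1 hv
      rw [Model.adj_HH hG h1.2.1 h2.2.1]
      exact ⟨huv, by omega, by omega⟩

theorem disj_Zf {S B : Finset V} {z : ℕ} (hB : ∀ b ∈ B, M.IsA b) :
    Disjoint B (Zf M G S B z) := by
  rw [Finset.disjoint_left]
  intro u hu hz
  have h1 := (mem_Zf.1 hz).2.1
  have h2 := hB u hu
  unfold Model.IsH at h1
  unfold Model.IsA at h2
  omega

theorem card_Zf_le (hG : M.IsModelOf G) {S B : Finset V} {z w : ℕ}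
    (hw : ∀ K ⊆ S, Clq G K → K.card ≤ w) (hBS : B ⊆ S) (hB : ∀ b ∈ B, M.IsA b) :
    B.card + (Zf M G S B z).card ≤ w := by
  rw [← Finset.card_union_of_disjoint (disj_Zf hB)]
  apply hw _ _ (clq_Zf hG hB)
  apply Finset.union_subset hBS
  intro x hx
  exact (mem_Zf.1 hx).1

/-- the uncrossing inequality in counting form -/
theorem uncross_card {S B B' : Finset V} {z z' : ℕ} 
    (h1 : ∀ h ∈ Zf M G S B z, ¬ (z' ≤ M.c h ∧ M.o h < z') → ∀ b ∈ B', G.Adj b h) :
    (Zf M G S B z).card + (Zf M G S B' z').card ≤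
      (Zf M G S (B ∪ B') z).card + (Zf M G S (B ∩ B') z').card := by
  have hQ1 : Zf M G S (B ∪ B') z ⊆ Zf M G S B z := by
    intro h hh
    rw [mem_Zf] at hh ⊢
    exact ⟨hh.1, hh.2.1, hh.2.2.1, hh.2.2.2.1, fun b hb => hh.2.2.2.2 b (Finset.mem_union_left _ hb)⟩
  have hQ2 : Zf M G S B' z' ⊆ Zf M G S (B ∩ B') z' := by
    intro h hh
    rw [mem_Zf] at hh ⊢
    exact ⟨hh.1, hh.2.1, hh.2.2.1, hh.2.2.2.1, fun b hb => hh.2.2.2.2 b (Finset.mem_inter.1 hb).2⟩
  have hQ3 : Zf M G S B z \ Zf M G S (B ∪ B') z ⊆ Zf M G S (B ∩ B') z' \ Zf M G S B' z' := by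
    intro h hh
    rw [Finset.mem_sdiff] at hh ⊢
    obtain ⟨hh1, hh2⟩ := hh
    have hz := mem_Zf.1 hh1
    have hex : ∃ b ∈ B', ¬ G.Adj b h := by
      by_contra hc
      push Not at hc
      apply hh2
      rw [mem_Zf]
      refine ⟨hz.1, hz.2.1, hz.2.2.1, hz.2.2.2.1, fun b hb => ?_⟩
      rcases Finset.mem_union.1 hb with hb | hb
      · exact hz.2.2.2.2 b hb
      · exact hc b hb
    obtain ⟨b, hb, hnb⟩ := hex
    have hz' : z' ≤ M.c h ∧ M.o h < z' := by
      by_contra hc
      exact hnb (h1 h hh1 hc b hb)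
    refine ⟨?_, ?_⟩
    · rw [mem_Zf]
      exact ⟨hz.1, hz.2.1, hz'.2, hz'.1, fun b hb => hz.2.2.2.2 b (Finset.mem_inter.1 hb).1⟩
    · intro hc
      exact hnb ((mem_Zf.1 hc).2.2.2.2 b hb)
  have e1 := Finset.card_sdiff_add_card_eq_card hQ1
  have e2 := Finset.card_sdiff_add_card_eq_card hQ2
  have e3 := Finset.card_le_card hQ3
  omega

/-- **Claim P** for the extremal pair -/
theorem hit (hG : M.IsModelOf G) {S : Finset V} {w : ℕ}
    (hw : ∀ K ⊆ S, Clq G K → K.card ≤ w) (hA : 2 ≤ (S.filter (fun v => M.IsA v)).card) :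
    ∃ I1 I2 : Finset V, I1 ⊆ S ∧ I2 ⊆ S ∧ Stb G I1 ∧ Stb G I2 ∧
      (∃ b1 ∈ I1, ∃ b2 ∈ I2, b1 ≠ b2 ∧ M.IsA b1 ∧ M.IsA b2) ∧
      ∀ K ⊆ S, Clq G K → K.card = w → ∃ x ∈ K, x ∈ I1 ∪ I2 := by
  have hASmem : ∀ b, b ∈ S.filter (fun v => M.IsA v) ↔ b ∈ S ∧ M.IsA b := fun b =>
    Finset.mem_filter
  obtain ⟨b1, hb1', hb1min'⟩ := Finset.exists_min_image (S.filter (fun v => M.IsA v)) M.o
    (Finset.card_pos.1 (by omega))
  obtain ⟨b2, hb2', hb2max'⟩ := Finset.exists_max_image ((S.filter (fun v => M.IsA v)).erase b1) M.c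
    (Finset.card_pos.1 (by rw [Finset.card_erase_of_mem hb1']; omega))
  rw [Finset.mem_erase, hASmem] at hb2'
  rw [hASmem] at hb1'
  obtain ⟨hb1S, hb1A⟩ := hb1'
  obtain ⟨hne21, hb2S, hb2A⟩ := hb2'
  have hmin : ∀ b ∈ S, M.IsA b → M.o b1 ≤ M.o b := fun b hb hbA =>
    hb1min' b ((hASmem b).2 ⟨hb, hbA⟩)
  have hmax : ∀ b ∈ S, M.IsA b → b ≠ b1 → M.c b ≤ M.c b2 := fun b hb hbA hne =>
    hb2max' b (Finset.mem_erase.2 ⟨hne, (hASmem b).2 ⟨hb, hbA⟩⟩)
  have hcne : M.c b1 ≠ M.c b2 := fun h => hne21 (M.c_inj h).symm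
  by_cases hcase : M.c b2 < M.c b1
  · -- b1 is extremal on both sides
    apply finish hG hb1S hb2S hb1A hb2A hne21.symm
      (S.filter (fun g => M.IsH g ∧ M.c b1 < M.o g ∧ M.c g < M.o b1)) (Finset.filter_subset _ _)
    · intro g hg
      rw [Finset.mem_filter] at hg
      have := hmin b2 hb2S hb2A
      exact ⟨hg.2.1, hg.2.2.1, by omega, by omega⟩
    · intro K hKS hK hKw h1 h2
      obtain ⟨x, hx, hxH, hx1, hx2⟩ := exists_inside hG hw hKS hK hKw hb1S hb1A h1
      -- no A-arc in K
      have hnoA : ∀ v ∈ K, M.IsH v := by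
        intro v hv
        rcases M.isH_or_isA v with h | h
        · exact h
        · exfalso
          have hvx : v ≠ x := by
            rintro rfl
            unfold Model.IsH at hxH
            unfold Model.IsA at h
            omega
          have hadj := hK v hv x hx hvx
          rw [Model.adj_AH hG h hxH] at hadj
          have e1 := hmin v (hKS hv) h
          have e2 : v ≠ b1 := fun he => h1 (he ▸ hv)
          have e3 := hmax v (hKS hv) h e2
          omega
      obtain ⟨z, hz1, _⟩ := helly hG hK hx hxH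
      refine ⟨z, ?_, ⟨x, ?_, hz1 x hx hxH⟩, ?_⟩
      · intro h hh hhH ho hc
        by_contra hhK
        have hclq : Clq G (insert h K) := by
          have key : ∀ v ∈ K, G.Adj h v := by
            intro v hv
            rw [Model.adj_HH hG hhH (hnoA v hv)]
            have := hz1 v hv (hnoA v hv)
            exact ⟨fun he => hhK (he ▸ hv), by omega, by omega⟩
          intro u hu v hv huv
          rcases Finset.mem_insert.1 hu with hu1 | hu1
          · rcases Finset.mem_insert.1 hv with hv1 | hv1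
            · exact absurd (hu1.trans hv1.symm) huv
            · rw [hu1]; exact key v hv1
          · rcases Finset.mem_insert.1 hv with hv1 | hv1
            · rw [hv1]; exact (key u hu1).symm
            · exact hK u hu1 v hv1 huv
        have := hw _ (Finset.insert_subset hh hKS) hclq
        rw [Finset.card_insert_of_notMem hhK] at this
        omega
      · rw [Finset.mem_filter]
        exact ⟨hKS hx, hxH, hx1, hx2⟩
      · have := hz1 x hx hxH
        omega
  -- main case
  have hc12 : M.c b1 < M.c b2 := by omega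
  obtain ⟨Ap, hAp⟩ : ∃ Ap : Finset V, ∀ b, b ∈ Ap ↔ b ∈ S ∧ M.IsA b ∧ b ≠ b1 ∧ b ≠ b2 :=
    ⟨S.filter (fun b => M.IsA b ∧ b ≠ b1 ∧ b ≠ b2), fun b => by rw [Finset.mem_filter]⟩
  let Bad : ℕ → Finset V → Prop := fun z B => B ⊆ Ap ∧ M.c b2 < z ∧ z ≤ M.o b1 ∧
    B.card + (Zf M G S B z).card = w
  have hApA : ∀ B ⊆ Ap, ∀ b ∈ B, M.IsA b := fun B hB b hb => ((hAp b).1 (hB hb)).2.1
  have hApS : ∀ B ⊆ Ap, B ⊆ S := fun B hB b hb => ((hAp b).1 (hB hb)).1
  -- classification of the bad cliques
  have hclass : ∀ K ⊆ S, Clq G K → K.card = w → b1 ∉ K → b2 ∉ K → ∃ z B, Bad z B ∧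
      (∀ v ∈ K, M.IsA v → v ∈ B) ∧ B ⊆ K ∧ Zf M G S B z ⊆ K ∧
      (∀ h ∈ K, M.IsH h → M.o h < z ∧ z ≤ M.c h) := by
    intro K hKS hK hKw h1 h2
    obtain ⟨x, hx, hxH, hx1, hx2⟩ := exists_inside hG hw hKS hK hKw hb1S hb1A h1
    obtain ⟨y, hy, hyH, hy1, hy2⟩ := exists_inside hG hw hKS hK hKw hb2S hb2A h2
    obtain ⟨z, hz1, hz2⟩ := helly hG hK hx hxH
    have hBAp : K.filter (fun v => M.IsA v) ⊆ Ap := by
      intro b hb
      rw [Finset.mem_filter] at hb
      exact (hAp b).2 ⟨hKS hb.1, hb.2, fun he => h1 (he ▸ hb.1), fun he => h2 (he ▸ hb.1)⟩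
    have hsub : K.filter (fun v => M.IsH v) ⊆ Zf M G S (K.filter (fun v => M.IsA v)) z := by
      intro h hh
      rw [Finset.mem_filter] at hh
      rw [mem_Zf]
      have e1 := hz1 h hh.1 hh.2
      refine ⟨hKS hh.1, hh.2, e1.1, e1.2, fun b hb => ?_⟩
      rw [Finset.mem_filter] at hb
      apply hK b hb.1 h hh.1
      rintro rfl
      have e2 := hh.2
      have e3 := hb.2
      unfold Model.IsH at e2
      unfold Model.IsA at e3
      omega
    have hsplit : K.card = (K.filter (fun v => M.IsA v)).card + (K.filter (fun v => M.IsH v)).card := by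
      have e1 : K.filter (fun v => M.IsH v) = K.filter (fun v => ¬ M.IsA v) := by
        apply Finset.filter_congr
        intro v _
        exact M.not_isA.symm
      rw [e1]
      exact (Finset.card_filter_add_card_filter_not _).symm
    have hle := card_Zf_le hG (z := z) hw (hApS _ hBAp) (hApA _ hBAp)
    have hcle := Finset.card_le_card hsub
    have heq : K.filter (fun v => M.IsH v) = Zf M G S (K.filter (fun v => M.IsA v)) z :=
      Finset.eq_of_subset_of_card_le hsub (by omega)
    refine ⟨z, K.filter (fun v => M.IsA v), ⟨hBAp, ?_, ?_, ?_⟩, ?_, Finset.filter_subset _ _, ?_, hz1⟩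
    · exact hz2 _ ⟨y, hy, hyH, hy1⟩
    · have := hz1 x hx hxH
      omega
    · omega
    · intro v hv hvA
      exact Finset.mem_filter.2 ⟨hv, hvA⟩
    · rw [← heq]
      exact Finset.filter_subset _ _
  -- closure under unions
  have hunion : ∀ z B B', Bad z B → Bad z B' → Bad z (B ∪ B') := by
    rintro z B B' ⟨h1, h2, h3, h4⟩ ⟨h1', _, _, h4'⟩
    have hU : B ∪ B' ⊆ Ap := Finset.union_subset h1 h1'
    have hI : B ∩ B' ⊆ Ap := Finset.inter_subset_left.trans h1
    have e1 := uncross_card (M := M) (G := G) (S := S) (B := B) (B' := B') (z := z) (z' := z) (by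
      intro h hh hn
      exact absurd ⟨(mem_Zf.1 hh).2.2.2.1, (mem_Zf.1 hh).2.2.1⟩ hn)
    have e2 := Finset.card_union_add_card_inter B B'
    have e3 := card_Zf_le hG (z := z) hw (hApS _ hU) (hApA _ hU)
    have e4 := card_Zf_le hG (z := z) hw (hApS _ hI) (hApA _ hI)
    exact ⟨hU, h2, h3, by omega⟩
  have hmaxB : ∀ z, (∃ B, Bad z B) → ∃ B, Bad z B ∧ ∀ B', Bad z B' → B' ⊆ B := by
    rintro z ⟨B0, hB0⟩
    obtain ⟨B, hB, hBmax⟩ := Finset.exists_max_image (Ap.powerset.filter (fun B => Bad z B))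
      Finset.card ⟨B0, Finset.mem_filter.2 ⟨Finset.mem_powerset.2 hB0.1, hB0⟩⟩
    rw [Finset.mem_filter] at hB
    refine ⟨B, hB.2, fun B' hB' => ?_⟩
    have hU := hunion z B B' hB.2 hB'
    have h1 := hBmax (B ∪ B') (Finset.mem_filter.2 ⟨Finset.mem_powerset.2 hU.1, hU⟩)
    have h2 : B = B ∪ B' := Finset.eq_of_subset_of_card_le Finset.subset_union_left h1
    rw [h2]
    exact Finset.subset_union_right
  choose! Bz hBz hBzmax using hmaxB
  -- uncrossing
  have huncross : ∀ z z', z < z' → (∃ B, Bad z B) → (∃ B, Bad z' B) →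
      (∀ n, (∀ b ∈ Bz z, n < M.c b) → ∀ b ∈ Bz z', n < M.c b) → Bz z' ⊆ Bz z := by
    intro z z' hzz hz hz' hrho
    obtain ⟨h1, h2, h3, h4⟩ := hBz z hz
    obtain ⟨h1', h2', h3', h4'⟩ := hBz z' hz'
    have hU : Bz z ∪ Bz z' ⊆ Ap := Finset.union_subset h1 h1'
    have hI : Bz z ∩ Bz z' ⊆ Ap := Finset.inter_subset_left.trans h1
    have e1 := uncross_card (M := M) (G := G) (S := S) (B := Bz z) (B' := Bz z') (z := z) (z' := z')
      (by
        intro h hh hn b hb
        have hm := mem_Zf.1 hh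
        have hch : M.c h < z' := by
          by_contra hc
          push Not at hc
          exact hn ⟨hc, by omega⟩
        have hbS := hApS _ h1' hb
        have hbA := hApA _ h1' b hb
        rw [Model.adj_AH hG hbA hm.2.1]
        left
        apply hrho (M.o h) _ b hb
        intro b' hb'
        have hb'S := hApS _ h1 hb'
        have hb'A := hApA _ h1 b' hb'
        have hadj := hm.2.2.2.2 b' hb'
        rw [Model.adj_AH hG hb'A hm.2.1] at hadj
        have := hmin b' hb'S hb'A
        omega)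
    have e2 := Finset.card_union_add_card_inter (Bz z) (Bz z')
    have e3 := card_Zf_le hG (z := z) hw (hApS _ hU) (hApA _ hU)
    have e4 := card_Zf_le hG (z := z') hw (hApS _ hI) (hApA _ hI)
    have hbad : Bad z (Bz z ∪ Bz z') := ⟨hU, h2, h3, by omega⟩
    exact Finset.subset_union_right.trans (hBzmax z hz _ hbad)
  -- the set of bad positions
  obtain ⟨Zs, hZs⟩ : ∃ Zs : Finset ℕ, ∀ z, z ∈ Zs ↔ ∃ B, Bad z B := by
    refine ⟨(Finset.range (M.o b1 + 1)).filter (fun z => ∃ B, Bad z B), fun z => ?_⟩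
    rw [Finset.mem_filter, Finset.mem_range]
    constructor
    · exact fun h => h.2
    · rintro ⟨B, hB⟩
      exact ⟨by have := hB.2.2.1; omega, B, hB⟩
  -- rank
  let r : ℕ → WithTop ℕ := fun z => (Bz z).inf (fun b => (M.c b : WithTop ℕ))
  have hr : ∀ z (n : ℕ), ((n : WithTop ℕ) < r z) ↔ ∀ b ∈ Bz z, n < M.c b := by
    intro z n
    have : ((n : WithTop ℕ) < r z) ↔ ∀ b ∈ Bz z, (n : WithTop ℕ) < (M.c b : WithTop ℕ) :=
      Finset.lt_inf_iff (WithTop.coe_lt_top n)
    rw [this]
    simp only [WithTop.coe_lt_coe, Nat.cast_lt]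
  have hrle : ∀ z z', r z ≤ r z' → (∀ n, (∀ b ∈ Bz z, n < M.c b) → ∀ b ∈ Bz z', n < M.c b) := by
    intro z z' hle n hn
    rw [← hr] at hn ⊢
    exact lt_of_lt_of_le hn hle
  by_cases hZe : Zs = ∅
  · apply finish hG hb1S hb2S hb1A hb2A hne21.symm ∅ (Finset.empty_subset _)
    · intro g hg
      simp at hg
    · intro K hKS hK hKw h1 h2
      exfalso
      obtain ⟨z, B, hB, _⟩ := hclass K hKS hK hKw h1 h2
      have := (hZs z).2 ⟨B, hB⟩
      rw [hZe] at this
      simp at this
  obtain ⟨u0, hu0, hu0min⟩ := Finset.exists_min_image Zs r (Finset.nonempty_iff_ne_empty.2 hZe)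
  obtain ⟨u, hu, humax⟩ := Finset.exists_max_image (Zs.filter (fun z => r z = r u0)) id
    ⟨u0, Finset.mem_filter.2 ⟨hu0, rfl⟩⟩
  rw [Finset.mem_filter] at hu
  have humin : ∀ z ∈ Zs, r u ≤ r z := fun z hz => by rw [hu.2]; exact hu0min z hz
  have hugt : ∀ z ∈ Zs, u < z → r u < r z := by
    intro z hz hlt
    refine lt_of_le_of_ne (humin z hz) (fun he => ?_)
    have := humax z (Finset.mem_filter.2 ⟨hz, by rw [← he, hu.2]⟩)
    simp only [id] at this
    omega
  have huZ := (hZs u).1 hu.1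
  by_cases hBe : Bz u = ∅
  · -- all maximal sets are empty
    have hall : ∀ z ∈ Zs, Bz z = ∅ := by
      intro z hz
      have h1 := hrle u z (humin z hz)
      rw [Finset.eq_empty_iff_forall_notMem]
      intro b hb
      have := h1 (M.c b) (by rw [hBe]; simp) b hb
      omega
    apply finish hG hb1S hb2S hb1A hb2A hne21.symm
      (S.filter (fun g => M.IsH g ∧ M.c b2 < M.o g ∧ M.c g < M.o b2)) (Finset.filter_subset _ _)
    · intro g hg
      rw [Finset.mem_filter] at hg
      exact ⟨hg.2.1, by omega, hg.2.2.1, hg.2.2.2⟩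
    · intro K hKS hK hKw h1 h2
      obtain ⟨z, B, hB, _, _, hZK, hpos⟩ := hclass K hKS hK hKw h1 h2
      obtain ⟨y, hy, hyH, hy1, hy2⟩ := exists_inside hG hw hKS hK hKw hb2S hb2A h2
      have hzZ : z ∈ Zs := (hZs z).2 ⟨B, hB⟩
      have hBem : B = ∅ := by
        have := hBzmax z ⟨B, hB⟩ B hB
        rw [hall z hzZ] at this
        exact Finset.subset_empty.1 this
      refine ⟨z, ?_, ⟨y, Finset.mem_filter.2 ⟨hKS hy, hyH, hy1, hy2⟩, hpos y hy hyH⟩, hB.2.2.1⟩
      intro h hh hhH ho hc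
      apply hZK
      rw [mem_Zf, hBem]
      exact ⟨hh, hhH, ho, hc, by simp⟩
  · -- two arcs hit everything
    obtain ⟨hu1, hu2, hu3, hu4⟩ := hBz u huZ
    have hKuS : Bz u ∪ Zf M G S (Bz u) u ⊆ S := by
      apply Finset.union_subset (hApS _ hu1)
      intro x hx
      exact (mem_Zf.1 hx).1
    have hKuc : Clq G (Bz u ∪ Zf M G S (Bz u) u) := clq_Zf hG (hApA _ hu1)
    have hKuw : (Bz u ∪ Zf M G S (Bz u) u).card = w := by
      rw [Finset.card_union_of_disjoint (disj_Zf (hApA _ hu1))]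
      exact hu4
    have hnot : ∀ b, M.IsA b → b ∉ Bz u → b ∉ Bz u ∪ Zf M G S (Bz u) u := by
      intro b hbA hb hc
      rcases Finset.mem_union.1 hc with hc | hc
      · exact hb hc
      · have e1 := (mem_Zf.1 hc).2.1
        unfold Model.IsH at e1
        unfold Model.IsA at hbA
        omega
    obtain ⟨a, ha, haH, ha1, ha2⟩ := exists_inside hG hw hKuS hKuc hKuw hb1S hb1A
      (hnot b1 hb1A (fun hc => ((hAp b1).1 (hu1 hc)).2.2.1 rfl))
    obtain ⟨d, hd, hdH, hd1, hd2⟩ := exists_inside hG hw hKuS hKuc hKuw hb2S hb2A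
      (hnot b2 hb2A (fun hc => ((hAp b2).1 (hu1 hc)).2.2.2 rfl))
    have hH : ∀ x, x ∈ Bz u ∪ Zf M G S (Bz u) u → M.IsH x → x ∈ Zf M G S (Bz u) u := by
      intro x hx hxH
      rcases Finset.mem_union.1 hx with hc | hc
      · have e1 := hApA _ hu1 x hc
        unfold Model.IsH at hxH
        unfold Model.IsA at e1
        omega
      · exact hc
    have haZ := mem_Zf.1 (hH a ha haH)
    have hdZ := mem_Zf.1 (hH d hd hdH)
    obtain ⟨b0, hb0⟩ := Finset.nonempty_iff_ne_empty.2 hBe
    have hb0S := hApS _ hu1 hb0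
    have hb0A := hApA _ hu1 b0 hb0
    have hb0ne := ((hAp b0).1 (hu1 hb0)).2.2
    have hb0c := hmax b0 hb0S hb0A hb0ne.1
    -- a meets every arc of Bz u by its start
    have haB : ∀ b ∈ Bz u, M.o a < M.c b := by
      intro b hb
      have hadj := haZ.2.2.2.2 b hb
      rw [Model.adj_AH hG (hApA _ hu1 b hb) haH] at hadj
      have := hmin b (hApS _ hu1 hb) (hApA _ hu1 b hb)
      omega
    have hdB : ∀ b ∈ Bz u, M.o b < M.c d := by
      intro b hb
      have hadj := hdZ.2.2.2.2 b hb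
      rw [Model.adj_AH hG (hApA _ hu1 b hb) hdH] at hadj
      have := hmax b (hApS _ hu1 hb) (hApA _ hu1 b hb) ((hAp b).1 (hu1 hb)).2.2.1
      omega
    refine ⟨{b1, a}, {b2, d}, ?_, ?_, ?_, ?_, ⟨b1, by simp, b2, by simp, hne21.symm, hb1A, hb2A⟩, ?_⟩
    · intro x hx
      rw [Finset.mem_insert, Finset.mem_singleton] at hx
      rcases hx with rfl | rfl
      · exact hb1S
      · exact haZ.1
    · intro x hx
      rw [Finset.mem_insert, Finset.mem_singleton] at hx
      rcases hx with rfl | rfl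
      · exact hb2S
      · exact hdZ.1
    · have key : ¬ G.Adj b1 a := by
        rw [Model.adj_AH hG hb1A haH]
        omega
      intro x hx y hy
      rw [Finset.mem_insert, Finset.mem_singleton] at hx hy
      rcases hx with rfl | rfl <;> rcases hy with rfl | rfl
      · exact G.loopless.irrefl _
      · exact key
      · exact fun h => key h.symm
      · exact G.loopless.irrefl _
    · have key : ¬ G.Adj b2 d := by
        rw [Model.adj_AH hG hb2A hdH]
        omega
      intro x hx y hy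
      rw [Finset.mem_insert, Finset.mem_singleton] at hx hy
      rcases hx with rfl | rfl <;> rcases hy with rfl | rfl
      · exact G.loopless.irrefl _
      · exact key
      · exact fun h => key h.symm
      · exact G.loopless.irrefl _
    · intro K hKS hK hKw
      by_cases h1 : b1 ∈ K
      · exact ⟨b1, h1, by simp⟩
      by_cases h2 : b2 ∈ K
      · exact ⟨b2, h2, by simp⟩
      obtain ⟨z, B, hB, _, _, hZK, _⟩ := hclass K hKS hK hKw h1 h2
      have hzZ : z ∈ Zs := (hZs z).2 ⟨B, hB⟩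
      have hBsub : B ⊆ Bz z := hBzmax z ⟨B, hB⟩ B hB
      have hmono : ∀ x, x ∈ Zf M G S (Bz z) z → x ∈ K := by
        intro x hx
        apply hZK
        rw [mem_Zf] at hx ⊢
        exact ⟨hx.1, hx.2.1, hx.2.2.1, hx.2.2.2.1, fun b hb => hx.2.2.2.2 b (hBsub hb)⟩
      obtain ⟨hz1, hz2, hz3, hz4⟩ := hBz z ⟨B, hB⟩
      by_cases hzu : z ≤ u
      · refine ⟨a, hmono a ?_, by simp⟩
        rw [mem_Zf]
        have e1 := haB b0 hb0
        refine ⟨haZ.1, haH, by omega, by omega, fun b hb => ?_⟩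
        rw [Model.adj_AH hG (hApA _ hz1 b hb) haH]
        left
        exact hrle u z (humin z hzZ) (M.o a) haB b hb
      · push Not at hzu
        have hsub : Bz z ⊆ Bz u := huncross u z hzu huZ ⟨B, hB⟩
          (hrle u z (le_of_lt (hugt z hzZ hzu)))
        refine ⟨d, hmono d ?_, by simp⟩
        rw [mem_Zf]
        have e1 := hdB b0 hb0
        have e2 := hmin b0 hb0S hb0A
        exact ⟨hdZ.1, hdH, by omega, by omega, fun b hb => hdZ.2.2.2.2 b (hsub hb)⟩

/-! ### The colouring theorem -/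

/-- interval families: the clique bound is enough -/
theorem interval_col (hG : M.IsModelOf G) (w : ℕ) (S : Finset V) :
    (∀ v ∈ S, M.IsH v) → (∀ K ⊆ S, Clq G K → K.card ≤ w) → ColOn G S w := by
  refine Finset.induction_on_max_value (fun v => M.o v)
    (motive := fun S => (∀ v ∈ S, M.IsH v) → (∀ K ⊆ S, Clq G K → K.card ≤ w) → ColOn G S w) S ?_ ?_
  · intro _ _
    exact ⟨fun _ => 0, fun v hv => by simp at hv, fun v hv => by simp at hv⟩
  · intro a s ha hmax ih hH hw
    obtain ⟨φ, h1, h2⟩ := ih (fun v hv => hH v (Finset.mem_insert_of_mem hv))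
      (fun K hK => hw K (hK.trans (Finset.subset_insert _ _)))
    have haH := hH a (Finset.mem_insert_self _ _)
    have hcl : Clq G (insert a (s.filter (fun v => G.Adj a v))) := by
      have hpos : ∀ v ∈ s.filter (fun v => G.Adj a v), M.o a < M.c v ∧ M.o v < M.o a + 1 ∧
          M.IsH v := by
        intro v hv
        rw [Finset.mem_filter] at hv
        have hvH := hH v (Finset.mem_insert_of_mem hv.1)
        have := (Model.adj_HH hG haH hvH).1 hv.2
        have h3 := hmax v hv.1
        exact ⟨by omega, by omega, hvH⟩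
      intro u hu v hv huv
      rcases Finset.mem_insert.1 hu with hu1 | hu1
      · rcases Finset.mem_insert.1 hv with hv1 | hv1
        · exact absurd (hu1.trans hv1.symm) huv
        · rw [hu1]; exact (Finset.mem_filter.1 hv1).2
      · rcases Finset.mem_insert.1 hv with hv1 | hv1
        · rw [hv1]; exact (Finset.mem_filter.1 hu1).2.symm
        · have e1 := hpos u hu1
          have e2 := hpos v hv1
          rw [Model.adj_HH hG e1.2.2 e2.2.2]
          exact ⟨huv, by omega, by omega⟩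
    have hcard := hw _ (Finset.insert_subset_insert a (Finset.filter_subset _ _)) hcl
    rw [Finset.card_insert_of_notMem (fun hc => ha (Finset.mem_filter.1 hc).1)] at hcard
    obtain ⟨c, hc1, hc2⟩ : ∃ c ∈ Finset.range w, c ∉ (s.filter (fun v => G.Adj a v)).image φ := by
      apply Finset.exists_mem_notMem_of_card_lt_card
      rw [Finset.card_range]
      exact lt_of_le_of_lt Finset.card_image_le (by omega)
    rw [Finset.mem_range] at hc1
    refine ⟨fun v => if v = a then c else φ v, ?_, ?_⟩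
    · intro v hv
      by_cases hva : v = a
      · simp only [hva, if_true]; exact hc1
      · simp only [hva, if_false]
        exact h1 v (Finset.mem_of_mem_insert_of_ne hv hva)
    · intro u hu v hv huv
      by_cases hua : u = a
      · by_cases hva : v = a
        · rw [hua, hva] at huv
          exact absurd huv (G.loopless.irrefl _)
        · simp only [hua, hva, if_true, if_false]
          intro he
          apply hc2
          rw [Finset.mem_image]
          refine ⟨v, Finset.mem_filter.2 ⟨Finset.mem_of_mem_insert_of_ne hv hva, ?_⟩, he.symm⟩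
          rw [← hua]; exact huv
      · by_cases hva : v = a
        · simp only [hua, hva, if_true, if_false]
          intro he
          apply hc2
          rw [Finset.mem_image]
          refine ⟨u, Finset.mem_filter.2 ⟨Finset.mem_of_mem_insert_of_ne hu hua, ?_⟩, he⟩
          rw [← hva]; exact huv.symm
        · simp only [hua, hva, if_false]
          exact h2 u (Finset.mem_of_mem_insert_of_ne hu hua) v
            (Finset.mem_of_mem_insert_of_ne hv hva) huv

/-- adding a stable set costs one colour -/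
theorem colOn_add {S I : Finset V} {m : ℕ} (hI : Stb G I) (h : ColOn G (S \ I) m) :
    ColOn G S (m + 1) := by
  obtain ⟨φ, h1, h2⟩ := h
  refine ⟨fun v => if v ∈ I then m else φ v, ?_, ?_⟩
  · intro v hv
    by_cases hvI : v ∈ I
    · simp only [hvI, if_true]; omega
    · simp only [hvI, if_false]
      have := h1 v (Finset.mem_sdiff.2 ⟨hv, hvI⟩)
      omega
  · intro u hu v hv huv
    by_cases huI : u ∈ I
    · by_cases hvI : v ∈ I
      · exact absurd huv (hI u huI v hvI)
      · simp only [huI, hvI, if_true, if_false]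
        have := h1 v (Finset.mem_sdiff.2 ⟨hv, hvI⟩)
        omega
    · by_cases hvI : v ∈ I
      · simp only [huI, hvI, if_true, if_false]
        have := h1 u (Finset.mem_sdiff.2 ⟨hu, huI⟩)
        omega
      · simp only [huI, hvI, if_false]
        exact h2 u (Finset.mem_sdiff.2 ⟨hu, huI⟩) v (Finset.mem_sdiff.2 ⟨hv, hvI⟩) huv

/-- **GU**: if all cliques in `S` have at most `w` elements, then `S` can be coloured with
`w + ⌈|A ∩ S| / 2⌉` colours, `A` the arcs through position `0`. -/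
theorem gu_aux (hG : M.IsModelOf G) : ∀ n : ℕ, ∀ (S : Finset V) (w : ℕ),
    (S.filter (fun v => M.IsA v)).card = n → (∀ K ⊆ S, Clq G K → K.card ≤ w) →
    ColOn G S (w + (n + 1) / 2) := by
  intro n
  induction n using Nat.strong_induction_on with
  | _ n ih =>
    intro S w hn hw
    rcases Nat.lt_or_ge n 2 with hn2 | hn2
    · -- at most one arc through 0
      have hst : Stb G (S.filter (fun v => M.IsA v)) := by
        intro u hu v hv huv
        have h1 : (S.filter (fun v => M.IsA v)).card ≤ 1 := by omega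
        have h2 := Finset.card_le_one.1 h1 u hu v hv
        rw [h2] at huv
        exact G.loopless.irrefl _ huv
      have hrest : ColOn G (S \ S.filter (fun v => M.IsA v)) w := by
        apply interval_col hG w
        · intro v hv
          rw [Finset.mem_sdiff, Finset.mem_filter] at hv
          rw [← M.not_isA]
          exact fun h => hv.2 ⟨hv.1, h⟩
        · intro K hK
          exact hw K (hK.trans Finset.sdiff_subset)
      rcases Nat.eq_zero_or_pos n with h0 | h0
      · have he : S.filter (fun v => M.IsA v) = ∅ := Finset.card_eq_zero.1 (by omega)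
        rw [he, Finset.sdiff_empty] at hrest
        exact hrest.mono (by omega)
      · exact (colOn_add hst hrest).mono (by omega)
    · obtain ⟨I1, I2, hI1, hI2, hs1, hs2, ⟨b1, hb1, b2, hb2, hne, hb1A, hb2A⟩, hhit⟩ :=
        hit hG hw (by omega)
      have hw1 : 1 ≤ w := by
        have := hw {b1} (by
          intro x hx
          rw [Finset.mem_singleton] at hx
          rw [hx]; exact hI1 hb1) (by
          intro u hu v hv huv
          rw [Finset.mem_singleton] at hu hv
          exact absurd (hu.trans hv.symm) huv)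
        simpa using this
      have hcard : ((S \ (I1 ∪ I2)).filter (fun v => M.IsA v)).card + 2 ≤ n := by
        have hsub : (S \ (I1 ∪ I2)).filter (fun v => M.IsA v) ⊆
            ((S.filter (fun v => M.IsA v)).erase b1).erase b2 := by
          intro x hx
          rw [Finset.mem_filter, Finset.mem_sdiff, Finset.mem_union, not_or] at hx
          rw [Finset.mem_erase, Finset.mem_erase, Finset.mem_filter]
          exact ⟨fun he => hx.1.2.2 (he ▸ hb2), fun he => hx.1.2.1 (he ▸ hb1), hx.1.1, hx.2⟩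
        have h1 := Finset.card_le_card hsub
        have hm1 : b1 ∈ S.filter (fun v => M.IsA v) := Finset.mem_filter.2 ⟨hI1 hb1, hb1A⟩
        have hm2 : b2 ∈ (S.filter (fun v => M.IsA v)).erase b1 :=
          Finset.mem_erase.2 ⟨hne.symm, Finset.mem_filter.2 ⟨hI2 hb2, hb2A⟩⟩
        rw [Finset.card_erase_of_mem hm2, Finset.card_erase_of_mem hm1, hn] at h1
        omega
      have hrec := ih _ (by omega) (S \ (I1 ∪ I2)) (w - 1) rfl (by
        intro K hK hKc
        have h1 := hw K (hK.trans Finset.sdiff_subset) hKc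
        by_contra hc
        obtain ⟨x, hx, hx'⟩ := hhit K (hK.trans Finset.sdiff_subset) hKc (by omega)
        exact (Finset.mem_sdiff.1 (hK hx)).2 hx')
      have e1 : S \ (I1 ∪ I2) = (S \ I2) \ I1 := by
        ext x
        simp only [Finset.mem_sdiff, Finset.mem_union, not_or]
        tauto
      rw [e1] at hrec
      exact (colOn_add hs2 (colOn_add hs1 hrec)).mono (by rw [← e1]; omega)

/-- **GU** for a subfamily `S`. -/
theorem gu (hG : M.IsModelOf G) {S : Finset V} {w : ℕ} (hw : ∀ K ⊆ S, Clq G K → K.card ≤ w) :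
    ColOn G S (w + ((S.filter (fun v => M.IsA v)).card + 1) / 2) :=
  gu_aux hG _ S w rfl hw

/-- **GU**: if all cliques have at most `w` elements, then `G` can be coloured with
`w + ⌈|A| / 2⌉` colours, `A` the arcs through position `0`. -/
theorem gu_univ (hG : M.IsModelOf G) {w : ℕ} (hw : ∀ K : Finset V, Clq G K → K.card ≤ w) :
    ColOn G univ (w + (M.A.card + 1) / 2) := by
  have := gu hG (S := univ) (w := w) (fun K _ => hw K)
  exact this

end Pool.Agent.CA
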