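import Mathlib

/-!
A permutation `π` of a finite set moving every point to a neighbour (or fixing it), any two of whose
odd cycles are joined by an edge: if the set is even then it has a perfect matching.
-/

set_option autoImplicit false

namespace Pool.Agent.CA

open Finset
open scoped Classical

/-- `S` has a perfect matching by pairs in the relation `adj` -/
def PMat {α : Type} (adj : α → α → Prop) (S : Finset α) : Prop :=
  ∃ g : α → α, ∀ x ∈ S, g x ∈ S ∧ g (g x) = x ∧ g x ≠ x ∧ adj x (g x)

theorem PMat.empty {α : Type} (adj : α → α → Prop) : PMat adj ∅ :=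
  ⟨id, fun x hx => absurd hx (Finset.notMem_empty x)⟩

theorem PMat.union {α : Type} {adj : α → α → Prop} {S T : Finset α} (hS : PMat adj S)
    (hT : PMat adj T) (hd : Disjoint S T) : PMat adj (S ∪ T) := by
  obtain ⟨g, hg⟩ := hS
  obtain ⟨h, hh⟩ := hT
  have hTS : ∀ x ∈ T, x ∉ S := fun x hx hx' => (Finset.disjoint_left.1 hd) hx' hx
  refine ⟨fun x => if x ∈ S then g x else h x, ?_⟩
  intro x hx
  by_cases hxS : x ∈ S
  · obtain ⟨h1, h2, h3, h4⟩ := hg x hxS
    simp only [if_pos hxS, if_pos h1]
    exact ⟨Finset.mem_union_left _ h1, h2, h3, h4⟩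
  · have hxT : x ∈ T := by
      rcases Finset.mem_union.1 hx with h | h
      · exact absurd h hxS
      · exact h
    obtain ⟨h1, h2, h3, h4⟩ := hh x hxT
    simp only [if_neg hxS, if_neg (hTS _ h1)]
    exact ⟨Finset.mem_union_right _ h1, h2, h3, h4⟩

theorem PMat.pair {α : Type} {adj : α → α → Prop} (hsym : ∀ x y, adj x y → adj y x) {x y : α}
    (hne : x ≠ y) (h : adj x y) : PMat adj {x, y} := by
  refine ⟨fun z => if z = x then y else x, ?_⟩
  intro z hz
  rw [Finset.mem_insert, Finset.mem_singleton] at hz
  rcases hz with rfl | rfl
  · simp [hne.symm, h]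
  · simp [hne.symm, hne, hsym _ _ h]

theorem PMat.path {α : Type} {adj : α → α → Prop} (hsym : ∀ x y, adj x y → adj y x) (f : ℕ → α)
    (m : ℕ) (hinj : ∀ i < 2 * m, ∀ j < 2 * m, f i = f j → i = j)
    (hadj : ∀ j < m, adj (f (2 * j)) (f (2 * j + 1))) :
    PMat adj ((Finset.range (2 * m)).image f) := by
  induction m with
  | zero => simpa using PMat.empty adj
  | succ m ih =>
    have h1 : (Finset.range (2 * (m + 1))).image f
        = (Finset.range (2 * m)).image f ∪ {f (2 * m), f (2 * m + 1)} := by
      ext z
      simp only [Finset.mem_image, Finset.mem_range, Finset.mem_union, Finset.mem_insert,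
        Finset.mem_singleton]
      constructor
      · rintro ⟨i, hi, rfl⟩
        by_cases h : i < 2 * m
        · exact Or.inl ⟨i, h, rfl⟩
        · have : i = 2 * m ∨ i = 2 * m + 1 := by omega
          rcases this with rfl | rfl
          · exact Or.inr (Or.inl rfl)
          · exact Or.inr (Or.inr rfl)
      · rintro (⟨i, hi, rfl⟩ | rfl | rfl)
        · exact ⟨i, by omega, rfl⟩
        · exact ⟨2 * m, by omega, rfl⟩
        · exact ⟨2 * m + 1, by omega, rfl⟩
    rw [h1]
    refine PMat.union (ih (fun i hi j hj => hinj i (by omega) j (by omega))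
      (fun j hj => hadj j (by omega))) ?_ ?_
    · refine PMat.pair hsym (fun he => ?_) (hadj m (by omega))
      have := hinj (2 * m) (by omega) (2 * m + 1) (by omega) he
      omega
    · rw [Finset.disjoint_left]
      intro z hz hz'
      rw [Finset.mem_image] at hz
      obtain ⟨i, hi, rfl⟩ := hz
      rw [Finset.mem_range] at hi
      rw [Finset.mem_insert, Finset.mem_singleton] at hz'
      rcases hz' with h | h
      · have := hinj i (by omega) (2 * m) (by omega) h
        omega
      · have := hinj i (by omega) (2 * m + 1) (by omega) h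
        omega

section perm

variable {α : Type} [Fintype α]

/-- the length of the cycle of `x` -/
noncomputable def pl (π : Equiv.Perm α) (x : α) : ℕ := Function.minimalPeriod π x

/-- the cycle of `x` -/
noncomputable def orb (π : Equiv.Perm α) (x : α) : Finset α :=
  (Finset.range (pl π x)).image (fun i => (π^[i]) x)

theorem pl_pos (π : Equiv.Perm α) (x : α) : 0 < pl π x := by
  apply Function.minimalPeriod_pos_of_mem_periodicPts
  exact (π.injective.mem_periodicPts) x

theorem it_inj (π : Equiv.Perm α) (x : α) {i j : ℕ} (hi : i < pl π x) (hj : j < pl π x)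
    (h : (π^[i]) x = (π^[j]) x) : i = j :=
  (Function.iterate_injOn_Iio_minimalPeriod) hi hj h

theorem it_pl (π : Equiv.Perm α) (x : α) : (π^[pl π x]) x = x :=
  Function.iterate_minimalPeriod

theorem card_orb (π : Equiv.Perm α) (x : α) : (orb π x).card = pl π x := by
  rw [orb, Finset.card_image_of_injOn, Finset.card_range]
  intro i hi j hj h
  exact it_inj π x (by simpa using hi) (by simpa using hj) h

theorem mem_orb {π : Equiv.Perm α} {x y : α} : y ∈ orb π x ↔ ∃ i : ℕ, (π^[i]) x = y := by
  constructor
  · intro h
    rw [orb, Finset.mem_image] at h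
    obtain ⟨i, -, h⟩ := h
    exact ⟨i, h⟩
  · rintro ⟨i, rfl⟩
    rw [orb, Finset.mem_image]
    refine ⟨i % pl π x, ?_, ?_⟩
    · rw [Finset.mem_range]
      exact Nat.mod_lt _ (pl_pos π x)
    · exact Function.iterate_mod_minimalPeriod_eq

theorem self_mem_orb (π : Equiv.Perm α) (x : α) : x ∈ orb π x := mem_orb.2 ⟨0, rfl⟩

theorem map_mem_orb {π : Equiv.Perm α} {x y : α} (h : y ∈ orb π x) : π y ∈ orb π x := by
  obtain ⟨i, rfl⟩ := mem_orb.1 h
  exact mem_orb.2 ⟨i + 1, by rw [Function.iterate_succ_apply']⟩

theorem mem_orb_symm {π : Equiv.Perm α} {x y : α} (h : y ∈ orb π x) : x ∈ orb π y := by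
  rw [orb, Finset.mem_image] at h
  obtain ⟨i, hi, rfl⟩ := h
  rw [Finset.mem_range] at hi
  refine mem_orb.2 ⟨pl π x - i, ?_⟩
  rw [← Function.iterate_add_apply, Nat.sub_add_cancel hi.le]
  exact it_pl π x

theorem mem_orb_trans {π : Equiv.Perm α} {x y z : α} (h : y ∈ orb π x) (h' : z ∈ orb π y) :
    z ∈ orb π x := by
  obtain ⟨i, rfl⟩ := mem_orb.1 h
  obtain ⟨j, rfl⟩ := mem_orb.1 h'
  exact mem_orb.2 ⟨j + i, Function.iterate_add_apply _ _ _ _⟩

theorem mem_orb_of_map {π : Equiv.Perm α} {x y : α} (h : π y ∈ orb π x) : y ∈ orb π x := by
  have h1 : y ∈ orb π (π y) := mem_orb_symm (map_mem_orb (self_mem_orb π y))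
  exact mem_orb_trans h h1

theorem orb_eq {π : Equiv.Perm α} {x y : α} (h : y ∈ orb π x) : orb π y = orb π x := by
  ext z
  exact ⟨fun hz => mem_orb_trans h hz, fun hz => mem_orb_trans (mem_orb_symm h) hz⟩

variable {adj : α → α → Prop} {π : Equiv.Perm α}

/-- even cycles have a perfect matching -/
theorem PMat.even_orb (hsym : ∀ x y, adj x y → adj y x) (hπ : ∀ x, adj x (π x) ∨ π x = x) {x : α}
    (he : Even (pl π x)) : PMat adj (orb π x) := by
  obtain ⟨m, hm⟩ := he
  have hp := pl_pos π x
  have h2 : pl π x = 2 * m := by omega
  have := PMat.path hsym (fun i => (π^[i]) x) m (fun i hi j hj h => it_inj π x (by omega)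
    (by omega) h) ?_
  · rw [orb, h2]
    exact this
  · intro j hj
    show adj ((π^[2 * j]) x) ((π^[2 * j + 1]) x)
    rw [Function.iterate_succ_apply']
    rcases hπ ((π^[2 * j]) x) with h | h
    · exact h
    · exfalso
      have h3 : (π^[2 * j + 1]) x = (π^[2 * j]) x := by rw [Function.iterate_succ_apply', h]
      have := it_inj π x (by omega) (by omega) h3
      omega

/-- odd cycles without one point have a perfect matching -/
theorem PMat.odd_orb (hsym : ∀ x y, adj x y → adj y x) (hπ : ∀ x, adj x (π x) ∨ π x = x) {x : α}
    (he : Odd (pl π x)) : PMat adj ((orb π x).erase x) := by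
  obtain ⟨m, hm⟩ := he
  have hp := pl_pos π x
  have := PMat.path hsym (fun i => (π^[i + 1]) x) m (fun i hi j hj h => by
    have := it_inj π x (i := i + 1) (j := j + 1) (by omega) (by omega) h
    omega) ?_
  · have h3 : (orb π x).erase x = (Finset.range (2 * m)).image (fun i => (π^[i + 1]) x) := by
      ext z
      rw [Finset.mem_erase, orb, Finset.mem_image, Finset.mem_image]
      constructor
      · rintro ⟨h1, i, hi, rfl⟩
        rw [Finset.mem_range] at hi
        have hi0 : i ≠ 0 := by
          rintro rfl
          exact h1 rfl
        refine ⟨i - 1, by rw [Finset.mem_range]; omega, ?_⟩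
        show (π^[i - 1 + 1]) x = _
        rw [Nat.sub_add_cancel (by omega)]
      · rintro ⟨i, hi, rfl⟩
        rw [Finset.mem_range] at hi
        refine ⟨?_, i + 1, by rw [Finset.mem_range]; omega, rfl⟩
        intro h
        have := it_inj π x (i := i + 1) (j := 0) (by omega) (by omega) h
        omega
    rw [h3]
    exact this
  · intro j hj
    show adj ((π^[2 * j + 1]) x) ((π^[2 * j + 1 + 1]) x)
    rw [Function.iterate_succ_apply' _ (2 * j + 1)]
    rcases hπ ((π^[2 * j + 1]) x) with h | h
    · exact h
    · exfalso
      have h3 : (π^[2 * j + 1 + 1]) x = (π^[2 * j + 1]) x := by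
        rw [Function.iterate_succ_apply', h]
      have h4 := π.injective (a₁ := (π^[2 * j + 1]) x) (a₂ := (π^[2 * j]) x) (by
        rw [h, Function.iterate_succ_apply'])
      have := it_inj π x (i := 2 * j + 1) (j := 2 * j) (by omega) (by omega) h4
      omega

/-- the main lemma -/
theorem perm_matching (hsym : ∀ x y, adj x y → adj y x) (hπ : ∀ x, adj x (π x) ∨ π x = x)
    (hodd : ∀ x y, y ∉ orb π x → Odd (pl π x) → Odd (pl π y) →
      ∃ x' ∈ orb π x, ∃ y' ∈ orb π y, adj x' y') (heven : Even (Fintype.card α)) :
    ∃ g : α → α, ∀ x, g (g x) = x ∧ g x ≠ x ∧ adj x (g x) := by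
  have main : ∀ n : ℕ, ∀ S : Finset α, S.card = n → (∀ x ∈ S, π x ∈ S) →
      (Even S.card → PMat adj S) ∧
        (Odd S.card → ∃ x ∈ S, Odd (pl π x) ∧ PMat adj (S \ orb π x)) := by
    intro n
    induction n using Nat.strong_induction_on with
    | _ n ih =>
      intro S hS hinv
      rcases S.eq_empty_or_nonempty with hemp | ⟨x, hx⟩
      · subst hemp
        refine ⟨fun _ => PMat.empty adj, fun h => ?_⟩
        simp at h
      have horb : ∀ y ∈ S, orb π y ⊆ S := by
        intro y hy z hz
        obtain ⟨i, rfl⟩ := mem_orb.1 hz
        induction i with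
        | zero => exact hy
        | succ i ih' =>
          rw [Function.iterate_succ_apply']
          exact hinv _ (ih' (mem_orb.2 ⟨i, rfl⟩))
      have hcard : (S \ orb π x).card + pl π x = S.card := by
        rw [← card_orb, Finset.card_sdiff_add_card_eq_card (horb x hx)]
      have hlt : (S \ orb π x).card < n := by
        have := pl_pos π x
        omega
      have hinv' : ∀ y ∈ S \ orb π x, π y ∈ S \ orb π x := by
        intro y hy
        rw [Finset.mem_sdiff] at hy ⊢
        exact ⟨hinv y hy.1, fun h => hy.2 (mem_orb_of_map h)⟩
      obtain ⟨ih1, ih2⟩ := ih _ hlt (S \ orb π x) rfl hinv'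
      rcases Nat.even_or_odd (pl π x) with hpe | hpo
      · constructor
        · intro he
          have : Even (S \ orb π x).card := by
            rw [Nat.even_iff] at *
            omega
          have h3 := (PMat.even_orb hsym hπ hpe).union (ih1 this) Finset.disjoint_sdiff
          rwa [Finset.union_sdiff_of_subset (horb x hx)] at h3
        · intro ho
          have : Odd (S \ orb π x).card := by
            rw [Nat.odd_iff] at *
            rw [Nat.even_iff] at hpe
            omega
          obtain ⟨y, hy, hyo, hym⟩ := ih2 this
          rw [Finset.mem_sdiff] at hy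
          refine ⟨y, hy.1, hyo, ?_⟩
          have hd : Disjoint (orb π x) ((S \ orb π x) \ orb π y) := by
            rw [Finset.disjoint_left]
            intro z hz hz'
            rw [Finset.mem_sdiff, Finset.mem_sdiff] at hz'
            exact hz'.1.2 hz
          have h3 := (PMat.even_orb hsym hπ hpe).union hym hd
          have h4 : orb π x ∪ (S \ orb π x) \ orb π y = S \ orb π y := by
            ext z
            simp only [Finset.mem_union, Finset.mem_sdiff]
            constructor
            · rintro (h | h)
              · refine ⟨horb x hx h, fun h' => hy.2 ?_⟩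
                exact mem_orb_trans h (mem_orb_symm h')
              · exact ⟨h.1.1, h.2⟩
            · rintro ⟨h1, h2⟩
              by_cases h : z ∈ orb π x
              · exact Or.inl h
              · exact Or.inr ⟨⟨h1, h⟩, h2⟩
          rwa [h4] at h3
      · constructor
        · intro he
          have : Odd (S \ orb π x).card := by
            rw [Nat.odd_iff] at *
            rw [Nat.even_iff] at he
            omega
          obtain ⟨y, hy, hyo, hym⟩ := ih2 this
          rw [Finset.mem_sdiff] at hy
          obtain ⟨x', hx', y', hy', hadj⟩ := hodd x y hy.2 hpo hyo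
          have hxo : orb π x' = orb π x := orb_eq hx'
          have hyoo : orb π y' = orb π y := orb_eq hy'
          have hplx : pl π x' = pl π x := by rw [← card_orb, ← card_orb, hxo]
          have hply : pl π y' = pl π y := by rw [← card_orb, ← card_orb, hyoo]
          have hdisj : ∀ z, z ∈ orb π x → z ∉ orb π y := by
            intro z hz hz'
            exact hy.2 (mem_orb_trans hz (mem_orb_symm hz'))
          have hne : x' ≠ y' := by
            rintro rfl
            exact hdisj _ hx' hy'
          have p1 := PMat.odd_orb hsym hπ (x := x') (by rw [hplx]; exact hpo)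
          have p2 := PMat.odd_orb hsym hπ (x := y') (by rw [hply]; exact hyo)
          have p3 := PMat.pair hsym hne hadj
          rw [hxo] at p1
          rw [hyoo] at p2
          have q1 := p1.union p2 (by
            rw [Finset.disjoint_left]
            intro z hz hz'
            rw [Finset.mem_erase] at hz hz'
            exact hdisj z hz.2 hz'.2)
          have q2 := q1.union p3 (by
            rw [Finset.disjoint_left]
            intro z hz hz'
            rw [Finset.mem_union, Finset.mem_erase, Finset.mem_erase] at hz
            rw [Finset.mem_insert, Finset.mem_singleton] at hz'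
            rcases hz' with rfl | rfl
            · rcases hz with hz | hz
              · exact hz.1 rfl
              · exact hdisj _ hx' hz.2
            · rcases hz with hz | hz
              · exact hdisj _ hz.2 hy'
              · exact hz.1 rfl)
          have q3 := q2.union hym (by
            rw [Finset.disjoint_left]
            intro z hz hz'
            rw [Finset.mem_union, Finset.mem_union, Finset.mem_erase, Finset.mem_erase,
              Finset.mem_insert, Finset.mem_singleton] at hz
            rw [Finset.mem_sdiff, Finset.mem_sdiff] at hz'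
            rcases hz with (hz | hz) | rfl | rfl
            · exact hz'.1.2 hz.2
            · exact hz'.2 hz.2
            · exact hz'.1.2 hx'
            · exact hz'.2 hy')
          have h4 : (orb π x).erase x' ∪ (orb π y).erase y' ∪ {x', y'}
              ∪ (S \ orb π x) \ orb π y = S := by
            ext z
            simp only [Finset.mem_union, Finset.mem_sdiff, Finset.mem_erase, Finset.mem_insert,
              Finset.mem_singleton]
            constructor
            · rintro (((h | h) | h | h) | h)
              · exact horb x hx h.2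
              · exact horb y hy.1 h.2
              · rw [h]; exact horb x hx hx'
              · rw [h]; exact horb y hy.1 hy'
              · exact h.1.1
            · intro h
              by_cases h1 : z ∈ orb π x
              · by_cases h2 : z = x'
                · exact Or.inl (Or.inr (Or.inl h2))
                · exact Or.inl (Or.inl (Or.inl ⟨h2, h1⟩))
              · by_cases h3 : z ∈ orb π y
                · by_cases h2 : z = y'
                  · exact Or.inl (Or.inr (Or.inr h2))
                  · exact Or.inl (Or.inl (Or.inr ⟨h2, h3⟩))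
                · exact Or.inr ⟨⟨h, h1⟩, h3⟩
          rwa [h4] at q3
        · intro ho
          have : Even (S \ orb π x).card := by
            rw [Nat.odd_iff] at *
            rw [Nat.even_iff]
            omega
          exact ⟨x, hx, hpo, ih1 this⟩
  obtain ⟨h1, -⟩ := main _ Finset.univ rfl (fun x _ => Finset.mem_univ _)
  obtain ⟨g, hg⟩ := h1 (by simpa using heven)
  refine ⟨g, fun x => ?_⟩
  obtain ⟨-, h2, h3, h4⟩ := hg x (Finset.mem_univ x)
  exact ⟨h2, h3, h4⟩

end perm

end Pool.Agent.CA
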