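import Mathlib
import Pool.Agent.CA.PermMatch

/-!
The three-gap packing theorem, part 1 (assignment of the singles).

`V` are the arcs which contain at most one of three holes.  The gaps are numbered by `Fin 3`; hole
`i + 1` lies between gap `i` and gap `i + 1`.  The arc `x` starts in gap `gs x` at the event `o x`
and ends in gap `ge x` at the event `c x`.  An arc with `gs x = ge x` is free (it lies inside a gap),
an arc with `ge x = gs x + 1` is a single (it contains one hole).
-/

set_option autoImplicit false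

namespace Pool.Agent.CA

open Finset
open scoped Classical

/-- a three-gap system -/
structure Sys (V : Type) where
  gs : V → Fin 3
  ge : V → Fin 3
  o : V → ℕ
  c : V → ℕ
  ty : ∀ x, (gs x = ge x ∧ o x < c x) ∨ ge x = gs x + 1
  oc : ∀ x y, gs x = ge y → o x ≠ c y

namespace Sys

variable {V : Type} [Fintype V] (S : Sys V)

/-- `x` starts before `y` ends, in the same gap -/
def lk (x y : V) : Prop := S.gs x = S.ge y ∧ S.o x < S.c y

/-- the contribution of the arc `x` to the dual function at the six points `a i`, `b i` -/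
noncomputable def dl (a b : Fin 3 → ℕ) (x : V) : ℕ :=
  if S.gs x = S.ge x then
    (if S.o x < a (S.gs x) ∧ a (S.gs x) ≤ S.c x then 1 else 0) +
      (if S.o x < b (S.gs x) ∧ b (S.gs x) ≤ S.c x then 1 else 0)
  else
    (if S.o x < b (S.gs x) ∨ a (S.ge x) ≤ S.c x then 1 else 0) +
      (if S.o x < a (S.gs x) ∨ b (S.ge x) ≤ S.c x then 1 else 0)

/-- the dual function -/
noncomputable def D (a b : Fin 3 → ℕ) : ℕ := ∑ x, S.dl a b x

/-- free arcs -/
abbrev FF : Type := {x : V // S.gs x = S.ge x}

/-- singles -/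
abbrev TT : Type := {x : V // ¬ S.gs x = S.ge x}

/-- the vertices of the matching graph: two for a free arc, one for a single, `d` dummies -/
abbrev W (d : ℕ) : Type := (S.FF ⊕ S.FF) ⊕ (S.TT ⊕ Fin d)

/-- the start event of a vertex -/
def stv (d : ℕ) : S.W d → Option V
  | Sum.inl (Sum.inl f) => some f.1
  | Sum.inl (Sum.inr _) => none
  | Sum.inr (Sum.inl s) => some s.1
  | Sum.inr (Sum.inr _) => none

/-- the end event of a vertex -/
def env (d : ℕ) : S.W d → Option V
  | Sum.inl (Sum.inl _) => none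
  | Sum.inl (Sum.inr f) => some f.1
  | Sum.inr (Sum.inl s) => some s.1
  | Sum.inr (Sum.inr _) => none

/-- vertices of free arcs -/
def isF (d : ℕ) : S.W d → Prop
  | Sum.inl _ => True
  | Sum.inr _ => False

/-- dummies -/
def isD (d : ℕ) : S.W d → Prop
  | Sum.inl _ => False
  | Sum.inr (Sum.inl _) => False
  | Sum.inr (Sum.inr _) => True

def lkW (d : ℕ) (w w' : S.W d) : Prop :=
  ∃ x y, S.stv d w = some x ∧ S.env d w' = some y ∧ S.lk x y

def dum (d : ℕ) (w w' : S.W d) : Prop := w ≠ w' ∧ S.isD d w ∧ ¬ S.isF d w'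

/-- the matching graph -/
def adjW (d : ℕ) (w w' : S.W d) : Prop :=
  S.lkW d w w' ∨ S.lkW d w' w ∨ S.dum d w w' ∨ S.dum d w' w

variable {S} {d : ℕ}

theorem adjW_symm (w w' : S.W d) (h : S.adjW d w w') : S.adjW d w' w := by
  unfold adjW at *
  tauto

theorem FF.lt (f : S.FF) : S.o f.1 < S.c f.1 := by
  rcases S.ty f.1 with h | h
  · exact h.2
  · exfalso
    have := f.2
    rw [this] at h
    revert h
    generalize S.ge f.1 = i
    revert i
    decide

theorem TT.eq (s : S.TT) : S.ge s.1 = S.gs s.1 + 1 := by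
  rcases S.ty s.1 with h | h
  · exact absurd h.1 s.2
  · exact h

/-- minimum-type threshold -/
theorem exists_thr (P : ℕ → Prop) (N : ℕ) :
    ∃ a : ℕ, (∀ z, P z → a ≤ z) ∧ ∀ y, y < N → a ≤ y → ∃ z, z ≤ y ∧ P z := by
  by_cases h : ∃ z, P z
  · refine ⟨Nat.find h, fun z hz => Nat.find_min' h hz, fun y _ hy => ⟨_, hy, Nat.find_spec h⟩⟩
  · push Not at h
    exact ⟨N, fun z hz => absurd hz (h z), fun y hy hy' => by omega⟩

/-- maximum-type threshold -/
theorem exists_thr' (P : ℕ → Prop) (N : ℕ) (hP : ∀ z, P z → z < N) :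
    ∃ b : ℕ, (∀ z, P z → z < b) ∧ ∀ x, x < b → ∃ z, x ≤ z ∧ P z := by
  have h : ∃ b, ∀ z, P z → z < b := ⟨N, hP⟩
  refine ⟨Nat.find h, Nat.find_spec h, fun x hx => ?_⟩
  have := Nat.find_min h hx
  push Not at this
  obtain ⟨z, hz, hz'⟩ := this
  exact ⟨z, hz', hz⟩

/-- the swap of the two vertices of a free arc -/
def sw (d : ℕ) (w : S.W d) : S.W d := Sum.map Sum.swap id w

theorem sw_inj : Function.Injective (S.sw d) := by
  intro w w' h
  have h2 := congrArg (S.sw d) h
  simp only [sw, Sum.map_map] at h2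
  rcases w with (f | f) | w <;> rcases w' with (f' | f') | w' <;> simp_all [sw]

theorem hall (hd : ∀ a b, Fintype.card S.TT ≤ d + S.D a b) (Q : Finset (S.W d)) :
    Q.card ≤ (Q.biUnion (fun w => univ.filter (fun w' => S.adjW d w w' ∨ (w = w' ∧ S.isD d w)))).card := by
  set N := Q.biUnion (fun w => univ.filter (fun w' => S.adjW d w w' ∨ (w = w' ∧ S.isD d w))) with hN
  have hmem : ∀ w', w' ∈ N ↔ ∃ w ∈ Q, S.adjW d w w' ∨ (w = w' ∧ S.isD d w) := by
    intro w'
    rw [hN, Finset.mem_biUnion]
    simp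
  by_cases hcase : (∃ w ∈ Q, S.isD d w) ∨ ∀ s : S.TT, (Sum.inr (Sum.inl s) : S.W d) ∉ Q
  · -- the swap is an injection
    refine Finset.card_le_card_of_injOn (S.sw d) ?_ (fun x _ y _ h => sw_inj h)
    intro w hw
    have hw : w ∈ Q := hw
    show S.sw d w ∈ N
    rw [hmem]
    rcases w with (f | f) | (s | j)
    · refine ⟨_, hw, Or.inl (Or.inl ⟨f.1, f.1, rfl, rfl, f.2, f.lt⟩)⟩
    · refine ⟨_, hw, Or.inl (Or.inr (Or.inl ⟨f.1, f.1, rfl, rfl, f.2, f.lt⟩))⟩
    · rcases hcase with ⟨w', hw', hD'⟩ | h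
      · refine ⟨w', hw', Or.inl (Or.inr (Or.inr (Or.inl ⟨?_, hD', ?_⟩)))⟩
        · rintro rfl
          exact hD'
        · exact fun h => h
      · exact absurd hw (h s)
    · exact ⟨_, hw, Or.inr ⟨rfl, trivial⟩⟩
  · push Not at hcase
    obtain ⟨hnd, s0, hs0⟩ := hcase
    -- bounds for the events
    obtain ⟨Nb, hNb⟩ : ∃ Nb, ∀ x, S.c x < Nb := by
      refine ⟨univ.sup S.c + 1, fun x => ?_⟩
      have := Finset.le_sup (f := S.c) (Finset.mem_univ x)
      omega
    have hα := fun i : Fin 3 => exists_thr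
      (fun z => ∃ w ∈ Q, ∃ x, S.stv d w = some x ∧ S.gs x = i ∧ S.o x = z) Nb
    have hβ := fun i : Fin 3 => exists_thr'
      (fun z => ∃ w ∈ Q, ∃ x, S.env d w = some x ∧ S.ge x = i ∧ S.c x = z) Nb (by
        rintro z ⟨w, -, x, -, -, rfl⟩
        exact hNb x)
    choose α hα1 hα2 using hα
    choose β hβ1 hβ2 using hβ
    have hDαβ := hd α β
    -- the four facts
    have k1 : ∀ w ∈ Q, ∀ x, S.stv d w = some x → α (S.gs x) ≤ S.o x := fun w hw x hx =>
      hα1 _ _ ⟨w, hw, x, hx, rfl, rfl⟩
    have k2 : ∀ w ∈ Q, ∀ x, S.env d w = some x → S.c x < β (S.ge x) := fun w hw x hx =>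
      hβ1 _ _ ⟨w, hw, x, hx, rfl, rfl⟩
    have k3 : ∀ w' y, S.env d w' = some y → α (S.ge y) ≤ S.c y → w' ∈ N := by
      intro w' y hy hle
      obtain ⟨z, hz, w, hw, x, hx, hg, rfl⟩ := hα2 (S.ge y) (S.c y) (hNb y) hle
      rw [hmem]
      refine ⟨w, hw, Or.inl (Or.inl ⟨x, y, hx, hy, hg, ?_⟩)⟩
      exact lt_of_le_of_ne hz (S.oc x y hg)
    have k4 : ∀ w' x, S.stv d w' = some x → S.o x < β (S.gs x) → w' ∈ N := by
      intro w' x hx hle
      obtain ⟨z, hz, w, hw, y, hy, hg, rfl⟩ := hβ2 (S.gs x) (S.o x) hle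
      rw [hmem]
      refine ⟨w, hw, Or.inl (Or.inr (Or.inl ⟨x, y, hx, hy, hg.symm, ?_⟩))⟩
      exact lt_of_le_of_ne hz (S.oc x y hg.symm)
    have k5 : ∀ j : Fin d, (Sum.inr (Sum.inr j) : S.W d) ∈ N := by
      intro j
      rw [hmem]
      refine ⟨_, hs0, Or.inl (Or.inr (Or.inr (Or.inr ⟨?_, trivial, ?_⟩)))⟩
      · intro h
        simp at h
      · exact fun h => h
    have k6 : ∀ j : Fin d, (Sum.inr (Sum.inr j) : S.W d) ∉ Q := fun j hj => hnd _ hj trivial
    -- counting
    have e1 : Q.card = (∑ f : S.FF, ((if (Sum.inl (Sum.inl f) : S.W d) ∈ Q then 1 else 0)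
        + (if (Sum.inl (Sum.inr f) : S.W d) ∈ Q then 1 else 0)))
        + ∑ s : S.TT, (if (Sum.inr (Sum.inl s) : S.W d) ∈ Q then 1 else 0) := by
      have : Q.card = ∑ w : S.W d, (if w ∈ Q then 1 else 0) := by simp
      rw [this, Fintype.sum_sum_type, Fintype.sum_sum_type, Fintype.sum_sum_type,
        Finset.sum_add_distrib]
      have : ∑ j : Fin d, (if (Sum.inr (Sum.inr j) : S.W d) ∈ Q then 1 else 0) = 0 :=
        Finset.sum_eq_zero (fun j _ => if_neg (k6 j))
      rw [this]
      ring
    have e2 : N.card = (∑ f : S.FF, ((if (Sum.inl (Sum.inl f) : S.W d) ∈ N then 1 else 0)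
        + (if (Sum.inl (Sum.inr f) : S.W d) ∈ N then 1 else 0)))
        + ∑ s : S.TT, (if (Sum.inr (Sum.inl s) : S.W d) ∈ N then 1 else 0) + d := by
      have : N.card = ∑ w : S.W d, (if w ∈ N then 1 else 0) := by simp
      rw [this, Fintype.sum_sum_type, Fintype.sum_sum_type, Fintype.sum_sum_type,
        Finset.sum_add_distrib]
      have : ∑ j : Fin d, (if (Sum.inr (Sum.inr j) : S.W d) ∈ N then 1 else 0) = d := by
        rw [Finset.sum_congr rfl (fun j _ => if_pos (k5 j))]
        simp
      rw [this]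
      ring
    have e3 : S.D α β = ∑ f : S.FF, S.dl α β f.1 + ∑ s : S.TT, S.dl α β s.1 := by
      rw [D, ← Fintype.sum_subtype_add_sum_subtype (fun x => S.gs x = S.ge x)]
    have f1 : ∀ f : S.FF, ((if (Sum.inl (Sum.inl f) : S.W d) ∈ Q then 1 else 0)
        + (if (Sum.inl (Sum.inr f) : S.W d) ∈ Q then 1 else 0)) + S.dl α β f.1
        ≤ ((if (Sum.inl (Sum.inl f) : S.W d) ∈ N then 1 else 0)
        + (if (Sum.inl (Sum.inr f) : S.W d) ∈ N then 1 else 0)) := by
      intro f
      have a1 : (Sum.inl (Sum.inl f) : S.W d) ∈ Q → α (S.gs f.1) ≤ S.o f.1 := fun h => k1 _ h _ rfl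
      have a2 : (Sum.inl (Sum.inr f) : S.W d) ∈ Q → S.c f.1 < β (S.gs f.1) := fun h => by
        rw [f.2]; exact k2 _ h _ rfl
      have a3 : α (S.gs f.1) ≤ S.c f.1 → (Sum.inl (Sum.inr f) : S.W d) ∈ N := fun h =>
        k3 _ _ rfl (by rw [← f.2]; exact h)
      have a4 : S.o f.1 < β (S.gs f.1) → (Sum.inl (Sum.inl f) : S.W d) ∈ N := fun h =>
        k4 _ _ rfl h
      have a5 := f.lt
      unfold dl
      rw [if_pos f.2]
      have b1 : (if (Sum.inl (Sum.inl f) : S.W d) ∈ Q then 1 else 0)
          + (if S.o f.1 < α (S.gs f.1) ∧ α (S.gs f.1) ≤ S.c f.1 then 1 else 0)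
          ≤ (if (Sum.inl (Sum.inr f) : S.W d) ∈ N then 1 else 0) := by
        by_cases hN' : (Sum.inl (Sum.inr f) : S.W d) ∈ N
        · rw [if_pos hN']
          by_cases hq : (Sum.inl (Sum.inl f) : S.W d) ∈ Q
          · have := a1 hq
            rw [if_pos hq, if_neg (by omega)]
          · rw [if_neg hq]
            split_ifs <;> simp
        · rw [if_neg hN']
          have h1 : ¬ α (S.gs f.1) ≤ S.c f.1 := fun h => hN' (a3 h)
          have hq : (Sum.inl (Sum.inl f) : S.W d) ∉ Q := fun h => by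
            have := a1 h
            omega
          rw [if_neg hq, if_neg (by omega)]
      have b2 : (if (Sum.inl (Sum.inr f) : S.W d) ∈ Q then 1 else 0)
          + (if S.o f.1 < β (S.gs f.1) ∧ β (S.gs f.1) ≤ S.c f.1 then 1 else 0)
          ≤ (if (Sum.inl (Sum.inl f) : S.W d) ∈ N then 1 else 0) := by
        by_cases hN' : (Sum.inl (Sum.inl f) : S.W d) ∈ N
        · rw [if_pos hN']
          by_cases hq : (Sum.inl (Sum.inr f) : S.W d) ∈ Q
          · have := a2 hq
            rw [if_pos hq, if_neg (by omega)]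
          · rw [if_neg hq]
            split_ifs <;> simp
        · rw [if_neg hN']
          have h1 : ¬ S.o f.1 < β (S.gs f.1) := fun h => hN' (a4 h)
          have hq : (Sum.inl (Sum.inr f) : S.W d) ∉ Q := fun h => by
            have := a2 h
            omega
          rw [if_neg hq, if_neg (by omega)]
      omega
    have f2 : ∀ s : S.TT, (if (Sum.inr (Sum.inl s) : S.W d) ∈ Q then 1 else 0) + S.dl α β s.1
        ≤ (if (Sum.inr (Sum.inl s) : S.W d) ∈ N then 1 else 0) + 1 := by
      intro s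
      have a1 : (Sum.inr (Sum.inl s) : S.W d) ∈ Q → α (S.gs s.1) ≤ S.o s.1 := fun h => k1 _ h _ rfl
      have a2 : (Sum.inr (Sum.inl s) : S.W d) ∈ Q → S.c s.1 < β (S.ge s.1) := fun h => k2 _ h _ rfl
      have a3 : α (S.ge s.1) ≤ S.c s.1 → (Sum.inr (Sum.inl s) : S.W d) ∈ N := fun h =>
        k3 _ _ rfl h
      have a4 : S.o s.1 < β (S.gs s.1) → (Sum.inr (Sum.inl s) : S.W d) ∈ N := fun h =>
        k4 _ _ rfl h
      unfold dl
      rw [if_neg s.2]
      have b1 : (if S.o s.1 < β (S.gs s.1) ∨ α (S.ge s.1) ≤ S.c s.1 then 1 else 0)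
          ≤ (if (Sum.inr (Sum.inl s) : S.W d) ∈ N then 1 else 0) := by
        by_cases hN' : (Sum.inr (Sum.inl s) : S.W d) ∈ N
        · rw [if_pos hN']
          split_ifs <;> simp
        · rw [if_neg hN', if_neg]
          rintro (h | h)
          · exact hN' (a4 h)
          · exact hN' (a3 h)
      have b2 : (if (Sum.inr (Sum.inl s) : S.W d) ∈ Q then 1 else 0)
          + (if S.o s.1 < α (S.gs s.1) ∨ β (S.ge s.1) ≤ S.c s.1 then 1 else 0) ≤ 1 := by
        by_cases hq : (Sum.inr (Sum.inl s) : S.W d) ∈ Q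
        · have := a1 hq
          have := a2 hq
          rw [if_pos hq, if_neg (by omega)]
        · rw [if_neg hq]
          split_ifs <;> simp
      omega
    have g1 := Finset.sum_le_sum (fun f (_ : f ∈ (univ : Finset S.FF)) => f1 f)
    have g2 := Finset.sum_le_sum (fun s (_ : s ∈ (univ : Finset S.TT)) => f2 s)
    rw [Finset.sum_add_distrib] at g1 g2
    rw [Finset.sum_add_distrib (g := fun _ => 1)] at g2
    simp only [Finset.sum_const, smul_eq_mul, mul_one, Finset.card_univ] at g2
    omega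


/-! ### odd cycles -/

theorem alternate {α : Type} [Fintype α] {π : Equiv.Perm α} {x : α} (κ : α → Prop)
    (h : ∀ w ∈ orb π x, (κ (π w) ↔ ¬ κ w)) : Even (pl π x) := by
  have key : ∀ i : ℕ, (κ ((π^[i]) x) ↔ (Even i ↔ κ x)) := by
    intro i
    induction i with
    | zero => simp
    | succ i ih =>
      rw [Function.iterate_succ_apply', h _ (mem_orb.2 ⟨i, rfl⟩), ih, Nat.even_add_one]
      tauto
  have := key (pl π x)
  rw [it_pl] at this
  tauto

theorem odd_nonfree {π : Equiv.Perm (S.W d)}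
    (hπ : ∀ w, S.adjW d w (π w) ∨ (w = π w ∧ S.isD d w)) {x : S.W d} (ho : Odd (pl π x)) :
    ∃ w ∈ orb π x, ¬ S.isF d w := by
  by_contra hcon
  push Not at hcon
  have hev : Even (pl π x) := by
    refine alternate (fun w => ∃ y, S.stv d w = some y) (fun w hw => ?_)
    have h1 := hcon w hw
    have h2 := hcon (π w) (map_mem_orb hw)
    have h3 := hπ w
    generalize π w = w' at *
    rcases w with (f | f) | w
    · rcases w' with (f' | f') | w'
      · exfalso
        rcases h3 with (⟨a, b, ha, hb, -⟩ | ⟨a, b, ha, hb, -⟩ | ⟨-, h, -⟩ | ⟨-, h, -⟩) | ⟨-, h⟩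
        · simp [env] at hb
        · simp [env] at hb
        · exact h
        · exact h
        · exact h
      · simp [stv]
      · exact absurd h2 (fun h => h)
    · rcases w' with (f' | f') | w'
      · simp [stv]
      · exfalso
        rcases h3 with (⟨a, b, ha, hb, -⟩ | ⟨a, b, ha, hb, -⟩ | ⟨-, h, -⟩ | ⟨-, h, -⟩) | ⟨-, h⟩
        · simp [stv] at ha
        · simp [stv] at ha
        · exact h
        · exact h
        · exact h
      · exact absurd h2 (fun h => h)
    · exact absurd h1 (fun h => h)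
  rw [← Nat.not_even_iff_odd] at ho
  exact ho hev

/-- start and end of the same vertex -/
theorem stv_env {w : S.W d} {x y : V} (hx : S.stv d w = some x) (hy : S.env d w = some y) :
    x = y ∧ S.ge x = S.gs x + 1 := by
  rcases w with (f | f) | (s | j)
  · simp [env] at hy
  · simp [stv] at hx
  · simp only [stv, env, Option.some.injEq] at hx hy
    subst hx
    exact ⟨hy, s.eq⟩
  · simp [env] at hy

theorem odd_gap0 {π : Equiv.Perm (S.W d)}
    (hπ : ∀ w, S.adjW d w (π w) ∨ (w = π w ∧ S.isD d w)) {x : S.W d} (ho : Odd (pl π x))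
    (hD : ∀ w ∈ orb π x, ¬ S.isD d w) :
    ∃ w ∈ orb π x, ∃ w' ∈ orb π x, ∃ a b, S.stv d w = some a ∧ S.env d w' = some b ∧
      S.lk a b ∧ S.gs a = 0 := by
  by_contra hcon
  push Not at hcon
  have key : ∀ w ∈ orb π x, ∀ w' ∈ orb π x, S.lkW d w w' →
      (((∃ y, S.stv d w' = some y ∧ S.gs y = 1) ∨ (∃ y, S.env d w' = some y ∧ S.ge y = 2)) ↔
      ¬ ((∃ y, S.stv d w = some y ∧ S.gs y = 1) ∨ (∃ y, S.env d w = some y ∧ S.ge y = 2))) := by
    rintro w hw w' hw' ⟨a, b, ha, hb, hab⟩
    have h0 := hcon w hw w' hw' a b ha hb hab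
    have hg : S.gs a = S.ge b := hab.1
    have h12 : S.gs a = 1 ∨ S.gs a = 2 := by
      revert h0
      generalize S.gs a = i
      revert i
      decide
    rcases h12 with h | h
    · constructor
      · rintro (⟨y, hy, hy1⟩ | ⟨y, hy, hy1⟩)
        · obtain ⟨rfl, h2⟩ := stv_env hy hb
          rw [← hg, h, hy1] at h2
          exact absurd h2 (by decide)
        · rw [hb, Option.some.injEq] at hy
          subst hy
          rw [← hg, h] at hy1
          exact absurd hy1 (by decide)
      · intro hh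
        exact absurd (Or.inl ⟨a, ha, h⟩) hh
    · constructor
      · rintro - (⟨y, hy, hy1⟩ | ⟨y, hy, hy1⟩)
        · rw [ha, Option.some.injEq] at hy
          subst hy
          rw [h] at hy1
          exact absurd hy1 (by decide)
        · obtain ⟨rfl, h2⟩ := stv_env ha hy
          rw [hy1, h] at h2
          exact absurd h2 (by decide)
      · intro _
        exact Or.inr ⟨b, hb, by rw [← hg]; exact h⟩
  have hev : Even (pl π x) := by
    refine alternate (fun w => (∃ y, S.stv d w = some y ∧ S.gs y = 1) ∨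
      (∃ y, S.env d w = some y ∧ S.ge y = 2)) (fun w hw => ?_)
    have hw' := map_mem_orb hw
    rcases hπ w with (h | h | h | h) | h
    · exact key w hw _ hw' h
    · exact iff_not_comm.1 (key _ hw' w hw h)
    · exact absurd h.2.1 (hD w hw)
    · exact absurd h.2.1 (hD _ hw')
    · exact absurd h.2 (hD w hw)
  rw [← Nat.not_even_iff_odd] at ho
  exact ho hev

theorem odd_adj {π : Equiv.Perm (S.W d)}
    (hπ : ∀ w, S.adjW d w (π w) ∨ (w = π w ∧ S.isD d w)) {x y : S.W d} (hxy : y ∉ orb π x)
    (hx : Odd (pl π x)) (hy : Odd (pl π y)) :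
    ∃ x' ∈ orb π x, ∃ y' ∈ orb π y, S.adjW d x' y' := by
  have hne : ∀ x' ∈ orb π x, ∀ y' ∈ orb π y, x' ≠ y' := by
    rintro x' hx' y' hy' rfl
    exact hxy (mem_orb_trans hx' (mem_orb_symm hy'))
  by_cases h1 : ∃ w ∈ orb π x, S.isD d w
  · obtain ⟨w, hw, hwD⟩ := h1
    obtain ⟨w', hw', hF⟩ := odd_nonfree hπ hy
    exact ⟨w, hw, w', hw', Or.inr (Or.inr (Or.inl ⟨hne w hw w' hw', hwD, hF⟩))⟩
  by_cases h2 : ∃ w ∈ orb π y, S.isD d w
  · obtain ⟨w, hw, hwD⟩ := h2
    obtain ⟨w', hw', hF⟩ := odd_nonfree hπ hx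
    exact ⟨w', hw', w, hw, Or.inr (Or.inr (Or.inr ⟨(hne w' hw' w hw).symm, hwD, hF⟩))⟩
  push Not at h1 h2
  obtain ⟨w1, hw1, w2, hw2, a, b, ha, hb, hab, h0⟩ := odd_gap0 hπ hx h1
  obtain ⟨w3, hw3, w4, hw4, a', b', ha', hb', hab', h0'⟩ := odd_gap0 hπ hy h2
  have hg1 := hab.1
  have hg2 := hab'.1
  have hl1 := hab.2
  have hl2 := hab'.2
  rcases le_total (S.o a) (S.o a') with h | h
  · refine ⟨w1, hw1, w4, hw4, Or.inl ⟨a, b', ha, hb', ?_, ?_⟩⟩
    · rw [← hg2, h0, h0']
    · omega
  · refine ⟨w2, hw2, w3, hw3, Or.inr (Or.inl ⟨a', b, ha', hb, ?_, ?_⟩)⟩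
    · rw [← hg1, h0, h0']
    · omega

/-- the matching graph has a perfect matching -/
theorem exists_matching (t : ℕ) (hd : Fintype.card S.TT = 2 * t + d)
    (hD : ∀ a b, 2 * t ≤ S.D a b) :
    ∃ g : S.W d → S.W d, ∀ w, g (g w) = w ∧ g w ≠ w ∧ S.adjW d w (g w) := by
  have hH := (Finset.all_card_le_biUnion_card_iff_exists_injective
    (fun w : S.W d => univ.filter (fun w' => S.adjW d w w' ∨ (w = w' ∧ S.isD d w)))).1
    (fun Q => hall (fun a b => by have := hD a b; omega) Q)
  obtain ⟨f, hf, hf'⟩ := hH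
  let π : Equiv.Perm (S.W d) := Equiv.ofBijective f (Finite.injective_iff_bijective.1 hf)
  have hπ : ∀ w, S.adjW d w (π w) ∨ (w = π w ∧ S.isD d w) := by
    intro w
    have := hf' w
    rw [Finset.mem_filter] at this
    exact this.2
  refine perm_matching (adj := S.adjW d) (π := π) adjW_symm (fun w => ?_)
    (fun x y h1 h2 h3 => odd_adj hπ h1 h2 h3) ?_
  · rcases hπ w with h | h
    · exact Or.inl h
    · exact Or.inr h.1.symm
  · rw [Fintype.card_sum, Fintype.card_sum, Fintype.card_sum, Fintype.card_fin, hd]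
    exact ⟨Fintype.card S.FF + t + d, by ring⟩

/-! ### the assignment of the singles -/

/-- the start vertex of an arc -/
noncomputable def sv (S : Sys V) (d : ℕ) (x : V) : S.W d :=
  if h : S.gs x = S.ge x then Sum.inl (Sum.inl ⟨x, h⟩) else Sum.inr (Sum.inl ⟨x, h⟩)

/-- the end vertex of an arc -/
noncomputable def ev (S : Sys V) (d : ℕ) (x : V) : S.W d :=
  if h : S.gs x = S.ge x then Sum.inl (Sum.inr ⟨x, h⟩) else Sum.inr (Sum.inl ⟨x, h⟩)

theorem stv_sv (x : V) : S.stv d (S.sv d x) = some x := by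
  unfold sv
  split_ifs <;> rfl

theorem env_ev (x : V) : S.env d (S.ev d x) = some x := by
  unfold ev
  split_ifs <;> rfl

theorem eq_sv {w : S.W d} {x : V} (h : S.stv d w = some x) : w = S.sv d x := by
  rcases w with (f | f) | (s | j)
  · simp only [stv, Option.some.injEq] at h
    subst h
    rw [sv, dif_pos f.2]
  · simp [stv] at h
  · simp only [stv, Option.some.injEq] at h
    subst h
    rw [sv, dif_neg s.2]
  · simp [stv] at h

theorem eq_ev {w : S.W d} {x : V} (h : S.env d w = some x) : w = S.ev d x := by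
  rcases w with (f | f) | (s | j)
  · simp [env] at h
  · simp only [env, Option.some.injEq] at h
    subst h
    rw [ev, dif_pos f.2]
  · simp only [env, Option.some.injEq] at h
    subst h
    rw [ev, dif_neg s.2]
  · simp [env] at h

theorem pack (S : Sys V) (t : ℕ) (hD : ∀ a b, 2 * t ≤ S.D a b) :
    ∃ E B : Finset V, Disjoint E B ∧ (∀ x ∈ E, S.gs x ≠ S.ge x) ∧ (∀ x ∈ B, S.gs x ≠ S.ge x) ∧
      t ≤ E.card ∧ ∀ i p, (E.filter (fun x => S.ge x = i)).card ≤
        (E.filter (fun x => S.ge x = i ∧ p ≤ S.c x)).card +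
        (B.filter (fun x => S.gs x = i ∧ S.o x < p)).card +
        (univ.filter (fun x => S.gs x = i ∧ S.ge x = i ∧ S.o x < p ∧ p ≤ S.c x)).card := by
  -- there are enough singles
  have hT : 2 * t ≤ Fintype.card S.TT := by
    obtain ⟨Nb, hNb⟩ : ∃ Nb, ∀ x, S.c x < Nb ∧ S.o x < Nb := by
      refine ⟨univ.sup S.c + univ.sup S.o + 1, fun x => ?_⟩
      have := Finset.le_sup (f := S.c) (Finset.mem_univ x)
      have := Finset.le_sup (f := S.o) (Finset.mem_univ x)
      omega
    have h1 := hD (fun _ => 0) (fun _ => Nb)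
    have h2 : S.D (fun _ => 0) (fun _ => Nb) = Fintype.card S.TT := by
      rw [D, ← Fintype.sum_subtype_add_sum_subtype (fun x => S.gs x = S.ge x)]
      have e1 : ∀ f : S.FF, S.dl (fun _ => 0) (fun _ => Nb) f.1 = 0 := by
        intro f
        have := hNb f.1
        rw [dl, if_pos f.2, if_neg (by omega), if_neg (by omega)]
      have e2 : ∀ s : S.TT, S.dl (fun _ => 0) (fun _ => Nb) s.1 = 1 := by
        intro s
        have := hNb s.1
        rw [dl, if_neg s.2, if_pos (by omega), if_neg (by omega)]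
      rw [Finset.sum_congr rfl (fun f _ => e1 f), Finset.sum_congr rfl (fun s _ => e2 s)]
      simp
    omega
  obtain ⟨d, hd⟩ : ∃ d, Fintype.card S.TT = 2 * t + d := ⟨_, (Nat.add_sub_of_le hT).symm⟩
  obtain ⟨g, hg⟩ := exists_matching (S := S) (d := d) t hd hD
  have hginj : Function.Injective g := fun a b h => by
    rw [← (hg a).1, ← (hg b).1, h]
  -- used as an end / as a start
  let P : V → V → Prop := fun x y => g (S.ev d x) = S.sv d y ∧ S.lk y x
  have hPu : ∀ x x' y, P x y → P x' y → x = x' := by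
    intro x x' y h h'
    have h1 := hginj (h.1.trans h'.1.symm)
    have h2 := congrArg (S.env d) h1
    rw [env_ev, env_ev] at h2
    exact Option.some.inj h2
  have hPu' : ∀ x y y', P x y → P x y' → y = y' := by
    intro x y y' h h'
    have h1 := h.1.symm.trans h'.1
    have h2 := congrArg (S.stv d) h1
    rw [stv_sv, stv_sv] at h2
    exact Option.some.inj h2
  let E : Finset V := univ.filter (fun x => S.gs x ≠ S.ge x ∧ ∃ y, P x y)
  let B : Finset V := univ.filter (fun y => S.gs y ≠ S.ge y ∧ ∃ x, P x y)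
  have hE : ∀ x, x ∈ E ↔ S.gs x ≠ S.ge x ∧ ∃ y, P x y := fun x => by simp [E]
  have hB : ∀ y, y ∈ B ↔ S.gs y ≠ S.ge y ∧ ∃ x, P x y := fun y => by simp [B]
  -- free arcs
  have hFe : ∀ x, S.gs x = S.ge x → ∃ y, P x y := by
    intro x hx
    have h1 := (hg (S.ev d x)).2.2
    have h2 : S.ev d x = Sum.inl (Sum.inr ⟨x, hx⟩) := by rw [ev, dif_pos hx]
    rcases h1 with h | h | h | h
    · obtain ⟨a, b, ha, -, -⟩ := h
      rw [h2] at ha
      simp [stv] at ha
    · obtain ⟨a, b, ha, hb, hab⟩ := h
      rw [env_ev, Option.some.injEq] at hb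
      subst hb
      exact ⟨a, eq_sv ha, hab⟩
    · have := h.2.1
      rw [h2] at this
      exact absurd this (fun h => h)
    · have := h.2.2
      rw [h2] at this
      exact absurd trivial this
  have hFs : ∀ y, S.gs y = S.ge y → ∃ x, P x y := by
    intro y hy
    have h1 := (hg (S.sv d y)).2.2
    have h2 : S.sv d y = Sum.inl (Sum.inl ⟨y, hy⟩) := by rw [sv, dif_pos hy]
    rcases h1 with h | h | h | h
    · obtain ⟨a, b, ha, hb, hab⟩ := h
      rw [stv_sv, Option.some.injEq] at ha
      subst ha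
      refine ⟨b, ?_, hab⟩
      rw [← eq_ev hb]
      exact (hg _).1
    · obtain ⟨a, b, -, hb, -⟩ := h
      rw [h2] at hb
      simp [env] at hb
    · have := h.2.1
      rw [h2] at this
      exact absurd this (fun h => h)
    · have := h.2.2
      rw [h2] at this
      exact absurd trivial this
  -- disjointness
  have hdis : Disjoint E B := by
    rw [Finset.disjoint_left]
    intro x hx hx'
    rw [hE] at hx
    rw [hB] at hx'
    obtain ⟨hne, y, hy⟩ := hx
    obtain ⟨-, z, hz⟩ := hx'
    have e1 : S.ev d x = S.sv d x := by rw [ev, sv, dif_neg hne, dif_neg hne]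
    have e2 : g (S.sv d x) = S.ev d z := by rw [← hz.1]; exact (hg _).1
    have e3 : S.sv d y = S.ev d z := by rw [← hy.1, e1, e2]
    have h1 := stv_env (S := S) (d := d) (w := S.sv d y) (stv_sv y) (by rw [e3]; exact env_ev z)
    obtain ⟨rfl, h2⟩ := h1
    have h3 := hy.2.1
    have h4 := hz.2.1
    have h5 : S.ge x = S.gs x + 1 := by
      rcases S.ty x with h | h
      · exact absurd h.1 hne
      · exact h
    have h6 : S.gs y = S.gs y + 1 + 1 := by
      rw [h5, h4, h2] at h3
      exact h3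
    revert h6
    generalize S.gs y = i
    revert i
    decide
  -- every single with a partner in the system is in `E` or `B`
  have hEB : ∀ x, S.gs x ≠ S.ge x → x ∈ E ∨ x ∈ B ∨ S.isD d (g (S.sv d x)) := by
    intro x hx
    have e1 : S.ev d x = S.sv d x := by rw [ev, sv, dif_neg hx, dif_neg hx]
    rcases (hg (S.sv d x)).2.2 with h | h | h | h
    · obtain ⟨a, b, ha, hb, hab⟩ := h
      rw [stv_sv, Option.some.injEq] at ha
      subst ha
      right; left
      rw [hB]
      refine ⟨hx, b, ?_, hab⟩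
      rw [← eq_ev hb]
      exact (hg _).1
    · obtain ⟨a, b, ha, hb, hab⟩ := h
      rw [← e1, env_ev, Option.some.injEq] at hb
      subst hb
      left
      rw [hE]
      refine ⟨hx, a, ?_, hab⟩
      rw [e1]
      exact eq_sv ha
    · have := h.2.1
      rw [sv, dif_neg hx] at this
      exact absurd this (fun h => h)
    · exact Or.inr (Or.inr h.2.1)
  let F : Finset V := univ.filter (fun x => S.gs x = S.ge x)
  have hF : ∀ x, x ∈ F ↔ S.gs x = S.ge x := fun x => by simp [F]
  -- injections between used end events and used start events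
  have inj1 : ∀ (X Y : Finset V), (∀ x ∈ X, x ∈ E ∨ x ∈ F) →
      (∀ x ∈ X, ∀ y, P x y → (y ∈ B ∨ y ∈ F) → y ∈ Y) → X.card ≤ Y.card := by
    intro X Y hX hXY
    have h1 : ∀ x ∈ X, ∃ y, P x y := by
      intro x hx
      rcases hX x hx with h | h
      · exact ((hE x).1 h).2
      · exact hFe x ((hF x).1 h)
    choose! σ hσ using h1
    refine Finset.card_le_card_of_injOn σ ?_ ?_
    · intro x hx
      refine hXY x hx _ (hσ x hx) ?_
      by_cases h : S.gs (σ x) = S.ge (σ x)
      · exact Or.inr ((hF _).2 h)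
      · exact Or.inl ((hB _).2 ⟨h, x, hσ x hx⟩)
    · intro x hx x' hx' h
      exact hPu x x' (σ x) (hσ x hx) (by rw [h]; exact hσ x' hx')
  have inj2 : ∀ (X Y : Finset V), (∀ y ∈ X, y ∈ B ∨ y ∈ F) →
      (∀ y ∈ X, ∀ x, P x y → (x ∈ E ∨ x ∈ F) → x ∈ Y) → X.card ≤ Y.card := by
    intro X Y hX hXY
    have h1 : ∀ y ∈ X, ∃ x, P x y := by
      intro x hx
      rcases hX x hx with h | h
      · exact ((hB x).1 h).2
      · exact hFs x ((hF x).1 h)
    choose! σ hσ using h1
    refine Finset.card_le_card_of_injOn σ ?_ ?_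
    · intro x hx
      refine hXY x hx _ (hσ x hx) ?_
      by_cases h : S.gs (σ x) = S.ge (σ x)
      · exact Or.inr ((hF _).2 h)
      · exact Or.inl ((hE _).2 ⟨h, x, hσ x hx⟩)
    · intro x hx x' hx' h
      exact hPu' (σ x) x x' (hσ x hx) (by rw [h]; exact hσ x' hx')
  have hdEF : Disjoint E F := by
    rw [Finset.disjoint_left]
    intro x h1 h2
    exact ((hE x).1 h1).1 ((hF x).1 h2)
  have hdBF : Disjoint B F := by
    rw [Finset.disjoint_left]
    intro x h1 h2
    exact ((hB x).1 h1).1 ((hF x).1 h2)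
  refine ⟨E, B, hdis, fun x hx => ((hE x).1 hx).1, fun x hx => ((hB x).1 hx).1, ?_, ?_⟩
  · -- the number of used singles
    have h1 := inj2 (B ∪ F) (E ∪ F) (fun y hy => by simpa using hy)
      (fun y _ x _ h => by simpa using h)
    rw [Finset.card_union_of_disjoint hdBF, Finset.card_union_of_disjoint hdEF] at h1
    let Z : Finset V := univ.filter (fun x => S.gs x ≠ S.ge x ∧ S.isD d (g (S.sv d x)))
    have hZ : Z.card ≤ d := by
      have h2 : (Z.image (fun x => g (S.sv d x))) ⊆
          (univ : Finset (Fin d)).image (fun j => (Sum.inr (Sum.inr j) : S.W d)) := by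
        intro w hw
        rw [Finset.mem_image] at hw
        obtain ⟨x, hx, rfl⟩ := hw
        have h4 : S.isD d (g (S.sv d x)) := by
          have : x ∈ univ.filter (fun x => S.gs x ≠ S.ge x ∧ S.isD d (g (S.sv d x))) := hx
          rw [Finset.mem_filter] at this
          exact this.2.2
        revert h4
        generalize g (S.sv d x) = w
        intro h4
        rcases w with w | (s | j)
        · exact absurd h4 (fun h => h)
        · exact absurd h4 (fun h => h)
        · exact Finset.mem_image_of_mem _ (Finset.mem_univ j)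
      have h3 : (Z.image (fun x => g (S.sv d x))).card = Z.card := by
        refine Finset.card_image_of_injOn ?_
        intro x hx x' hx' h
        have h6 := congrArg (S.stv d) (hginj h)
        rw [stv_sv, stv_sv] at h6
        exact Option.some.inj h6
      rw [← h3]
      refine (Finset.card_le_card h2).trans (Finset.card_image_le.trans ?_)
      simp
    have h3 : Fintype.card S.TT ≤ E.card + B.card + Z.card := by
      rw [Fintype.card_subtype]
      calc _ ≤ (E ∪ B ∪ Z).card := by
            refine Finset.card_le_card (fun x hx => ?_)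
            rw [Finset.mem_filter] at hx
            rcases hEB x hx.2 with h | h | h
            · exact Finset.mem_union_left _ (Finset.mem_union_left _ h)
            · exact Finset.mem_union_left _ (Finset.mem_union_right _ h)
            · exact Finset.mem_union_right _ (Finset.mem_filter.2 ⟨Finset.mem_univ _, hx.2, h⟩)
        _ ≤ (E ∪ B).card + Z.card := Finset.card_union_le _ _
        _ ≤ E.card + B.card + Z.card := by
            have := Finset.card_union_le E B
            omega
    omega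
  · -- the load
    intro i p
    have h1 := inj1 ((E ∪ F).filter (fun x => S.ge x = i ∧ S.c x < p))
      ((B ∪ F).filter (fun x => S.gs x = i ∧ S.o x < p)) (fun x hx => by
        rw [Finset.mem_filter, Finset.mem_union] at hx
        exact hx.1) (fun x hx y hxy hy => by
        rw [Finset.mem_filter] at hx ⊢
        have h2 := hxy.2.1
        have h3 := hxy.2.2
        refine ⟨Finset.mem_union.2 hy, by rw [h2]; exact hx.2.1, by omega⟩)
    have e1 : ((E ∪ F).filter (fun x => S.ge x = i ∧ S.c x < p)).card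
        = (E.filter (fun x => S.ge x = i ∧ S.c x < p)).card
          + (F.filter (fun x => S.ge x = i ∧ S.c x < p)).card := by
      rw [Finset.filter_union, Finset.card_union_of_disjoint (Finset.disjoint_filter_filter hdEF)]
    have e2 : ((B ∪ F).filter (fun x => S.gs x = i ∧ S.o x < p)).card
        = (B.filter (fun x => S.gs x = i ∧ S.o x < p)).card
          + (F.filter (fun x => S.gs x = i ∧ S.o x < p)).card := by
      rw [Finset.filter_union, Finset.card_union_of_disjoint (Finset.disjoint_filter_filter hdBF)]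
    have e3 : (F.filter (fun x => S.gs x = i ∧ S.o x < p)).card
        = (F.filter (fun x => S.ge x = i ∧ S.c x < p)).card
          + (univ.filter (fun x => S.gs x = i ∧ S.ge x = i ∧ S.o x < p ∧ p ≤ S.c x)).card := by
      rw [← Finset.card_union_of_disjoint]
      · congr 1
        ext x
        simp only [Finset.mem_filter, Finset.mem_union, Finset.mem_univ, true_and, hF]
        constructor
        · rintro ⟨h1, h2, h3⟩
          by_cases h : S.c x < p
          · exact Or.inl ⟨h1, h1 ▸ h2, h⟩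
          · exact Or.inr ⟨h2, h1 ▸ h2, h3, by omega⟩
        · rintro (⟨h1, h2, h3⟩ | ⟨h1, h2, h3, h4⟩)
          · have := FF.lt (S := S) ⟨x, h1⟩
            exact ⟨h1, h1.trans h2, by simp only at this; omega⟩
          · exact ⟨h1.trans h2.symm, h1, h3⟩
      · rw [Finset.disjoint_left]
        intro x hx hx'
        rw [Finset.mem_filter] at hx hx'
        omega
    have e4 : (E.filter (fun x => S.ge x = i)).card
        = (E.filter (fun x => S.ge x = i ∧ p ≤ S.c x)).card
          + (E.filter (fun x => S.ge x = i ∧ S.c x < p)).card := by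
      rw [← Finset.card_union_of_disjoint]
      · congr 1
        ext x
        simp only [Finset.mem_filter, Finset.mem_union]
        constructor
        · rintro ⟨h1, h2⟩
          by_cases h : S.c x < p
          · exact Or.inr ⟨h1, h2, h⟩
          · exact Or.inl ⟨h1, h2, by omega⟩
        · rintro (⟨h1, h2, h3⟩ | ⟨h1, h2, h3⟩)
          · exact ⟨h1, h2⟩
          · exact ⟨h1, h2⟩
      · rw [Finset.disjoint_left]
        intro x hx hx'
        rw [Finset.mem_filter] at hx hx'
        omega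
    omega

end Sys

end Pool.Agent.CA
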