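import Mathlib
import Pool.Agent.CA.Pack

/-!
The three-gap packing theorem with connectors through one of the holes (helper23), a variant of
helper90's `Pack.lean`.

The gaps are numbered by `Fin 3`.  The arc `x` starts in gap `gs x` at the event `o x`
and ends in gap `ge x` at the event `c x`.  An arc with `gs x = ge x` is free, an arc with
`ge x = gs x + 1` is a single.  The extended arcs (`xt x`) reach the end of gap `1` and have a
second end event `xc x` in gap `2`.
-/

set_option autoImplicit false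

namespace Pool.Agent.CA

open Finset
open scoped Classical

/-- a three-gap system with extended arcs -/
structure Sys2 (V : Type) where
  gs : V → Fin 3
  ge : V → Fin 3
  o : V → ℕ
  c : V → ℕ
  xt : V → Prop
  xc : V → ℕ
  ty : ∀ x, (gs x = ge x ∧ o x < c x) ∨ ge x = gs x + 1
  oc : ∀ x y, gs x = ge y → o x ≠ c y
  xg : ∀ x, xt x → ge x = 1
  ocx : ∀ x y, xt y → gs x = 2 → o x ≠ xc y

namespace Sys2

variable {V : Type} [Fintype V] (S : Sys2 V)

/-- `x` starts before `y` ends, in the same gap -/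
def lk (x y : V) : Prop :=
  (S.gs x = S.ge y ∧ S.o x < S.c y) ∨ (S.xt y ∧ S.gs x = 2 ∧ S.o x < S.xc y)

/-- an end event of `x` is behind the threshold `a` -/
def En (a : Fin 3 → ℕ) (x : V) : Prop := a (S.ge x) ≤ S.c x ∨ (S.xt x ∧ a 2 ≤ S.xc x)

/-- the contribution of the arc `x` to the dual function at the six points `a i`, `b i` -/
noncomputable def dl (a b : Fin 3 → ℕ) (x : V) : ℕ :=
  if S.gs x = S.ge x then
    (if S.o x < a (S.gs x) ∧ S.En a x then 1 else 0) +
      (if S.o x < b (S.gs x) ∧ S.En b x then 1 else 0)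
  else
    (if S.o x < b (S.gs x) ∨ S.En a x then 1 else 0) +
      (if S.o x < a (S.gs x) ∨ S.En b x then 1 else 0)

/-- the dual function -/
noncomputable def D (a b : Fin 3 → ℕ) : ℕ := ∑ x, S.dl a b x

/-- free arcs -/
abbrev FF : Type := {x : V // S.gs x = S.ge x}

/-- singles -/
abbrev TT : Type := {x : V // ¬ S.gs x = S.ge x}

/-- the vertices of the matching graph: two for a free arc, one for a single, `d` dummies -/
abbrev W (d : ℕ) : Type := (S.FF ⊕ S.FF) ⊕ (S.TT ⊕ Fin d)

/-- the start event of a vertex -/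
def stv (d : ℕ) : S.W d → Option V
  | Sum.inl (Sum.inl f) => some f.1
  | Sum.inl (Sum.inr _) => none
  | Sum.inr (Sum.inl s) => some s.1
  | Sum.inr (Sum.inr _) => none

/-- the end event of a vertex -/
def env (d : ℕ) : S.W d → Option V
  | Sum.inl (Sum.inl _) => none
  | Sum.inl (Sum.inr f) => some f.1
  | Sum.inr (Sum.inl s) => some s.1
  | Sum.inr (Sum.inr _) => none

/-- vertices of free arcs -/
def isF (d : ℕ) : S.W d → Prop
  | Sum.inl _ => True
  | Sum.inr _ => False

/-- dummies -/
def isD (d : ℕ) : S.W d → Prop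
  | Sum.inl _ => False
  | Sum.inr (Sum.inl _) => False
  | Sum.inr (Sum.inr _) => True

def lkW (d : ℕ) (w w' : S.W d) : Prop :=
  ∃ x y, S.stv d w = some x ∧ S.env d w' = some y ∧ S.lk x y

def dum (d : ℕ) (w w' : S.W d) : Prop := w ≠ w' ∧ S.isD d w ∧ ¬ S.isF d w'

/-- the matching graph -/
def adjW (d : ℕ) (w w' : S.W d) : Prop :=
  S.lkW d w w' ∨ S.lkW d w' w ∨ S.dum d w w' ∨ S.dum d w' w

variable {S} {d : ℕ}

theorem adjW_symm (w w' : S.W d) (h : S.adjW d w w') : S.adjW d w' w := by
  unfold adjW at *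
  tauto

theorem FF.lt (f : S.FF) : S.o f.1 < S.c f.1 := by
  rcases S.ty f.1 with h | h
  · exact h.2
  · exfalso
    have := f.2
    rw [this] at h
    revert h
    generalize S.ge f.1 = i
    revert i
    decide

theorem TT.eq (s : S.TT) : S.ge s.1 = S.gs s.1 + 1 := by
  rcases S.ty s.1 with h | h
  · exact absurd h.1 s.2
  · exact h

/-- the swap of the two vertices of a free arc -/
def sw (d : ℕ) (w : S.W d) : S.W d := Sum.map Sum.swap id w

theorem sw_inj : Function.Injective (S.sw d) := by
  intro w w' h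
  have h2 := congrArg (S.sw d) h
  simp only [sw, Sum.map_map] at h2
  rcases w with (f | f) | w <;> rcases w' with (f' | f') | w' <;> simp_all [sw]

theorem hall (hd : ∀ a b, Fintype.card S.TT ≤ d + S.D a b) (Q : Finset (S.W d)) :
    Q.card ≤ (Q.biUnion (fun w => univ.filter (fun w' => S.adjW d w w' ∨ (w = w' ∧ S.isD d w)))).card := by
  set N := Q.biUnion (fun w => univ.filter (fun w' => S.adjW d w w' ∨ (w = w' ∧ S.isD d w))) with hN
  have hmem : ∀ w', w' ∈ N ↔ ∃ w ∈ Q, S.adjW d w w' ∨ (w = w' ∧ S.isD d w) := by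
    intro w'
    rw [hN, Finset.mem_biUnion]
    simp
  by_cases hcase : (∃ w ∈ Q, S.isD d w) ∨ ∀ s : S.TT, (Sum.inr (Sum.inl s) : S.W d) ∉ Q
  · -- the swap is an injection
    refine Finset.card_le_card_of_injOn (S.sw d) ?_ (fun x _ y _ h => sw_inj h)
    intro w hw
    have hw : w ∈ Q := hw
    show S.sw d w ∈ N
    rw [hmem]
    rcases w with (f | f) | (s | j)
    · refine ⟨_, hw, Or.inl (Or.inl ⟨f.1, f.1, rfl, rfl, Or.inl ⟨f.2, f.lt⟩⟩)⟩
    · refine ⟨_, hw, Or.inl (Or.inr (Or.inl ⟨f.1, f.1, rfl, rfl, Or.inl ⟨f.2, f.lt⟩⟩))⟩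
    · rcases hcase with ⟨w', hw', hD'⟩ | h
      · refine ⟨w', hw', Or.inl (Or.inr (Or.inr (Or.inl ⟨?_, hD', ?_⟩)))⟩
        · rintro rfl
          exact hD'
        · exact fun h => h
      · exact absurd hw (h s)
    · exact ⟨_, hw, Or.inr ⟨rfl, trivial⟩⟩
  · push Not at hcase
    obtain ⟨hnd, s0, hs0⟩ := hcase
    -- bounds for the events
    obtain ⟨Nb, hNb⟩ : ∃ Nb, ∀ x, S.c x < Nb ∧ S.xc x < Nb := by
      refine ⟨univ.sup S.c + univ.sup S.xc + 1, fun x => ?_⟩
      have := Finset.le_sup (f := S.c) (Finset.mem_univ x)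
      have := Finset.le_sup (f := S.xc) (Finset.mem_univ x)
      omega
    have hα := fun i : Fin 3 => Sys.exists_thr
      (fun z => ∃ w ∈ Q, ∃ x, S.stv d w = some x ∧ S.gs x = i ∧ S.o x = z) Nb
    have hβ := fun i : Fin 3 => Sys.exists_thr'
      (fun z => ∃ w ∈ Q, ∃ x, S.env d w = some x ∧ ((S.ge x = i ∧ S.c x = z) ∨
        (S.xt x ∧ i = 2 ∧ S.xc x = z))) Nb (by
        rintro z ⟨w, -, x, -, ⟨-, rfl⟩ | ⟨-, -, rfl⟩⟩
        · exact (hNb x).1
        · exact (hNb x).2)
    choose α hα1 hα2 using hα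
    choose β hβ1 hβ2 using hβ
    have hDαβ := hd α β
    -- the four facts
    have k1 : ∀ w ∈ Q, ∀ x, S.stv d w = some x → α (S.gs x) ≤ S.o x := fun w hw x hx =>
      hα1 _ _ ⟨w, hw, x, hx, rfl, rfl⟩
    have k2 : ∀ w ∈ Q, ∀ x, S.env d w = some x → ¬ S.En β x := by
      rintro w hw x hx (h | ⟨h, h'⟩)
      · have := hβ1 _ _ ⟨w, hw, x, hx, Or.inl ⟨rfl, rfl⟩⟩
        omega
      · have := hβ1 2 _ ⟨w, hw, x, hx, Or.inr ⟨h, rfl, rfl⟩⟩
        omega
    have k3 : ∀ w' y, S.env d w' = some y → S.En α y → w' ∈ N := by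
      rintro w' y hy (hle | ⟨hxt, hle⟩)
      · obtain ⟨z, hz, w, hw, x, hx, hg, rfl⟩ := hα2 (S.ge y) (S.c y) (hNb y).1 hle
        rw [hmem]
        refine ⟨w, hw, Or.inl (Or.inl ⟨x, y, hx, hy, Or.inl ⟨hg, ?_⟩⟩)⟩
        exact lt_of_le_of_ne hz (S.oc x y hg)
      · obtain ⟨z, hz, w, hw, x, hx, hg, rfl⟩ := hα2 2 (S.xc y) (hNb y).2 hle
        rw [hmem]
        refine ⟨w, hw, Or.inl (Or.inl ⟨x, y, hx, hy, Or.inr ⟨hxt, hg, ?_⟩⟩)⟩
        exact lt_of_le_of_ne hz (S.ocx x y hxt hg)
    have k4 : ∀ w' x, S.stv d w' = some x → S.o x < β (S.gs x) → w' ∈ N := by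
      intro w' x hx hle
      obtain ⟨z, hz, w, hw, y, hy, ⟨hg, rfl⟩ | ⟨hxt, hg, rfl⟩⟩ := hβ2 (S.gs x) (S.o x) hle
      · rw [hmem]
        refine ⟨w, hw, Or.inl (Or.inr (Or.inl ⟨x, y, hx, hy, Or.inl ⟨hg.symm, ?_⟩⟩))⟩
        exact lt_of_le_of_ne hz (S.oc x y hg.symm)
      · rw [hmem]
        refine ⟨w, hw, Or.inl (Or.inr (Or.inl ⟨x, y, hx, hy, Or.inr ⟨hxt, hg, ?_⟩⟩))⟩
        exact lt_of_le_of_ne hz (S.ocx x y hxt hg)
    have k5 : ∀ j : Fin d, (Sum.inr (Sum.inr j) : S.W d) ∈ N := by
      intro j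
      rw [hmem]
      refine ⟨_, hs0, Or.inl (Or.inr (Or.inr (Or.inr ⟨?_, trivial, ?_⟩)))⟩
      · intro h
        simp at h
      · exact fun h => h
    have k6 : ∀ j : Fin d, (Sum.inr (Sum.inr j) : S.W d) ∉ Q := fun j hj => hnd _ hj trivial
    -- counting
    have e1 : Q.card = (∑ f : S.FF, ((if (Sum.inl (Sum.inl f) : S.W d) ∈ Q then 1 else 0)
        + (if (Sum.inl (Sum.inr f) : S.W d) ∈ Q then 1 else 0)))
        + ∑ s : S.TT, (if (Sum.inr (Sum.inl s) : S.W d) ∈ Q then 1 else 0) := by
      have : Q.card = ∑ w : S.W d, (if w ∈ Q then 1 else 0) := by simp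
      rw [this, Fintype.sum_sum_type, Fintype.sum_sum_type, Fintype.sum_sum_type,
        Finset.sum_add_distrib]
      have : ∑ j : Fin d, (if (Sum.inr (Sum.inr j) : S.W d) ∈ Q then 1 else 0) = 0 :=
        Finset.sum_eq_zero (fun j _ => if_neg (k6 j))
      rw [this]
      ring
    have e2 : N.card = (∑ f : S.FF, ((if (Sum.inl (Sum.inl f) : S.W d) ∈ N then 1 else 0)
        + (if (Sum.inl (Sum.inr f) : S.W d) ∈ N then 1 else 0)))
        + ∑ s : S.TT, (if (Sum.inr (Sum.inl s) : S.W d) ∈ N then 1 else 0) + d := by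
      have : N.card = ∑ w : S.W d, (if w ∈ N then 1 else 0) := by simp
      rw [this, Fintype.sum_sum_type, Fintype.sum_sum_type, Fintype.sum_sum_type,
        Finset.sum_add_distrib]
      have : ∑ j : Fin d, (if (Sum.inr (Sum.inr j) : S.W d) ∈ N then 1 else 0) = d := by
        rw [Finset.sum_congr rfl (fun j _ => if_pos (k5 j))]
        simp
      rw [this]
      ring
    have e3 : S.D α β = ∑ f : S.FF, S.dl α β f.1 + ∑ s : S.TT, S.dl α β s.1 := by
      rw [D, ← Fintype.sum_subtype_add_sum_subtype (fun x => S.gs x = S.ge x)]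
    have f1 : ∀ f : S.FF, ((if (Sum.inl (Sum.inl f) : S.W d) ∈ Q then 1 else 0)
        + (if (Sum.inl (Sum.inr f) : S.W d) ∈ Q then 1 else 0)) + S.dl α β f.1
        ≤ ((if (Sum.inl (Sum.inl f) : S.W d) ∈ N then 1 else 0)
        + (if (Sum.inl (Sum.inr f) : S.W d) ∈ N then 1 else 0)) := by
      intro f
      have a1 : (Sum.inl (Sum.inl f) : S.W d) ∈ Q → α (S.gs f.1) ≤ S.o f.1 := fun h => k1 _ h _ rfl
      have a2 : (Sum.inl (Sum.inr f) : S.W d) ∈ Q → ¬ S.En β f.1 := fun h => k2 _ h _ rfl
      have a3 : S.En α f.1 → (Sum.inl (Sum.inr f) : S.W d) ∈ N := fun h => k3 _ _ rfl h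
      have a4 : S.o f.1 < β (S.gs f.1) → (Sum.inl (Sum.inl f) : S.W d) ∈ N := fun h =>
        k4 _ _ rfl h
      have a5 := f.lt
      have a6 : α (S.gs f.1) ≤ S.o f.1 → S.En α f.1 := fun h => Or.inl (by rw [← f.2]; omega)
      have a7 : ¬ S.En β f.1 → ¬ β (S.gs f.1) ≤ S.o f.1 := fun h h' => h (Or.inl (by
        rw [← f.2]; omega))
      unfold dl
      rw [if_pos f.2]
      have b1 : (if (Sum.inl (Sum.inl f) : S.W d) ∈ Q then 1 else 0)
          + (if S.o f.1 < α (S.gs f.1) ∧ S.En α f.1 then 1 else 0)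
          ≤ (if (Sum.inl (Sum.inr f) : S.W d) ∈ N then 1 else 0) := by
        by_cases hN' : (Sum.inl (Sum.inr f) : S.W d) ∈ N
        · rw [if_pos hN']
          by_cases hq : (Sum.inl (Sum.inl f) : S.W d) ∈ Q
          · have := a1 hq
            rw [if_pos hq, if_neg (by omega)]
          · rw [if_neg hq]
            split_ifs <;> simp
        · rw [if_neg hN']
          have h1 : ¬ S.En α f.1 := fun h => hN' (a3 h)
          have hq : (Sum.inl (Sum.inl f) : S.W d) ∉ Q := fun h => h1 (a6 (a1 h))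
          rw [if_neg hq, if_neg (fun h => h1 h.2)]
      have b2 : (if (Sum.inl (Sum.inr f) : S.W d) ∈ Q then 1 else 0)
          + (if S.o f.1 < β (S.gs f.1) ∧ S.En β f.1 then 1 else 0)
          ≤ (if (Sum.inl (Sum.inl f) : S.W d) ∈ N then 1 else 0) := by
        by_cases hN' : (Sum.inl (Sum.inl f) : S.W d) ∈ N
        · rw [if_pos hN']
          by_cases hq : (Sum.inl (Sum.inr f) : S.W d) ∈ Q
          · have := a2 hq
            rw [if_pos hq, if_neg (fun h => this h.2)]
          · rw [if_neg hq]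
            split_ifs <;> simp
        · rw [if_neg hN']
          have h1 : ¬ S.o f.1 < β (S.gs f.1) := fun h => hN' (a4 h)
          have hq : (Sum.inl (Sum.inr f) : S.W d) ∉ Q := fun h => a7 (a2 h) (by omega)
          rw [if_neg hq, if_neg (fun h => h1 h.1)]
      omega
    have f2 : ∀ s : S.TT, (if (Sum.inr (Sum.inl s) : S.W d) ∈ Q then 1 else 0) + S.dl α β s.1
        ≤ (if (Sum.inr (Sum.inl s) : S.W d) ∈ N then 1 else 0) + 1 := by
      intro s
      have a1 : (Sum.inr (Sum.inl s) : S.W d) ∈ Q → α (S.gs s.1) ≤ S.o s.1 := fun h => k1 _ h _ rfl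
      have a2 : (Sum.inr (Sum.inl s) : S.W d) ∈ Q → ¬ S.En β s.1 := fun h => k2 _ h _ rfl
      have a3 : S.En α s.1 → (Sum.inr (Sum.inl s) : S.W d) ∈ N := fun h => k3 _ _ rfl h
      have a4 : S.o s.1 < β (S.gs s.1) → (Sum.inr (Sum.inl s) : S.W d) ∈ N := fun h =>
        k4 _ _ rfl h
      unfold dl
      rw [if_neg s.2]
      have b1 : (if S.o s.1 < β (S.gs s.1) ∨ S.En α s.1 then 1 else 0)
          ≤ (if (Sum.inr (Sum.inl s) : S.W d) ∈ N then 1 else 0) := by
        by_cases hN' : (Sum.inr (Sum.inl s) : S.W d) ∈ N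
        · rw [if_pos hN']
          split_ifs <;> simp
        · rw [if_neg hN', if_neg]
          rintro (h | h)
          · exact hN' (a4 h)
          · exact hN' (a3 h)
      have b2 : (if (Sum.inr (Sum.inl s) : S.W d) ∈ Q then 1 else 0)
          + (if S.o s.1 < α (S.gs s.1) ∨ S.En β s.1 then 1 else 0) ≤ 1 := by
        by_cases hq : (Sum.inr (Sum.inl s) : S.W d) ∈ Q
        · have h3 := a1 hq
          have h4 := a2 hq
          rw [if_pos hq, if_neg (by
            rintro (h | h)
            · omega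
            · exact h4 h)]
        · rw [if_neg hq]
          split_ifs <;> simp
      omega
    have g1 := Finset.sum_le_sum (fun f (_ : f ∈ (univ : Finset S.FF)) => f1 f)
    have g2 := Finset.sum_le_sum (fun s (_ : s ∈ (univ : Finset S.TT)) => f2 s)
    rw [Finset.sum_add_distrib] at g1 g2
    rw [Finset.sum_add_distrib (g := fun _ => 1)] at g2
    simp only [Finset.sum_const, smul_eq_mul, mul_one, Finset.card_univ] at g2
    omega


/-! ### odd cycles -/

theorem odd_nonfree {π : Equiv.Perm (S.W d)}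
    (hπ : ∀ w, S.adjW d w (π w) ∨ (w = π w ∧ S.isD d w)) {x : S.W d} (ho : Odd (pl π x)) :
    ∃ w ∈ orb π x, ¬ S.isF d w := by
  by_contra hcon
  push Not at hcon
  have hev : Even (pl π x) := by
    refine Sys.alternate (fun w => ∃ y, S.stv d w = some y) (fun w hw => ?_)
    have h1 := hcon w hw
    have h2 := hcon (π w) (map_mem_orb hw)
    have h3 := hπ w
    generalize π w = w' at *
    rcases w with (f | f) | w
    · rcases w' with (f' | f') | w'
      · exfalso
        rcases h3 with (⟨a, b, ha, hb, -⟩ | ⟨a, b, ha, hb, -⟩ | ⟨-, h, -⟩ | ⟨-, h, -⟩) | ⟨-, h⟩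
        · simp [env] at hb
        · simp [env] at hb
        · exact h
        · exact h
        · exact h
      · simp [stv]
      · exact absurd h2 (fun h => h)
    · rcases w' with (f' | f') | w'
      · simp [stv]
      · exfalso
        rcases h3 with (⟨a, b, ha, hb, -⟩ | ⟨a, b, ha, hb, -⟩ | ⟨-, h, -⟩ | ⟨-, h, -⟩) | ⟨-, h⟩
        · simp [stv] at ha
        · simp [stv] at ha
        · exact h
        · exact h
        · exact h
      · exact absurd h2 (fun h => h)
    · exact absurd h1 (fun h => h)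
  rw [← Nat.not_even_iff_odd] at ho
  exact ho hev

/-- start and end of the same vertex -/
theorem stv_env {w : S.W d} {x y : V} (hx : S.stv d w = some x) (hy : S.env d w = some y) :
    x = y ∧ S.ge x = S.gs x + 1 := by
  rcases w with (f | f) | (s | j)
  · simp [env] at hy
  · simp [stv] at hx
  · simp only [stv, env, Option.some.injEq] at hx hy
    subst hx
    exact ⟨hy, s.eq⟩
  · simp [env] at hy

theorem odd_gap1 {π : Equiv.Perm (S.W d)}
    (hπ : ∀ w, S.adjW d w (π w) ∨ (w = π w ∧ S.isD d w)) {x : S.W d} (ho : Odd (pl π x))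
    (hD : ∀ w ∈ orb π x, ¬ S.isD d w) :
    ∃ w ∈ orb π x, ∃ w' ∈ orb π x, ∃ a b, S.stv d w = some a ∧ S.env d w' = some b ∧
      (S.gs a = S.ge b ∧ S.o a < S.c b) ∧ S.gs a = 1 := by
  by_contra hcon
  push Not at hcon
  have key : ∀ w ∈ orb π x, ∀ w' ∈ orb π x, S.lkW d w w' →
      (((∃ y, S.stv d w' = some y ∧ S.gs y = 2) ∨ (∃ y, S.env d w' = some y ∧ S.ge y = 0)) ↔
      ¬ ((∃ y, S.stv d w = some y ∧ S.gs y = 2) ∨ (∃ y, S.env d w = some y ∧ S.ge y = 0))) := by
    rintro w hw w' hw' ⟨a, b, ha, hb, hab⟩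
    have h02 : (S.gs a = 0 ∧ S.ge b = 0) ∨ (S.gs a = 2 ∧ (S.ge b = 1 ∨ S.ge b = 2)) := by
      rcases hab with hab | ⟨h1, h2, -⟩
      · have h0 := hcon w hw w' hw' a b ha hb hab
        have hg : S.gs a = S.ge b := hab.1
        revert h0
        rw [← hg]
        generalize S.gs a = i
        revert i
        decide
      · exact Or.inr ⟨h2, Or.inl (S.xg b h1)⟩
    rcases h02 with ⟨h, h'⟩ | ⟨h, h'⟩
    · constructor
      · rintro - (⟨y, hy, hy1⟩ | ⟨y, hy, hy1⟩)
        · rw [ha, Option.some.injEq] at hy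
          subst hy
          rw [h] at hy1
          exact absurd hy1 (by decide)
        · obtain ⟨rfl, h2⟩ := stv_env ha hy
          rw [hy1, h] at h2
          exact absurd h2 (by decide)
      · intro _
        exact Or.inr ⟨b, hb, h'⟩
    · constructor
      · rintro (⟨y, hy, hy1⟩ | ⟨y, hy, hy1⟩)
        · obtain ⟨rfl, h2⟩ := stv_env hy hb
          rw [hy1] at h2
          rcases h' with h' | h' <;> rw [h'] at h2 <;> exact absurd h2 (by decide)
        · rw [hb, Option.some.injEq] at hy
          subst hy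
          rcases h' with h' | h' <;> rw [h'] at hy1 <;> exact absurd hy1 (by decide)
      · intro hh
        exact absurd (Or.inl ⟨a, ha, h⟩) hh
  have hev : Even (pl π x) := by
    refine Sys.alternate (fun w => (∃ y, S.stv d w = some y ∧ S.gs y = 2) ∨
      (∃ y, S.env d w = some y ∧ S.ge y = 0)) (fun w hw => ?_)
    have hw' := map_mem_orb hw
    rcases hπ w with (h | h | h | h) | h
    · exact key w hw _ hw' h
    · exact iff_not_comm.1 (key _ hw' w hw h)
    · exact absurd h.2.1 (hD w hw)
    · exact absurd h.2.1 (hD _ hw')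
    · exact absurd h.2 (hD w hw)
  rw [← Nat.not_even_iff_odd] at ho
  exact ho hev

theorem odd_adj {π : Equiv.Perm (S.W d)}
    (hπ : ∀ w, S.adjW d w (π w) ∨ (w = π w ∧ S.isD d w)) {x y : S.W d} (hxy : y ∉ orb π x)
    (hx : Odd (pl π x)) (hy : Odd (pl π y)) :
    ∃ x' ∈ orb π x, ∃ y' ∈ orb π y, S.adjW d x' y' := by
  have hne : ∀ x' ∈ orb π x, ∀ y' ∈ orb π y, x' ≠ y' := by
    rintro x' hx' y' hy' rfl
    exact hxy (mem_orb_trans hx' (mem_orb_symm hy'))
  by_cases h1 : ∃ w ∈ orb π x, S.isD d w
  · obtain ⟨w, hw, hwD⟩ := h1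
    obtain ⟨w', hw', hF⟩ := odd_nonfree hπ hy
    exact ⟨w, hw, w', hw', Or.inr (Or.inr (Or.inl ⟨hne w hw w' hw', hwD, hF⟩))⟩
  by_cases h2 : ∃ w ∈ orb π y, S.isD d w
  · obtain ⟨w, hw, hwD⟩ := h2
    obtain ⟨w', hw', hF⟩ := odd_nonfree hπ hx
    exact ⟨w', hw', w, hw, Or.inr (Or.inr (Or.inr ⟨(hne w' hw' w hw).symm, hwD, hF⟩))⟩
  push Not at h1 h2
  obtain ⟨w1, hw1, w2, hw2, a, b, ha, hb, hab, h0⟩ := odd_gap1 hπ hx h1
  obtain ⟨w3, hw3, w4, hw4, a', b', ha', hb', hab', h0'⟩ := odd_gap1 hπ hy h2
  have hg1 := hab.1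
  have hg2 := hab'.1
  have hl1 := hab.2
  have hl2 := hab'.2
  rcases le_total (S.o a) (S.o a') with h | h
  · refine ⟨w1, hw1, w4, hw4, Or.inl ⟨a, b', ha, hb', Or.inl ⟨?_, ?_⟩⟩⟩
    · rw [← hg2, h0, h0']
    · omega
  · refine ⟨w2, hw2, w3, hw3, Or.inr (Or.inl ⟨a', b, ha', hb, Or.inl ⟨?_, ?_⟩⟩)⟩
    · rw [← hg1, h0, h0']
    · omega

/-- the matching graph has a perfect matching -/
theorem exists_matching (t : ℕ) (hd : Fintype.card S.TT = 2 * t + d)
    (hD : ∀ a b, 2 * t ≤ S.D a b) :
    ∃ g : S.W d → S.W d, ∀ w, g (g w) = w ∧ g w ≠ w ∧ S.adjW d w (g w) := by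
  have hH := (Finset.all_card_le_biUnion_card_iff_exists_injective
    (fun w : S.W d => univ.filter (fun w' => S.adjW d w w' ∨ (w = w' ∧ S.isD d w)))).1
    (fun Q => hall (fun a b => by have := hD a b; omega) Q)
  obtain ⟨f, hf, hf'⟩ := hH
  let π : Equiv.Perm (S.W d) := Equiv.ofBijective f (Finite.injective_iff_bijective.1 hf)
  have hπ : ∀ w, S.adjW d w (π w) ∨ (w = π w ∧ S.isD d w) := by
    intro w
    have := hf' w
    rw [Finset.mem_filter] at this
    exact this.2
  refine perm_matching (adj := S.adjW d) (π := π) adjW_symm (fun w => ?_)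
    (fun x y h1 h2 h3 => odd_adj hπ h1 h2 h3) ?_
  · rcases hπ w with h | h
    · exact Or.inl h
    · exact Or.inr h.1.symm
  · rw [Fintype.card_sum, Fintype.card_sum, Fintype.card_sum, Fintype.card_fin, hd]
    exact ⟨Fintype.card S.FF + t + d, by ring⟩

/-! ### the assignment of the singles -/

/-- the start vertex of an arc -/
noncomputable def sv (S : Sys2 V) (d : ℕ) (x : V) : S.W d :=
  if h : S.gs x = S.ge x then Sum.inl (Sum.inl ⟨x, h⟩) else Sum.inr (Sum.inl ⟨x, h⟩)

/-- the end vertex of an arc -/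
noncomputable def ev (S : Sys2 V) (d : ℕ) (x : V) : S.W d :=
  if h : S.gs x = S.ge x then Sum.inl (Sum.inr ⟨x, h⟩) else Sum.inr (Sum.inl ⟨x, h⟩)

theorem stv_sv (x : V) : S.stv d (S.sv d x) = some x := by
  unfold sv
  split_ifs <;> rfl

theorem env_ev (x : V) : S.env d (S.ev d x) = some x := by
  unfold ev
  split_ifs <;> rfl

theorem eq_sv {w : S.W d} {x : V} (h : S.stv d w = some x) : w = S.sv d x := by
  rcases w with (f | f) | (s | j)
  · simp only [stv, Option.some.injEq] at h
    subst h
    rw [sv, dif_pos f.2]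
  · simp [stv] at h
  · simp only [stv, Option.some.injEq] at h
    subst h
    rw [sv, dif_neg s.2]
  · simp [stv] at h

theorem eq_ev {w : S.W d} {x : V} (h : S.env d w = some x) : w = S.ev d x := by
  rcases w with (f | f) | (s | j)
  · simp [env] at h
  · simp only [env, Option.some.injEq] at h
    subst h
    rw [ev, dif_pos f.2]
  · simp only [env, Option.some.injEq] at h
    subst h
    rw [ev, dif_neg s.2]
  · simp [env] at h

theorem pack (S : Sys2 V) (t : ℕ) (hD : ∀ a b, 2 * t ≤ S.D a b) :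
    ∃ E B K : Finset V, Disjoint E B ∧ (∀ x ∈ E, S.gs x ≠ S.ge x) ∧ (∀ x ∈ B, S.gs x ≠ S.ge x) ∧
      (∀ x ∈ K, S.xt x ∧ (S.gs x = S.ge x ∨ x ∈ E)) ∧ t ≤ E.card ∧
      (∀ i p, (E.filter (fun x => S.ge x = i)).card ≤
        (E.filter (fun x => S.ge x = i ∧ (S.xt x ∨ p ≤ S.c x))).card +
        (B.filter (fun x => S.gs x = i ∧ S.o x < p)).card +
        (univ.filter (fun x => S.gs x = i ∧ S.ge x = i ∧ S.o x < p ∧
          (S.xt x ∨ p ≤ S.c x))).card) ∧
      (E.filter (fun x => S.ge x = 1)).card ≤ (B.filter (fun x => S.gs x = 1)).card + K.card ∧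
      (∀ p, (E.filter (fun x => S.ge x = 2)).card + K.card ≤
        (E.filter (fun x => S.ge x = 2 ∧ p ≤ S.c x)).card + (K.filter (fun x => p ≤ S.xc x)).card +
        (B.filter (fun x => S.gs x = 2 ∧ S.o x < p)).card +
        (univ.filter (fun x => S.gs x = 2 ∧ S.ge x = 2 ∧ S.o x < p ∧ p ≤ S.c x)).card) := by
  -- there are enough singles
  have hT : 2 * t ≤ Fintype.card S.TT := by
    obtain ⟨Nb, hNb⟩ : ∃ Nb, ∀ x, S.c x < Nb ∧ S.o x < Nb ∧ S.xc x < Nb := by
      refine ⟨univ.sup S.c + univ.sup S.o + univ.sup S.xc + 1, fun x => ?_⟩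
      have := Finset.le_sup (f := S.c) (Finset.mem_univ x)
      have := Finset.le_sup (f := S.o) (Finset.mem_univ x)
      have := Finset.le_sup (f := S.xc) (Finset.mem_univ x)
      omega
    have h1 := hD (fun _ => 0) (fun _ => Nb)
    have hEn : ∀ x, ¬ S.En (fun _ => Nb) x := by
      rintro x (h | ⟨-, h⟩)
      · have h0 : Nb ≤ S.c x := h
        have := (hNb x).1
        omega
      · have h0 : Nb ≤ S.xc x := h
        have := (hNb x).2.2
        omega
    have h2 : S.D (fun _ => 0) (fun _ => Nb) = Fintype.card S.TT := by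
      rw [D, ← Fintype.sum_subtype_add_sum_subtype (fun x => S.gs x = S.ge x)]
      have e1 : ∀ f : S.FF, S.dl (fun _ => 0) (fun _ => Nb) f.1 = 0 := by
        intro f
        rw [dl, if_pos f.2, if_neg (by omega), if_neg (fun h => hEn _ h.2)]
      have e2 : ∀ s : S.TT, S.dl (fun _ => 0) (fun _ => Nb) s.1 = 1 := by
        intro s
        have := hNb s.1
        rw [dl, if_neg s.2, if_pos (Or.inl (by omega)), if_neg (by
          rintro (h | h)
          · omega
          · exact hEn _ h)]
      rw [Finset.sum_congr rfl (fun f _ => e1 f), Finset.sum_congr rfl (fun s _ => e2 s)]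
      simp
    omega
  obtain ⟨d, hd⟩ : ∃ d, Fintype.card S.TT = 2 * t + d := ⟨_, (Nat.add_sub_of_le hT).symm⟩
  obtain ⟨g, hg⟩ := exists_matching (S := S) (d := d) t hd hD
  have hginj : Function.Injective g := fun a b h => by
    rw [← (hg a).1, ← (hg b).1, h]
  -- facts on the types
  have hxt : ∀ x, S.xt x → (S.gs x = 1 ∨ S.gs x = 0) := by
    intro x hx
    have h1 := S.xg x hx
    rcases S.ty x with h | h
    · exact Or.inl (h.1.trans h1)
    · right
      rw [h1] at h
      revert h
      generalize S.gs x = i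
      revert i
      decide
  -- the end of `x` is used with the start of `y`
  let P : V → V → Prop := fun x y => g (S.ev d x) = S.sv d y ∧ S.lk y x ∧
    ¬ (S.xt x ∧ S.gs y = 2 ∧ S.gs x = S.ge y ∧ S.o x < S.c y)
  have hPu : ∀ x x' y, P x y → P x' y → x = x' := by
    intro x x' y h h'
    have h1 := hginj (h.1.trans h'.1.symm)
    have h2 := congrArg (S.env d) h1
    rw [env_ev, env_ev] at h2
    exact Option.some.inj h2
  have hPu' : ∀ x y y', P x y → P x y' → y = y' := by
    intro x y y' h h'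
    have h1 := h.1.symm.trans h'.1
    have h2 := congrArg (S.stv d) h1
    rw [stv_sv, stv_sv] at h2
    exact Option.some.inj h2
  let E : Finset V := univ.filter (fun x => S.gs x ≠ S.ge x ∧ ∃ y, P x y)
  let B : Finset V := univ.filter (fun y => S.gs y ≠ S.ge y ∧ ∃ x, P x y)
  let K : Finset V := univ.filter (fun x => S.xt x ∧ ∃ y, P x y ∧ S.gs y = 2)
  have hE : ∀ x, x ∈ E ↔ S.gs x ≠ S.ge x ∧ ∃ y, P x y := fun x => by simp [E]
  have hB : ∀ y, y ∈ B ↔ S.gs y ≠ S.ge y ∧ ∃ x, P x y := fun y => by simp [B]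
  have hK : ∀ x, x ∈ K ↔ S.xt x ∧ ∃ y, P x y ∧ S.gs y = 2 := fun x => by simp [K]
  -- free arcs
  have hFe : ∀ x, S.gs x = S.ge x → ∃ y, P x y := by
    intro x hx
    have h1 := (hg (S.ev d x)).2.2
    have h2 : S.ev d x = Sum.inl (Sum.inr ⟨x, hx⟩) := by rw [ev, dif_pos hx]
    rcases h1 with h | h | h | h
    · obtain ⟨a, b, ha, -, -⟩ := h
      rw [h2] at ha
      simp [stv] at ha
    · obtain ⟨a, b, ha, hb, hab⟩ := h
      rw [env_ev, Option.some.injEq] at hb
      subst hb
      refine ⟨a, eq_sv ha, hab, ?_⟩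
      rintro ⟨h1, h2, h3, -⟩
      have h4 := S.xg _ h1
      rw [hx, h4] at h3
      rcases S.ty a with h5 | h5
      · rw [h2, ← h3] at h5
        exact absurd h5.1 (by decide)
      · rw [h2, ← h3] at h5
        exact absurd h5 (by decide)
    · have := h.2.1
      rw [h2] at this
      exact absurd this (fun h => h)
    · have := h.2.2
      rw [h2] at this
      exact absurd trivial this
  have hFs : ∀ y, S.gs y = S.ge y → ∃ x, P x y := by
    intro y hy
    have h1 := (hg (S.sv d y)).2.2
    have h2 : S.sv d y = Sum.inl (Sum.inl ⟨y, hy⟩) := by rw [sv, dif_pos hy]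
    rcases h1 with h | h | h | h
    · obtain ⟨a, b, ha, hb, hab⟩ := h
      rw [stv_sv, Option.some.injEq] at ha
      subst ha
      refine ⟨b, ?_, hab, ?_⟩
      · rw [← eq_ev hb]
        exact (hg _).1
      · rintro ⟨h1, h2, h3, -⟩
        rw [← hy, h2] at h3
        rcases hxt b h1 with h4 | h4 <;> rw [h4] at h3 <;> exact absurd h3 (by decide)
    · obtain ⟨a, b, -, hb, -⟩ := h
      rw [h2] at hb
      simp [env] at hb
    · have := h.2.1
      rw [h2] at this
      exact absurd this (fun h => h)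
    · have := h.2.2
      rw [h2] at this
      exact absurd trivial this
  have hsingle : ∀ x, S.gs x ≠ S.ge x → S.ge x = S.gs x + 1 := by
    intro x hne
    rcases S.ty x with h | h
    · exact absurd h.1 hne
    · exact h
  -- disjointness
  have hdis : Disjoint E B := by
    rw [Finset.disjoint_left]
    intro x hx hx'
    rw [hE] at hx
    rw [hB] at hx'
    obtain ⟨hne, y, hy⟩ := hx
    obtain ⟨-, z, hz⟩ := hx'
    have e1 : S.ev d x = S.sv d x := by rw [ev, sv, dif_neg hne, dif_neg hne]
    have e2 : g (S.sv d x) = S.ev d z := by rw [← hz.1]; exact (hg _).1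
    have e3 : S.sv d y = S.ev d z := by rw [← hy.1, e1, e2]
    have h1 := stv_env (S := S) (d := d) (w := S.sv d y) (stv_sv y) (by rw [e3]; exact env_ev z)
    obtain ⟨rfl, h2⟩ := h1
    obtain ⟨-, h3, h3'⟩ := hy
    obtain ⟨-, h4, h4'⟩ := hz
    have h5 : S.ge x = S.gs x + 1 := hsingle x hne
    rcases h3 with ⟨a1, a2⟩ | ⟨a1, a2, a3⟩
    · rcases h4 with ⟨b1, b2⟩ | ⟨b1, b2, b3⟩
      · have h6 : S.gs y = S.gs y + 1 + 1 := by
          rw [h5, b1, h2] at a1
          exact a1
        revert h6
        generalize S.gs y = i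
        revert i
        decide
      · exact h4' ⟨b1, b2, a1, a2⟩
    · rcases h4 with ⟨b1, b2⟩ | ⟨b1, b2, b3⟩
      · exact h3' ⟨a1, a2, b1, b2⟩
      · have c1 := S.xg _ a1
        have c2 := S.xg _ b1
        rw [h2, a2] at c2
        exact absurd c2 (by decide)
  -- every single with a partner in the system is in `E` or `B`
  have hEB : ∀ x, S.gs x ≠ S.ge x → x ∈ E ∨ x ∈ B ∨ S.isD d (g (S.sv d x)) := by
    intro x hx
    have e1 : S.ev d x = S.sv d x := by rw [ev, sv, dif_neg hx, dif_neg hx]
    rcases (hg (S.sv d x)).2.2 with h | h | h | h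
    · obtain ⟨a, b, ha, hb, hab⟩ := h
      rw [stv_sv, Option.some.injEq] at ha
      subst ha
      by_cases hex : S.xt b ∧ S.gs x = 2 ∧ S.gs b = S.ge x ∧ S.o b < S.c x
      · left
        have hbs : S.gs b ≠ S.ge b := by
          intro hh
          have h1 := hsingle x hx
          have h2 := S.xg _ hex.1
          rw [← hex.2.2.1, hh, h2, hex.2.1] at h1
          exact absurd h1 (by decide)
        have e2 : S.ev d b = S.sv d b := by rw [ev, sv, dif_neg hbs, dif_neg hbs]
        rw [hE]
        refine ⟨hx, b, ?_, Or.inl hex.2.2, ?_⟩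
        · rw [e1, ← e2]
          exact eq_ev hb
        · rintro ⟨h1, -⟩
          have h2 := S.xg _ h1
          have h3 := hsingle x hx
          rw [h2, hex.2.1] at h3
          exact absurd h3 (by decide)
      · right; left
        rw [hB]
        refine ⟨hx, b, ?_, hab, hex⟩
        rw [← eq_ev hb]
        exact (hg _).1
    · obtain ⟨a, b, ha, hb, hab⟩ := h
      rw [← e1, env_ev, Option.some.injEq] at hb
      subst hb
      by_cases hex : S.xt x ∧ S.gs a = 2 ∧ S.gs x = S.ge a ∧ S.o x < S.c a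
      · right; left
        have has : S.gs a ≠ S.ge a := by
          intro hh
          rw [← hh, hex.2.1] at hex
          rcases hxt x hex.1 with h4 | h4 <;> rw [h4] at hex <;> exact absurd hex.2.2.1 (by decide)
        have e2 : S.ev d a = S.sv d a := by rw [ev, sv, dif_neg has, dif_neg has]
        rw [hB]
        refine ⟨hx, a, ?_, Or.inl hex.2.2, ?_⟩
        · rw [e2, ← eq_sv ha]
          exact (hg _).1
        · rintro ⟨h1, -⟩
          have h2 := S.xg _ h1
          have h3 := hsingle a has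
          rw [h2, hex.2.1] at h3
          exact absurd h3 (by decide)
      · left
        rw [hE]
        refine ⟨hx, a, ?_, hab, hex⟩
        rw [e1]
        exact eq_sv ha
    · have := h.2.1
      rw [sv, dif_neg hx] at this
      exact absurd this (fun h => h)
    · exact Or.inr (Or.inr h.2.1)
  let F : Finset V := univ.filter (fun x => S.gs x = S.ge x)
  have hF : ∀ x, x ∈ F ↔ S.gs x = S.ge x := fun x => by simp [F]
  -- injections between used end events and used start events
  have inj1 : ∀ (X Y : Finset V), (∀ x ∈ X, x ∈ E ∨ x ∈ F) →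
      (∀ x ∈ X, ∀ y, P x y → (y ∈ B ∨ y ∈ F) → y ∈ Y) → X.card ≤ Y.card := by
    intro X Y hX hXY
    have h1 : ∀ x ∈ X, ∃ y, P x y := by
      intro x hx
      rcases hX x hx with h | h
      · exact ((hE x).1 h).2
      · exact hFe x ((hF x).1 h)
    choose! σ hσ using h1
    refine Finset.card_le_card_of_injOn σ ?_ ?_
    · intro x hx
      refine hXY x hx _ (hσ x hx) ?_
      by_cases h : S.gs (σ x) = S.ge (σ x)
      · exact Or.inr ((hF _).2 h)
      · exact Or.inl ((hB _).2 ⟨h, x, hσ x hx⟩)
    · intro x hx x' hx' h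
      exact hPu x x' (σ x) (hσ x hx) (by rw [h]; exact hσ x' hx')
  have inj2 : ∀ (X Y : Finset V), (∀ y ∈ X, y ∈ B ∨ y ∈ F) →
      (∀ y ∈ X, ∀ x, P x y → (x ∈ E ∨ x ∈ F) → x ∈ Y) → X.card ≤ Y.card := by
    intro X Y hX hXY
    have h1 : ∀ y ∈ X, ∃ x, P x y := by
      intro x hx
      rcases hX x hx with h | h
      · exact ((hB x).1 h).2
      · exact hFs x ((hF x).1 h)
    choose! σ hσ using h1
    refine Finset.card_le_card_of_injOn σ ?_ ?_
    · intro x hx
      refine hXY x hx _ (hσ x hx) ?_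
      by_cases h : S.gs (σ x) = S.ge (σ x)
      · exact Or.inr ((hF _).2 h)
      · exact Or.inl ((hE _).2 ⟨h, x, hσ x hx⟩)
    · intro x hx x' hx' h
      exact hPu' (σ x) x x' (hσ x hx) (by rw [h]; exact hσ x' hx')
  have hdEF : Disjoint E F := by
    rw [Finset.disjoint_left]
    intro x h1 h2
    exact ((hE x).1 h1).1 ((hF x).1 h2)
  have hdBF : Disjoint B F := by
    rw [Finset.disjoint_left]
    intro x h1 h2
    exact ((hB x).1 h1).1 ((hF x).1 h2)
  have hKEF : ∀ x ∈ K, x ∈ E ∨ x ∈ F := by
    intro x hx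
    rw [hK] at hx
    by_cases h : S.gs x = S.ge x
    · exact Or.inr ((hF x).2 h)
    · exact Or.inl ((hE x).2 ⟨h, hx.2.choose, hx.2.choose_spec.1⟩)
  refine ⟨E, B, K, hdis, fun x hx => ((hE x).1 hx).1, fun x hx => ((hB x).1 hx).1, ?_, ?_, ?_, ?_,
    ?_⟩
  · intro x hx
    refine ⟨((hK x).1 hx).1, ?_⟩
    rcases hKEF x hx with h | h
    · exact Or.inr h
    · exact Or.inl ((hF x).1 h)
  · -- the number of used singles
    have h1 := inj2 (B ∪ F) (E ∪ F) (fun y hy => by simpa using hy)
      (fun y _ x _ h => by simpa using h)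
    rw [Finset.card_union_of_disjoint hdBF, Finset.card_union_of_disjoint hdEF] at h1
    let Z : Finset V := univ.filter (fun x => S.gs x ≠ S.ge x ∧ S.isD d (g (S.sv d x)))
    have hZ : Z.card ≤ d := by
      have h2 : (Z.image (fun x => g (S.sv d x))) ⊆
          (univ : Finset (Fin d)).image (fun j => (Sum.inr (Sum.inr j) : S.W d)) := by
        intro w hw
        rw [Finset.mem_image] at hw
        obtain ⟨x, hx, rfl⟩ := hw
        have h4 : S.isD d (g (S.sv d x)) := by
          have : x ∈ univ.filter (fun x => S.gs x ≠ S.ge x ∧ S.isD d (g (S.sv d x))) := hx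
          rw [Finset.mem_filter] at this
          exact this.2.2
        revert h4
        generalize g (S.sv d x) = w
        intro h4
        rcases w with w | (s | j)
        · exact absurd h4 (fun h => h)
        · exact absurd h4 (fun h => h)
        · exact Finset.mem_image_of_mem _ (Finset.mem_univ j)
      have h3 : (Z.image (fun x => g (S.sv d x))).card = Z.card := by
        refine Finset.card_image_of_injOn ?_
        intro x hx x' hx' h
        have h6 := congrArg (S.stv d) (hginj h)
        rw [stv_sv, stv_sv] at h6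
        exact Option.some.inj h6
      rw [← h3]
      refine (Finset.card_le_card h2).trans (Finset.card_image_le.trans ?_)
      simp
    have h3 : Fintype.card S.TT ≤ E.card + B.card + Z.card := by
      rw [Fintype.card_subtype]
      calc _ ≤ (E ∪ B ∪ Z).card := by
            refine Finset.card_le_card (fun x hx => ?_)
            rw [Finset.mem_filter] at hx
            rcases hEB x hx.2 with h | h | h
            · exact Finset.mem_union_left _ (Finset.mem_union_left _ h)
            · exact Finset.mem_union_left _ (Finset.mem_union_right _ h)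
            · exact Finset.mem_union_right _ (Finset.mem_filter.2 ⟨Finset.mem_univ _, hx.2, h⟩)
        _ ≤ (E ∪ B).card + Z.card := Finset.card_union_le _ _
        _ ≤ E.card + B.card + Z.card := by
            have := Finset.card_union_le E B
            omega
    omega
  · -- the load
    intro i p
    have h1 := inj1 ((E ∪ F).filter (fun x => S.ge x = i ∧ ¬ S.xt x ∧ S.c x < p))
      ((B ∪ F).filter (fun x => S.gs x = i ∧ S.o x < p)) (fun x hx => by
        rw [Finset.mem_filter, Finset.mem_union] at hx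
        exact hx.1) (fun x hx y hxy hy => by
        rw [Finset.mem_filter] at hx ⊢
        rcases hxy.2.1 with ⟨h2, h3⟩ | ⟨h2, -⟩
        · refine ⟨Finset.mem_union.2 hy, by rw [h2]; exact hx.2.1, by omega⟩
        · exact absurd h2 hx.2.2.1)
    have e1 : ((E ∪ F).filter (fun x => S.ge x = i ∧ ¬ S.xt x ∧ S.c x < p)).card
        = (E.filter (fun x => S.ge x = i ∧ ¬ S.xt x ∧ S.c x < p)).card
          + (F.filter (fun x => S.ge x = i ∧ ¬ S.xt x ∧ S.c x < p)).card := by
      rw [Finset.filter_union, Finset.card_union_of_disjoint (Finset.disjoint_filter_filter hdEF)]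
    have e2 : ((B ∪ F).filter (fun x => S.gs x = i ∧ S.o x < p)).card
        = (B.filter (fun x => S.gs x = i ∧ S.o x < p)).card
          + (F.filter (fun x => S.gs x = i ∧ S.o x < p)).card := by
      rw [Finset.filter_union, Finset.card_union_of_disjoint (Finset.disjoint_filter_filter hdBF)]
    have e3 : (F.filter (fun x => S.gs x = i ∧ S.o x < p)).card
        = (F.filter (fun x => S.ge x = i ∧ ¬ S.xt x ∧ S.c x < p)).card
          + (univ.filter (fun x => S.gs x = i ∧ S.ge x = i ∧ S.o x < p ∧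
            (S.xt x ∨ p ≤ S.c x))).card := by
      rw [← Finset.card_union_of_disjoint]
      · congr 1
        ext x
        simp only [Finset.mem_filter, Finset.mem_union, Finset.mem_univ, true_and, hF]
        constructor
        · rintro ⟨h1, h2, h3⟩
          by_cases h : ¬ S.xt x ∧ S.c x < p
          · exact Or.inl ⟨h1, h1 ▸ h2, h⟩
          · exact Or.inr ⟨h2, h1 ▸ h2, h3, by
              by_cases h' : S.xt x
              · exact Or.inl h'
              · right
                by_contra h''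
                exact h ⟨h', by omega⟩⟩
        · rintro (⟨h1, h2, -, h3⟩ | ⟨h1, h2, h3, h4⟩)
          · have := FF.lt (S := S) ⟨x, h1⟩
            exact ⟨h1, h1.trans h2, by simp only at this; omega⟩
          · exact ⟨h1.trans h2.symm, h1, h3⟩
      · rw [Finset.disjoint_left]
        intro x hx hx'
        rw [Finset.mem_filter] at hx hx'
        rcases hx'.2.2.2.2 with h | h
        · exact hx.2.2.1 h
        · have := hx.2.2.2
          omega
    have e4 : (E.filter (fun x => S.ge x = i)).card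
        = (E.filter (fun x => S.ge x = i ∧ (S.xt x ∨ p ≤ S.c x))).card
          + (E.filter (fun x => S.ge x = i ∧ ¬ S.xt x ∧ S.c x < p)).card := by
      rw [← Finset.card_union_of_disjoint]
      · congr 1
        ext x
        simp only [Finset.mem_filter, Finset.mem_union]
        constructor
        · rintro ⟨h1, h2⟩
          by_cases h : ¬ S.xt x ∧ S.c x < p
          · exact Or.inr ⟨h1, h2, h⟩
          · exact Or.inl ⟨h1, h2, by
              by_cases h' : S.xt x
              · exact Or.inl h'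
              · right
                by_contra h''
                exact h ⟨h', by omega⟩⟩
        · rintro (⟨h1, h2, h3⟩ | ⟨h1, h2, h3⟩)
          · exact ⟨h1, h2⟩
          · exact ⟨h1, h2⟩
      · rw [Finset.disjoint_left]
        intro x hx hx'
        rw [Finset.mem_filter] at hx hx'
        rcases hx.2.2 with h | h
        · exact hx'.2.2.1 h
        · have := hx'.2.2.2
          omega
    omega
  · -- the count in gap 1
    have h1 := inj1 ((E ∪ F).filter (fun x => S.ge x = 1 ∧ x ∉ K))
      ((B ∪ F).filter (fun x => S.gs x = 1)) (fun x hx => by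
        rw [Finset.mem_filter, Finset.mem_union] at hx
        exact hx.1) (fun x hx y hxy hy => by
        rw [Finset.mem_filter] at hx ⊢
        rcases hxy.2.1 with ⟨h2, h3⟩ | ⟨h2, h3, -⟩
        · exact ⟨Finset.mem_union.2 hy, h2.trans hx.2.1⟩
        · exact absurd ((hK x).2 ⟨h2, y, hxy, h3⟩) hx.2.2)
    have e1 : ((E ∪ F).filter (fun x => S.ge x = 1)).card
        ≤ ((E ∪ F).filter (fun x => S.ge x = 1 ∧ x ∉ K)).card + K.card := by
      refine le_trans (Finset.card_le_card ?_) (Finset.card_union_le _ _)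
      intro x hx
      rw [Finset.mem_filter] at hx
      by_cases h : x ∈ K
      · exact Finset.mem_union_right _ h
      · exact Finset.mem_union_left _ (Finset.mem_filter.2 ⟨hx.1, hx.2, h⟩)
    have e2 : ((E ∪ F).filter (fun x => S.ge x = 1)).card
        = (E.filter (fun x => S.ge x = 1)).card + (F.filter (fun x => S.ge x = 1)).card := by
      rw [Finset.filter_union, Finset.card_union_of_disjoint (Finset.disjoint_filter_filter hdEF)]
    have e3 : ((B ∪ F).filter (fun x => S.gs x = 1)).card
        = (B.filter (fun x => S.gs x = 1)).card + (F.filter (fun x => S.gs x = 1)).card := by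
      rw [Finset.filter_union, Finset.card_union_of_disjoint (Finset.disjoint_filter_filter hdBF)]
    have e4 : F.filter (fun x => S.ge x = 1) = F.filter (fun x => S.gs x = 1) := by
      refine Finset.filter_congr (fun x hx => ?_)
      rw [(hF x).1 hx]
    rw [e4] at e2
    omega
  · -- the load of gap 2
    intro p
    have hK2 : ∀ x ∈ K, S.ge x = 1 := fun x hx => S.xg x ((hK x).1 hx).1
    have h1 := inj1 (((E ∪ F).filter (fun x => S.ge x = 2 ∧ S.c x < p)) ∪
        K.filter (fun x => S.xc x < p))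
      ((B ∪ F).filter (fun x => S.gs x = 2 ∧ S.o x < p)) (fun x hx => by
        rcases Finset.mem_union.1 hx with hx | hx
        · exact Finset.mem_union.1 (Finset.mem_filter.1 hx).1
        · exact hKEF x (Finset.mem_filter.1 hx).1) (fun x hx y hxy hy => by
        rw [Finset.mem_union, Finset.mem_filter, Finset.mem_filter] at hx
        rw [Finset.mem_filter]
        rcases hx with hx | hx
        · rcases hxy.2.1 with ⟨h2, h3⟩ | ⟨h2, -⟩
          · refine ⟨Finset.mem_union.2 hy, by rw [h2]; exact hx.2.1, by omega⟩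
          · have := S.xg x h2
            rw [hx.2.1] at this
            exact absurd this (by decide)
        · obtain ⟨y', hy', h2y'⟩ := ((hK x).1 hx.1).2
          obtain rfl := hPu' x y y' hxy hy'
          rcases hxy.2.1 with ⟨h2, h3⟩ | ⟨h2, h3, h4⟩
          · rw [hK2 x hx.1, h2y'] at h2
            exact absurd h2 (by decide)
          · exact ⟨Finset.mem_union.2 hy, h3, by omega⟩)
    have e0 : (((E ∪ F).filter (fun x => S.ge x = 2 ∧ S.c x < p)) ∪
        K.filter (fun x => S.xc x < p)).card =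
        ((E ∪ F).filter (fun x => S.ge x = 2 ∧ S.c x < p)).card +
          (K.filter (fun x => S.xc x < p)).card := by
      rw [Finset.card_union_of_disjoint]
      rw [Finset.disjoint_left]
      intro x hx hx'
      rw [Finset.mem_filter] at hx hx'
      have := hK2 x hx'.1
      rw [hx.2.1] at this
      exact absurd this (by decide)
    have e1 : ((E ∪ F).filter (fun x => S.ge x = 2 ∧ S.c x < p)).card
        = (E.filter (fun x => S.ge x = 2 ∧ S.c x < p)).card
          + (F.filter (fun x => S.ge x = 2 ∧ S.c x < p)).card := by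
      rw [Finset.filter_union, Finset.card_union_of_disjoint (Finset.disjoint_filter_filter hdEF)]
    have e2 : ((B ∪ F).filter (fun x => S.gs x = 2 ∧ S.o x < p)).card
        = (B.filter (fun x => S.gs x = 2 ∧ S.o x < p)).card
          + (F.filter (fun x => S.gs x = 2 ∧ S.o x < p)).card := by
      rw [Finset.filter_union, Finset.card_union_of_disjoint (Finset.disjoint_filter_filter hdBF)]
    have e3 : (F.filter (fun x => S.gs x = 2 ∧ S.o x < p)).card
        = (F.filter (fun x => S.ge x = 2 ∧ S.c x < p)).card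
          + (univ.filter (fun x => S.gs x = 2 ∧ S.ge x = 2 ∧ S.o x < p ∧ p ≤ S.c x)).card := by
      rw [← Finset.card_union_of_disjoint]
      · congr 1
        ext x
        simp only [Finset.mem_filter, Finset.mem_union, Finset.mem_univ, true_and, hF]
        constructor
        · rintro ⟨h1, h2, h3⟩
          by_cases h : S.c x < p
          · exact Or.inl ⟨h1, h1 ▸ h2, h⟩
          · exact Or.inr ⟨h2, h1 ▸ h2, h3, by omega⟩
        · rintro (⟨h1, h2, h3⟩ | ⟨h1, h2, h3, h4⟩)
          · have := FF.lt (S := S) ⟨x, h1⟩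
            exact ⟨h1, h1.trans h2, by simp only at this; omega⟩
          · exact ⟨h1.trans h2.symm, h1, h3⟩
      · rw [Finset.disjoint_left]
        intro x hx hx'
        rw [Finset.mem_filter] at hx hx'
        omega
    have e4 : (E.filter (fun x => S.ge x = 2)).card
        = (E.filter (fun x => S.ge x = 2 ∧ p ≤ S.c x)).card
          + (E.filter (fun x => S.ge x = 2 ∧ S.c x < p)).card := by
      rw [← Finset.card_union_of_disjoint]
      · congr 1
        ext x
        simp only [Finset.mem_filter, Finset.mem_union]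
        constructor
        · rintro ⟨h1, h2⟩
          by_cases h : S.c x < p
          · exact Or.inr ⟨h1, h2, h⟩
          · exact Or.inl ⟨h1, h2, by omega⟩
        · rintro (⟨h1, h2, h3⟩ | ⟨h1, h2, h3⟩)
          · exact ⟨h1, h2⟩
          · exact ⟨h1, h2⟩
      · rw [Finset.disjoint_left]
        intro x hx hx'
        rw [Finset.mem_filter] at hx hx'
        omega
    have e5 : K.card = (K.filter (fun x => p ≤ S.xc x)).card
          + (K.filter (fun x => S.xc x < p)).card := by
      rw [← Finset.card_filter_add_card_filter_not (s := K) (fun x => p ≤ S.xc x)]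
      congr 2
      refine Finset.filter_congr (fun x _ => ?_)
      omega
    omega

end Sys2

end Pool.Agent.CA
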