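import Mathlib
import Pool.Agent.CA.Pack
import Pool.Agent.CA31.Main

/-!
Integral three-point packing for circular-arc graphs.
-/

set_option autoImplicit false

namespace Pool.Agent.CA

open Finset Pool.Agent.CA31
open scoped Classical

/-! ### chains in a gap -/

theorem conn_insert {V : Type} {G : SimpleGraph V} {C : Finset V}
    (hC : (G.induce (C : Set V)).Connected) {t x : V} (hx : x ∈ C) (h : G.Adj x t) :
    (G.induce ((insert t C : Finset V) : Set V)).Connected := by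
  have h1 : ((insert t C : Finset V) : Set V) = (C : Set V) ∪ {t} := by
    ext z
    simp [or_comm]
  rw [h1]
  refine SimpleGraph.connected_induce_union (v := x) (w := t) hC.preconnected ?_ ?_ ?_ h
  · exact SimpleGraph.Preconnected.of_subsingleton
  · exact_mod_cast hx
  · simp

theorem chains_aux {V : Type} {G : SimpleGraph V} (𝓕 : Finset V) (l r : V → ℕ) (N : ℕ)
    (hr : ∀ x ∈ 𝓕, ∀ y ∈ 𝓕, r x = r y → r x < N → x = y)
    (hlr : ∀ x ∈ 𝓕, ∀ y ∈ 𝓕, r x < N → l y ≠ r x + 1)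
    (hadj : ∀ x ∈ 𝓕, ∀ y ∈ 𝓕, x ≠ y → ∀ t, t ≤ N → l x ≤ t → t ≤ r x → l y ≤ t → t ≤ r y →
      G.Adj x y)
    (Z : Finset V) (hZ : Z ⊆ 𝓕) (hZ0 : ∀ x ∈ Z, l x = 0) (y : ℕ) :
    y ≤ N → (∀ t, t ≤ y → Z.card ≤ (𝓕.filter (fun x => l x ≤ t ∧ t ≤ r x)).card) →
    ∃ (C : V → Finset V) (cur : V → V),
      (∀ s ∈ Z, s ∈ C s ∧ cur s ∈ C s ∧ (l (cur s) ≤ y ∧ y ≤ r (cur s)) ∧ C s ⊆ 𝓕 ∧
        (G.induce (C s : Set V)).Connected ∧ ∀ x ∈ C s, x ≠ cur s → r x < y) ∧
      (∀ s ∈ Z, ∀ s' ∈ Z, s ≠ s' → Disjoint (C s) (C s')) := by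
  induction y with
  | zero =>
    intro _ _
    refine ⟨fun s => {s}, fun s => s, fun s hs => ?_, fun s _ s' _ hne => ?_⟩
    · refine ⟨by simp, by simp, ⟨by rw [hZ0 s hs], Nat.zero_le _⟩, by simpa using hZ hs, ?_, ?_⟩
      · rw [coe_singleton]
        exact SimpleGraph.Connected.of_subsingleton
      · intro x hx hne
        rw [mem_singleton] at hx
        exact absurd hx hne
    · simpa using hne
  | succ y ih =>
    intro hyN hl
    obtain ⟨C, cur, h1, h2⟩ := ih (by omega) (fun t ht => hl t (by omega))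
    by_cases hcase : ∃ s₀ ∈ Z, r (cur s₀) = y
    · obtain ⟨s₀, hs₀, hc₀⟩ := hcase
      have huniq : ∀ s ∈ Z, r (cur s) = y → s = s₀ := by
        intro s hs hc
        by_contra hne
        have := h2 s hs s₀ hs₀ hne
        have e : cur s = cur s₀ := hr _ ((h1 s hs).2.2.2.1 (h1 s hs).2.1) _
          ((h1 s₀ hs₀).2.2.2.1 (h1 s₀ hs₀).2.1) (by rw [hc, hc₀]) (by omega)
        rw [Finset.disjoint_left] at this
        exact this (h1 s hs).2.1 (e ▸ (h1 s₀ hs₀).2.1)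
      -- an unused arc
      have hex : ∃ t ∈ 𝓕.filter (fun x => l x ≤ y + 1 ∧ y + 1 ≤ r x), ∀ s ∈ Z, t ∉ C s := by
        by_contra hcon
        push Not at hcon
        have hsub : 𝓕.filter (fun x => l x ≤ y + 1 ∧ y + 1 ≤ r x) ⊆ (Z.erase s₀).image cur := by
          intro t ht
          obtain ⟨s, hs, hts⟩ := hcon t ht
          rw [mem_image]
          rw [mem_filter] at ht
          have hcur : t = cur s := by
            by_contra hne
            have := (h1 s hs).2.2.2.2.2 t hts hne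
            omega
          refine ⟨s, ?_, hcur.symm⟩
          rw [mem_erase]
          refine ⟨?_, hs⟩
          rintro rfl
          rw [hcur] at ht
          omega
        have hcard := (card_le_card hsub).trans card_image_le
        rw [card_erase_of_mem hs₀] at hcard
        have h3 := hl (y + 1) le_rfl
        have hpos : 0 < Z.card := card_pos.2 ⟨s₀, hs₀⟩
        omega
      obtain ⟨t, ht, htun⟩ := hex
      rw [mem_filter] at ht
      have hcur₀ := (h1 s₀ hs₀).2.2.1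
      have hcm₀ := (h1 s₀ hs₀).2.2.2.1 (h1 s₀ hs₀).2.1
      have hne_t : cur s₀ ≠ t := by
        rintro rfl
        exact htun s₀ hs₀ (h1 s₀ hs₀).2.1
      have hot : l t ≠ y + 1 := by
        have := hlr _ hcm₀ t ht.1 (by omega)
        omega
      have hadj' : G.Adj (cur s₀) t :=
        hadj _ hcm₀ t ht.1 hne_t y (by omega) hcur₀.1 hcur₀.2 (by omega) (by omega)
      refine ⟨Function.update C s₀ (insert t (C s₀)), Function.update cur s₀ t, ?_, ?_⟩
      · intro s hs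
        by_cases hss : s = s₀
        · subst hss
          rw [Function.update_self, Function.update_self]
          refine ⟨mem_insert_of_mem (h1 s hs).1, mem_insert_self _ _, ht.2, ?_, ?_, ?_⟩
          · exact insert_subset ht.1 (h1 s hs).2.2.2.1
          · exact conn_insert (h1 s hs).2.2.2.2.1 (h1 s hs).2.1 hadj'
          · intro x hx hxt
            rw [mem_insert] at hx
            rcases hx with hx | hx
            · exact absurd hx hxt
            · by_cases hxc : x = cur s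
              · rw [hxc]; omega
              · have := (h1 s hs).2.2.2.2.2 x hx hxc
                omega
        · rw [Function.update_of_ne hss, Function.update_of_ne hss]
          refine ⟨(h1 s hs).1, (h1 s hs).2.1, ?_, (h1 s hs).2.2.2.1, (h1 s hs).2.2.2.2.1, ?_⟩
          · have h3 := (h1 s hs).2.2.1
            have h4 : r (cur s) ≠ y := fun h => hss (huniq s hs h)
            exact ⟨by omega, by omega⟩
          · intro x hx hxc
            have := (h1 s hs).2.2.2.2.2 x hx hxc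
            omega
      · intro s hs s' hs' hne
        by_cases hss : s = s₀
        · subst hss
          rw [Function.update_self, Function.update_of_ne (Ne.symm hne)]
          rw [disjoint_insert_left]
          exact ⟨htun s' hs', h2 s hs s' hs' hne⟩
        · by_cases hss' : s' = s₀
          · subst hss'
            rw [Function.update_self, Function.update_of_ne hss]
            rw [disjoint_insert_right]
            exact ⟨htun s hs, h2 s hs s' hs' hne⟩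
          · rw [Function.update_of_ne hss, Function.update_of_ne hss']
            exact h2 s hs s' hs' hne
    · push Not at hcase
      refine ⟨C, cur, fun s hs => ?_, h2⟩
      refine ⟨(h1 s hs).1, (h1 s hs).2.1, ?_, (h1 s hs).2.2.2.1, (h1 s hs).2.2.2.2.1, ?_⟩
      · have h3 := (h1 s hs).2.2.1
        have h4 := hcase s hs
        exact ⟨by omega, by omega⟩
      · intro x hx hxc
        have := (h1 s hs).2.2.2.2.2 x hx hxc
        omega

/-! ### disjoint connected sets from a three-gap system -/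

/-- `x` covers the position `t` of gap `i` -/
def Sys.Cov {V : Type} (S : Sys V) (x : V) (i : Fin 3) (t : ℕ) : Prop :=
  (S.gs x = i ∨ S.ge x = i) ∧ (S.gs x = i → S.o x < t) ∧ (S.ge x = i → t ≤ S.c x)

theorem Sys.sets {V : Type} [Fintype V] (S : Sys V) {G : SimpleGraph V}
    (hci : ∀ x y, S.ge x = S.ge y → S.c x = S.c y → x = y)
    (hadj : ∀ x y, x ≠ y → ∀ i t, S.Cov x i t → S.Cov y i t → G.Adj x y) (t : ℕ)
    (hD : ∀ a b, 2 * t ≤ S.D a b) :
    ∃ (E : Finset V) (C : V → Finset V), t ≤ E.card ∧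
      (∀ s ∈ E, s ∈ C s ∧ S.gs s ≠ S.ge s ∧ (G.induce (C s : Set V)).Connected ∧
        ∃ x ∈ C s, S.gs x = S.ge s ∧ S.gs x ≠ S.ge x) ∧
      (∀ s ∈ E, ∀ s' ∈ E, s ≠ s' → Disjoint (C s) (C s')) := by
  obtain ⟨E, B, hEB, hE, hB, htE, hload⟩ := S.pack t hD
  obtain ⟨N, hN⟩ : ∃ N, ∀ x, S.o x < N ∧ S.c x < N := by
    refine ⟨univ.sup S.c + univ.sup S.o + 1, fun x => ?_⟩
    have := Finset.le_sup (f := S.c) (Finset.mem_univ x)
    have := Finset.le_sup (f := S.o) (Finset.mem_univ x)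
    omega
  -- the arcs used in gap `i`
  let 𝓕 : Fin 3 → Finset V := fun i => E.filter (fun x => S.ge x = i) ∪
    (B.filter (fun x => S.gs x = i) ∪ univ.filter (fun x => S.gs x = i ∧ S.ge x = i))
  have h𝓕 : ∀ i x, x ∈ 𝓕 i ↔ (x ∈ E ∧ S.ge x = i) ∨ (x ∈ B ∧ S.gs x = i) ∨
      (S.gs x = i ∧ S.ge x = i) := by
    intro i x
    simp [𝓕]
  let l : Fin 3 → V → ℕ := fun i x => if x ∈ E then 0 else S.o x + 1
  let r : Fin 3 → V → ℕ := fun i x => if x ∈ B then N else S.c x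
  have hlE : ∀ i x, x ∈ E → l i x = 0 := fun i x hx => if_pos hx
  have hlE' : ∀ i x, x ∉ E → l i x = S.o x + 1 := fun i x hx => if_neg hx
  have hrB : ∀ i x, x ∈ B → r i x = N := fun i x hx => if_pos hx
  have hrB' : ∀ i x, x ∉ B → r i x = S.c x := fun i x hx => if_neg hx
  have hdis : ∀ x, x ∈ E → x ∉ B := fun x h h' => (Finset.disjoint_left.1 hEB) h h'
  -- covering
  have hcov : ∀ i x, x ∈ 𝓕 i → ∀ p, p ≤ N → l i x ≤ p → p ≤ r i x → S.Cov x i p := by
    intro i x hx p hp h1 h2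
    rw [h𝓕] at hx
    rcases hx with ⟨hx, hi⟩ | ⟨hx, hi⟩ | ⟨hi, hi'⟩
    · rw [hrB' i x (hdis x hx)] at h2
      refine ⟨Or.inr hi, fun h => ?_, fun _ => h2⟩
      exact absurd (h.trans hi.symm) (hE x hx)
    · have hxE : x ∉ E := fun h => hdis x h hx
      rw [hlE' i x hxE] at h1
      refine ⟨Or.inl hi, fun _ => by omega, fun h => ?_⟩
      exact absurd (hi.trans h.symm) (hB x hx)
    · have hxE : x ∉ E := fun h => hE x h (hi.trans hi'.symm)
      have hxB : x ∉ B := fun h => hB x h (hi.trans hi'.symm)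
      rw [hlE' i x hxE] at h1
      rw [hrB' i x hxB] at h2
      exact ⟨Or.inl hi, fun _ => by omega, fun _ => h2⟩
  have hch : ∀ i : Fin 3, ∃ (C : V → Finset V) (cur : V → V),
      (∀ s ∈ E.filter (fun x => S.ge x = i), s ∈ C s ∧ cur s ∈ C s ∧
        (l i (cur s) ≤ N ∧ N ≤ r i (cur s)) ∧ C s ⊆ 𝓕 i ∧
        (G.induce (C s : Set V)).Connected ∧ ∀ x ∈ C s, x ≠ cur s → r i x < N) ∧
      (∀ s ∈ E.filter (fun x => S.ge x = i), ∀ s' ∈ E.filter (fun x => S.ge x = i), s ≠ s' →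
        Disjoint (C s) (C s')) := by
    intro i
    refine chains_aux (𝓕 i) (l i) (r i) N ?_ ?_ ?_ (E.filter (fun x => S.ge x = i)) ?_ ?_ N
      le_rfl ?_
    · intro x hx y hy h1 h2
      have hxB : x ∉ B := fun h => by rw [hrB i x h] at h2; omega
      have hyB : y ∉ B := fun h => by rw [h1, hrB i y h] at h2; omega
      rw [hrB' i x hxB, hrB' i y hyB] at h1
      rw [h𝓕] at hx hy
      have e1 : S.ge x = i := by
        rcases hx with h | h | h
        · exact h.2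
        · exact absurd h.1 hxB
        · exact h.2
      have e2 : S.ge y = i := by
        rcases hy with h | h | h
        · exact h.2
        · exact absurd h.1 hyB
        · exact h.2
      exact hci x y (e1.trans e2.symm) h1
    · intro x hx y hy h1
      have hxB : x ∉ B := fun h => by rw [hrB i x h] at h1; omega
      rw [hrB' i x hxB]
      rw [h𝓕] at hx hy
      have e1 : S.ge x = i := by
        rcases hx with h | h | h
        · exact h.2
        · exact absurd h.1 hxB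
        · exact h.2
      by_cases hyE : y ∈ E
      · rw [hlE i y hyE]
        omega
      · rw [hlE' i y hyE]
        have e2 : S.gs y = i := by
          rcases hy with h | h | h
          · exact absurd h.1 hyE
          · exact h.2
          · exact h.1
        have := S.oc y x (e2.trans e1.symm)
        omega
    · intro x hx y hy hne p hp h1 h2 h3 h4
      exact hadj x y hne i p (hcov i x hx p hp h1 h2) (hcov i y hy p hp h3 h4)
    · intro x hx
      rw [mem_filter] at hx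
      exact (h𝓕 i x).2 (Or.inl hx)
    · intro x hx
      rw [mem_filter] at hx
      exact hlE i x hx.1
    · intro p hp
      refine (hload i p).trans ?_
      rw [← Finset.card_union_of_disjoint, ← Finset.card_union_of_disjoint]
      · refine Finset.card_le_card (fun x hx => ?_)
        rw [mem_filter, h𝓕]
        simp only [mem_union, mem_filter, mem_univ, true_and] at hx
        rcases hx with (⟨hx, hi, hc⟩ | ⟨hx, hi, ho⟩) | ⟨hi, hi', ho, hc⟩
        · refine ⟨Or.inl ⟨hx, hi⟩, ?_, ?_⟩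
          · rw [hlE i x hx]; omega
          · rw [hrB' i x (hdis x hx)]; exact hc
        · have hxE : x ∉ E := fun h => hdis x h hx
          refine ⟨Or.inr (Or.inl ⟨hx, hi⟩), ?_, ?_⟩
          · rw [hlE' i x hxE]; omega
          · rw [hrB i x hx]; exact hp
        · have hxE : x ∉ E := fun h => hE x h (hi.trans hi'.symm)
          have hxB : x ∉ B := fun h => hB x h (hi.trans hi'.symm)
          refine ⟨Or.inr (Or.inr ⟨hi, hi'⟩), ?_, ?_⟩
          · rw [hlE' i x hxE]; omega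
          · rw [hrB' i x hxB]; exact hc
      · rw [Finset.disjoint_left]
        intro x hx hx'
        simp only [mem_union, mem_filter, mem_univ, true_and] at hx hx'
        rcases hx with hx | hx
        · exact hE x hx.1 (hx'.1.trans hx'.2.1.symm)
        · exact hB x hx.1 (hx'.1.trans hx'.2.1.symm)
      · rw [Finset.disjoint_left]
        intro x hx hx'
        rw [mem_filter] at hx hx'
        exact hdis x hx.1 hx'.1
  choose C cur hC1 hC2 using hch
  have hdis𝓕 : ∀ i j, i ≠ j → Disjoint (𝓕 i) (𝓕 j) := by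
    intro i j hij
    rw [Finset.disjoint_left]
    intro x hx hx'
    rw [h𝓕] at hx hx'
    rcases hx with ⟨h1, h2⟩ | ⟨h1, h2⟩ | ⟨h1, h2⟩ <;> rcases hx' with ⟨h3, h4⟩ | ⟨h3, h4⟩ | ⟨h3, h4⟩
    · exact hij (h2.symm.trans h4)
    · exact hdis x h1 h3
    · exact hE x h1 (h3.trans h4.symm)
    · exact hdis x h3 h1
    · exact hij (h2.symm.trans h4)
    · exact hB x h1 (h3.trans h4.symm)
    · exact hE x h3 (h1.trans h2.symm)
    · exact hB x h3 (h1.trans h2.symm)
    · exact hij (h1.symm.trans h3)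
  refine ⟨E, fun s => C (S.ge s) s, htE, ?_, ?_⟩
  · intro s hs
    obtain ⟨h1, h2, h3, h4, h5, -⟩ := hC1 (S.ge s) s (mem_filter.2 ⟨hs, rfl⟩)
    refine ⟨h1, hE s hs, h5, cur (S.ge s) s, h2, ?_⟩
    have h6 := h4 h2
    have hBm : cur (S.ge s) s ∈ B := by
      by_contra hB'
      rw [hrB' (S.ge s) _ hB'] at h3
      have := (hN (cur (S.ge s) s)).2
      omega
    rw [h𝓕] at h6
    refine ⟨?_, hB _ hBm⟩
    rcases h6 with h | h | h
    · exact absurd hBm (hdis _ h.1)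
    · exact h.2
    · exact h.1
  · intro s hs s' hs' hne
    by_cases hg : S.ge s = S.ge s'
    · have := hC2 (S.ge s) s (mem_filter.2 ⟨hs, rfl⟩) s' (mem_filter.2 ⟨hs', hg.symm⟩) hne
      show Disjoint (C (S.ge s) s) (C (S.ge s') s')
      rw [← hg]
      exact this
    · have h1 := (hC1 (S.ge s) s (mem_filter.2 ⟨hs, rfl⟩)).2.2.2.1
      have h2 := (hC1 (S.ge s') s' (mem_filter.2 ⟨hs', rfl⟩)).2.2.2.1
      exact Finset.disjoint_of_subset_left h1 (Finset.disjoint_of_subset_right h2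
        (hdis𝓕 _ _ hg))

/-! ### minors -/

theorem hasMinor_of_family {V κ : Type} [Fintype κ] {G : SimpleGraph V} (f : κ → Set V)
    (h1 : ∀ i, (G.induce (f i)).Connected) (h2 : ∀ i j, i ≠ j → Disjoint (f i) (f j))
    (h3 : ∀ i j, i ≠ j → ∃ u ∈ f i, ∃ v ∈ f j, G.Adj u v) {m : ℕ} (hm : m ≤ Fintype.card κ) :
    HasMinor G m := by
  let e : Fin (Fintype.card κ) ≃ κ := (Fintype.equivFin κ).symm
  have hinj : ∀ i j : Fin m, i ≠ j → e (Fin.castLE hm i) ≠ e (Fin.castLE hm j) := by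
    intro i j hij h
    apply hij
    have := e.injective h
    exact Fin.castLE_injective hm this
  exact ⟨fun i => f (e (Fin.castLE hm i)), fun i => h1 _, fun i j hij => h2 _ _ (hinj i j hij),
    fun i j hij => h3 _ _ (hinj i j hij)⟩

/-! ### the three-point packing in a circular-arc model -/

section model

variable {V : Type} [Fintype V] {M : Model V} {G : SimpleGraph V}

/-- an arc which meets the segment between `x ≤ y` and contains a position outside of it contains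
`x` or `y` -/
theorem mem_or_mem {z : V} {x y s t : ℕ} (hs : s ≤ x ∨ y ≤ s) (hx : x ≤ t) (hy : t ≤ y)
    (h : M.Mem z s) (h' : M.Mem z t) : M.Mem z x ∨ M.Mem z y := by
  unfold Model.Mem at *
  omega

/-- there are arcs inside both sides of the pair of positions `x ≤ y` -/
def Far (M : Model V) (x y : ℕ) : Prop :=
  (∃ z, ∀ t, x ≤ t → t ≤ y → ¬ M.Mem z t) ∧ (∃ z, ∀ t, (t ≤ x ∨ y ≤ t) → ¬ M.Mem z t)

/-- the arcs through `x` or `y` -/
noncomputable def AU (M : Model V) (x y : ℕ) : Finset V :=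
  univ.filter (fun z => M.Mem z x ∨ M.Mem z y)

theorem mem_AU {x y : ℕ} {z : V} : z ∈ AU M x y ↔ M.Mem z x ∨ M.Mem z y := by
  simp [AU]

/-- the number of points of the triple in `z`, at most two -/
noncomputable def cn (M : Model V) (u v : ℕ) (z : V) : ℕ :=
  (if M.Mem z 0 then 1 else 0) + (if M.Mem z u then 1 else 0) + (if M.Mem z v then 1 else 0)

/-- the gap of an event -/
def gp (u v e : ℕ) : Fin 3 := if e < u then 0 else if e < v then 1 else 2

theorem gp0 {u v e : ℕ} (h : e < u) : gp u v e = 0 := if_pos h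
theorem gp1 {u v e : ℕ} (h : u ≤ e) (h' : e < v) : gp u v e = 1 := by
  rw [gp, if_neg (by omega), if_pos h']
theorem gp2 {u v e : ℕ} (huv : u ≤ v) (h : v ≤ e) : gp u v e = 2 := by
  rw [gp, if_neg (by omega), if_neg (by omega)]

theorem gp_cases {u v : ℕ} (huv : u ≤ v) (e : ℕ) :
    (e < u ∧ gp u v e = 0) ∨ (u ≤ e ∧ e < v ∧ gp u v e = 1) ∨ (v ≤ e ∧ gp u v e = 2) := by
  rcases lt_or_ge e u with h | h
  · exact Or.inl ⟨h, gp0 h⟩
  · rcases lt_or_ge e v with h' | h'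
    · exact Or.inr (Or.inl ⟨h, h', gp1 h h'⟩)
    · exact Or.inr (Or.inr ⟨h', gp2 huv h'⟩)

/-- the type of the arcs with at most one of the three points -/
theorem nonmulti_ty {u v : ℕ} (h0u : 0 < u) (huv : u < v) {z : V} (hz : cn M u v z ≤ 1) :
    (gp u v (M.o z) = gp u v (M.c z) ∧ M.o z < M.c z) ∨
      gp u v (M.c z) = gp u v (M.o z) + 1 := by
  have hne := M.o_ne_c z z
  rcases gp_cases huv.le (M.o z) with ⟨h1, e1⟩ | ⟨h1, h1', e1⟩ | ⟨h1, e1⟩ <;>
    rcases gp_cases huv.le (M.c z) with ⟨h2, e2⟩ | ⟨h2, h2', e2⟩ | ⟨h2, e2⟩ <;> rw [e1, e2]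
  · left
    refine ⟨rfl, ?_⟩
    by_contra hcon
    unfold cn Model.Mem at hz
    rw [if_pos (by omega), if_pos (by omega)] at hz
    omega
  · right; decide
  · exfalso
    unfold cn Model.Mem at hz
    rw [if_pos (c := (M.o z < M.c z ∧ M.o z < u ∧ u ≤ M.c z) ∨ _) (by omega),
      if_pos (c := (M.o z < M.c z ∧ M.o z < v ∧ v ≤ M.c z) ∨ _) (by omega)] at hz
    omega
  · exfalso
    unfold cn Model.Mem at hz
    rw [if_pos (c := (M.o z < M.c z ∧ M.o z < 0 ∧ 0 ≤ M.c z) ∨ _) (by omega),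
      if_pos (c := (M.o z < M.c z ∧ M.o z < v ∧ v ≤ M.c z) ∨ _) (by omega)] at hz
    omega
  · left
    refine ⟨rfl, ?_⟩
    by_contra hcon
    unfold cn Model.Mem at hz
    rw [if_pos (by omega), if_pos (by omega)] at hz
    omega
  · right; decide
  · right; decide
  · exfalso
    unfold cn Model.Mem at hz
    rw [if_pos (c := (M.o z < M.c z ∧ M.o z < 0 ∧ 0 ≤ M.c z) ∨ _) (by omega),
      if_pos (c := (M.o z < M.c z ∧ M.o z < u ∧ u ≤ M.c z) ∨ _) (by omega)] at hz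
    omega
  · left
    refine ⟨rfl, ?_⟩
    by_contra hcon
    unfold cn Model.Mem at hz
    rw [if_pos (c := (M.o z < M.c z ∧ M.o z < 0 ∧ 0 ≤ M.c z) ∨ _) (by omega),
      if_pos (c := (M.o z < M.c z ∧ M.o z < u ∧ u ≤ M.c z) ∨ _) (by omega)] at hz
    omega

/-- the system of the arcs with at most one of the three points -/
def msys (M : Model V) {u v : ℕ} (h0u : 0 < u) (huv : u < v) :
    Sys {z : V // cn M u v z ≤ 1} where
  gs z := gp u v (M.o z.1)
  ge z := gp u v (M.c z.1)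
  o z := M.o z.1
  c z := M.c z.1
  ty z := nonmulti_ty h0u huv z.2
  oc x y _ := M.o_ne_c x.1 y.1

theorem pair_in {k x y p q N : ℕ} (hxy : x ≤ y) (hyN : y ≤ N)
    (hcut : ∀ x y, x ≤ y → y ≤ N → Far M x y → k ≤ (AU M x y).card)
    (hpq : k ≤ (AU M p q).card) (hp : p ≤ x ∨ y ≤ p) (hq : q ≤ x ∨ y ≤ q)
    (hz : ∃ z, ∀ t, (t ≤ x ∨ y ≤ t) → ¬ M.Mem z t) : k ≤ (AU M x y).card := by
  by_cases h : ∃ z, ∀ t, x ≤ t → t ≤ y → ¬ M.Mem z t
  · exact hcut x y hxy hyN ⟨h, hz⟩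
  · push Not at h
    refine hpq.trans (Finset.card_le_card (fun z hz' => ?_))
    rw [mem_AU] at hz' ⊢
    obtain ⟨t, h1, h2, h3⟩ := h z
    rcases hz' with h4 | h4
    · exact mem_or_mem hp h1 h2 h4 h3
    · exact mem_or_mem hq h1 h2 h4 h3

theorem pair_out {k x y p q N : ℕ} (hxy : x ≤ y) (hyN : y ≤ N)
    (hcut : ∀ x y, x ≤ y → y ≤ N → Far M x y → k ≤ (AU M x y).card)
    (hpq : k ≤ (AU M p q).card) (hp : x ≤ p ∧ p ≤ y) (hq : x ≤ q ∧ q ≤ y)
    (hz : ∃ z, ∀ t, x ≤ t → t ≤ y → ¬ M.Mem z t) : k ≤ (AU M x y).card := by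
  by_cases h : ∃ z, ∀ t, (t ≤ x ∨ y ≤ t) → ¬ M.Mem z t
  · exact hcut x y hxy hyN ⟨hz, h⟩
  · push Not at h
    refine hpq.trans (Finset.card_le_card (fun z hz' => ?_))
    rw [mem_AU] at hz' ⊢
    obtain ⟨t, h1, h2⟩ := h z
    rcases hz' with h4 | h4
    · exact mem_or_mem h1 hp.1 hp.2 h2 h4
    · exact mem_or_mem h1 hq.1 hq.2 h2 h4

/-- the number of the three pairs which `z` meets -/
noncomputable def pc (M : Model V) (α0 β0 α1 β1 α2 β2 : ℕ) (z : V) : ℕ :=
  (if M.Mem z α0 ∨ M.Mem z β2 then 1 else 0) + (if M.Mem z β0 ∨ M.Mem z α1 then 1 else 0) +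
    (if M.Mem z β1 ∨ M.Mem z α2 then 1 else 0)

theorem sum_pc_ge {k α0 β0 α1 β1 α2 β2 : ℕ} (P Q : Finset V) (hP : k ≤ P.card)
    (hQ : k ≤ Q.card)
    (h : ∀ z, (if z ∈ P then 1 else 0) + (if z ∈ Q then 1 else 0)
      ≤ min 2 (pc M α0 β0 α1 β1 α2 β2 z)) :
    2 * k ≤ ∑ z, min 2 (pc M α0 β0 α1 β1 α2 β2 z) := by
  have h1 := Finset.sum_le_sum (fun z (_ : z ∈ (univ : Finset V)) => h z)
  rw [Finset.sum_add_distrib] at h1
  simp only [Finset.sum_ite_mem, Finset.univ_inter, Finset.sum_const, smul_eq_mul, mul_one] at h1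
  omega

theorem main_ineq {k u v N : ℕ} (h0u : 0 < u) (huv : u < v) (hvN : v ≤ N)
    (hcut : ∀ x y, x ≤ y → y ≤ N → Far M x y → k ≤ (AU M x y).card)
    (h01 : k ≤ (AU M 0 u).card) (h02 : k ≤ (AU M 0 v).card) (h12 : k ≤ (AU M u v).card)
    (hV : 2 * k ≤ ∑ z, min 2 (cn M u v z))
    {α0 β0 α1 β1 α2 β2 : ℕ} (i0 : α0 ≤ β0) (i1 : β0 ≤ u) (i2 : u ≤ α1) (i3 : α1 ≤ β1)
    (i4 : β1 ≤ v) (i5 : v ≤ α2) (i6 : α2 ≤ β2) (i7 : β2 ≤ N) :
    2 * k ≤ ∑ z, min 2 (pc M α0 β0 α1 β1 α2 β2 z) := by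
  by_cases c1 : ∃ z, ∀ t, (t ≤ β0 ∨ α1 ≤ t) → ¬ M.Mem z t
  · have e1 := pair_in (x := β0) (y := α1) (by omega) (by omega) hcut h02 (Or.inl (by omega))
      (Or.inr (by omega)) c1
    have e2 := pair_in (x := α0) (y := β1) (by omega) (by omega) hcut h02 (Or.inl (by omega))
      (Or.inr (by omega)) (by
        obtain ⟨z, hz⟩ := c1
        exact ⟨z, fun t ht => hz t (by omega)⟩)
    refine sum_pc_ge (AU M β0 α1) (AU M α0 β1) e1 e2 (fun z => ?_)
    unfold pc
    simp only [mem_AU]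
    split_ifs <;> first | omega | (exfalso; tauto)
  by_cases c2 : ∃ z, ∀ t, (t ≤ β1 ∨ α2 ≤ t) → ¬ M.Mem z t
  · have e1 := pair_in (x := β1) (y := α2) (by omega) (by omega) hcut h01 (Or.inl (by omega))
      (Or.inl (by omega)) c2
    have e2 := pair_in (x := α1) (y := β2) (by omega) (by omega) hcut h01 (Or.inl (by omega))
      (Or.inl (by omega)) (by
        obtain ⟨z, hz⟩ := c2
        exact ⟨z, fun t ht => hz t (by omega)⟩)
    refine sum_pc_ge (AU M β1 α2) (AU M α1 β2) e1 e2 (fun z => ?_)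
    unfold pc
    simp only [mem_AU]
    split_ifs <;> first | omega | (exfalso; tauto)
  by_cases c0 : ∃ z, ∀ t, α0 ≤ t → t ≤ β2 → ¬ M.Mem z t
  · have e1 := pair_out (x := α0) (y := β2) (by omega) (by omega) hcut h12 ⟨by omega, by omega⟩
      ⟨by omega, by omega⟩ c0
    have e2 := pair_out (x := β0) (y := α2) (by omega) (by omega) hcut h12 ⟨by omega, by omega⟩
      ⟨by omega, by omega⟩ (by
        obtain ⟨z, hz⟩ := c0
        exact ⟨z, fun t ht ht' => hz t (by omega) (by omega)⟩)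
    refine sum_pc_ge (AU M α0 β2) (AU M β0 α2) e1 e2 (fun z => ?_)
    unfold pc
    simp only [mem_AU]
    split_ifs <;> first | omega | (exfalso; tauto)
  push Not at c1 c2 c0
  refine hV.trans (Finset.sum_le_sum (fun z _ => ?_))
  have m0 : M.Mem z 0 → M.Mem z α0 ∨ M.Mem z β2 := by
    intro h
    obtain ⟨t, h1, h2, h3⟩ := c0 z
    exact mem_or_mem (Or.inl (Nat.zero_le _)) h1 h2 h h3
  have m1 : M.Mem z u → M.Mem z β0 ∨ M.Mem z α1 := by
    intro h
    obtain ⟨t, h1, h3⟩ := c1 z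
    exact mem_or_mem h1 i1 i2 h3 h
  have m2 : M.Mem z v → M.Mem z β1 ∨ M.Mem z α2 := by
    intro h
    obtain ⟨t, h1, h3⟩ := c2 z
    exact mem_or_mem h1 i4 i5 h3 h
  unfold cn pc
  split_ifs <;> first | omega | (exfalso; tauto)

theorem ev0 {e u v a b : ℕ} (h : e < u) (huv : u < v) :
    (e < min (min a b) u ↔ e < a ∧ e < b) ∧ (e < min (max a b) u ↔ e < a ∨ e < b) ∧
      (∀ X, e < max u X) ∧ (∀ X, e < max v X) :=
  ⟨by omega, by omega, fun X => by omega, fun X => by omega⟩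

theorem ev1 {e u v a b : ℕ} (h : u ≤ e) (h' : e < v) :
    (∀ X, ¬ e < min X u) ∧ (e < max u (min (min a b) v) ↔ e < a ∧ e < b) ∧
      (e < max u (min (max a b) v) ↔ e < a ∨ e < b) ∧ (∀ X, e < max v X) :=
  ⟨fun X => by omega, by omega, by omega, fun X => by omega⟩

theorem ev2 {e u v N a b : ℕ} (h : v ≤ e) (huv : u < v) (h' : e < N) :
    (∀ X, ¬ e < min X u) ∧ (∀ X, ¬ e < max u (min X v)) ∧
      (e < max v (min (min a b) N) ↔ e < a ∧ e < b) ∧
      (e < max v (min (max a b) N) ↔ e < a ∨ e < b) :=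
  ⟨fun X => by omega, fun X => by omega, by omega, by omega⟩

/-- arcs with at most one of the three points: comparison of the two counts (arithmetic) -/
theorem pc_arith {o c u v N a0 b0 a1 b1 a2 b2 : ℕ} (huv : u < v)
    (ho : o < N) (hc : c < N) (Mm : ℕ → Prop)
    (hM : ∀ t, Mm t ↔ (o < c ∧ o < t ∧ t ≤ c) ∨ (c < o ∧ (t ≤ c ∨ o < t))) (x y : ℕ)
    (hxy : (o < u ∧ c < u ∧ o < c ∧ x = (if o < a0 ∧ a0 ≤ c then 1 else 0) ∧
        y = (if o < b0 ∧ b0 ≤ c then 1 else 0)) ∨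
      (u ≤ o ∧ c < v ∧ o < c ∧ x = (if o < a1 ∧ a1 ≤ c then 1 else 0) ∧
        y = (if o < b1 ∧ b1 ≤ c then 1 else 0)) ∨
      (v ≤ o ∧ o < c ∧ x = (if o < a2 ∧ a2 ≤ c then 1 else 0) ∧
        y = (if o < b2 ∧ b2 ≤ c then 1 else 0)) ∨
      (o < u ∧ u ≤ c ∧ c < v ∧ x = (if o < b0 ∨ a1 ≤ c then 1 else 0) ∧
        y = (if o < a0 ∨ b1 ≤ c then 1 else 0)) ∨
      (u ≤ o ∧ o < v ∧ v ≤ c ∧ x = (if o < b1 ∨ a2 ≤ c then 1 else 0) ∧
        y = (if o < a1 ∨ b2 ≤ c then 1 else 0)) ∨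
      (v ≤ o ∧ c < u ∧ x = (if o < b2 ∨ a0 ≤ c then 1 else 0) ∧
        y = (if o < a2 ∨ b0 ≤ c then 1 else 0))) :
    min 2 ((if Mm (min (min a0 b0) u) ∨ Mm (max v (min (max a2 b2) N)) then 1 else 0) +
      (if Mm (min (max a0 b0) u) ∨ Mm (max u (min (min a1 b1) v)) then 1 else 0) +
      (if Mm (max u (min (max a1 b1) v)) ∨ Mm (max v (min (min a2 b2) N)) then 1 else 0))
      ≤ x + y := by
  rcases hxy with ⟨h1, h2, h3, rfl, rfl⟩ | ⟨h1, h2, h3, rfl, rfl⟩ | ⟨h1, h3, rfl, rfl⟩ |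
    ⟨h1, h2, h3, rfl, rfl⟩ | ⟨h1, h2, h3, rfl, rfl⟩ | ⟨h1, h3, rfl, rfl⟩
  · have hm : ∀ t, Mm t ↔ o < t ∧ ¬ c < t := fun t => by rw [hM]; omega
    have o1 := ev0 (a := a0) (b := b0) h1 huv
    have c1 := ev0 (a := a0) (b := b0) h2 huv
    simp only [hm, ← not_lt (a := c), o1.1, o1.2.1, o1.2.2.1, o1.2.2.2, c1.1, c1.2.1, c1.2.2.1,
      c1.2.2.2]
    by_cases A : o < a0 <;> by_cases B : o < b0 <;> by_cases C : c < a0 <;>
      by_cases D : c < b0 <;> simp [A, B, C, D]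
  · have hm : ∀ t, Mm t ↔ o < t ∧ ¬ c < t := fun t => by rw [hM]; omega
    have o1 := ev1 (a := a1) (b := b1) h1 (by omega : o < v)
    have c1 := ev1 (a := a1) (b := b1) (by omega : u ≤ c) h2
    simp only [hm, ← not_lt (a := c), o1.1, o1.2.1, o1.2.2.1, o1.2.2.2, c1.1, c1.2.1, c1.2.2.1,
      c1.2.2.2]
    by_cases A : o < a1 <;> by_cases B : o < b1 <;> by_cases C : c < a1 <;>
      by_cases D : c < b1 <;> simp [A, B, C, D]
  · have hm : ∀ t, Mm t ↔ o < t ∧ ¬ c < t := fun t => by rw [hM]; omega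
    have o1 := ev2 (a := a2) (b := b2) h1 huv ho
    have c1 := ev2 (a := a2) (b := b2) (by omega : v ≤ c) huv hc
    simp only [hm, ← not_lt (a := c), o1.1, o1.2.1, o1.2.2.1, o1.2.2.2, c1.1, c1.2.1, c1.2.2.1,
      c1.2.2.2]
    by_cases A : o < a2 <;> by_cases B : o < b2 <;> by_cases C : c < a2 <;>
      by_cases D : c < b2 <;> simp [A, B, C, D]
  · have hm : ∀ t, Mm t ↔ o < t ∧ ¬ c < t := fun t => by rw [hM]; omega
    have o1 := ev0 (a := a0) (b := b0) h1 huv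
    have c1 := ev1 (a := a1) (b := b1) h2 h3
    simp only [hm, ← not_lt (a := c), o1.1, o1.2.1, o1.2.2.1, o1.2.2.2, c1.1, c1.2.1, c1.2.2.1,
      c1.2.2.2]
    by_cases A : o < a0 <;> by_cases B : o < b0 <;> by_cases C : c < a1 <;>
      by_cases D : c < b1 <;> simp [A, B, C, D]
  · have hm : ∀ t, Mm t ↔ o < t ∧ ¬ c < t := fun t => by rw [hM]; omega
    have o1 := ev1 (a := a1) (b := b1) h1 h2
    have c1 := ev2 (a := a2) (b := b2) h3 huv hc
    simp only [hm, ← not_lt (a := c), o1.1, o1.2.1, o1.2.2.1, o1.2.2.2, c1.1, c1.2.1, c1.2.2.1,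
      c1.2.2.2]
    by_cases A : o < a1 <;> by_cases B : o < b1 <;> by_cases C : c < a2 <;>
      by_cases D : c < b2 <;> simp [A, B, C, D]
  · have hm : ∀ t, Mm t ↔ ¬ c < t ∨ o < t := fun t => by rw [hM]; omega
    have o1 := ev2 (a := a2) (b := b2) h1 huv ho
    have c1 := ev0 (a := a0) (b := b0) h3 huv
    simp only [hm, ← not_lt (a := c), o1.1, o1.2.1, o1.2.2.1, o1.2.2.2, c1.1, c1.2.1, c1.2.2.1,
      c1.2.2.2]
    by_cases A : o < a2 <;> by_cases B : o < b2 <;> by_cases C : c < a0 <;>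
      by_cases D : c < b0 <;> simp [A, B, C, D]

/-- arcs with at most one of the three points: comparison of the two counts -/
theorem pc_le_dl {u v N : ℕ} (h0u : 0 < u) (huv : u < v)
    (hN : ∀ z, M.o z < N ∧ M.c z < N) (a b : Fin 3 → ℕ) (z : {z : V // cn M u v z ≤ 1}) :
    min 2 (pc M (min (min (a 0) (b 0)) u) (min (max (a 0) (b 0)) u)
      (max u (min (min (a 1) (b 1)) v)) (max u (min (max (a 1) (b 1)) v))
      (max v (min (min (a 2) (b 2)) N)) (max v (min (max (a 2) (b 2)) N)) z.1)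
      ≤ (msys M h0u huv).dl a b z := by
  have hty := nonmulti_ty h0u huv z.2
  have e1 : (msys M h0u huv).gs z = gp u v (M.o z.1) := rfl
  have e2 : (msys M h0u huv).ge z = gp u v (M.c z.1) := rfl
  have e3 : (msys M h0u huv).o z = M.o z.1 := rfl
  have e4 : (msys M h0u huv).c z = M.c z.1 := rfl
  unfold Sys.dl
  rw [e1, e2, e3, e4]
  obtain ⟨z, hz⟩ := z
  simp only at hty ⊢
  have key := fun x y => pc_arith (o := M.o z) (c := M.c z) (u := u) (v := v) (N := N)
    (a0 := a 0) (b0 := b 0) (a1 := a 1) (b1 := b 1) (a2 := a 2) (b2 := b 2) huv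
    (hN z).1 (hN z).2 (fun t => M.Mem z t) (fun t => Iff.rfl) x y
  rcases hty with ⟨h1, h2⟩ | h1
  · rw [if_pos h1]
    rcases gp_cases huv.le (M.o z) with ⟨h3, e3⟩ | ⟨h3, h3', e3⟩ | ⟨h3, e3⟩ <;>
      rcases gp_cases huv.le (M.c z) with ⟨h4, e4⟩ | ⟨h4, h4', e4⟩ | ⟨h4, e4⟩ <;>
      rw [e3, e4] at h1 <;> first | exact absurd h1 (by decide) | rw [e3]
    · exact key _ _ (Or.inl ⟨h3, h4, h2, rfl, rfl⟩)
    · exact key _ _ (Or.inr (Or.inl ⟨h3, h4', h2, rfl, rfl⟩))
    · exact key _ _ (Or.inr (Or.inr (Or.inl ⟨h3, h2, rfl, rfl⟩)))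
  · have hne : ¬ gp u v (M.o z) = gp u v (M.c z) := by
      rw [h1]
      generalize gp u v (M.o z) = i
      revert i
      decide
    rw [if_neg hne]
    rcases gp_cases huv.le (M.o z) with ⟨h3, e3⟩ | ⟨h3, h3', e3⟩ | ⟨h3, e3⟩ <;>
      rcases gp_cases huv.le (M.c z) with ⟨h4, e4⟩ | ⟨h4, h4', e4⟩ | ⟨h4, e4⟩ <;>
      rw [e3, e4] at h1 <;> first | exact absurd h1 (by decide) | rw [e3, e4]
    · exact key _ _ (Or.inr (Or.inr (Or.inr (Or.inl ⟨h3, h4, h4', rfl, rfl⟩))))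
    · exact key _ _ (Or.inr (Or.inr (Or.inr (Or.inr (Or.inl ⟨h3, h3', h4, rfl, rfl⟩)))))
    · exact key _ _ (Or.inr (Or.inr (Or.inr (Or.inr (Or.inr ⟨h3, h4, rfl, rfl⟩)))))

/-- the position of the circle for the position `t` of gap `i` -/
def ps (u v N : ℕ) (i : Fin 3) (t : ℕ) : ℕ :=
  if i = 0 then min t u else if i = 1 then max u (min t v) else max v (min t N)

/-- types of the arcs of the system -/
theorem msys_cases {u v : ℕ} (h0u : 0 < u) (huv : u < v) (x : {z : V // cn M u v z ≤ 1}) :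
    (M.o x.1 < u ∧ M.c x.1 < u ∧ M.o x.1 < M.c x.1 ∧ (msys M h0u huv).gs x = 0 ∧
        (msys M h0u huv).ge x = 0) ∨
      (u ≤ M.o x.1 ∧ M.c x.1 < v ∧ M.o x.1 < M.c x.1 ∧ (msys M h0u huv).gs x = 1 ∧
        (msys M h0u huv).ge x = 1) ∨
      (v ≤ M.o x.1 ∧ M.o x.1 < M.c x.1 ∧ (msys M h0u huv).gs x = 2 ∧
        (msys M h0u huv).ge x = 2) ∨
      (M.o x.1 < u ∧ u ≤ M.c x.1 ∧ M.c x.1 < v ∧ (msys M h0u huv).gs x = 0 ∧
        (msys M h0u huv).ge x = 1) ∨
      (u ≤ M.o x.1 ∧ M.o x.1 < v ∧ v ≤ M.c x.1 ∧ (msys M h0u huv).gs x = 1 ∧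
        (msys M h0u huv).ge x = 2) ∨
      (v ≤ M.o x.1 ∧ M.c x.1 < u ∧ (msys M h0u huv).gs x = 2 ∧
        (msys M h0u huv).ge x = 0) := by
  have hty := nonmulti_ty h0u huv x.2
  have e1 : (msys M h0u huv).gs x = gp u v (M.o x.1) := rfl
  have e2 : (msys M h0u huv).ge x = gp u v (M.c x.1) := rfl
  rw [e1, e2]
  rcases gp_cases huv.le (M.o x.1) with ⟨h3, e3⟩ | ⟨h3, h3', e3⟩ | ⟨h3, e3⟩ <;>
    rcases gp_cases huv.le (M.c x.1) with ⟨h4, e4⟩ | ⟨h4, h4', e4⟩ | ⟨h4, e4⟩ <;>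
    rw [e3, e4] at hty ⊢ <;> rcases hty with ⟨h1, h2⟩ | h1 <;>
    first
    | exact absurd h1 (by decide)
    | exact Or.inl ⟨h3, h4, h2, rfl, rfl⟩
    | exact Or.inr (Or.inl ⟨h3, h4', h2, rfl, rfl⟩)
    | exact Or.inr (Or.inr (Or.inl ⟨h3, h2, rfl, rfl⟩))
    | exact Or.inr (Or.inr (Or.inr (Or.inl ⟨h3, h4, h4', rfl, rfl⟩)))
    | exact Or.inr (Or.inr (Or.inr (Or.inr (Or.inl ⟨h3, h3', h4, rfl, rfl⟩))))
    | exact Or.inr (Or.inr (Or.inr (Or.inr (Or.inr ⟨h3, h4, rfl, rfl⟩))))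

theorem cov_mem {u v N : ℕ} (h0u : 0 < u) (huv : u < v) (hvN : v ≤ N)
    (hN : ∀ z, M.o z < N ∧ M.c z < N) (x : {z : V // cn M u v z ≤ 1}) (i : Fin 3) (t : ℕ)
    (h : (msys M h0u huv).Cov x i t) : M.Mem x.1 (ps u v N i t) := by
  obtain ⟨h1, h2, h3⟩ := h
  have e3 : (msys M h0u huv).o x = M.o x.1 := rfl
  have e4 : (msys M h0u huv).c x = M.c x.1 := rfl
  rw [e3] at h2
  rw [e4] at h3
  have hn1 := (hN x.1).1
  have hn2 := (hN x.1).2
  rcases msys_cases h0u huv x with ⟨a1, a2, a3, a4, a5⟩ | ⟨a1, a2, a3, a4, a5⟩ | ⟨a1, a3, a4, a5⟩ |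
    ⟨a1, a2, a3, a4, a5⟩ | ⟨a1, a2, a3, a4, a5⟩ | ⟨a1, a3, a4, a5⟩ <;>
    rw [a4] at h1 h2 <;> rw [a5] at h1 h3 <;> rcases h1 with h1 | h1 <;> subst h1 <;>
    simp only [true_implies, forall_const] at h2 h3 <;> unfold ps Model.Mem <;> simp <;> omega

theorem single_mem {u v : ℕ} (h0u : 0 < u) (huv : u < v) (x : {z : V // cn M u v z ≤ 1})
    (h : (msys M h0u huv).gs x ≠ (msys M h0u huv).ge x) :
    ((msys M h0u huv).gs x = 0 ∧ (msys M h0u huv).ge x = 1 ∧ M.Mem x.1 u) ∨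
      ((msys M h0u huv).gs x = 1 ∧ (msys M h0u huv).ge x = 2 ∧ M.Mem x.1 v) ∨
      ((msys M h0u huv).gs x = 2 ∧ (msys M h0u huv).ge x = 0 ∧ M.Mem x.1 0) := by
  rcases msys_cases h0u huv x with ⟨a1, a2, a3, a4, a5⟩ | ⟨a1, a2, a3, a4, a5⟩ | ⟨a1, a3, a4, a5⟩ |
    ⟨a1, a2, a3, a4, a5⟩ | ⟨a1, a2, a3, a4, a5⟩ | ⟨a1, a3, a4, a5⟩
  · exact absurd (a4.trans a5.symm) h
  · exact absurd (a4.trans a5.symm) h
  · exact absurd (a4.trans a5.symm) h
  · exact Or.inl ⟨a4, a5, by unfold Model.Mem; omega⟩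
  · exact Or.inr (Or.inl ⟨a4, a5, by unfold Model.Mem; omega⟩)
  · exact Or.inr (Or.inr ⟨a4, a5, by unfold Model.Mem; omega⟩)

/-- the set meets two of the three points -/
def Hit2 (M : Model V) (u v : ℕ) (X : Set V) : Prop :=
  ((∃ x ∈ X, M.Mem x 0) ∧ ∃ x ∈ X, M.Mem x u) ∨ ((∃ x ∈ X, M.Mem x u) ∧ ∃ x ∈ X, M.Mem x v) ∨
    ((∃ x ∈ X, M.Mem x 0) ∧ ∃ x ∈ X, M.Mem x v)

theorem Hit2.adj (hG : M.IsModelOf G) {u v : ℕ} {X Y : Set V} (hX : Hit2 M u v X)
    (hY : Hit2 M u v Y) (hd : Disjoint X Y) : ∃ x ∈ X, ∃ y ∈ Y, G.Adj x y := by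
  have key : ∀ p, (∃ x ∈ X, M.Mem x p) → (∃ y ∈ Y, M.Mem y p) → ∃ x ∈ X, ∃ y ∈ Y, G.Adj x y := by
    rintro p ⟨x, hx, hxp⟩ ⟨y, hy, hyp⟩
    refine ⟨x, hx, y, hy, Model.adj_of_mem hG ?_ hxp hyp⟩
    rintro rfl
    exact (Set.disjoint_left.1 hd) hx hy
  rcases hX with ⟨h1, h2⟩ | ⟨h1, h2⟩ | ⟨h1, h2⟩ <;> rcases hY with ⟨h3, h4⟩ | ⟨h3, h4⟩ | ⟨h3, h4⟩
  · exact key 0 h1 h3
  · exact key u h2 h3
  · exact key 0 h1 h3
  · exact key u h1 h4
  · exact key u h1 h3
  · exact key v h2 h4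
  · exact key 0 h1 h3
  · exact key v h2 h4
  · exact key 0 h1 h3

/-- THREE-POINT PACKING.  Let `0 < u < v ≤ N` be three positions of a circular-arc model.  If every two
of them, and every pair of positions with arcs inside both sides, are met by at least `k` arcs, and
the sum over all arcs of the number of the three positions in the arc, counted up to two, is at least
`2 k`, then the graph has a `K_k` minor. -/
theorem three_point (hG : M.IsModelOf G) {k u v N : ℕ} (h0u : 0 < u) (huv : u < v)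
    (hvN : v ≤ N) (hN : ∀ z, M.o z < N ∧ M.c z < N)
    (hcut : ∀ x y, x ≤ y → y ≤ N → Far M x y → k ≤ (AU M x y).card)
    (h01 : k ≤ (AU M 0 u).card) (h02 : k ≤ (AU M 0 v).card) (h12 : k ≤ (AU M u v).card)
    (hV : 2 * k ≤ ∑ z, min 2 (cn M u v z)) : HasMinor G k := by
  set S := msys M h0u huv with hS
  let G' : SimpleGraph {z : V // cn M u v z ≤ 1} := G.comap Subtype.val
  have hD : ∀ a b, 2 * (k - Fintype.card {z : V // ¬ cn M u v z ≤ 1}) ≤ S.D a b := by
    intro a b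
    have h1 := main_ineq (M := M) (N := N) h0u huv hvN hcut h01 h02 h12 hV
      (α0 := min (min (a 0) (b 0)) u) (β0 := min (max (a 0) (b 0)) u)
      (α1 := max u (min (min (a 1) (b 1)) v)) (β1 := max u (min (max (a 1) (b 1)) v))
      (α2 := max v (min (min (a 2) (b 2)) N)) (β2 := max v (min (max (a 2) (b 2)) N))
      (by omega) (by omega) (by omega) (by omega) (by omega) (by omega) (by omega) (by omega)
    rw [← Fintype.sum_subtype_add_sum_subtype (fun z => cn M u v z ≤ 1)] at h1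
    have h2 : ∑ z : {z : V // ¬ cn M u v z ≤ 1},
        min 2 (pc M (min (min (a 0) (b 0)) u) (min (max (a 0) (b 0)) u)
      (max u (min (min (a 1) (b 1)) v)) (max u (min (max (a 1) (b 1)) v))
      (max v (min (min (a 2) (b 2)) N)) (max v (min (max (a 2) (b 2)) N)) z.1)
        ≤ ∑ _z : {z : V // ¬ cn M u v z ≤ 1}, 2 :=
      Finset.sum_le_sum (fun z _ => min_le_left _ _)
    rw [Finset.sum_const, smul_eq_mul, Finset.card_univ] at h2
    have h3 := Finset.sum_le_sum (fun z (_ : z ∈ (univ : Finset {z : V // cn M u v z ≤ 1})) =>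
      pc_le_dl h0u huv hN a b z)
    have h4 : S.D a b = ∑ z, S.dl a b z := rfl
    rw [← hS] at h3
    omega
  obtain ⟨E, C, hE, hC1, hC2⟩ := S.sets (G := G')
    (fun x y _ h => Subtype.ext (M.c_inj h))
    (fun x y hne i t hx hy => by
      have h1 := cov_mem h0u huv hvN hN x i t hx
      have h2 := cov_mem h0u huv hvN hN y i t hy
      exact Model.adj_of_mem hG (fun h => hne (Subtype.ext h)) h1 h2) _ hD
  have hcm : ∀ s ∈ E, ∀ z ∈ Subtype.val '' (C s : Set {z : V // cn M u v z ≤ 1}),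
      cn M u v z ≤ 1 := by
    rintro s - z ⟨z', -, rfl⟩
    exact z'.2
  let f : {z : V // ¬ cn M u v z ≤ 1} ⊕ {s // s ∈ E} → Set V :=
    Sum.elim (fun m => {m.1}) (fun s => Subtype.val '' (C s.1 : Set {z : V // cn M u v z ≤ 1}))
  have hdis : ∀ i j, i ≠ j → Disjoint (f i) (f j) := by
    intro i j hij
    rcases i with m | s <;> rcases j with m' | s'
    · refine Set.disjoint_singleton.2 (fun h => hij ?_)
      rw [Subtype.ext h]
    · refine Set.disjoint_singleton_left.2 (fun h => m.2 (hcm s'.1 s'.2 _ h))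
    · refine Set.disjoint_singleton_right.2 (fun h => m'.2 (hcm s.1 s.2 _ h))
    · refine (Set.disjoint_image_iff Subtype.val_injective).2 ?_
      have h1 := hC2 s.1 s.2 s'.1 s'.2 (fun h => hij (by rw [Subtype.ext h]))
      exact_mod_cast h1
  have hhit : ∀ i, Hit2 M u v (f i) := by
    rintro (m | s)
    · have h1 := m.2
      unfold cn at h1
      have key : ∀ p, M.Mem m.1 p → ∃ x ∈ f (Sum.inl m), M.Mem x p := fun p hp =>
        ⟨m.1, rfl, hp⟩
      by_cases c0 : M.Mem m.1 0 <;> by_cases c1 : M.Mem m.1 u <;> by_cases c2 : M.Mem m.1 v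
      · exact Or.inl ⟨key 0 c0, key u c1⟩
      · exact Or.inl ⟨key 0 c0, key u c1⟩
      · exact Or.inr (Or.inr ⟨key 0 c0, key v c2⟩)
      · rw [if_pos c0, if_neg c1, if_neg c2] at h1; omega
      · exact Or.inr (Or.inl ⟨key u c1, key v c2⟩)
      · rw [if_neg c0, if_pos c1, if_neg c2] at h1; omega
      · rw [if_neg c0, if_neg c1, if_pos c2] at h1; omega
      · rw [if_neg c0, if_neg c1, if_neg c2] at h1; omega
    · obtain ⟨s, hs⟩ := s
      obtain ⟨h1, h2, -, x, hx, h3, h4⟩ := hC1 s hs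
      have key : ∀ p (y : {z : V // cn M u v z ≤ 1}), y ∈ C s → M.Mem y.1 p →
          ∃ x ∈ f (Sum.inr ⟨s, hs⟩), M.Mem x p := fun p y hy hp => ⟨y.1, ⟨y, hy, rfl⟩, hp⟩
      rcases single_mem h0u huv s h2 with ⟨a1, a2, a3⟩ | ⟨a1, a2, a3⟩ | ⟨a1, a2, a3⟩ <;>
        rcases single_mem h0u huv x h4 with ⟨b1, b2, b3⟩ | ⟨b1, b2, b3⟩ | ⟨b1, b2, b3⟩ <;>
        rw [← hS] at a1 a2 b1 b2 <;> rw [a2, b1] at h3 <;>
        first
        | exact absurd h3 (by decide)
        | exact Or.inr (Or.inl ⟨key u s h1 a3, key v x hx b3⟩)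
        | exact Or.inr (Or.inr ⟨key 0 x hx b3, key v s h1 a3⟩)
        | exact Or.inl ⟨key 0 s h1 a3, key u x hx b3⟩
  refine hasMinor_of_family f ?_ hdis (fun i j hij => (hhit i).adj hG (hhit j) (hdis i j hij)) ?_
  · rintro (m | s)
    · exact conn_singleton m.1
    · have h1 := (hC1 s.1 s.2).2.2.1
      let g : G'.induce (C s.1 : Set {z : V // cn M u v z ≤ 1}) →g
          G.induce (Subtype.val '' (C s.1 : Set {z : V // cn M u v z ≤ 1})) :=
        { toFun := fun w => ⟨w.1.1, w.1, w.2, rfl⟩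
          map_rel' := fun {u v} huv => huv }
      refine SimpleGraph.Connected.map g ?_ h1
      rintro ⟨_, w, hw, rfl⟩
      exact ⟨⟨w, hw⟩, rfl⟩
  · rw [Fintype.card_sum, Fintype.card_coe]
    omega

end model

end Pool.Agent.CA
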