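import Mathlib
import Pool.Agent.CA.ThreePoint

/-!
Rotation of a circular-arc model, and the three-point packing for three arbitrary positions.
-/

set_option autoImplicit false

namespace Pool.Agent.CA

open Finset Pool.Agent.CA31
open scoped Classical

variable {V : Type}

/-- the event `e` seen from the cut `p` -/
def rte (N p e : ℕ) : ℕ := if p ≤ e then e - p else e + N - p

theorem rte_inj {N p e e' : ℕ} (hp : p ≤ N) (he : e < N) (he' : e' < N)
    (h : rte N p e = rte N p e') : e = e' := by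
  unfold rte at h
  split_ifs at h <;> omega

theorem rte_lt {N p e : ℕ} (hp : p ≤ N) (he : e < N) : rte N p e < N := by
  unfold rte
  split_ifs <;> omega

/-- the model cut at the position `p` -/
def rot (M : Model V) {N p : ℕ} (hN : ∀ v, M.o v < N ∧ M.c v < N) (hp : p ≤ N) : Model V where
  o v := rte N p (M.o v)
  c v := rte N p (M.c v)
  o_inj := fun u v h => M.o_inj (rte_inj hp (hN u).1 (hN v).1 h)
  c_inj := fun u v h => M.c_inj (rte_inj hp (hN u).2 (hN v).2 h)
  o_ne_c := fun u v h => M.o_ne_c u v (rte_inj hp (hN u).1 (hN v).2 h)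

theorem rot_bd (M : Model V) {N p : ℕ} (hN : ∀ v, M.o v < N ∧ M.c v < N) (hp : p ≤ N) (v : V) :
    (rot M hN hp).o v < N ∧ (rot M hN hp).c v < N :=
  ⟨rte_lt hp (hN v).1, rte_lt hp (hN v).2⟩

/-- the position `t` of the rotated model in the old model -/
def rtp (N p t : ℕ) : ℕ := if t + p ≤ N then t + p else if t ≤ N then t + p - N else p

theorem rot_mem (M : Model V) {N p : ℕ} (hN : ∀ v, M.o v < N ∧ M.c v < N) (hp : p ≤ N) (z : V)
    (t : ℕ) : (rot M hN hp).Mem z t ↔ M.Mem z (rtp N p t) := by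
  have h1 := (hN z).1
  have h2 := (hN z).2
  have h3 := M.o_ne_c z z
  unfold Model.Mem rot rte rtp
  simp only
  split_ifs <;> omega

/-- positions beyond the last event are the cut position -/
theorem mem_big (M : Model V) {N : ℕ} (hN : ∀ v, M.o v < N ∧ M.c v < N) (z : V) {t : ℕ}
    (ht : N ≤ t) : M.Mem z t ↔ M.Mem z 0 := by
  have h1 := (hN z).1
  have h2 := (hN z).2
  unfold Model.Mem
  omega

theorem mem_rte (M : Model V) {N p : ℕ} (hN : ∀ v, M.o v < N ∧ M.c v < N) (hp : p ≤ N) (z : V)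
    {s : ℕ} (hs : s ≤ N) : (rot M hN hp).Mem z (rte N p s) ↔ M.Mem z s := by
  rw [rot_mem]
  have h : rtp N p (rte N p s) = s ∨ (s = 0 ∧ rtp N p (rte N p s) = N) := by
    unfold rtp rte
    split_ifs <;> omega
  rcases h with h | ⟨h, h'⟩
  · rw [h]
  · rw [h', h]
    exact mem_big M hN z le_rfl

/-- the position `s` of the old model in the rotated one -/
def rts (N p s : ℕ) : ℕ := if s ≤ N then rte N p s else rte N p 0

theorem mem_rts (M : Model V) {N p : ℕ} (hN : ∀ v, M.o v < N ∧ M.c v < N) (hp : p ≤ N) (z : V)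
    (s : ℕ) : (rot M hN hp).Mem z (rts N p s) ↔ M.Mem z s := by
  unfold rts
  split_ifs with h
  · exact mem_rte M hN hp z h
  · rw [mem_rte M hN hp z (Nat.zero_le N), mem_big M hN z (by omega : N ≤ s)]

theorem rot_end (M : Model V) {N p : ℕ} (hN : ∀ v, M.o v < N ∧ M.c v < N) (hp : p ≤ N) (z : V) :
    (rot M hN hp).Mem z N ↔ (rot M hN hp).Mem z 0 :=
  mem_big _ (rot_bd M hN hp) z le_rfl

theorem rot_far {M : Model V} {N p : ℕ} (hN : ∀ v, M.o v < N ∧ M.c v < N) (hp : p ≤ N) {x y : ℕ}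
    (hxy : x ≤ y) (hy : y ≤ N) (h : Far (rot M hN hp) x y) :
    (rtp N p x ≤ rtp N p y ∧ rtp N p y ≤ N ∧ Far M (rtp N p x) (rtp N p y)) ∨
      (rtp N p y ≤ rtp N p x ∧ rtp N p x ≤ N ∧ Far M (rtp N p y) (rtp N p x)) := by
  obtain ⟨⟨z, hz⟩, ⟨z', hz'⟩⟩ := h
  have k1 : ∀ w s, M.Mem w s → (rot M hN hp).Mem w (rts N p s) := fun w s hs =>
    (mem_rts M hN hp w s).2 hs
  have k2 : ∀ w s, M.Mem w s → rts N p s = 0 → (rot M hN hp).Mem w N := fun w s hs h0 =>
    (rot_end M hN hp w).2 (h0 ▸ k1 w s hs)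
  rcases le_or_gt (y + p) N with hA | hA
  · have e1 : rtp N p x = x + p := by rw [rtp, if_pos (by omega)]
    have e2 : rtp N p y = y + p := by rw [rtp, if_pos (by omega)]
    left
    rw [e1, e2]
    refine ⟨by omega, by omega, ⟨z, fun s h1 h2 hs => ?_⟩, ⟨z', fun s h1 hs => ?_⟩⟩
    · refine hz _ ?_ ?_ (k1 z s hs)
      · unfold rts rte
        split_ifs <;> omega
      · unfold rts rte
        split_ifs <;> omega
    · refine hz' _ ?_ (k1 z' s hs)
      unfold rts rte
      split_ifs <;> omega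
  rcases le_or_gt (x + p) N with hB | hB
  · have e1 : rtp N p x = x + p := by rw [rtp, if_pos (by omega)]
    have e2 : rtp N p y = y + p - N := by rw [rtp, if_neg (by omega), if_pos hy]
    right
    rw [e1, e2]
    refine ⟨by omega, by omega, ⟨z', fun s h1 h2 hs => ?_⟩, ⟨z, fun s h1 hs => ?_⟩⟩
    · refine hz' _ ?_ (k1 z' s hs)
      unfold rts rte
      split_ifs <;> omega
    · by_cases h0 : rts N p s = 0 ∧ y = N
      · exact hz N (by omega) (by omega) (k2 z s hs h0.1)
      · refine hz _ ?_ ?_ (k1 z s hs)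
        · unfold rts rte at h0 ⊢
          split_ifs at h0 ⊢ <;> omega
        · unfold rts rte at h0 ⊢
          split_ifs at h0 ⊢ <;> omega
  · have e1 : rtp N p x = x + p - N := by rw [rtp, if_neg (by omega), if_pos (by omega)]
    have e2 : rtp N p y = y + p - N := by rw [rtp, if_neg (by omega), if_pos hy]
    left
    rw [e1, e2]
    refine ⟨by omega, by omega, ⟨z, fun s h1 h2 hs => ?_⟩, ⟨z', fun s h1 hs => ?_⟩⟩
    · by_cases h0 : rts N p s = 0 ∧ y = N
      · exact hz N (by omega) (by omega) (k2 z s hs h0.1)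
      · refine hz _ ?_ ?_ (k1 z s hs)
        · unfold rts rte at h0 ⊢
          split_ifs at h0 ⊢ <;> omega
        · unfold rts rte at h0 ⊢
          split_ifs at h0 ⊢ <;> omega
    · refine hz' _ ?_ (k1 z' s hs)
      unfold rts rte
      split_ifs <;> omega

variable [Fintype V] {M : Model V} {G : SimpleGraph V}

omit [Fintype V] in
theorem rot_model {N p : ℕ} (hN : ∀ v, M.o v < N ∧ M.c v < N) (hp : p ≤ N)
    (hG : M.IsModelOf G) : (rot M hN hp).IsModelOf G := by
  intro u v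
  rw [hG u v]
  refine and_congr_right fun _ => ?_
  constructor
  · rintro ⟨t, h1, h2⟩
    exact ⟨_, (mem_rts M hN hp u t).2 h1, (mem_rts M hN hp v t).2 h2⟩
  · rintro ⟨t, h1, h2⟩
    rw [rot_mem] at h1 h2
    exact ⟨_, h1, h2⟩

theorem rot_AU {N p : ℕ} (hN : ∀ v, M.o v < N ∧ M.c v < N) (hp : p ≤ N) (x y : ℕ) :
    AU (rot M hN hp) x y = AU M (rtp N p x) (rtp N p y) := by
  ext z
  rw [mem_AU, mem_AU, rot_mem, rot_mem]

theorem AU_comm (x y : ℕ) : AU M x y = AU M y x := by
  ext z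
  rw [mem_AU, mem_AU, or_comm]

/-- the number of the positions `p, q, r` in `z` -/
noncomputable def cn3 (M : Model V) (p q r : ℕ) (z : V) : ℕ :=
  (if M.Mem z p then 1 else 0) + (if M.Mem z q then 1 else 0) + (if M.Mem z r then 1 else 0)

/-- THREE-POINT PACKING for three positions `p < q < r ≤ N`. -/
theorem three_point3 (hG : M.IsModelOf G) {k p q r N : ℕ} (hpq : p < q) (hqr : q < r)
    (hrN : r ≤ N) (hN : ∀ z, M.o z < N ∧ M.c z < N)
    (hcut : ∀ x y, x ≤ y → y ≤ N → Far M x y → k ≤ (AU M x y).card)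
    (h1 : k ≤ (AU M p q).card) (h2 : k ≤ (AU M p r).card) (h3 : k ≤ (AU M q r).card)
    (hV : 2 * k ≤ ∑ z, min 2 (cn3 M p q r z)) : HasMinor G k := by
  have hp : p ≤ N := by omega
  have e0 : rtp N p 0 = p := by unfold rtp; split_ifs <;> omega
  have e1 : rtp N p (q - p) = q := by unfold rtp; split_ifs <;> omega
  have e2 : rtp N p (r - p) = r := by unfold rtp; split_ifs <;> omega
  refine three_point (M := rot M hN hp) (rot_model hN hp hG) (u := q - p) (v := r - p) (N := N)
    (by omega) (by omega) (by omega) (rot_bd M hN hp) ?_ ?_ ?_ ?_ ?_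
  · intro x y hxy hy hf
    rw [rot_AU]
    rcases rot_far hN hp hxy hy hf with ⟨h4, h5, h6⟩ | ⟨h4, h5, h6⟩
    · exact hcut _ _ h4 h5 h6
    · rw [AU_comm]
      exact hcut _ _ h4 h5 h6
  · rw [rot_AU, e0, e1]; exact h1
  · rw [rot_AU, e0, e2]; exact h2
  · rw [rot_AU, e1, e2]; exact h3
  · refine hV.trans (le_of_eq (Finset.sum_congr rfl (fun z _ => ?_)))
    unfold cn cn3
    rw [rot_mem, rot_mem, rot_mem, e0, e1, e2]

end Pool.Agent.CA
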