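import Mathlib
import Pool.Agent.CA.Pack2
import Pool.Agent.CA.ThreePoint

/-!
Three-clique packing for circular-arc graphs, one of the cliques may be non-Helly (helper23).
-/

set_option autoImplicit false

namespace Pool.Agent.CA

open Finset Pool.Agent.CA31
open scoped Classical

/-! ### disjoint connected sets from a three-gap system with extended arcs -/

/-- `x` covers the position `t` of gap `i` -/
def Sys2.Cov {V : Type} (S : Sys2 V) (x : V) (i : Fin 3) (t : ℕ) : Prop :=
  (S.gs x = i ∨ S.ge x = i ∨ (S.xt x ∧ i = 2)) ∧ (S.gs x = i → S.o x < t) ∧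
    (S.ge x = i → S.xt x ∨ t ≤ S.c x) ∧ (S.xt x → i = 2 → t ≤ S.xc x)

theorem conn_glue {V : Type} {G : SimpleGraph V} {C D : Finset V}
    (hC : (G.induce (C : Set V)).Connected) (hD : (G.induce (D : Set V)).Connected) {x t : V}
    (hx : x ∈ C) (ht : t ∈ D) (h : x = t ∨ G.Adj x t) :
    (G.induce ((C ∪ D : Finset V) : Set V)).Connected := by
  rw [coe_union]
  rcases h with rfl | h
  · exact SimpleGraph.induce_union_connected hC.preconnected hD.preconnected
      ⟨x, by exact_mod_cast hx, by exact_mod_cast ht⟩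
  · exact SimpleGraph.connected_induce_union (v := x) (w := t) hC.preconnected hD.preconnected
      (by exact_mod_cast hx) (by exact_mod_cast ht) h

theorem Sys2.sets {V : Type} [Fintype V] (S : Sys2 V) {G : SimpleGraph V}
    (hci : ∀ x y, S.ge x = S.ge y → S.c x = S.c y → ¬ S.xt x → ¬ S.xt y → x = y)
    (hcx : ∀ x y, S.xt x → S.xt y → S.xc x = S.xc y → x = y)
    (hcy : ∀ x y, S.xt x → S.ge y = 2 → S.xc x ≠ S.c y)
    (hadj : ∀ x y, x ≠ y → ∀ i t, S.Cov x i t → S.Cov y i t → G.Adj x y) (t : ℕ)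
    (hD : ∀ a b, 2 * t ≤ S.D a b) :
    ∃ (E : Finset V) (C : V → Finset V), t ≤ E.card ∧
      (∀ s ∈ E, s ∈ C s ∧ S.gs s ≠ S.ge s ∧ (G.induce (C s : Set V)).Connected ∧
        ∃ x ∈ C s, S.gs x ≠ S.ge x ∧ (S.gs x = S.ge s ∨ (S.ge s = 1 ∧ S.gs x = 2))) ∧
      (∀ s ∈ E, ∀ s' ∈ E, s ≠ s' → Disjoint (C s) (C s')) := by
  obtain ⟨E, B, K, hEB, hE, hB, hK, htE, hload, hcnt, hload2⟩ := S.pack t hD
  obtain ⟨N, hN⟩ : ∃ N, ∀ x, S.o x < N ∧ S.c x < N ∧ S.xc x < N := by
    refine ⟨univ.sup S.c + univ.sup S.o + univ.sup S.xc + 1, fun x => ?_⟩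
    have := Finset.le_sup (f := S.c) (Finset.mem_univ x)
    have := Finset.le_sup (f := S.o) (Finset.mem_univ x)
    have := Finset.le_sup (f := S.xc) (Finset.mem_univ x)
    omega
  have hdis : ∀ x, x ∈ E → x ∉ B := fun x h h' => (Finset.disjoint_left.1 hEB) h h'
  have hKB : ∀ x, x ∈ K → x ∉ B := by
    intro x hx hx'
    rcases (hK x hx).2 with h | h
    · exact hB x hx' h
    · exact hdis x h hx'
  have hKg : ∀ x ∈ K, S.ge x = 1 := fun x hx => S.xg x (hK x hx).1
  have hxgs : ∀ x, S.xt x → S.gs x ≠ 2 := by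
    intro x hx h
    have h1 := S.xg x hx
    rcases S.ty x with h2 | h2
    · rw [h1, h] at h2
      exact absurd h2.1 (by decide)
    · rw [h1, h] at h2
      exact absurd h2 (by decide)
  -- the arcs used in gap `i`
  let 𝓕 : Fin 3 → Finset V := fun i => E.filter (fun x => S.ge x = i) ∪
    (B.filter (fun x => S.gs x = i) ∪ univ.filter (fun x => S.gs x = i ∧ S.ge x = i))
  have h𝓕 : ∀ i x, x ∈ 𝓕 i ↔ (x ∈ E ∧ S.ge x = i) ∨ (x ∈ B ∧ S.gs x = i) ∨
      (S.gs x = i ∧ S.ge x = i) := by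
    intro i x
    simp [𝓕]
  /- gaps 0 and 1 -/
  let l : V → ℕ := fun x => if x ∈ E then 0 else S.o x + 1
  let r : V → ℕ := fun x => if x ∈ B ∨ S.xt x then N else S.c x
  have hlE : ∀ x, x ∈ E → l x = 0 := fun x hx => if_pos hx
  have hlE' : ∀ x, x ∉ E → l x = S.o x + 1 := fun x hx => if_neg hx
  have hrB : ∀ x, x ∈ B ∨ S.xt x → r x = N := fun x hx => if_pos hx
  have hrB' : ∀ x, ¬ (x ∈ B ∨ S.xt x) → r x = S.c x := fun x hx => if_neg hx
  -- covering
  have hcov : ∀ i x, i ≠ 2 → x ∈ 𝓕 i → ∀ p, p ≤ N → l x ≤ p → p ≤ r x → S.Cov x i p := by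
    intro i x hi2 hx p hp h1 h2
    rw [h𝓕] at hx
    have h3 : S.xt x ∨ x ∈ B ∨ p ≤ S.c x := by
      by_cases hh : x ∈ B ∨ S.xt x
      · tauto
      · rw [hrB' x hh] at h2
        exact Or.inr (Or.inr h2)
    rcases hx with ⟨hx, hi⟩ | ⟨hx, hi⟩ | ⟨hi, hi'⟩
    · refine ⟨Or.inr (Or.inl hi), fun h => absurd (h.trans hi.symm) (hE x hx), fun _ => ?_,
        fun _ h => absurd h hi2⟩
      have := hdis x hx
      tauto
    · have hxE : x ∉ E := fun h => hdis x h hx
      rw [hlE' x hxE] at h1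
      exact ⟨Or.inl hi, fun _ => by omega, fun h => absurd (hi.trans h.symm) (hB x hx),
        fun _ h => absurd h hi2⟩
    · have hxE : x ∉ E := fun h => hE x h (hi.trans hi'.symm)
      have hxB : x ∉ B := fun h => hB x h (hi.trans hi'.symm)
      rw [hlE' x hxE] at h1
      refine ⟨Or.inl hi, fun _ => by omega, fun _ => by tauto, fun _ h => absurd h hi2⟩
  have hch : ∀ i : Fin 3, i ≠ 2 → ∃ (C : V → Finset V) (cur : V → V),
      (∀ s ∈ E.filter (fun x => S.ge x = i), s ∈ C s ∧ cur s ∈ C s ∧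
        (l (cur s) ≤ N ∧ N ≤ r (cur s)) ∧ C s ⊆ 𝓕 i ∧
        (G.induce (C s : Set V)).Connected ∧ ∀ x ∈ C s, x ≠ cur s → r x < N) ∧
      (∀ s ∈ E.filter (fun x => S.ge x = i), ∀ s' ∈ E.filter (fun x => S.ge x = i), s ≠ s' →
        Disjoint (C s) (C s')) := by
    intro i hi2
    refine chains_aux (𝓕 i) l r N ?_ ?_ ?_ (E.filter (fun x => S.ge x = i)) ?_ ?_ N
      le_rfl ?_
    · intro x hx y hy h1 h2
      have hxB : ¬ (x ∈ B ∨ S.xt x) := fun h => by rw [hrB x h] at h2; omega
      have hyB : ¬ (y ∈ B ∨ S.xt y) := fun h => by rw [h1, hrB y h] at h2; omega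
      rw [hrB' x hxB, hrB' y hyB] at h1
      rw [h𝓕] at hx hy
      have e1 : S.ge x = i := by tauto
      have e2 : S.ge y = i := by tauto
      exact hci x y (e1.trans e2.symm) h1 (fun h => hxB (Or.inr h)) (fun h => hyB (Or.inr h))
    · intro x hx y hy h1
      have hxB : ¬ (x ∈ B ∨ S.xt x) := fun h => by rw [hrB x h] at h1; omega
      rw [hrB' x hxB]
      rw [h𝓕] at hx hy
      have e1 : S.ge x = i := by tauto
      by_cases hyE : y ∈ E
      · rw [hlE y hyE]
        omega
      · rw [hlE' y hyE]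
        have e2 : S.gs y = i := by tauto
        have := S.oc y x (e2.trans e1.symm)
        omega
    · intro x hx y hy hne p hp h1 h2 h3 h4
      exact hadj x y hne i p (hcov i x hi2 hx p hp h1 h2) (hcov i y hi2 hy p hp h3 h4)
    · intro x hx
      rw [mem_filter] at hx
      exact (h𝓕 i x).2 (Or.inl hx)
    · intro x hx
      rw [mem_filter] at hx
      exact hlE x hx.1
    · intro p hp
      refine (hload i p).trans ?_
      rw [← Finset.card_union_of_disjoint, ← Finset.card_union_of_disjoint]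
      · refine Finset.card_le_card (fun x hx => ?_)
        rw [mem_filter, h𝓕]
        simp only [mem_union, mem_filter, mem_univ, true_and] at hx
        rcases hx with (⟨hx, hi, hc⟩ | ⟨hx, hi, ho⟩) | ⟨hi, hi', ho, hc⟩
        · refine ⟨Or.inl ⟨hx, hi⟩, ?_, ?_⟩
          · rw [hlE x hx]; omega
          · by_cases hh : x ∈ B ∨ S.xt x
            · rw [hrB x hh]; exact hp
            · rw [hrB' x hh]
              tauto
        · have hxE : x ∉ E := fun h => hdis x h hx
          refine ⟨Or.inr (Or.inl ⟨hx, hi⟩), ?_, ?_⟩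
          · rw [hlE' x hxE]; omega
          · rw [hrB x (Or.inl hx)]; exact hp
        · have hxE : x ∉ E := fun h => hE x h (hi.trans hi'.symm)
          have hxB : x ∉ B := fun h => hB x h (hi.trans hi'.symm)
          refine ⟨Or.inr (Or.inr ⟨hi, hi'⟩), ?_, ?_⟩
          · rw [hlE' x hxE]; omega
          · by_cases hh : x ∈ B ∨ S.xt x
            · rw [hrB x hh]; exact hp
            · rw [hrB' x hh]
              tauto
      · rw [Finset.disjoint_left]
        intro x hx hx'
        simp only [mem_union, mem_filter, mem_univ, true_and] at hx hx'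
        rcases hx with hx | hx
        · exact hE x hx.1 (hx'.1.trans hx'.2.1.symm)
        · exact hB x hx.1 (hx'.1.trans hx'.2.1.symm)
      · rw [Finset.disjoint_left]
        intro x hx hx'
        rw [mem_filter] at hx hx'
        exact hdis x hx.1 hx'.1
  /- gap 2 -/
  let 𝓕2 : Finset V := K ∪ 𝓕 2
  have h𝓕2 : ∀ x, x ∈ 𝓕2 ↔ x ∈ K ∨ (x ∈ E ∧ S.ge x = 2) ∨ (x ∈ B ∧ S.gs x = 2) ∨
      (S.gs x = 2 ∧ S.ge x = 2) := by
    intro x
    rw [show 𝓕2 = K ∪ 𝓕 2 from rfl, mem_union, h𝓕]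
  let Z2 : Finset V := K ∪ E.filter (fun x => S.ge x = 2)
  have hZ2 : ∀ x, x ∈ Z2 ↔ x ∈ K ∨ (x ∈ E ∧ S.ge x = 2) := by
    intro x
    simp [Z2]
  let l2 : V → ℕ := fun x => if x ∈ E ∨ x ∈ K then 0 else S.o x + 1
  let r2 : V → ℕ := fun x => if x ∈ B then N else if S.xt x then S.xc x else S.c x
  have hl2 : ∀ x, x ∈ E ∨ x ∈ K → l2 x = 0 := fun x hx => if_pos hx
  have hl2' : ∀ x, ¬ (x ∈ E ∨ x ∈ K) → l2 x = S.o x + 1 := fun x hx => if_neg hx
  have hr2B : ∀ x, x ∈ B → r2 x = N := fun x hx => if_pos hx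
  have hr2x : ∀ x, x ∉ B → S.xt x → r2 x = S.xc x := fun x hx h => by
    show (if x ∈ B then N else if S.xt x then S.xc x else S.c x) = _
    rw [if_neg hx, if_pos h]
  have hr2c : ∀ x, x ∉ B → ¬ S.xt x → r2 x = S.c x := fun x hx h => by
    show (if x ∈ B then N else if S.xt x then S.xc x else S.c x) = _
    rw [if_neg hx, if_neg h]
  have hnx2 : ∀ x, S.ge x = 2 → ¬ S.xt x := by
    intro x h h'
    have := S.xg x h'
    rw [h] at this
    exact absurd this (by decide)
  have hcov2 : ∀ x, x ∈ 𝓕2 → ∀ p, p ≤ N → l2 x ≤ p → p ≤ r2 x → S.Cov x 2 p := by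
    intro x hx p hp h1 h2
    rw [h𝓕2] at hx
    rcases hx with hx | ⟨hx, hi⟩ | ⟨hx, hi⟩ | ⟨hi, hi'⟩
    · have hxt := (hK x hx).1
      rw [hr2x x (hKB x hx) hxt] at h2
      exact ⟨Or.inr (Or.inr ⟨hxt, rfl⟩), fun h => absurd h (hxgs x hxt),
        fun _ => Or.inl hxt, fun _ _ => h2⟩
    · have hnx := hnx2 x hi
      rw [hr2c x (hdis x hx) hnx] at h2
      exact ⟨Or.inr (Or.inl hi), fun h => absurd (h.trans hi.symm) (hE x hx),
        fun _ => Or.inr h2, fun h => absurd h hnx⟩
    · have hxE : x ∉ E := fun h => hdis x h hx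
      have hnx : ¬ S.xt x := fun h => hxgs x h hi
      have hxK : x ∉ K := fun h => hKB x h hx
      rw [hl2' x (by tauto)] at h1
      exact ⟨Or.inl hi, fun _ => by omega, fun h => absurd (hi.trans h.symm) (hB x hx),
        fun h => absurd h hnx⟩
    · have hxE : x ∉ E := fun h => hE x h (hi.trans hi'.symm)
      have hxB : x ∉ B := fun h => hB x h (hi.trans hi'.symm)
      have hnx := hnx2 x hi'
      have hxK : x ∉ K := fun h => hnx (hK x h).1
      rw [hl2' x (by tauto)] at h1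
      rw [hr2c x hxB hnx] at h2
      exact ⟨Or.inl hi, fun _ => by omega, fun _ => Or.inr h2, fun h => absurd h hnx⟩
  have hch2 : ∃ (C : V → Finset V) (cur : V → V),
      (∀ s ∈ Z2, s ∈ C s ∧ cur s ∈ C s ∧
        (l2 (cur s) ≤ N ∧ N ≤ r2 (cur s)) ∧ C s ⊆ 𝓕2 ∧
        (G.induce (C s : Set V)).Connected ∧ ∀ x ∈ C s, x ≠ cur s → r2 x < N) ∧
      (∀ s ∈ Z2, ∀ s' ∈ Z2, s ≠ s' → Disjoint (C s) (C s')) := by
    refine chains_aux 𝓕2 l2 r2 N ?_ ?_ ?_ Z2 ?_ ?_ N le_rfl ?_
    · intro x hx y hy h1 h2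
      have hxB : x ∉ B := fun h => by rw [hr2B x h] at h2; omega
      have hyB : y ∉ B := fun h => by rw [h1, hr2B y h] at h2; omega
      rw [h𝓕2] at hx hy
      by_cases hxt : S.xt x <;> by_cases hyt : S.xt y
      · rw [hr2x x hxB hxt, hr2x y hyB hyt] at h1
        exact hcx x y hxt hyt h1
      · rw [hr2x x hxB hxt, hr2c y hyB hyt] at h1
        have : S.ge y = 2 := by
          have := fun h => hyt (hK y h).1
          tauto
        exact absurd h1 (hcy x y hxt this)
      · rw [hr2c x hxB hxt, hr2x y hyB hyt] at h1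
        have : S.ge x = 2 := by
          have := fun h => hxt (hK x h).1
          tauto
        exact absurd h1.symm (hcy y x hyt this)
      · rw [hr2c x hxB hxt, hr2c y hyB hyt] at h1
        have e1 : S.ge x = 2 := by
          have := fun h => hxt (hK x h).1
          tauto
        have e2 : S.ge y = 2 := by
          have := fun h => hyt (hK y h).1
          tauto
        exact hci x y (e1.trans e2.symm) h1 hxt hyt
    · intro x hx y hy h1
      have hxB : x ∉ B := fun h => by rw [hr2B x h] at h1; omega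
      rw [h𝓕2] at hx hy
      by_cases hyE : y ∈ E ∨ y ∈ K
      · rw [hl2 y hyE]
        omega
      · rw [hl2' y hyE]
        have e2 : S.gs y = 2 := by tauto
        by_cases hxt : S.xt x
        · rw [hr2x x hxB hxt]
          have := S.ocx y x hxt e2
          omega
        · rw [hr2c x hxB hxt]
          have e1 : S.ge x = 2 := by
            have := fun h => hxt (hK x h).1
            tauto
          have := S.oc y x (e2.trans e1.symm)
          omega
    · intro x hx y hy hne p hp h1 h2 h3 h4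
      exact hadj x y hne 2 p (hcov2 x hx p hp h1 h2) (hcov2 y hy p hp h3 h4)
    · intro x hx
      rw [hZ2] at hx
      rw [h𝓕2]
      tauto
    · intro x hx
      rw [hZ2] at hx
      exact hl2 x (by tauto)
    · intro p hp
      have e0 : Z2.card = (E.filter (fun x => S.ge x = 2)).card + K.card := by
        rw [show Z2 = K ∪ E.filter (fun x => S.ge x = 2) from rfl, Finset.card_union_of_disjoint,
          add_comm]
        rw [Finset.disjoint_left]
        intro x hx hx'
        rw [mem_filter] at hx'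
        exact hnx2 x hx'.2 (hK x hx).1
      rw [e0]
      refine (hload2 p).trans ?_
      rw [← Finset.card_union_of_disjoint, ← Finset.card_union_of_disjoint,
        ← Finset.card_union_of_disjoint]
      · refine Finset.card_le_card (fun x hx => ?_)
        rw [mem_filter, h𝓕2]
        simp only [mem_union, mem_filter, mem_univ, true_and] at hx
        rcases hx with ((⟨hx, hi, hc⟩ | ⟨hx, hc⟩) | ⟨hx, hi, ho⟩) | ⟨hi, hi', ho, hc⟩
        · refine ⟨Or.inr (Or.inl ⟨hx, hi⟩), ?_, ?_⟩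
          · rw [hl2 x (Or.inl hx)]; omega
          · rw [hr2c x (hdis x hx) (hnx2 x hi)]
            exact hc
        · refine ⟨Or.inl hx, ?_, ?_⟩
          · rw [hl2 x (Or.inr hx)]; omega
          · rw [hr2x x (hKB x hx) (hK x hx).1]
            exact hc
        · have hxE : x ∉ E := fun h => hdis x h hx
          have hxK : x ∉ K := fun h => hKB x h hx
          refine ⟨Or.inr (Or.inr (Or.inl ⟨hx, hi⟩)), ?_, ?_⟩
          · rw [hl2' x (by tauto)]; omega
          · rw [hr2B x hx]; exact hp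
        · have hxE : x ∉ E := fun h => hE x h (hi.trans hi'.symm)
          have hxB : x ∉ B := fun h => hB x h (hi.trans hi'.symm)
          have hxK : x ∉ K := fun h => hnx2 x hi' (hK x h).1
          refine ⟨Or.inr (Or.inr (Or.inr ⟨hi, hi'⟩)), ?_, ?_⟩
          · rw [hl2' x (by tauto)]; omega
          · rw [hr2c x hxB (hnx2 x hi')]; exact hc
      · rw [Finset.disjoint_left]
        intro x hx hx'
        simp only [mem_union, mem_filter, mem_univ, true_and] at hx hx'
        rcases hx with (hx | hx) | hx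
        · exact hE x hx.1 (hx'.1.trans hx'.2.1.symm)
        · exact hnx2 x hx'.2.1 (hK x hx.1).1
        · exact hB x hx.1 (hx'.1.trans hx'.2.1.symm)
      · rw [Finset.disjoint_left]
        intro x hx hx'
        simp only [mem_union, mem_filter] at hx hx'
        rcases hx with hx | hx
        · exact hdis x hx.1 hx'.1
        · exact hKB x hx.1 hx'.1
      · rw [Finset.disjoint_left]
        intro x hx hx'
        rw [mem_filter] at hx hx'
        exact hnx2 x hx.2.1 (hK x hx'.1).1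
  obtain ⟨C0, cur0, hC0, hC0d⟩ := hch 0 (by decide)
  obtain ⟨C1, cur1, hC1, hC1d⟩ := hch 1 (by decide)
  obtain ⟨C2, cur2, hC2, hC2d⟩ := hch2
  have hme : ∀ i s, s ∈ E.filter (fun x => S.ge x = i) ↔ s ∈ E ∧ S.ge s = i := fun i s => by
    rw [mem_filter]
  -- the partners of the chains of gap 1
  let E1 : Finset V := E.filter (fun x => S.ge x = 1)
  let XK : Finset V := B.filter (fun x => S.gs x = 1) ∪ K
  have hXK : ∀ x, x ∈ XK ↔ (x ∈ B ∧ S.gs x = 1) ∨ x ∈ K := fun x => by simp [XK]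
  have hXKr : ∀ x ∈ XK, r x = N := by
    intro x hx
    rcases (hXK x).1 hx with h | h
    · exact hrB x (Or.inl h.1)
    · exact hrB x (Or.inr (hK x h).1)
  have hXKcard : E1.card ≤ XK.card := by
    rw [show XK = B.filter (fun x => S.gs x = 1) ∪ K from rfl, Finset.card_union_of_disjoint]
    · exact hcnt
    · rw [Finset.disjoint_left]
      intro x hx hx'
      rw [mem_filter] at hx
      exact hKB x hx' hx.1
  have hcurinj : ∀ s ∈ E1, ∀ s' ∈ E1, cur1 s = cur1 s' → s = s' := by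
    intro s hs s' hs' h
    by_contra hne
    have h1 := hC1d s hs s' hs' hne
    rw [Finset.disjoint_left] at h1
    exact h1 (hC1 s hs).2.1 (h ▸ (hC1 s' hs').2.1)
  obtain ⟨φ, hφ⟩ : ∃ φ : V → V, (∀ s ∈ E1, φ s ∈ XK) ∧
      (∀ s ∈ E1, φ s = cur1 s ∨ ∀ s' ∈ E1, φ s ≠ cur1 s') ∧
      (∀ s ∈ E1, ∀ s' ∈ E1, φ s = φ s' → s = s') := by
    let Ea : Finset V := E1.filter (fun s => cur1 s ∈ XK)
    let Eb : Finset V := E1.filter (fun s => cur1 s ∉ XK)
    let Y : Finset V := XK \ E1.image cur1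
    have hab : E1.card = Ea.card + Eb.card :=
      (Finset.card_filter_add_card_filter_not (s := E1) (fun s => cur1 s ∈ XK)).symm
    have hY : XK.card ≤ Y.card + Ea.card := by
      have h1 : XK ⊆ Y ∪ Ea.image cur1 := by
        intro x hx
        by_cases h : x ∈ E1.image cur1
        · rw [mem_image] at h
          obtain ⟨s, hs, rfl⟩ := h
          exact mem_union_right _ (mem_image_of_mem _ (mem_filter.2 ⟨hs, hx⟩))
        · exact mem_union_left _ (mem_sdiff.2 ⟨hx, h⟩)
      refine (card_le_card h1).trans ((card_union_le _ _).trans ?_)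
      have := card_image_le (s := Ea) (f := cur1)
      omega
    have hle : Fintype.card {x // x ∈ Eb} ≤ Fintype.card {x // x ∈ Y} := by
      rw [Fintype.card_coe, Fintype.card_coe]
      omega
    obtain ⟨ψ⟩ := Function.Embedding.nonempty_of_card_le hle
    refine ⟨fun s => if h : s ∈ Eb then (ψ ⟨s, h⟩).1 else cur1 s, ?_, ?_, ?_⟩
    · intro s hs
      by_cases h : s ∈ Eb
      · simp only [dif_pos h]
        exact (mem_sdiff.1 (ψ ⟨s, h⟩).2).1
      · simp only [dif_neg h]
        by_contra h'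
        exact h (mem_filter.2 ⟨hs, h'⟩)
    · intro s hs
      by_cases h : s ∈ Eb
      · right
        intro s' hs' he
        simp only [dif_pos h] at he
        exact (mem_sdiff.1 (ψ ⟨s, h⟩).2).2 (he ▸ mem_image_of_mem _ hs')
      · left
        simp only [dif_neg h]
    · intro s hs s' hs' he
      by_cases h : s ∈ Eb <;> by_cases h' : s' ∈ Eb
      · simp only [dif_pos h, dif_pos h'] at he
        have := ψ.injective (Subtype.ext he)
        exact congrArg Subtype.val this
      · simp only [dif_pos h, dif_neg h'] at he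
        exact absurd (he ▸ mem_image_of_mem _ hs') (mem_sdiff.1 (ψ ⟨s, h⟩).2).2
      · simp only [dif_neg h, dif_pos h'] at he
        exact absurd (he.symm ▸ mem_image_of_mem _ hs) (mem_sdiff.1 (ψ ⟨s', h'⟩).2).2
      · simp only [dif_neg h, dif_neg h'] at he
        exact hcurinj s hs s' hs' he
  obtain ⟨hφ1, hφ2, hφ3⟩ := hφ
  -- a partner does not lie in another chain of gap 1
  have hφC : ∀ s ∈ E1, ∀ s' ∈ E1, s ≠ s' → φ s ∉ C1 s' := by
    intro s hs s' hs' hne hmem
    rcases hφ2 s hs with h | h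
    · have h1 := hC1d s hs s' hs' hne
      rw [Finset.disjoint_left] at h1
      exact h1 (hC1 s hs).2.1 (h ▸ hmem)
    · have h2 := (hC1 s' hs').2.2.2.2.2 (φ s) hmem (h s' hs')
      have := hXKr _ (hφ1 s hs)
      omega
  -- membership facts
  have hKin : ∀ s ∈ Z2, ∀ z ∈ Z2, z ∈ C2 s → z = s := by
    intro s hs z hz hmem
    by_contra hne
    have h1 := hC2d z hz s hs hne
    rw [Finset.disjoint_left] at h1
    exact h1 (hC2 z hz).1 hmem
  have h12 : ∀ x, x ∈ 𝓕 1 → x ∈ 𝓕2 → x ∈ K := by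
    intro x hx hx'
    rw [h𝓕] at hx
    rw [h𝓕2] at hx'
    by_contra hxK
    rcases hx with ⟨h1, h2⟩ | ⟨h1, h2⟩ | ⟨h1, h2⟩ <;>
      rcases hx' with h3 | ⟨h3, h4⟩ | ⟨h3, h4⟩ | ⟨h3, h4⟩
    · exact hxK h3
    · rw [h2] at h4; exact absurd h4 (by decide)
    · exact hdis x h1 h3
    · rw [h2] at h4; exact absurd h4 (by decide)
    · exact hxK h3
    · exact hdis x h3 h1
    · rw [h2] at h4; exact absurd h4 (by decide)
    · rw [h2] at h3; exact absurd h3 (by decide)
    · exact hxK h3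
    · rw [h2] at h4; exact absurd h4 (by decide)
    · rw [h1] at h4; exact absurd h4 (by decide)
    · rw [h1] at h3; exact absurd h3 (by decide)
  have h01 : ∀ x, x ∈ 𝓕 0 → x ∉ 𝓕 1 := by
    intro x hx hx'
    rw [h𝓕] at hx hx'
    rcases hx with ⟨h1, h2⟩ | ⟨h1, h2⟩ | ⟨h1, h2⟩ <;>
      rcases hx' with ⟨h3, h4⟩ | ⟨h3, h4⟩ | ⟨h3, h4⟩
    · rw [h2] at h4; exact absurd h4 (by decide)
    · exact hdis x h1 h3
    · rw [h2] at h4; exact absurd h4 (by decide)
    · exact hdis x h3 h1
    · rw [h2] at h4; exact absurd h4 (by decide)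
    · rw [h2] at h3; exact absurd h3 (by decide)
    · rw [h2] at h4; exact absurd h4 (by decide)
    · rw [h1] at h4; exact absurd h4 (by decide)
    · rw [h1] at h3; exact absurd h3 (by decide)
  have h02 : ∀ x, x ∈ 𝓕 0 → x ∉ 𝓕2 := by
    intro x hx hx'
    rw [h𝓕] at hx
    rw [h𝓕2] at hx'
    rcases hx with ⟨h1, h2⟩ | ⟨h1, h2⟩ | ⟨h1, h2⟩ <;>
      rcases hx' with h3 | ⟨h3, h4⟩ | ⟨h3, h4⟩ | ⟨h3, h4⟩
    · have := hKg x h3; rw [h2] at this; exact absurd this (by decide)
    · rw [h2] at h4; exact absurd h4 (by decide)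
    · exact hdis x h1 h3
    · rw [h2] at h4; exact absurd h4 (by decide)
    · exact hKB x h3 h1
    · exact hdis x h3 h1
    · rw [h2] at h4; exact absurd h4 (by decide)
    · rw [h2] at h3; exact absurd h3 (by decide)
    · have := hKg x h3; rw [h2] at this; exact absurd this (by decide)
    · rw [h2] at h4; exact absurd h4 (by decide)
    · rw [h1] at h4; exact absurd h4 (by decide)
    · rw [h1] at h3; exact absurd h3 (by decide)
  have hXK01 : ∀ x ∈ XK, x ∉ 𝓕 0 := by
    intro x hx hx'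
    rcases (hXK x).1 hx with h | h
    · exact h01 x hx' ((h𝓕 1 x).2 (Or.inr (Or.inl h)))
    · exact h02 x hx' ((h𝓕2 x).2 (Or.inl h))
  have hXK2 : ∀ x ∈ XK, x ∈ 𝓕2 → x ∈ K := by
    intro x hx hx'
    rcases (hXK x).1 hx with h | h
    · exact h12 x ((h𝓕 1 x).2 (Or.inr (Or.inl h))) hx'
    · exact h
  -- the sets
  let T : V → Finset V := fun κ => if κ ∈ K then C2 κ else {κ}
  have hTm : ∀ κ, κ ∈ T κ := by
    intro κ
    by_cases h : κ ∈ K
    · rw [show T κ = C2 κ from if_pos h]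
      exact (hC2 κ ((hZ2 κ).2 (Or.inl h))).1
    · rw [show T κ = {κ} from if_neg h]
      exact mem_singleton_self _
  have hTc : ∀ κ, (G.induce (T κ : Set V)).Connected := by
    intro κ
    by_cases h : κ ∈ K
    · rw [show T κ = C2 κ from if_pos h]
      exact (hC2 κ ((hZ2 κ).2 (Or.inl h))).2.2.2.2.1
    · rw [show T κ = {κ} from if_neg h, coe_singleton]
      exact SimpleGraph.Connected.of_subsingleton
  have hTin : ∀ κ, ∀ z ∈ T κ, z = κ ∨ (κ ∈ K ∧ z ∈ C2 κ) := by
    intro κ z hz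
    by_cases h : κ ∈ K
    · rw [show T κ = C2 κ from if_pos h] at hz
      exact Or.inr ⟨h, hz⟩
    · rw [show T κ = {κ} from if_neg h, mem_singleton] at hz
      exact Or.inl hz
  let C : V → Finset V := fun s => if S.ge s = 0 then C0 s else if S.ge s = 1 then
    C1 s ∪ T (φ s) else C2 s
  have hCc : ∀ s, (S.ge s = 0 ∧ C s = C0 s) ∨ (S.ge s = 1 ∧ C s = C1 s ∪ T (φ s)) ∨
      (S.ge s = 2 ∧ C s = C2 s) := by
    intro s
    have h3 : S.ge s = 0 ∨ S.ge s = 1 ∨ S.ge s = 2 := by
      generalize S.ge s = i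
      revert i
      decide
    rcases h3 with h | h | h
    · exact Or.inl ⟨h, if_pos h⟩
    · refine Or.inr (Or.inl ⟨h, ?_⟩)
      show (if S.ge s = 0 then C0 s else if S.ge s = 1 then C1 s ∪ T (φ s) else C2 s) = _
      rw [if_neg (by rw [h]; decide), if_pos h]
    · refine Or.inr (Or.inr ⟨h, ?_⟩)
      show (if S.ge s = 0 then C0 s else if S.ge s = 1 then C1 s ∪ T (φ s) else C2 s) = _
      rw [if_neg (by rw [h]; decide), if_neg (by rw [h]; decide)]
  have hcur2 : ∀ s ∈ Z2, cur2 s ∈ B ∧ S.gs (cur2 s) = 2 := by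
    intro s hs
    obtain ⟨-, h2, h3, h4, -⟩ := hC2 s hs
    have hBm : cur2 s ∈ B := by
      by_contra hB'
      have := hN (cur2 s)
      by_cases hxt : S.xt (cur2 s)
      · rw [hr2x _ hB' hxt] at h3
        omega
      · rw [hr2c _ hB' hxt] at h3
        omega
    refine ⟨hBm, ?_⟩
    rcases (h𝓕2 _).1 (h4 h2) with h | h | h | h
    · exact absurd hBm (hKB _ h)
    · exact absurd hBm (hdis _ h.1)
    · exact h.2
    · exact h.1
  refine ⟨E, C, htE, ?_, ?_⟩
  · intro s hs
    rcases hCc s with ⟨hg, hCs⟩ | ⟨hg, hCs⟩ | ⟨hg, hCs⟩ <;> rw [hCs]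
    · obtain ⟨h1, h2, h3, h4, h5, -⟩ := hC0 s ((hme 0 s).2 ⟨hs, hg⟩)
      refine ⟨h1, hE s hs, h5, cur0 s, h2, ?_⟩
      have h6 := h4 h2
      rw [h𝓕] at h6
      have hBm : cur0 s ∈ B := by
        by_contra hB'
        by_cases hxt : S.xt (cur0 s)
        · have := S.xg _ hxt
          have h7 : S.ge (cur0 s) = 0 := by tauto
          rw [h7] at this
          exact absurd this (by decide)
        · rw [hrB' _ (by tauto)] at h3
          have := hN (cur0 s)
          omega
      refine ⟨hB _ hBm, Or.inl ?_⟩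
      rw [hg]
      rcases h6 with h | h | h
      · exact absurd hBm (hdis _ h.1)
      · exact h.2
      · exact h.1
    · have hs1 : s ∈ E1 := (hme 1 s).2 ⟨hs, hg⟩
      obtain ⟨h1, h2, h3, h4, h5, -⟩ := hC1 s hs1
      have hφs := hφ1 s hs1
      have hcovφ : S.Cov (φ s) 1 N := by
        rcases (hXK _).1 hφs with h | h
        · exact ⟨Or.inl h.2, fun _ => (hN _).1, fun h' => absurd (h.2.trans h'.symm) (hB _ h.1),
            fun _ h' => absurd h' (by decide)⟩
        · exact ⟨Or.inr (Or.inl (hKg _ h)), fun _ => (hN _).1, fun _ => Or.inl (hK _ h).1,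
            fun _ h' => absurd h' (by decide)⟩
      have hcovc : S.Cov (cur1 s) 1 N := hcov 1 _ (by decide) (h4 h2) N le_rfl h3.1 h3.2
      have hcon : (G.induce ((C1 s ∪ T (φ s) : Finset V) : Set V)).Connected := by
        refine conn_glue h5 (hTc _) h2 (hTm _) ?_
        by_cases he : cur1 s = φ s
        · exact Or.inl he
        · exact Or.inr (hadj _ _ he 1 N hcovc hcovφ)
      refine ⟨mem_union_left _ h1, hE s hs, hcon, ?_⟩
      rcases (hXK _).1 hφs with h | h
      · refine ⟨φ s, mem_union_right _ (hTm _), hB _ h.1, Or.inl ?_⟩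
        rw [hg]
        exact h.2
      · obtain ⟨h6, h7⟩ := hcur2 (φ s) ((hZ2 _).2 (Or.inl h))
        refine ⟨cur2 (φ s), mem_union_right _ ?_, hB _ h6, Or.inr ⟨hg, h7⟩⟩
        rw [show T (φ s) = C2 (φ s) from if_pos h]
        exact (hC2 _ ((hZ2 _).2 (Or.inl h))).2.1
    · have hs2 : s ∈ Z2 := (hZ2 s).2 (Or.inr ⟨hs, hg⟩)
      obtain ⟨h1, h2, h3, h4, h5, -⟩ := hC2 s hs2
      obtain ⟨h6, h7⟩ := hcur2 s hs2
      refine ⟨h1, hE s hs, h5, cur2 s, h2, hB _ h6, Or.inl ?_⟩
      rw [hg]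
      exact h7
  · -- disjointness
    have key : ∀ s ∈ E, ∀ s' ∈ E, s ≠ s' → S.ge s ≤ S.ge s' → ∀ x, x ∈ C s → x ∈ C s' → False := by
      intro s hs s' hs' hne hle x hx hx'
      rcases hCc s with ⟨hg, hCs⟩ | ⟨hg, hCs⟩ | ⟨hg, hCs⟩ <;>
        rcases hCc s' with ⟨hg', hCs'⟩ | ⟨hg', hCs'⟩ | ⟨hg', hCs'⟩ <;>
        rw [hCs] at hx <;> rw [hCs'] at hx' <;> rw [hg, hg'] at hle
      · have h1 := hC0d s ((hme 0 s).2 ⟨hs, hg⟩) s' ((hme 0 s').2 ⟨hs', hg'⟩) hne
        exact (Finset.disjoint_left.1 h1) hx hx'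
      · have h0 := (hC0 s ((hme 0 s).2 ⟨hs, hg⟩)).2.2.2.1 hx
        have hs1' : s' ∈ E1 := (hme 1 s').2 ⟨hs', hg'⟩
        rcases mem_union.1 hx' with h | h
        · exact h01 x h0 ((hC1 s' hs1').2.2.2.1 h)
        · rcases hTin _ x h with rfl | ⟨h1, h2⟩
          · exact hXK01 _ (hφ1 s' hs1') h0
          · exact h02 x h0 ((hC2 _ ((hZ2 _).2 (Or.inl h1))).2.2.2.1 h2)
      · have h0 := (hC0 s ((hme 0 s).2 ⟨hs, hg⟩)).2.2.2.1 hx
        exact h02 x h0 ((hC2 s' ((hZ2 _).2 (Or.inr ⟨hs', hg'⟩))).2.2.2.1 hx')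
      · exact absurd hle (by decide)
      · have hs1 : s ∈ E1 := (hme 1 s).2 ⟨hs, hg⟩
        have hs1' : s' ∈ E1 := (hme 1 s').2 ⟨hs', hg'⟩
        rcases mem_union.1 hx with h | h <;> rcases mem_union.1 hx' with h' | h'
        · exact (Finset.disjoint_left.1 (hC1d s hs1 s' hs1' hne)) h h'
        · rcases hTin _ x h' with rfl | ⟨h1, h2⟩
          · exact hφC s' hs1' s hs1 hne.symm h
          · have h3 := (hC1 s hs1).2.2.2.1 h
            have hz := (hZ2 _).2 (Or.inl h1)
            have h4 := h12 x h3 ((hC2 _ hz).2.2.2.1 h2)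
            have h5 := hKin _ hz x ((hZ2 _).2 (Or.inl h4)) h2
            rw [h5] at h
            exact hφC s' hs1' s hs1 hne.symm h
        · rcases hTin _ x h with rfl | ⟨h1, h2⟩
          · exact hφC s hs1 s' hs1' hne h'
          · have h3 := (hC1 s' hs1').2.2.2.1 h'
            have hz := (hZ2 _).2 (Or.inl h1)
            have h4 := h12 x h3 ((hC2 _ hz).2.2.2.1 h2)
            have h5 := hKin _ hz x ((hZ2 _).2 (Or.inl h4)) h2
            rw [h5] at h'
            exact hφC s hs1 s' hs1' hne h'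
        · have hne' : φ s ≠ φ s' := fun he => hne (hφ3 s hs1 s' hs1' he)
          rcases hTin _ x h with h7 | ⟨h1, h2⟩ <;> rcases hTin _ x h' with h6 | ⟨h3, h4⟩
          · exact hne' (h7.symm.trans h6)
          · have hz := (hZ2 _).2 (Or.inl h3)
            rw [h7] at h4
            have h5 := hXK2 _ (hφ1 s hs1) ((hC2 _ hz).2.2.2.1 h4)
            exact hne' (hKin _ hz _ ((hZ2 _).2 (Or.inl h5)) h4)
          · have hz := (hZ2 _).2 (Or.inl h1)
            rw [h6] at h2
            have h5 := hXK2 _ (hφ1 s' hs1') ((hC2 _ hz).2.2.2.1 h2)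
            exact hne' (hKin _ hz _ ((hZ2 _).2 (Or.inl h5)) h2).symm
          · exact (Finset.disjoint_left.1 (hC2d _ ((hZ2 _).2 (Or.inl h1)) _
              ((hZ2 _).2 (Or.inl h3)) hne')) h2 h4
      · have hs1 : s ∈ E1 := (hme 1 s).2 ⟨hs, hg⟩
        have hz' : s' ∈ Z2 := (hZ2 _).2 (Or.inr ⟨hs', hg'⟩)
        have hsK : s' ∉ K := fun h => hnx2 s' hg' (hK _ h).1
        have h0 := (hC2 s' hz').2.2.2.1 hx'
        rcases mem_union.1 hx with h | h
        · have h3 := (hC1 s hs1).2.2.2.1 h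
          have h4 := h12 x h3 h0
          have h5 := hKin _ hz' x ((hZ2 _).2 (Or.inl h4)) hx'
          exact hsK (h5 ▸ h4)
        · rcases hTin _ x h with rfl | ⟨h1, h2⟩
          · have h4 := hXK2 _ (hφ1 s hs1) h0
            have h5 := hKin _ hz' _ ((hZ2 _).2 (Or.inl h4)) hx'
            exact hsK (h5 ▸ h4)
          · exact (Finset.disjoint_left.1 (hC2d _ ((hZ2 _).2 (Or.inl h1)) _ hz'
              (fun he => hsK (he ▸ h1)))) h2 hx'
      · exact absurd hle (by decide)
      · exact absurd hle (by decide)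
      · exact (Finset.disjoint_left.1 (hC2d _ ((hZ2 _).2 (Or.inr ⟨hs, hg⟩)) _
          ((hZ2 _).2 (Or.inr ⟨hs', hg'⟩)) hne)) hx hx'
    intro s hs s' hs' hne
    rw [Finset.disjoint_left]
    intro x hx hx'
    rcases le_total (S.ge s) (S.ge s') with h | h
    · exact key s hs s' hs' hne h x hx hx'
    · exact key s' hs' s hs hne.symm h x hx' hx

end Pool.Agent.CA
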