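import Mathlib
import Pool.Agent.CA.Sets2
import Pool.Agent.CA92.Shift

/-!
Three-clique packing for circular-arc graphs, one of the cliques may be non-Helly (helper23):
the model part and the final theorem `three_clique`.
-/

set_option autoImplicit false

namespace Pool.Agent.CA

open Finset Pool.Agent.CA31
open scoped Classical

section model

variable {V : Type} [Fintype V] {M : Model V} {G : SimpleGraph V}

/-- the number of the three cliques which contain `z` -/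
noncomputable def cq (M : Model V) (u : ℕ) (Q : Finset V) (z : V) : ℕ :=
  (if M.Mem z 0 then 1 else 0) + (if M.Mem z u then 1 else 0) + (if z ∈ Q then 1 else 0)

/-- connectors and class-1 arcs through the third point -/
def Ext (M : Model V) (v : ℕ) (Q : Finset V) (z : V) : Prop :=
  z ∉ Q ∧ ¬ M.Mem z 0 ∧ M.Mem z v

/-- the hypotheses on the third clique -/
structure QHyp (M : Model V) (u v : ℕ) (Q : Finset V) : Prop where
  q1 : ∀ z ∈ Q, M.Mem z 0 ∨ M.Mem z v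
  q2 : ∀ z, M.Mem z 0 → M.Mem z v → z ∈ Q
  ord : ∀ s ∈ Q, M.Mem s v → ¬ M.Mem s u → ¬ M.Mem s 0 → ∀ t, t ∉ Q → M.Mem t v →
    ¬ M.Mem t 0 → ¬ M.Mem t u → M.c t < M.c s

theorem cls {u v : ℕ} {Q : Finset V} (h0u : 0 < u) (huv : u < v) (hQ : QHyp M u v Q) {z : V}
    (hz : cq M u Q z ≤ 1) :
    (M.o z < u ∧ M.c z < u ∧ M.o z < M.c z ∧ z ∉ Q ∧ ¬ Ext M v Q z) ∨
    (u ≤ M.o z ∧ M.c z < v ∧ M.o z < M.c z ∧ z ∉ Q ∧ ¬ Ext M v Q z) ∨
    (v ≤ M.o z ∧ M.o z < M.c z ∧ z ∉ Q ∧ ¬ Ext M v Q z) ∨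
    (M.o z < u ∧ u ≤ M.c z ∧ M.c z < v ∧ z ∉ Q ∧ ¬ Ext M v Q z) ∨
    (u ≤ M.o z ∧ M.o z < v ∧ v ≤ M.c z ∧ z ∈ Q ∧ ¬ Ext M v Q z) ∨
    (v ≤ M.o z ∧ M.c z < u ∧ z ∉ Q ∧ ¬ Ext M v Q z) ∨
    (u ≤ M.o z ∧ M.o z < v ∧ v ≤ M.c z ∧ z ∉ Q ∧ Ext M v Q z) ∨
    (M.o z < u ∧ v ≤ M.c z ∧ z ∉ Q ∧ Ext M v Q z) := by
  have h1 := hQ.q1 z
  have h2 := hQ.q2 z
  unfold cq at hz
  unfold Ext
  rcases lt_or_gt_of_ne (M.o_ne_c z z) with hoc | hoc
  · have hm : ∀ t, M.Mem z t ↔ (M.o z < t ∧ t ≤ M.c z) := fun t => by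
      unfold Model.Mem
      omega
    have h0 : ¬ M.Mem z 0 := by rw [hm]; omega
    simp only [h0, if_false, false_or, not_false_eq_true, true_and, zero_add, hm] at h1 h2 hz ⊢
    by_cases hq : z ∈ Q
    · have h3 := h1 hq
      have h4 : ¬ (M.o z < u ∧ u ≤ M.c z) := by
        intro h
        rw [if_pos h, if_pos hq] at hz
        omega
      have h5 : u ≤ M.o z := by omega
      exact Or.inr (Or.inr (Or.inr (Or.inr (Or.inl ⟨h5, h3.1, h3.2, hq, fun h => h.1 hq⟩))))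
    · by_cases hv : M.o z < v ∧ v ≤ M.c z
      · by_cases hu : M.o z < u
        · exact Or.inr (Or.inr (Or.inr (Or.inr (Or.inr (Or.inr (Or.inr ⟨hu, hv.2, hq, hq, hv⟩))))))
        · exact Or.inr (Or.inr (Or.inr (Or.inr (Or.inr (Or.inr (Or.inl
            ⟨by omega, hv.1, hv.2, hq, hq, hv⟩))))))
      · have hne : ¬ (z ∉ Q ∧ M.o z < v ∧ v ≤ M.c z) := fun h => hv h.2
        rcases lt_or_ge (M.o z) u with h5 | h5
        · rcases lt_or_ge (M.c z) u with h6 | h6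
          · exact Or.inl ⟨h5, h6, hoc, hq, hne⟩
          · exact Or.inr (Or.inr (Or.inr (Or.inl ⟨h5, h6, by omega, hq, hne⟩)))
        · rcases lt_or_ge (M.o z) v with h6 | h6
          · exact Or.inr (Or.inl ⟨h5, by omega, hoc, hq, hne⟩)
          · exact Or.inr (Or.inr (Or.inl ⟨h6, hoc, hq, hne⟩))
  · have hm : ∀ t, M.Mem z t ↔ (t ≤ M.c z ∨ M.o z < t) := fun t => by
      unfold Model.Mem
      omega
    have h0 : M.Mem z 0 := by rw [hm]; omega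
    rw [if_pos h0] at hz
    have hq : z ∉ Q := by
      intro h
      rw [if_pos h] at hz
      omega
    have hu : ¬ M.Mem z u := by
      intro h
      rw [if_pos h] at hz
      omega
    have hv : ¬ M.Mem z v := fun h => hq (h2 h0 h)
    rw [hm] at hu hv
    exact Or.inr (Or.inr (Or.inr (Or.inr (Or.inr (Or.inl ⟨by omega, by omega, hq,
      fun h => h.2.1 h0⟩)))))

/-- the system of the arcs in at most one of the three cliques -/
noncomputable def msys2 (M : Model V) {u v : ℕ} {Q : Finset V} (h0u : 0 < u) (huv : u < v)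
    (hQ : QHyp M u v Q) : Sys2 {z : V // cq M u Q z ≤ 1} where
  gs z := gp u v (M.o z.1)
  ge z := if Ext M v Q z.1 then 1 else gp u v (M.c z.1)
  o z := M.o z.1
  c z := if Ext M v Q z.1 then v else M.c z.1
  xt z := Ext M v Q z.1
  xc z := M.c z.1
  ty z := by
    rcases cls h0u huv hQ z.2 with h | h | h | h | h | h | h | h
    · rw [if_neg h.2.2.2.2, if_neg h.2.2.2.2, gp0 h.1, gp0 h.2.1]
      exact Or.inl ⟨rfl, h.2.2.1⟩
    · rw [if_neg h.2.2.2.2, if_neg h.2.2.2.2, gp1 h.1 (by omega), gp1 (by omega) h.2.1]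
      exact Or.inl ⟨rfl, h.2.2.1⟩
    · rw [if_neg h.2.2.2, if_neg h.2.2.2, gp2 huv.le h.1, gp2 huv.le (by omega)]
      exact Or.inl ⟨rfl, h.2.1⟩
    · rw [if_neg h.2.2.2.2, gp0 h.1, gp1 h.2.1 h.2.2.1]
      exact Or.inr (by decide)
    · rw [if_neg h.2.2.2.2, gp1 h.1 h.2.1, gp2 huv.le h.2.2.1]
      exact Or.inr (by decide)
    · rw [if_neg h.2.2.2, gp2 huv.le h.1, gp0 h.2.1]
      exact Or.inr (by decide)
    · rw [if_pos h.2.2.2.2, if_pos h.2.2.2.2, gp1 h.1 h.2.1]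
      exact Or.inl ⟨rfl, h.2.1⟩
    · rw [if_pos h.2.2.2, gp0 h.1]
      exact Or.inr (by decide)
  oc x y h := by
    by_cases hy : Ext M v Q y.1
    · rw [if_pos hy] at h ⊢
      rcases gp_cases huv.le (M.o x.1) with ⟨-, h2⟩ | ⟨-, h1, -⟩ | ⟨-, h2⟩
      · rw [h2] at h
        exact absurd h (by decide)
      · omega
      · rw [h2] at h
        exact absurd h (by decide)
    · rw [if_neg hy]
      exact M.o_ne_c x.1 y.1
  xg x h := if_pos h
  ocx x y _ _ := M.o_ne_c x.1 y.1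


theorem dl_cases {u v : ℕ} {Q : Finset V} (h0u : 0 < u) (huv : u < v) (hQ : QHyp M u v Q)
    (a b : Fin 3 → ℕ) (z : {z : V // cq M u Q z ≤ 1}) :
    (M.o z.1 < u ∧ M.c z.1 < u ∧ M.o z.1 < M.c z.1 ∧ z.1 ∉ Q ∧ ¬ Ext M v Q z.1 ∧
      (msys2 M h0u huv hQ).dl a b z = (if M.o z.1 < a 0 ∧ a 0 ≤ M.c z.1 then 1 else 0) +
        (if M.o z.1 < b 0 ∧ b 0 ≤ M.c z.1 then 1 else 0)) ∨
    (u ≤ M.o z.1 ∧ M.c z.1 < v ∧ M.o z.1 < M.c z.1 ∧ z.1 ∉ Q ∧ ¬ Ext M v Q z.1 ∧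
      (msys2 M h0u huv hQ).dl a b z = (if M.o z.1 < a 1 ∧ a 1 ≤ M.c z.1 then 1 else 0) +
        (if M.o z.1 < b 1 ∧ b 1 ≤ M.c z.1 then 1 else 0)) ∨
    (v ≤ M.o z.1 ∧ M.o z.1 < M.c z.1 ∧ z.1 ∉ Q ∧ ¬ Ext M v Q z.1 ∧
      (msys2 M h0u huv hQ).dl a b z = (if M.o z.1 < a 2 ∧ a 2 ≤ M.c z.1 then 1 else 0) +
        (if M.o z.1 < b 2 ∧ b 2 ≤ M.c z.1 then 1 else 0)) ∨
    (M.o z.1 < u ∧ u ≤ M.c z.1 ∧ M.c z.1 < v ∧ z.1 ∉ Q ∧ ¬ Ext M v Q z.1 ∧
      (msys2 M h0u huv hQ).dl a b z = (if M.o z.1 < b 0 ∨ a 1 ≤ M.c z.1 then 1 else 0) +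
        (if M.o z.1 < a 0 ∨ b 1 ≤ M.c z.1 then 1 else 0)) ∨
    (u ≤ M.o z.1 ∧ M.o z.1 < v ∧ v ≤ M.c z.1 ∧ z.1 ∈ Q ∧ ¬ Ext M v Q z.1 ∧
      (msys2 M h0u huv hQ).dl a b z = (if M.o z.1 < b 1 ∨ a 2 ≤ M.c z.1 then 1 else 0) +
        (if M.o z.1 < a 1 ∨ b 2 ≤ M.c z.1 then 1 else 0)) ∨
    (v ≤ M.o z.1 ∧ M.c z.1 < u ∧ z.1 ∉ Q ∧ ¬ Ext M v Q z.1 ∧
      (msys2 M h0u huv hQ).dl a b z = (if M.o z.1 < b 2 ∨ a 0 ≤ M.c z.1 then 1 else 0) +
        (if M.o z.1 < a 2 ∨ b 0 ≤ M.c z.1 then 1 else 0)) ∨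
    (u ≤ M.o z.1 ∧ M.o z.1 < v ∧ v ≤ M.c z.1 ∧ z.1 ∉ Q ∧ Ext M v Q z.1 ∧
      (msys2 M h0u huv hQ).dl a b z =
        (if M.o z.1 < a 1 ∧ (a 1 ≤ v ∨ a 2 ≤ M.c z.1) then 1 else 0) +
        (if M.o z.1 < b 1 ∧ (b 1 ≤ v ∨ b 2 ≤ M.c z.1) then 1 else 0)) ∨
    (M.o z.1 < u ∧ v ≤ M.c z.1 ∧ z.1 ∉ Q ∧ Ext M v Q z.1 ∧
      (msys2 M h0u huv hQ).dl a b z =
        (if M.o z.1 < b 0 ∨ (a 1 ≤ v ∨ a 2 ≤ M.c z.1) then 1 else 0) +
        (if M.o z.1 < a 0 ∨ (b 1 ≤ v ∨ b 2 ≤ M.c z.1) then 1 else 0)) := by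
  have eo : (msys2 M h0u huv hQ).o z = M.o z.1 := rfl
  have egs : (msys2 M h0u huv hQ).gs z = gp u v (M.o z.1) := rfl
  have ex : (msys2 M h0u huv hQ).xt z = Ext M v Q z.1 := rfl
  have exc : (msys2 M h0u huv hQ).xc z = M.c z.1 := rfl
  have ege : (msys2 M h0u huv hQ).ge z = if Ext M v Q z.1 then 1 else gp u v (M.c z.1) := rfl
  have ec : (msys2 M h0u huv hQ).c z = if Ext M v Q z.1 then v else M.c z.1 := rfl
  rcases cls h0u huv hQ z.2 with h | h | h | h | h | h | h | h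
  · left
    refine ⟨h.1, h.2.1, h.2.2.1, h.2.2.2.1, h.2.2.2.2, ?_⟩
    rw [if_neg h.2.2.2.2] at ege ec
    rw [gp0 h.1] at egs
    rw [gp0 h.2.1] at ege
    unfold Sys2.dl Sys2.En
    rw [egs, ege, ec, ex, exc, eo, if_pos rfl]
    simp only [h.2.2.2.2, false_and, or_false, if_false]
  · right; left
    refine ⟨h.1, h.2.1, h.2.2.1, h.2.2.2.1, h.2.2.2.2, ?_⟩
    rw [if_neg h.2.2.2.2] at ege ec
    rw [gp1 h.1 (by omega)] at egs
    rw [gp1 (by omega) h.2.1] at ege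
    unfold Sys2.dl Sys2.En
    rw [egs, ege, ec, ex, exc, eo, if_pos rfl]
    simp only [h.2.2.2.2, false_and, or_false, if_false]
  · right; right; left
    refine ⟨h.1, h.2.1, h.2.2.1, h.2.2.2, ?_⟩
    rw [if_neg h.2.2.2] at ege ec
    rw [gp2 huv.le h.1] at egs
    rw [gp2 huv.le (by omega)] at ege
    unfold Sys2.dl Sys2.En
    rw [egs, ege, ec, ex, exc, eo, if_pos rfl]
    simp only [h.2.2.2, false_and, or_false, if_false]
  · right; right; right; left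
    refine ⟨h.1, h.2.1, h.2.2.1, h.2.2.2.1, h.2.2.2.2, ?_⟩
    rw [if_neg h.2.2.2.2] at ege ec
    rw [gp0 h.1] at egs
    rw [gp1 h.2.1 h.2.2.1] at ege
    unfold Sys2.dl Sys2.En
    rw [egs, ege, ec, ex, exc, eo, if_neg (by decide)]
    simp only [h.2.2.2.2, false_and, or_false, if_false]
  · right; right; right; right; left
    refine ⟨h.1, h.2.1, h.2.2.1, h.2.2.2.1, h.2.2.2.2, ?_⟩
    rw [if_neg h.2.2.2.2] at ege ec
    rw [gp1 h.1 h.2.1] at egs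
    rw [gp2 huv.le h.2.2.1] at ege
    unfold Sys2.dl Sys2.En
    rw [egs, ege, ec, ex, exc, eo, if_neg (by decide)]
    simp only [h.2.2.2.2, false_and, or_false, if_false]
  · right; right; right; right; right; left
    refine ⟨h.1, h.2.1, h.2.2.1, h.2.2.2, ?_⟩
    rw [if_neg h.2.2.2] at ege ec
    rw [gp2 huv.le h.1] at egs
    rw [gp0 h.2.1] at ege
    unfold Sys2.dl Sys2.En
    rw [egs, ege, ec, ex, exc, eo, if_neg (by decide)]
    simp only [h.2.2.2, false_and, or_false, if_false]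
  · right; right; right; right; right; right; left
    refine ⟨h.1, h.2.1, h.2.2.1, h.2.2.2.1, h.2.2.2.2, ?_⟩
    rw [if_pos h.2.2.2.2] at ege ec
    rw [gp1 h.1 h.2.1] at egs
    unfold Sys2.dl Sys2.En
    rw [egs, ege, ec, ex, exc, eo, if_pos rfl]
    simp only [h.2.2.2.2, true_and]
  · right; right; right; right; right; right; right
    refine ⟨h.1, h.2.1, h.2.2.1, h.2.2.2, ?_⟩
    rw [if_pos h.2.2.2] at ege ec
    rw [gp0 h.1] at egs
    unfold Sys2.dl Sys2.En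
    rw [egs, ege, ec, ex, exc, eo, if_neg (by decide)]
    simp only [h.2.2.2, true_and]

/-- sorted thresholds -/
structure Th (u v N : ℕ) (a b : Fin 3 → ℕ) (p0 q0 p1 q1 p2 q2 : ℕ) : Prop where
  m0 : p0 ≤ q0
  n0 : q0 ≤ u
  l1 : u ≤ p1
  m1 : p1 ≤ q1
  n1 : q1 ≤ v
  l2 : v ≤ p2
  m2 : p2 ≤ q2
  n2 : q2 ≤ N
  e0 : ∀ e, e < u → ((e < p0 ↔ e < a 0 ∧ e < b 0) ∧ (e < q0 ↔ e < a 0 ∨ e < b 0))
  e1 : ∀ e, u ≤ e → e < v → ((e < p1 ↔ e < a 1 ∧ e < b 1) ∧ (e < q1 ↔ e < a 1 ∨ e < b 1))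
  e2 : ∀ e, v ≤ e → e < N → ((e < p2 ↔ e < a 2 ∧ e < b 2) ∧ (e < q2 ↔ e < a 2 ∨ e < b 2))

theorem exists_Th {u v N : ℕ} (huv : u < v) (hvN : v ≤ N) (a b : Fin 3 → ℕ) :
    ∃ p0 q0 p1 q1 p2 q2, Th u v N a b p0 q0 p1 q1 p2 q2 :=
  ⟨min (min (a 0) (b 0)) u, min (max (a 0) (b 0)) u, max u (min (min (a 1) (b 1)) v),
    max u (min (max (a 1) (b 1)) v), max v (min (min (a 2) (b 2)) N),
    max v (min (max (a 2) (b 2)) N), by omega, by omega, by omega, by omega, by omega, by omega,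
    by omega, by omega, fun e he => by omega, fun e he he' => by omega, fun e he he' => by omega⟩

variable {u v N : ℕ} {Q : Finset V} {a b : Fin 3 → ℕ} {p0 q0 p1 q1 p2 q2 : ℕ}

theorem mem_lt {z : V} (h : M.o z < M.c z) (t : ℕ) : M.Mem z t ↔ M.o z < t ∧ t ≤ M.c z := by
  unfold Model.Mem
  omega

theorem mem_gt {z : V} (h : M.c z < M.o z) (t : ℕ) : M.Mem z t ↔ t ≤ M.c z ∨ M.o z < t := by
  unfold Model.Mem
  omega

theorem ineqA1 (h0u : 0 < u) (huv : u < v) (hQ : QHyp M u v Q)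
    (hN : ∀ z, M.o z < N ∧ M.c z < N) (T : Th u v N a b p0 q0 p1 q1 p2 q2)
    (ha : a 1 ≤ v) (hb : b 1 ≤ v)
    (hx : ∀ t, Ext M v Q t → u ≤ M.o t → M.c t < p2)
    (z : {z : V // cq M u Q z ≤ 1}) :
    min 2 ((if M.Mem z.1 q0 ∨ M.Mem z.1 p1 then 1 else 0) + (if M.Mem z.1 q1 ∨ M.Mem z.1 p2 then 1 else 0) +
      (if M.Mem z.1 p0 ∨ M.Mem z.1 q2 then 1 else 0)) ≤ (msys2 M h0u huv hQ).dl a b z := by
  obtain ⟨hN1, hN2⟩ := hN z.1
  obtain ⟨B0, C0, A1, B1, C1, A2, B2, C2, E0, E1, E2⟩ := T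
  rcases dl_cases h0u huv hQ a b z with ⟨t1, t2, t3, t4, t5, hd⟩ | ⟨t1, t2, t3, t4, t5, hd⟩ |
    ⟨t1, t2, t3, t4, hd⟩ | ⟨t1, t2, t3, t4, t5, hd⟩ | ⟨t1, t2, t3, t4, t5, hd⟩ |
    ⟨t1, t2, t3, t4, hd⟩ | ⟨t1, t2, t3, t4, t5, hd⟩ | ⟨t1, t2, t3, t4, hd⟩ <;> rw [hd]
  · have f1 := E0 _ t1
    have f2 := E0 _ t2
    simp only [mem_lt t3, t4, or_false, if_false]
    split_ifs <;> omega
  · have f1 := E1 _ t1 (by omega)
    have f2 := E1 _ (by omega) t2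
    simp only [mem_lt t3, t4, or_false, if_false]
    split_ifs <;> omega
  · have f1 := E2 _ t1 hN1
    have f2 := E2 _ (by omega) hN2
    simp only [mem_lt t2, t3, or_false, if_false]
    split_ifs <;> omega
  · have f1 := E0 _ t1
    have f2 := E1 _ t2 t3
    simp only [mem_lt (show M.o z.1 < M.c z.1 by omega), t4, or_false, if_false]
    split_ifs <;> omega
  · have f1 := E1 _ t1 t2
    have f2 := E2 _ t3 hN2
    simp only [mem_lt (show M.o z.1 < M.c z.1 by omega), t4, or_true, if_true]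
    split_ifs <;> omega
  · have f1 := E2 _ t1 hN1
    have f2 := E0 _ t2
    simp only [mem_gt (show M.c z.1 < M.o z.1 by omega), t3, or_false, if_false]
    split_ifs <;> omega
  · have f1 := E1 _ t1 t2
    have f2 := E2 _ t3 hN2
    have f3 := hx z.1 t5 t1
    simp only [mem_lt (show M.o z.1 < M.c z.1 by omega), t4, or_false, if_false]
    split_ifs <;> omega
  · have f1 := E0 _ t1
    have f2 := E2 _ t2 hN2
    simp only [mem_lt (show M.o z.1 < M.c z.1 by omega), t3, or_false, if_false]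
    split_ifs <;> omega

theorem ineqA2a (h0u : 0 < u) (huv : u < v) (hQ : QHyp M u v Q)
    (hN : ∀ z, M.o z < N ∧ M.c z < N) (T : Th u v N a b p0 q0 p1 q1 p2 q2)
    (ha : a 1 ≤ v) (hb : b 1 ≤ v) (hx : ∀ t, Ext M v Q t → u ≤ M.o t → True)
    (hs : ∀ s ∈ Q, u ≤ M.o s → M.o s < v → v ≤ M.c s → q2 ≤ M.c s)
    (z : {z : V // cq M u Q z ≤ 1}) :
    min 2 ((if M.Mem z.1 q0 ∨ M.Mem z.1 p1 then 1 else 0) + (if z.1 ∈ Q then 1 else 0) +
      (if (M.Mem z.1 p0 ∨ M.Mem z.1 q1) ∨ z.1 ∈ Q then 1 else 0)) ≤ (msys2 M h0u huv hQ).dl a b z := by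
  obtain ⟨hN1, hN2⟩ := hN z.1
  obtain ⟨B0, C0, A1, B1, C1, A2, B2, C2, E0, E1, E2⟩ := T
  rcases dl_cases h0u huv hQ a b z with ⟨t1, t2, t3, t4, t5, hd⟩ | ⟨t1, t2, t3, t4, t5, hd⟩ |
    ⟨t1, t2, t3, t4, hd⟩ | ⟨t1, t2, t3, t4, t5, hd⟩ | ⟨t1, t2, t3, t4, t5, hd⟩ |
    ⟨t1, t2, t3, t4, hd⟩ | ⟨t1, t2, t3, t4, t5, hd⟩ | ⟨t1, t2, t3, t4, hd⟩ <;> rw [hd]
  · have f1 := E0 _ t1
    have f2 := E0 _ t2
    simp only [mem_lt t3, t4, or_false, if_false]
    split_ifs <;> omega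
  · have f1 := E1 _ t1 (by omega)
    have f2 := E1 _ (by omega) t2
    simp only [mem_lt t3, t4, or_false, if_false]
    split_ifs <;> omega
  · have f1 := E2 _ t1 hN1
    have f2 := E2 _ (by omega) hN2
    simp only [mem_lt t2, t3, or_false, if_false]
    split_ifs <;> omega
  · have f1 := E0 _ t1
    have f2 := E1 _ t2 t3
    simp only [mem_lt (show M.o z.1 < M.c z.1 by omega), t4, or_false, if_false]
    split_ifs <;> omega
  · have f1 := E1 _ t1 t2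
    have f2 := E2 _ t3 hN2
    have f4 := hs z.1 t4 t1 t2 t3
    simp only [mem_lt (show M.o z.1 < M.c z.1 by omega), t4, or_true, if_true]
    split_ifs <;> omega
  · have f1 := E2 _ t1 hN1
    have f2 := E0 _ t2
    simp only [mem_gt (show M.c z.1 < M.o z.1 by omega), t3, or_false, if_false]
    split_ifs <;> omega
  · have f1 := E1 _ t1 t2
    have f2 := E2 _ t3 hN2
    have f3 := hx z.1 t5 t1
    simp only [mem_lt (show M.o z.1 < M.c z.1 by omega), t4, or_false, if_false]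
    split_ifs <;> omega
  · have f1 := E0 _ t1
    have f2 := E2 _ t2 hN2
    simp only [mem_lt (show M.o z.1 < M.c z.1 by omega), t3, or_false, if_false]
    split_ifs <;> omega

theorem ineqA2b (h0u : 0 < u) (huv : u < v) (hQ : QHyp M u v Q)
    (hN : ∀ z, M.o z < N ∧ M.c z < N) (T : Th u v N a b p0 q0 p1 q1 p2 q2)
    (ha : a 1 ≤ v) (hb : b 1 ≤ v) (hx : ∀ t, Ext M v Q t → u ≤ M.o t → M.c t < q2)
    (hs : ∀ s ∈ Q, u ≤ M.o s → M.o s < v → v ≤ M.c s → ¬ (q1 ≤ M.o s ∧ M.c s < p2))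
    (z : {z : V // cq M u Q z ≤ 1}) :
    min 2 ((if M.Mem z.1 q0 ∨ M.Mem z.1 p1 then 1 else 0) + (if z.1 ∈ Q then 1 else 0) +
      (if M.Mem z.1 p0 ∨ M.Mem z.1 q2 then 1 else 0)) ≤ (msys2 M h0u huv hQ).dl a b z := by
  obtain ⟨hN1, hN2⟩ := hN z.1
  obtain ⟨B0, C0, A1, B1, C1, A2, B2, C2, E0, E1, E2⟩ := T
  rcases dl_cases h0u huv hQ a b z with ⟨t1, t2, t3, t4, t5, hd⟩ | ⟨t1, t2, t3, t4, t5, hd⟩ |
    ⟨t1, t2, t3, t4, hd⟩ | ⟨t1, t2, t3, t4, t5, hd⟩ | ⟨t1, t2, t3, t4, t5, hd⟩ |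
    ⟨t1, t2, t3, t4, hd⟩ | ⟨t1, t2, t3, t4, t5, hd⟩ | ⟨t1, t2, t3, t4, hd⟩ <;> rw [hd]
  · have f1 := E0 _ t1
    have f2 := E0 _ t2
    simp only [mem_lt t3, t4, or_false, if_false]
    split_ifs <;> omega
  · have f1 := E1 _ t1 (by omega)
    have f2 := E1 _ (by omega) t2
    simp only [mem_lt t3, t4, or_false, if_false]
    split_ifs <;> omega
  · have f1 := E2 _ t1 hN1
    have f2 := E2 _ (by omega) hN2
    simp only [mem_lt t2, t3, or_false, if_false]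
    split_ifs <;> omega
  · have f1 := E0 _ t1
    have f2 := E1 _ t2 t3
    simp only [mem_lt (show M.o z.1 < M.c z.1 by omega), t4, or_false, if_false]
    split_ifs <;> omega
  · have f1 := E1 _ t1 t2
    have f2 := E2 _ t3 hN2
    have f4 := hs z.1 t4 t1 t2 t3
    simp only [mem_lt (show M.o z.1 < M.c z.1 by omega), t4, or_true, if_true]
    split_ifs <;> omega
  · have f1 := E2 _ t1 hN1
    have f2 := E0 _ t2
    simp only [mem_gt (show M.c z.1 < M.o z.1 by omega), t3, or_false, if_false]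
    split_ifs <;> omega
  · have f1 := E1 _ t1 t2
    have f2 := E2 _ t3 hN2
    have f3 := hx z.1 t5 t1
    simp only [mem_lt (show M.o z.1 < M.c z.1 by omega), t4, or_false, if_false]
    split_ifs <;> omega
  · have f1 := E0 _ t1
    have f2 := E2 _ t2 hN2
    simp only [mem_lt (show M.o z.1 < M.c z.1 by omega), t3, or_false, if_false]
    split_ifs <;> omega

theorem ineqB (h0u : 0 < u) (huv : u < v) (hQ : QHyp M u v Q)
    (hN : ∀ z, M.o z < N ∧ M.c z < N) (T : Th u v N a b p0 q0 p1 q1 p2 q2)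
    (ha : a 1 ≤ v ∧ v < b 1 ∨ b 1 ≤ v ∧ v < a 1)
    (hx : ∀ t, Ext M v Q t → u ≤ M.o t → True)
    (z : {z : V // cq M u Q z ≤ 1}) :
    min 2 ((if M.Mem z.1 q0 ∨ M.Mem z.1 p1 then 1 else 0) + (if z.1 ∈ Q then 1 else 0) +
      (if M.Mem z.1 p0 ∨ M.Mem z.1 q2 then 1 else 0)) ≤ (msys2 M h0u huv hQ).dl a b z := by
  obtain ⟨hN1, hN2⟩ := hN z.1
  obtain ⟨B0, C0, A1, B1, C1, A2, B2, C2, E0, E1, E2⟩ := T
  rcases dl_cases h0u huv hQ a b z with ⟨t1, t2, t3, t4, t5, hd⟩ | ⟨t1, t2, t3, t4, t5, hd⟩ |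
    ⟨t1, t2, t3, t4, hd⟩ | ⟨t1, t2, t3, t4, t5, hd⟩ | ⟨t1, t2, t3, t4, t5, hd⟩ |
    ⟨t1, t2, t3, t4, hd⟩ | ⟨t1, t2, t3, t4, t5, hd⟩ | ⟨t1, t2, t3, t4, hd⟩ <;> rw [hd]
  · have f1 := E0 _ t1
    have f2 := E0 _ t2
    simp only [mem_lt t3, t4, or_false, if_false]
    split_ifs <;> omega
  · have f1 := E1 _ t1 (by omega)
    have f2 := E1 _ (by omega) t2
    simp only [mem_lt t3, t4, or_false, if_false]
    split_ifs <;> omega
  · have f1 := E2 _ t1 hN1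
    have f2 := E2 _ (by omega) hN2
    simp only [mem_lt t2, t3, or_false, if_false]
    split_ifs <;> omega
  · have f1 := E0 _ t1
    have f2 := E1 _ t2 t3
    simp only [mem_lt (show M.o z.1 < M.c z.1 by omega), t4, or_false, if_false]
    split_ifs <;> omega
  · have f1 := E1 _ t1 t2
    have f2 := E2 _ t3 hN2
    simp only [mem_lt (show M.o z.1 < M.c z.1 by omega), t4, or_true, if_true]
    split_ifs <;> omega
  · have f1 := E2 _ t1 hN1
    have f2 := E0 _ t2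
    simp only [mem_gt (show M.c z.1 < M.o z.1 by omega), t3, or_false, if_false]
    split_ifs <;> omega
  · have f1 := E1 _ t1 t2
    have f2 := E2 _ t3 hN2
    have f3 := hx z.1 t5 t1
    simp only [mem_lt (show M.o z.1 < M.c z.1 by omega), t4, or_false, if_false]
    split_ifs <;> omega
  · have f1 := E0 _ t1
    have f2 := E2 _ t2 hN2
    simp only [mem_lt (show M.o z.1 < M.c z.1 by omega), t3, or_false, if_false]
    split_ifs <;> omega

theorem ineqC (h0u : 0 < u) (huv : u < v) (hQ : QHyp M u v Q)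
    (hN : ∀ z, M.o z < N ∧ M.c z < N) (T : Th u v N a b p0 q0 p1 q1 p2 q2)
    (ha : v < a 1) (hb : v < b 1) (hx : ∀ t, Ext M v Q t → u ≤ M.o t → True)
    (z : {z : V // cq M u Q z ≤ 1}) :
    min 2 ((if (M.Mem z.1 q0 ∨ M.Mem z.1 p2) ∨ z.1 ∈ Q then 1 else 0) + (if z.1 ∈ Q then 1 else 0) +
      (if M.Mem z.1 p0 ∨ M.Mem z.1 q2 then 1 else 0)) ≤ (msys2 M h0u huv hQ).dl a b z := by
  obtain ⟨hN1, hN2⟩ := hN z.1
  obtain ⟨B0, C0, A1, B1, C1, A2, B2, C2, E0, E1, E2⟩ := T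
  rcases dl_cases h0u huv hQ a b z with ⟨t1, t2, t3, t4, t5, hd⟩ | ⟨t1, t2, t3, t4, t5, hd⟩ |
    ⟨t1, t2, t3, t4, hd⟩ | ⟨t1, t2, t3, t4, t5, hd⟩ | ⟨t1, t2, t3, t4, t5, hd⟩ |
    ⟨t1, t2, t3, t4, hd⟩ | ⟨t1, t2, t3, t4, t5, hd⟩ | ⟨t1, t2, t3, t4, hd⟩ <;> rw [hd]
  · have f1 := E0 _ t1
    have f2 := E0 _ t2
    simp only [mem_lt t3, t4, or_false, if_false]
    split_ifs <;> omega
  · have f1 := E1 _ t1 (by omega)
    have f2 := E1 _ (by omega) t2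
    simp only [mem_lt t3, t4, or_false, if_false]
    split_ifs <;> omega
  · have f1 := E2 _ t1 hN1
    have f2 := E2 _ (by omega) hN2
    simp only [mem_lt t2, t3, or_false, if_false]
    split_ifs <;> omega
  · have f1 := E0 _ t1
    have f2 := E1 _ t2 t3
    simp only [mem_lt (show M.o z.1 < M.c z.1 by omega), t4, or_false, if_false]
    split_ifs <;> omega
  · have f1 := E1 _ t1 t2
    have f2 := E2 _ t3 hN2
    simp only [mem_lt (show M.o z.1 < M.c z.1 by omega), t4, or_true, if_true]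
    split_ifs <;> omega
  · have f1 := E2 _ t1 hN1
    have f2 := E0 _ t2
    simp only [mem_gt (show M.c z.1 < M.o z.1 by omega), t3, or_false, if_false]
    split_ifs <;> omega
  · have f1 := E1 _ t1 t2
    have f2 := E2 _ t3 hN2
    have f3 := hx z.1 t5 t1
    simp only [mem_lt (show M.o z.1 < M.c z.1 by omega), t4, or_false, if_false]
    split_ifs <;> omega
  · have f1 := E0 _ t1
    have f2 := E2 _ t2 hN2
    simp only [mem_lt (show M.o z.1 < M.c z.1 by omega), t3, or_false, if_false]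
    split_ifs <;> omega


/-- the arcs with the property `P`, and all arcs in two of the cliques -/
noncomputable def PP (M : Model V) (u : ℕ) (Q : Finset V) (P : V → Prop) : Finset V :=
  univ.filter (fun z => P z ∨ ¬ cq M u Q z ≤ 1)

theorem le_PP {k : ℕ} {W : Finset V} {P' : V → Prop} (hk : k ≤ W.card)
    (h : ∀ z, z ∈ W → cq M u Q z ≤ 1 → P' z) : k ≤ (PP M u Q P').card :=
  hk.trans (Finset.card_le_card (fun z hz => by
    simp only [PP, mem_filter, mem_univ, true_and]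
    by_cases hc : cq M u Q z ≤ 1
    · exact Or.inl (h z hz hc)
    · exact Or.inr hc))

theorem PP_mono {k : ℕ} {P P' : V → Prop} (hk : k ≤ (PP M u Q P).card)
    (h : ∀ z, P z → P' z) : k ≤ (PP M u Q P').card :=
  hk.trans (Finset.card_le_card (fun z hz => by
    simp only [PP, mem_filter, mem_univ, true_and] at hz ⊢
    exact hz.imp (h z) id))

theorem sum2_ge {k : ℕ} {A B : V → Prop} (h1 : k ≤ (PP M u Q A).card)
    (h2 : k ≤ (PP M u Q B).card) (n : V → ℕ)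
    (hn : ∀ z, cq M u Q z ≤ 1 → (if A z then 1 else 0) + (if B z then 1 else 0) ≤ n z)
    (hn2 : ∀ z, ¬ cq M u Q z ≤ 1 → 2 ≤ n z) : 2 * k ≤ ∑ z, n z := by
  have h3 : ∀ z, (if z ∈ PP M u Q A then 1 else 0) + (if z ∈ PP M u Q B then 1 else 0) ≤ n z := by
    intro z
    by_cases hc : cq M u Q z ≤ 1
    · have e1 : z ∈ PP M u Q A ↔ A z := by simp [PP, hc]
      have e2 : z ∈ PP M u Q B ↔ B z := by simp [PP, hc]
      simp only [e1, e2]
      exact hn z hc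
    · have := hn2 z hc
      split_ifs <;> omega
  have h4 := Finset.sum_le_sum (fun z (_ : z ∈ (univ : Finset V)) => h3 z)
  rw [Finset.sum_add_distrib] at h4
  simp only [Finset.sum_ite_mem, Finset.univ_inter, Finset.sum_const, smul_eq_mul, mul_one] at h4
  omega

theorem isl1 {k x y : ℕ} (hQ : QHyp M u v Q) (hvN : v ≤ N)
    (hcut : ∀ x y, x ≤ y → y ≤ N → Far M x y → k ≤ (AU M x y).card)
    (h02 : k ≤ (univ.filter (fun z => M.Mem z 0 ∨ z ∈ Q)).card)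
    (hx : x ≤ u) (hy : u ≤ y) (hyv : y ≤ v) :
    k ≤ (PP M u Q (fun z => M.Mem z x ∨ M.Mem z y)).card ∨
      ∀ z, M.Mem z u → M.Mem z x ∨ M.Mem z y := by
  by_cases i1 : ∃ z, ∀ t, (t ≤ x ∨ y ≤ t) → ¬ M.Mem z t
  · left
    by_cases i2 : ∃ z, ∀ t, x ≤ t → t ≤ y → ¬ M.Mem z t
    · exact le_PP (hcut x y (by omega) (by omega) ⟨i2, i1⟩) (fun z h _ => mem_AU.1 h)
    · push Not at i2
      refine le_PP h02 (fun z h _ => ?_)
      obtain ⟨t, h1, h2, h3⟩ := i2 z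
      rcases (mem_filter.1 h).2 with h | h
      · exact mem_or_mem (Or.inl (Nat.zero_le _)) h1 h2 h h3
      · rcases hQ.q1 z h with h | h
        · exact mem_or_mem (Or.inl (Nat.zero_le _)) h1 h2 h h3
        · exact mem_or_mem (Or.inr hyv) h1 h2 h h3
  · right
    push Not at i1
    intro z hz
    obtain ⟨t, h1, h3⟩ := i1 z
    exact mem_or_mem h1 hx hy h3 hz

theorem isl3 {k x y : ℕ} (hQ : QHyp M u v Q)
    (hcut : ∀ x y, x ≤ y → y ≤ N → Far M x y → k ≤ (AU M x y).card)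
    (h12 : k ≤ (univ.filter (fun z => M.Mem z u ∨ z ∈ Q)).card)
    (hx : x ≤ u) (huv : u < v) (hy : v ≤ y) (hyN : y ≤ N) :
    k ≤ (PP M u Q (fun z => M.Mem z x ∨ M.Mem z y)).card ∨
      ∀ z, M.Mem z 0 → M.Mem z x ∨ M.Mem z y := by
  by_cases i2 : ∃ z, ∀ t, x ≤ t → t ≤ y → ¬ M.Mem z t
  · left
    by_cases i1 : ∃ z, ∀ t, (t ≤ x ∨ y ≤ t) → ¬ M.Mem z t
    · exact le_PP (hcut x y (by omega) (by omega) ⟨i2, i1⟩) (fun z h _ => mem_AU.1 h)
    · push Not at i1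
      refine le_PP h12 (fun z h hc => ?_)
      obtain ⟨t, h1, h3⟩ := i1 z
      rcases (mem_filter.1 h).2 with h | h
      · exact mem_or_mem h1 hx (by omega) h3 h
      · rcases hQ.q1 z h with h' | h'
        · exfalso
          unfold cq at hc
          rw [if_pos h', if_pos h] at hc
          omega
        · exact mem_or_mem h1 (by omega) hy h3 h'
  · right
    push Not at i2
    intro z hz
    obtain ⟨t, h1, h2, h3⟩ := i2 z
    exact mem_or_mem (Or.inl (Nat.zero_le _)) h1 h2 hz h3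

theorem cutx {k x y : ℕ}
    (hcut : ∀ x y, x ≤ y → y ≤ N → Far M x y → k ≤ (AU M x y).card)
    (h02 : k ≤ (univ.filter (fun z => M.Mem z 0 ∨ z ∈ Q)).card)
    (h12 : k ≤ (univ.filter (fun z => M.Mem z u ∨ z ∈ Q)).card)
    (hx : x ≤ u) (hy : u ≤ y) (hyN : y ≤ N) :
    k ≤ (PP M u Q (fun z => (M.Mem z x ∨ M.Mem z y) ∨ z ∈ Q)).card := by
  by_cases i2 : ∃ z, ∀ t, x ≤ t → t ≤ y → ¬ M.Mem z t
  · by_cases i1 : ∃ z, ∀ t, (t ≤ x ∨ y ≤ t) → ¬ M.Mem z t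
    · exact le_PP (hcut x y (by omega) (by omega) ⟨i2, i1⟩) (fun z h _ => Or.inl (mem_AU.1 h))
    · push Not at i1
      refine le_PP h12 (fun z h hc => ?_)
      obtain ⟨t, h1, h3⟩ := i1 z
      rcases (mem_filter.1 h).2 with h | h
      · exact Or.inl (mem_or_mem h1 hx hy h3 h)
      · exact Or.inr h
  · push Not at i2
    refine le_PP h02 (fun z h hc => ?_)
    obtain ⟨t, h1, h2, h3⟩ := i2 z
    rcases (mem_filter.1 h).2 with h | h
    · exact Or.inl (mem_or_mem (Or.inl (Nat.zero_le _)) h1 h2 h h3)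
    · exact Or.inr h

/-- the contribution of each arc -/
noncomputable def nn (M : Model V) {u v : ℕ} {Q : Finset V} (h0u : 0 < u) (huv : u < v)
    (hQ : QHyp M u v Q) (a b : Fin 3 → ℕ) (z : V) : ℕ :=
  if h : cq M u Q z ≤ 1 then (msys2 M h0u huv hQ).dl a b ⟨z, h⟩ else 2

theorem nn_pos {h0u : 0 < u} {huv : u < v} {hQ : QHyp M u v Q} {z : V}
    (h : cq M u Q z ≤ 1) : nn M h0u huv hQ a b z = (msys2 M h0u huv hQ).dl a b ⟨z, h⟩ :=
  dif_pos h

theorem nn_neg {h0u : 0 < u} {huv : u < v} {hQ : QHyp M u v Q} {z : V}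
    (h : ¬ cq M u Q z ≤ 1) : 2 ≤ nn M h0u huv hQ a b z := by
  unfold nn
  rw [dif_neg h]

theorem main2 {k : ℕ} (h0u : 0 < u) (huv : u < v) (hvN : v ≤ N)
    (hN : ∀ z, M.o z < N ∧ M.c z < N)
    (hcut : ∀ x y, x ≤ y → y ≤ N → Far M x y → k ≤ (AU M x y).card)
    (hQ : QHyp M u v Q) (h01 : k ≤ (AU M 0 u).card)
    (h02 : k ≤ (univ.filter (fun z => M.Mem z 0 ∨ z ∈ Q)).card)
    (h12 : k ≤ (univ.filter (fun z => M.Mem z u ∨ z ∈ Q)).card)
    (hV : 2 * k ≤ ∑ z, min 2 (cq M u Q z)) (a b : Fin 3 → ℕ) :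
    2 * k ≤ ∑ z, nn M h0u huv hQ a b z := by
  obtain ⟨p0, q0, p1, q1, p2, q2, T⟩ := exists_Th huv hvN a b
  have T' := T
  obtain ⟨m0, n0, l1, m1, n1, l2, m2, n2, -, -, -⟩ := T'
  have I1 := isl1 (x := q0) (y := p1) hQ hvN hcut h02 n0 l1 (by omega)
  have I3 := isl3 (x := p0) (y := q2) hQ hcut h12 (by omega) huv (by omega) n2
  -- P3 ∪ Q and P1 ∪ Q
  have K3Q : k ≤ (PP M u Q (fun z => (M.Mem z p0 ∨ M.Mem z q2) ∨ z ∈ Q)).card := by
    rcases I3 with h | h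
    · exact PP_mono h (fun z hz => Or.inl hz)
    · exact le_PP h02 (fun z hz _ => (mem_filter.1 hz).2.imp (h z) id)
  have K1Q : k ≤ (PP M u Q (fun z => (M.Mem z q0 ∨ M.Mem z p1) ∨ z ∈ Q)).card := by
    rcases I1 with h | h
    · exact PP_mono h (fun z hz => Or.inl hz)
    · exact le_PP h12 (fun z hz _ => (mem_filter.1 hz).2.imp (h z) id)
  have K13 : k ≤ (PP M u Q (fun z => (M.Mem z q0 ∨ M.Mem z p1) ∨
      (M.Mem z p0 ∨ M.Mem z q2))).card := by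
    rcases I1 with h | h
    · exact PP_mono h (fun z hz => Or.inl hz)
    · rcases I3 with h' | h'
      · exact PP_mono h' (fun z hz => Or.inr hz)
      · exact le_PP h01 (fun z hz _ => (mem_AU.1 hz).elim (fun h'' => Or.inr (h' z h'')) (fun h'' => Or.inl (h z h'')))
  -- the cases A2b and B
  have key : (∀ z : {z : V // cq M u Q z ≤ 1}, min 2 ((if M.Mem z.1 q0 ∨ M.Mem z.1 p1 then 1 else 0) +
      (if z.1 ∈ Q then 1 else 0) + (if M.Mem z.1 p0 ∨ M.Mem z.1 q2 then 1 else 0)) ≤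
      (msys2 M h0u huv hQ).dl a b z) → 2 * k ≤ ∑ z, nn M h0u huv hQ a b z := by
    intro hz
    rcases I1 with h | h
    · refine sum2_ge h K3Q _ (fun z hc => ?_) (fun z hc => nn_neg hc)
      rw [nn_pos hc]
      refine le_trans ?_ (hz ⟨z, hc⟩)
      dsimp only
      split_ifs <;> first | omega | (exfalso; tauto)
    · rcases I3 with h' | h'
      · refine sum2_ge h' K1Q _ (fun z hc => ?_) (fun z hc => nn_neg hc)
        rw [nn_pos hc]
        refine le_trans ?_ (hz ⟨z, hc⟩)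
        dsimp only
        split_ifs <;> first | omega | (exfalso; tauto)
      · refine hV.trans (Finset.sum_le_sum (fun z _ => ?_))
        by_cases hc : cq M u Q z ≤ 1
        · rw [nn_pos hc]
          refine le_trans ?_ (hz ⟨z, hc⟩)
          have e1 := h z
          have e2 := h' z
          unfold cq
          dsimp only
          split_ifs <;> first | omega | (exfalso; tauto)
        · exact (min_le_left _ _).trans (nn_neg hc)
  rcases le_or_gt (a 1) v with ha | ha <;> rcases le_or_gt (b 1) v with hb | hb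
  · by_cases c1 : ∃ s ∈ Q, u ≤ M.o s ∧ M.o s < v ∧ v ≤ M.c s ∧ q1 ≤ M.o s ∧ M.c s < p2
    · obtain ⟨s, hsQ, s1, s2, s3, s4, s5⟩ := c1
      have hlt : M.o s < M.c s := by omega
      have hx : ∀ t, Ext M v Q t → u ≤ M.o t → M.c t < p2 := by
        intro t ht hut
        obtain ⟨ht1, ht2, ht3⟩ := ht
        have htl : M.o t < M.c t := by
          by_contra hcon
          have := M.o_ne_c t t
          exact ht2 ((mem_gt (by omega) 0).2 (by omega))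
        have h1 := hQ.ord s hsQ ((mem_lt hlt v).2 ⟨s2, s3⟩) (fun h => by
          rw [mem_lt hlt] at h; omega) (fun h => by rw [mem_lt hlt] at h; omega) t ht1 ht3 ht2
          (fun h => by rw [mem_lt htl] at h; omega)
        omega
      have K2 : k ≤ (AU M q1 p2).card := pair_in (p := 0) (q := u) (by omega) (by omega) hcut h01
        (by omega) (by omega) ⟨s, fun t ht => by rw [mem_lt hlt]; omega⟩
      have K2' : k ≤ (PP M u Q (fun z => M.Mem z q1 ∨ M.Mem z p2)).card :=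
        le_PP K2 (fun z h _ => mem_AU.1 h)
      refine sum2_ge K2' K13 _ (fun z hc => ?_) (fun z hc => nn_neg hc)
      rw [nn_pos hc]
      refine le_trans ?_ (ineqA1 h0u huv hQ hN T ha hb hx ⟨z, hc⟩)
      dsimp only
      split_ifs <;> first | omega | (exfalso; tauto)
    · by_cases c2 : ∃ t, Ext M v Q t ∧ u ≤ M.o t ∧ q2 ≤ M.c t
      · obtain ⟨t, ⟨ht1, ht2, ht3⟩, hut, hqt⟩ := c2
        have htl : M.o t < M.c t := by
          by_contra hcon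
          have := M.o_ne_c t t
          exact ht2 ((mem_gt (by omega) 0).2 (by omega))
        have hs : ∀ s ∈ Q, u ≤ M.o s → M.o s < v → v ≤ M.c s → q2 ≤ M.c s := by
          intro s hsQ s1 s2 s3
          have hlt : M.o s < M.c s := by omega
          have h1 := hQ.ord s hsQ ((mem_lt hlt v).2 ⟨s2, s3⟩) (fun h => by
            rw [mem_lt hlt] at h; omega) (fun h => by rw [mem_lt hlt] at h; omega) t ht1 ht3 ht2
            (fun h => by rw [mem_lt htl] at h; omega)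
          omega
        have K3x := cutx (x := p0) (y := q1) hcut h02 h12 (by omega) (by omega) (by omega)
        refine sum2_ge K3x K1Q _ (fun z hc => ?_) (fun z hc => nn_neg hc)
        rw [nn_pos hc]
        refine le_trans ?_ (ineqA2a h0u huv hQ hN T ha hb (fun _ _ _ => trivial) hs ⟨z, hc⟩)
        dsimp only
        split_ifs <;> first | omega | (exfalso; tauto)
      · push Not at c1 c2
        exact key (fun z => ineqA2b h0u huv hQ hN T ha hb (fun t h1 h2 => c2 t h1 h2)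
          (fun s hs s1 s2 s3 h => absurd h.2 (not_lt.2 (c1 s hs s1 s2 s3 h.1))) z)
  · exact key (fun z => ineqB h0u huv hQ hN T (Or.inl ⟨ha, hb⟩) (fun _ _ _ => trivial) z)
  · exact key (fun z => ineqB h0u huv hQ hN T (Or.inr ⟨hb, ha⟩) (fun _ _ _ => trivial) z)
  · have K1x := cutx (x := q0) (y := p2) hcut h02 h12 (by omega) (by omega) (by omega)
    refine sum2_ge K1x K3Q _ (fun z hc => ?_) (fun z hc => nn_neg hc)
    rw [nn_pos hc]
    refine le_trans ?_ (ineqC h0u huv hQ hN T ha hb (fun _ _ _ => trivial) ⟨z, hc⟩)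
    dsimp only
    split_ifs <;> first | omega | (exfalso; tauto)


theorem msys2_cases (h0u : 0 < u) (huv : u < v) (hQ : QHyp M u v Q)
    (z : {z : V // cq M u Q z ≤ 1}) :
    (M.o z.1 < u ∧ M.c z.1 < u ∧ M.o z.1 < M.c z.1 ∧ ¬ Ext M v Q z.1 ∧
      (msys2 M h0u huv hQ).gs z = 0 ∧ (msys2 M h0u huv hQ).ge z = 0) ∨
    (u ≤ M.o z.1 ∧ M.c z.1 < v ∧ M.o z.1 < M.c z.1 ∧ ¬ Ext M v Q z.1 ∧
      (msys2 M h0u huv hQ).gs z = 1 ∧ (msys2 M h0u huv hQ).ge z = 1) ∨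
    (v ≤ M.o z.1 ∧ M.o z.1 < M.c z.1 ∧ ¬ Ext M v Q z.1 ∧
      (msys2 M h0u huv hQ).gs z = 2 ∧ (msys2 M h0u huv hQ).ge z = 2) ∨
    (M.o z.1 < u ∧ u ≤ M.c z.1 ∧ M.c z.1 < v ∧ ¬ Ext M v Q z.1 ∧
      (msys2 M h0u huv hQ).gs z = 0 ∧ (msys2 M h0u huv hQ).ge z = 1) ∨
    (u ≤ M.o z.1 ∧ M.o z.1 < v ∧ v ≤ M.c z.1 ∧ z.1 ∈ Q ∧ ¬ Ext M v Q z.1 ∧
      (msys2 M h0u huv hQ).gs z = 1 ∧ (msys2 M h0u huv hQ).ge z = 2) ∨
    (v ≤ M.o z.1 ∧ M.c z.1 < u ∧ ¬ Ext M v Q z.1 ∧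
      (msys2 M h0u huv hQ).gs z = 2 ∧ (msys2 M h0u huv hQ).ge z = 0) ∨
    (u ≤ M.o z.1 ∧ M.o z.1 < v ∧ v ≤ M.c z.1 ∧ Ext M v Q z.1 ∧
      (msys2 M h0u huv hQ).gs z = 1 ∧ (msys2 M h0u huv hQ).ge z = 1) ∨
    (M.o z.1 < u ∧ v ≤ M.c z.1 ∧ Ext M v Q z.1 ∧
      (msys2 M h0u huv hQ).gs z = 0 ∧ (msys2 M h0u huv hQ).ge z = 1) := by
  have egs : (msys2 M h0u huv hQ).gs z = gp u v (M.o z.1) := rfl
  have ege : (msys2 M h0u huv hQ).ge z = if Ext M v Q z.1 then 1 else gp u v (M.c z.1) := rfl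
  rcases cls h0u huv hQ z.2 with h | h | h | h | h | h | h | h
  · left
    rw [if_neg h.2.2.2.2, gp0 h.2.1] at ege
    rw [gp0 h.1] at egs
    exact ⟨h.1, h.2.1, h.2.2.1, h.2.2.2.2, egs, ege⟩
  · right; left
    rw [if_neg h.2.2.2.2, gp1 (by omega) h.2.1] at ege
    rw [gp1 h.1 (by omega)] at egs
    exact ⟨h.1, h.2.1, h.2.2.1, h.2.2.2.2, egs, ege⟩
  · right; right; left
    rw [if_neg h.2.2.2, gp2 huv.le (by omega)] at ege
    rw [gp2 huv.le h.1] at egs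
    exact ⟨h.1, h.2.1, h.2.2.2, egs, ege⟩
  · right; right; right; left
    rw [if_neg h.2.2.2.2, gp1 h.2.1 h.2.2.1] at ege
    rw [gp0 h.1] at egs
    exact ⟨h.1, h.2.1, h.2.2.1, h.2.2.2.2, egs, ege⟩
  · right; right; right; right; left
    rw [if_neg h.2.2.2.2, gp2 huv.le h.2.2.1] at ege
    rw [gp1 h.1 h.2.1] at egs
    exact ⟨h.1, h.2.1, h.2.2.1, h.2.2.2.1, h.2.2.2.2, egs, ege⟩
  · right; right; right; right; right; left
    rw [if_neg h.2.2.2, gp0 h.2.1] at ege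
    rw [gp2 huv.le h.1] at egs
    exact ⟨h.1, h.2.1, h.2.2.2, egs, ege⟩
  · right; right; right; right; right; right; left
    rw [if_pos h.2.2.2.2] at ege
    rw [gp1 h.1 h.2.1] at egs
    exact ⟨h.1, h.2.1, h.2.2.1, h.2.2.2.2, egs, ege⟩
  · right; right; right; right; right; right; right
    rw [if_pos h.2.2.2] at ege
    rw [gp0 h.1] at egs
    exact ⟨h.1, h.2.1, h.2.2.2, egs, ege⟩

theorem cov_mem2 (h0u : 0 < u) (huv : u < v) (hvN : v ≤ N) (hQ : QHyp M u v Q)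
    (hN : ∀ z, M.o z < N ∧ M.c z < N) (z : {z : V // cq M u Q z ≤ 1}) (i : Fin 3) (t : ℕ)
    (h : (msys2 M h0u huv hQ).Cov z i t) : M.Mem z.1 (ps u v N i t) := by
  obtain ⟨h1, h2, h3, h4⟩ := h
  have eo : (msys2 M h0u huv hQ).o z = M.o z.1 := rfl
  have ex : (msys2 M h0u huv hQ).xt z = Ext M v Q z.1 := rfl
  have exc : (msys2 M h0u huv hQ).xc z = M.c z.1 := rfl
  have ec : (msys2 M h0u huv hQ).c z = if Ext M v Q z.1 then v else M.c z.1 := rfl
  obtain ⟨hN1, hN2⟩ := hN z.1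
  rw [ex] at h1 h3 h4
  rw [eo] at h2
  rw [exc] at h4
  rw [ec] at h3
  rcases msys2_cases h0u huv hQ z with ⟨a1, a2, a3, a4, a5, a6⟩ | ⟨a1, a2, a3, a4, a5, a6⟩ |
    ⟨a1, a3, a4, a5, a6⟩ | ⟨a1, a2, a3, a4, a5, a6⟩ | ⟨a1, a2, a3, a7, a4, a5, a6⟩ |
    ⟨a1, a3, a4, a5, a6⟩ | ⟨a1, a2, a3, a4, a5, a6⟩ | ⟨a1, a3, a4, a5, a6⟩ <;>
    rw [a5] at h1 h2 <;> rw [a6] at h1 h3 <;> rcases h1 with h1 | h1 | h1 <;>
    first
    | exact absurd h1.1 a4
    | (obtain ⟨-, h1⟩ := h1; subst h1; simp [a4] at h2 h3 h4; unfold ps Model.Mem; simp; omega)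
    | (subst h1; simp [a4] at h2 h3 h4; unfold ps Model.Mem; simp; omega)

theorem single_mem2 (h0u : 0 < u) (huv : u < v) (hQ : QHyp M u v Q)
    (z : {z : V // cq M u Q z ≤ 1}) (h : (msys2 M h0u huv hQ).gs z ≠ (msys2 M h0u huv hQ).ge z) :
    ((msys2 M h0u huv hQ).gs z = 0 ∧ (msys2 M h0u huv hQ).ge z = 1 ∧ M.Mem z.1 u) ∨
      ((msys2 M h0u huv hQ).gs z = 1 ∧ (msys2 M h0u huv hQ).ge z = 2 ∧ z.1 ∈ Q) ∨
      ((msys2 M h0u huv hQ).gs z = 2 ∧ (msys2 M h0u huv hQ).ge z = 0 ∧ M.Mem z.1 0) := by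
  rcases msys2_cases h0u huv hQ z with ⟨a1, a2, a3, a4, a5, a6⟩ | ⟨a1, a2, a3, a4, a5, a6⟩ |
    ⟨a1, a3, a4, a5, a6⟩ | ⟨a1, a2, a3, a4, a5, a6⟩ | ⟨a1, a2, a3, a7, a4, a5, a6⟩ |
    ⟨a1, a3, a4, a5, a6⟩ | ⟨a1, a2, a3, a4, a5, a6⟩ | ⟨a1, a3, a4, a5, a6⟩
  · exact absurd (a5.trans a6.symm) h
  · exact absurd (a5.trans a6.symm) h
  · exact absurd (a5.trans a6.symm) h
  · exact Or.inl ⟨a5, a6, by unfold Model.Mem; omega⟩
  · exact Or.inr (Or.inl ⟨a5, a6, a7⟩)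
  · exact Or.inr (Or.inr ⟨a5, a6, by unfold Model.Mem; omega⟩)
  · exact absurd (a5.trans a6.symm) h
  · exact Or.inl ⟨a5, a6, by unfold Model.Mem; omega⟩

/-- the set meets two of the three cliques -/
def Hit3 (M : Model V) (u : ℕ) (Q : Finset V) (X : Set V) : Prop :=
  ((∃ x ∈ X, M.Mem x 0) ∧ ∃ x ∈ X, M.Mem x u) ∨ ((∃ x ∈ X, M.Mem x u) ∧ ∃ x ∈ X, x ∈ Q) ∨
    ((∃ x ∈ X, M.Mem x 0) ∧ ∃ x ∈ X, x ∈ Q)

theorem Hit3.adj (hG : M.IsModelOf G) (hQc : ∀ x ∈ Q, ∀ y ∈ Q, x ≠ y → G.Adj x y) {X Y : Set V}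
    (hX : Hit3 M u Q X) (hY : Hit3 M u Q Y) (hd : Disjoint X Y) :
    ∃ x ∈ X, ∃ y ∈ Y, G.Adj x y := by
  have key : ∀ p, (∃ x ∈ X, M.Mem x p) → (∃ y ∈ Y, M.Mem y p) → ∃ x ∈ X, ∃ y ∈ Y, G.Adj x y := by
    rintro p ⟨x, hx, hxp⟩ ⟨y, hy, hyp⟩
    refine ⟨x, hx, y, hy, Model.adj_of_mem hG ?_ hxp hyp⟩
    rintro rfl
    exact (Set.disjoint_left.1 hd) hx hy
  have keyQ : (∃ x ∈ X, x ∈ Q) → (∃ y ∈ Y, y ∈ Q) → ∃ x ∈ X, ∃ y ∈ Y, G.Adj x y := by
    rintro ⟨x, hx, hxp⟩ ⟨y, hy, hyp⟩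
    refine ⟨x, hx, y, hy, hQc x hxp y hyp ?_⟩
    rintro rfl
    exact (Set.disjoint_left.1 hd) hx hy
  rcases hX with ⟨h1, h2⟩ | ⟨h1, h2⟩ | ⟨h1, h2⟩ <;> rcases hY with ⟨h3, h4⟩ | ⟨h3, h4⟩ | ⟨h3, h4⟩
  · exact key 0 h1 h3
  · exact key u h2 h3
  · exact key 0 h1 h3
  · exact key u h1 h4
  · exact key u h1 h3
  · exact keyQ h2 h4
  · exact key 0 h1 h3
  · exact keyQ h2 h4
  · exact key 0 h1 h3

/-- THREE-CLIQUE PACKING.  Let `0 < u < v ≤ N` be positions of a circular-arc model, and let `Q` be a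
clique all of whose arcs contain `0` or `v`, which contains all arcs through `0` and `v`; the arcs of
`Q` through `v` but not through `u` and `0` end after all arcs through `v` outside `Q` (and not
through `0` or `u`).  If the union of any two of the three cliques `0`, `u`, `Q`, and of every pair of
positions with arcs inside both sides, has at least `k` arcs, and the sum over all arcs of the number
of the three cliques with this arc, counted up to two, is at least `2 k`, then the graph has a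
`K_k` minor. -/
theorem three_clique (hG : M.IsModelOf G) {k : ℕ} (h0u : 0 < u) (huv : u < v)
    (hvN : v ≤ N) (hN : ∀ z, M.o z < N ∧ M.c z < N)
    (hcut : ∀ x y, x ≤ y → y ≤ N → Far M x y → k ≤ (AU M x y).card)
    (hQ : QHyp M u v Q) (hQc : ∀ x ∈ Q, ∀ y ∈ Q, x ≠ y → G.Adj x y)
    (h01 : k ≤ (AU M 0 u).card)
    (h02 : k ≤ (univ.filter (fun z => M.Mem z 0 ∨ z ∈ Q)).card)
    (h12 : k ≤ (univ.filter (fun z => M.Mem z u ∨ z ∈ Q)).card)
    (hV : 2 * k ≤ ∑ z, min 2 (cq M u Q z)) : HasMinor G k := by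
  set S := msys2 M h0u huv hQ with hS
  let G' : SimpleGraph {z : V // cq M u Q z ≤ 1} := G.comap Subtype.val
  have hD : ∀ a b, 2 * (k - Fintype.card {z : V // ¬ cq M u Q z ≤ 1}) ≤ S.D a b := by
    intro a b
    have h1 := main2 (N := N) h0u huv hvN hN hcut hQ h01 h02 h12 hV a b
    rw [← Fintype.sum_subtype_add_sum_subtype (fun z => cq M u Q z ≤ 1)] at h1
    have h2 : ∑ z : {z : V // ¬ cq M u Q z ≤ 1}, nn M h0u huv hQ a b z.1
        = ∑ _z : {z : V // ¬ cq M u Q z ≤ 1}, 2 :=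
      Finset.sum_congr rfl (fun z _ => dif_neg z.2)
    rw [Finset.sum_const, smul_eq_mul, Finset.card_univ] at h2
    have h3 : ∑ z : {z : V // cq M u Q z ≤ 1}, nn M h0u huv hQ a b z.1 = S.D a b :=
      Finset.sum_congr rfl (fun z _ => dif_pos z.2)
    omega
  have hnx : ∀ x : {z : V // cq M u Q z ≤ 1}, ¬ S.xt x → S.c x = M.c x.1 := fun x hx => if_neg hx
  obtain ⟨E, C, hE, hC1, hC2⟩ := S.sets (G := G')
    (fun x y _ h hx hy => Subtype.ext (M.c_inj (by rw [hnx x hx, hnx y hy] at h; exact h)))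
    (fun x y _ _ h => Subtype.ext (M.c_inj h))
    (fun x y hx hy h => by
      have h1 : ¬ S.xt y := by
        intro h2
        have h3 := S.xg y h2
        rw [hy] at h3
        exact absurd h3 (by decide)
      rw [hnx y h1] at h
      have h2 : x = y := Subtype.ext (M.c_inj h)
      rw [h2] at hx
      exact h1 hx)
    (fun x y hne i t hx hy => by
      have h1 := cov_mem2 h0u huv hvN hQ hN x i t hx
      have h2 := cov_mem2 h0u huv hvN hQ hN y i t hy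
      exact Model.adj_of_mem hG (fun h => hne (Subtype.ext h)) h1 h2) _ hD
  have hcm : ∀ s ∈ E, ∀ z ∈ Subtype.val '' (C s : Set {z : V // cq M u Q z ≤ 1}),
      cq M u Q z ≤ 1 := by
    rintro s - z ⟨z', -, rfl⟩
    exact z'.2
  let f : {z : V // ¬ cq M u Q z ≤ 1} ⊕ {s // s ∈ E} → Set V :=
    Sum.elim (fun m => {m.1}) (fun s => Subtype.val '' (C s.1 : Set {z : V // cq M u Q z ≤ 1}))
  have hdis : ∀ i j, i ≠ j → Disjoint (f i) (f j) := by
    intro i j hij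
    rcases i with m | s <;> rcases j with m' | s'
    · refine Set.disjoint_singleton.2 (fun h => hij ?_)
      rw [Subtype.ext h]
    · refine Set.disjoint_singleton_left.2 (fun h => m.2 (hcm s'.1 s'.2 _ h))
    · refine Set.disjoint_singleton_right.2 (fun h => m'.2 (hcm s.1 s.2 _ h))
    · refine (Set.disjoint_image_iff Subtype.val_injective).2 ?_
      have h1 := hC2 s.1 s.2 s'.1 s'.2 (fun h => hij (by rw [Subtype.ext h]))
      exact_mod_cast h1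
  have hhit : ∀ i, Hit3 M u Q (f i) := by
    rintro (m | s)
    · have h1 := m.2
      unfold cq at h1
      have key : ∀ p, M.Mem m.1 p → ∃ x ∈ f (Sum.inl m), M.Mem x p := fun p hp =>
        ⟨m.1, rfl, hp⟩
      have keyQ : m.1 ∈ Q → ∃ x ∈ f (Sum.inl m), x ∈ Q := fun hp => ⟨m.1, rfl, hp⟩
      by_cases c0 : M.Mem m.1 0 <;> by_cases c1 : M.Mem m.1 u <;> by_cases c2 : m.1 ∈ Q
      · exact Or.inl ⟨key 0 c0, key u c1⟩
      · exact Or.inl ⟨key 0 c0, key u c1⟩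
      · exact Or.inr (Or.inr ⟨key 0 c0, keyQ c2⟩)
      · rw [if_pos c0, if_neg c1, if_neg c2] at h1; omega
      · exact Or.inr (Or.inl ⟨key u c1, keyQ c2⟩)
      · rw [if_neg c0, if_pos c1, if_neg c2] at h1; omega
      · rw [if_neg c0, if_neg c1, if_pos c2] at h1; omega
      · rw [if_neg c0, if_neg c1, if_neg c2] at h1; omega
    · obtain ⟨s, hs⟩ := s
      obtain ⟨h1, h2, -, x, hx, h3, h4⟩ := hC1 s hs
      have key : ∀ p (y : {z : V // cq M u Q z ≤ 1}), y ∈ C s → M.Mem y.1 p →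
          ∃ x ∈ f (Sum.inr ⟨s, hs⟩), M.Mem x p := fun p y hy hp => ⟨y.1, ⟨y, hy, rfl⟩, hp⟩
      have keyQ : ∀ (y : {z : V // cq M u Q z ≤ 1}), y ∈ C s → y.1 ∈ Q →
          ∃ x ∈ f (Sum.inr ⟨s, hs⟩), x ∈ Q := fun y hy hp => ⟨y.1, ⟨y, hy, rfl⟩, hp⟩
      rcases single_mem2 h0u huv hQ s h2 with ⟨a1, a2, a3⟩ | ⟨a1, a2, a3⟩ | ⟨a1, a2, a3⟩ <;>
        rcases single_mem2 h0u huv hQ x h3 with ⟨b1, b2, b3⟩ | ⟨b1, b2, b3⟩ | ⟨b1, b2, b3⟩ <;>
        rw [← hS] at a1 a2 b1 b2 <;> rw [a2, b1] at h4 <;>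
        first
        | exact absurd h4 (by decide)
        | exact Or.inl ⟨key 0 x hx b3, key u s h1 a3⟩
        | exact Or.inl ⟨key 0 s h1 a3, key u x hx b3⟩
        | exact Or.inr (Or.inl ⟨key u s h1 a3, keyQ x hx b3⟩)
        | exact Or.inr (Or.inl ⟨key u x hx b3, keyQ s h1 a3⟩)
        | exact Or.inr (Or.inr ⟨key 0 x hx b3, keyQ s h1 a3⟩)
        | exact Or.inr (Or.inr ⟨key 0 s h1 a3, keyQ x hx b3⟩)
  refine hasMinor_of_family f ?_ hdis
    (fun i j hij => (hhit i).adj hG hQc (hhit j) (hdis i j hij)) ?_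
  · rintro (m | s)
    · exact conn_singleton m.1
    · have h1 := (hC1 s.1 s.2).2.2.1
      let g : G'.induce (C s.1 : Set {z : V // cq M u Q z ≤ 1}) →g
          G.induce (Subtype.val '' (C s.1 : Set {z : V // cq M u Q z ≤ 1})) :=
        { toFun := fun w => ⟨w.1.1, w.1, w.2, rfl⟩
          map_rel' := fun {u v} huv => huv }
      refine SimpleGraph.Connected.map g ?_ h1
      rintro ⟨_, w, hw, rfl⟩
      exact ⟨⟨w, hw⟩, rfl⟩
  · rw [Fintype.card_sum, Fintype.card_coe]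
    omega

end model

/-- the packing theorem in the form used for the shift -/
theorem threeClique : Pool.Agent.CA92.ThreeClique := by
  intro V _ M G hG k u v N h0u huv hvN hN hcut Q hQc hQ1 hQ2 hord h01 h02 h12 hV
  exact three_clique hG h0u huv hvN hN hcut
    ⟨hQ1, hQ2, fun s hs h1 h2 h3 t ht h4 h5 _ => hord s hs h1 h2 h3 t ht h4 h5⟩ hQc h01 h02 h12 hV

end Pool.Agent.CA
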