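import Mathlib

/-!
The word theorem (bridging lemma) for circular-arc graphs, following helper64's notes 4
for MP_b47bfb_co (double Tarsi argument).

Events of D-letters are pairs (letter, position) in a finite set G, events of C-letters are
pairs (letter, position) in a finite set F; N relates letters.  A front is a pair (X, Y), X a
subset of G closed downwards in every letter, Y a subset of F closed upwards in every letter,
such that no related g outside X is before an f outside Y.  Every word has a front which is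
D-feasible and C-feasible.
-/

namespace WordBL

open Finset

variable {D C : Type} {α : Type} [LinearOrder α]

/-- `f` is the first event of its letter after `g`, and it is related to `g`. -/
def Next (N : D → C → Prop) (F : Finset (C × α)) (g : D × α) (f : C × α) : Prop :=
  f ∈ F ∧ N g.1 f.1 ∧ g.2 < f.2 ∧ ∀ f' ∈ F, f'.1 = f.1 → g.2 < f'.2 → f.2 ≤ f'.2

/-- `g` is the last event of its letter before `f`, and it is related to `f`. -/
def Prev (N : D → C → Prop) (G : Finset (D × α)) (f : C × α) (g : D × α) : Prop :=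
  g ∈ G ∧ N g.1 f.1 ∧ g.2 < f.2 ∧ ∀ g' ∈ G, g'.1 = g.1 → g'.2 < f.2 → g'.2 ≤ g.2

/-- Fronts. -/
structure Front (N : D → C → Prop) (G : Finset (D × α)) (F : Finset (C × α))
    (X : Finset (D × α)) (Y : Finset (C × α)) : Prop where
  subX : X ⊆ G
  subY : Y ⊆ F
  lowX : ∀ g ∈ X, ∀ g' ∈ G, g'.1 = g.1 → g'.2 ≤ g.2 → g' ∈ X
  upY : ∀ f ∈ Y, ∀ f' ∈ F, f'.1 = f.1 → f.2 ≤ f'.2 → f' ∈ Y
  cover : ∀ g ∈ G, g ∉ X → ∀ f ∈ F, f ∉ Y → N g.1 f.1 → ¬ g.2 < f.2

/-- The D-events in `X` are served by C-events outside `Y`. -/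
def DFeas (N : D → C → Prop) (F : Finset (C × α)) (X : Finset (D × α))
    (Y : Finset (C × α)) : Prop :=
  ∃ ε : C × α → Option D, ∀ g ∈ X, ∃ f, Next N F g f ∧ f ∉ Y ∧ ε f = some g.1

/-- The C-events in `Y` are served by D-events outside `X`. -/
def CFeas (N : D → C → Prop) (G : Finset (D × α)) (X : Finset (D × α))
    (Y : Finset (C × α)) : Prop :=
  ∃ δ : D × α → Option C, ∀ f ∈ Y, ∃ g, Prev N G f g ∧ g ∉ X ∧ δ g = some f.1

/-- Good fronts. -/
def Good (N : D → C → Prop) (G : Finset (D × α)) (F : Finset (C × α))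
    (X : Finset (D × α)) (Y : Finset (C × α)) : Prop :=
  Front N G F X Y ∧ DFeas N F X Y ∧ CFeas N G X Y

/-- A minimal counterexample. -/
def MinBad (N : D → C → Prop) (G : Finset (D × α)) (F : Finset (C × α)) : Prop :=
  (¬ ∃ X Y, Good N G F X Y) ∧
    ∀ (G' : Finset (D × α)) (F' : Finset (C × α)),
      G'.card + F'.card < G.card + F.card → ∃ X Y, Good N G' F' X Y

/-! ### The mirror -/

theorem front_mirror {N : D → C → Prop} {G : Finset (D × α)} {F : Finset (C × α)}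
    {X : Finset (D × α)} {Y : Finset (C × α)} (h : Front N G F X Y) :
    Front (α := αᵒᵈ) (fun c d => N d c) F G Y X where
  subX := h.subY
  subY := h.subX
  lowX := h.upY
  upY := h.lowX
  cover := fun f hf hfY g hg hgX hN hlt => h.cover g hg hgX f hf hfY hN hlt

theorem good_mirror {N : D → C → Prop} {G : Finset (D × α)} {F : Finset (C × α)}
    {X : Finset (D × α)} {Y : Finset (C × α)} (h : Good N G F X Y) :
    Good (α := αᵒᵈ) (fun c d => N d c) F G Y X :=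
  ⟨front_mirror h.1, h.2.2, h.2.1⟩

theorem minBad_mirror {N : D → C → Prop} {G : Finset (D × α)} {F : Finset (C × α)}
    (h : MinBad N G F) : MinBad (α := αᵒᵈ) (fun c d => N d c) F G := by
  refine ⟨?_, ?_⟩
  · rintro ⟨Y, X, hg⟩
    exact h.1 ⟨X, Y, good_mirror (α := αᵒᵈ) hg⟩
  · intro F' G' hlt
    have hlt' : Finset.card (α := D × α) G' + Finset.card (α := C × α) F' <
        Finset.card (α := D × α) G + Finset.card (α := C × α) F := by
      have h2 : Finset.card (α := C × α) F' + Finset.card (α := D × α) G' <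
        Finset.card (α := C × α) F + Finset.card (α := D × α) G := hlt
      omega
    obtain ⟨X, Y, hg⟩ := h.2 G' F' hlt'
    exact ⟨Y, X, good_mirror (α := α) hg⟩

/-! ### Step 0 -/

theorem exists_after {N : D → C → Prop} {G : Finset (D × α)} {F : Finset (C × α)}
    (h : MinBad N G F) {g : D × α} (hg : g ∈ G) :
    ∃ f ∈ F, N g.1 f.1 ∧ g.2 < f.2 := by
  classical
  by_contra hno
  push Not at hno
  obtain ⟨X, Y, hF, ⟨ε, hε⟩, ⟨δ, hδ⟩⟩ := h.2 (G.erase g) F (by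
    have := Finset.card_erase_lt_of_mem hg
    omega)
  refine h.1 ⟨X, Y, ⟨?_, hF.subY, ?_, hF.upY, ?_⟩, ⟨ε, hε⟩, ⟨δ, ?_⟩⟩
  · exact fun x hx => Finset.mem_of_mem_erase (hF.subX hx)
  · intro g1 hg1 g' hg' h1 h2
    by_cases hgg : g' = g
    · subst hgg
      obtain ⟨f, hf, _, _⟩ := hε g1 hg1
      exact absurd (lt_of_le_of_lt h2 hf.2.2.1) (not_lt.2 (hno f hf.1 (h1 ▸ hf.2.1)))
    · exact hF.lowX g1 hg1 g' (Finset.mem_erase.2 ⟨hgg, hg'⟩) h1 h2
  · intro g1 hg1 hg1X f hf hfY hN hlt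
    by_cases hgg : g1 = g
    · subst hgg
      exact absurd hlt (not_lt.2 (hno f hf hN))
    · exact hF.cover g1 (Finset.mem_erase.2 ⟨hgg, hg1⟩) hg1X f hf hfY hN hlt
  · intro f hf
    obtain ⟨g1, hp, h1, h2⟩ := hδ f hf
    refine ⟨g1, ⟨Finset.mem_of_mem_erase hp.1, hp.2.1, hp.2.2.1, ?_⟩, h1, h2⟩
    intro g' hg' he hlt
    by_cases hgg : g' = g
    · subst hgg
      exact absurd hlt (not_lt.2 (hno f (hF.subY hf) (he ▸ hp.2.1)))
    · exact hp.2.2.2 g' (Finset.mem_erase.2 ⟨hgg, hg'⟩) he hlt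

theorem exists_before {N : D → C → Prop} {G : Finset (D × α)} {F : Finset (C × α)}
    (h : MinBad N G F) {f : C × α} (hf : f ∈ F) :
    ∃ g ∈ G, N g.1 f.1 ∧ g.2 < f.2 :=
  exists_after (α := αᵒᵈ) (minBad_mirror h) hf

theorem pair_eq {β : Type} {x y : β × α} (h1 : x.1 = y.1) (h2 : x.2 = y.2) : x = y :=
  Prod.ext h1 h2

theorem exists_next {N : D → C → Prop} {G : Finset (D × α)} {F : Finset (C × α)}
    (h : MinBad N G F) {f : C × α} (hf : f ∈ F) : ∃ g ∈ G, Next N F g f := by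
  classical
  by_contra hno
  have key : ∀ g ∈ G, N g.1 f.1 → g.2 < f.2 → ∃ f' ∈ F, f'.1 = f.1 ∧ g.2 < f'.2 ∧ f'.2 < f.2 := by
    intro g hg hN hlt
    by_contra hc
    push Not at hc
    exact hno ⟨g, hg, hf, hN, hlt, fun f' hf' h1 h2 => hc f' hf' h1 h2⟩
  obtain ⟨g0, hg0, hN0, hlt0⟩ := exists_before h hf
  obtain ⟨f0, hf0, hf01, _, hf02⟩ := key g0 hg0 hN0 hlt0
  obtain ⟨p, hp, hpmax⟩ := Finset.exists_max_image
    (F.filter (fun f' => f'.1 = f.1 ∧ f'.2 < f.2)) (fun f' => f'.2)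
    ⟨f0, Finset.mem_filter.2 ⟨hf0, hf01, hf02⟩⟩
  rw [Finset.mem_filter] at hp
  obtain ⟨hpF, hp1, hp2⟩ := hp
  have hmax : ∀ f' ∈ F, f'.1 = f.1 → f'.2 < f.2 → f'.2 ≤ p.2 := fun f' hf' h1 h2 =>
    hpmax f' (Finset.mem_filter.2 ⟨hf', h1, h2⟩)
  -- no related D-event between p and f
  have hbet : ∀ g ∈ G, N g.1 f.1 → g.2 < f.2 → g.2 < p.2 := by
    intro g hg hN hlt
    obtain ⟨f', hf', h1, h2, h3⟩ := key g hg hN hlt
    exact lt_of_lt_of_le h2 (hmax f' hf' h1 h3)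
  have hpf : p ≠ f := fun he => by
    rw [he] at hp2
    exact lt_irrefl _ hp2
  have hpF' : p ∈ F.erase f := Finset.mem_erase.2 ⟨hpf, hpF⟩
  obtain ⟨X, Y, hF, ⟨ε, hε⟩, ⟨δ, hδ⟩⟩ := h.2 G (F.erase f) (by
    have := Finset.card_erase_lt_of_mem hf
    omega)
  have hfY : f ∉ Y := fun hy => (Finset.mem_erase.1 (hF.subY hy)).1 rfl
  -- the new upper part
  obtain ⟨Y', hY'⟩ : ∃ Y' : Finset (C × α), ∀ x, x ∈ Y' ↔ (x ∈ Y ∨ (x = f ∧ p ∈ Y)) := by
    by_cases hpY : p ∈ Y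
    · refine ⟨insert f Y, fun x => ?_⟩
      rw [Finset.mem_insert]
      constructor
      · rintro (h1 | h1)
        · exact Or.inr ⟨h1, hpY⟩
        · exact Or.inl h1
      · rintro (h1 | h1)
        · exact Or.inr h1
        · exact Or.inl h1.1
    · refine ⟨Y, fun x => ?_⟩
      constructor
      · exact fun h1 => Or.inl h1
      · rintro (h1 | h1)
        · exact h1
        · exact absurd h1.2 hpY
  refine h.1 ⟨X, Y', ⟨hF.subX, ?_, hF.lowX, ?_, ?_⟩, ⟨ε, ?_⟩, ⟨δ, ?_⟩⟩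
  · intro x hx
    rcases (hY' x).1 hx with h1 | h1
    · exact Finset.mem_of_mem_erase (hF.subY h1)
    · rw [h1.1]; exact hf
  · intro f1 hf1 f2 hf2 he hle
    rw [hY']
    by_cases hf2f : f2 = f
    · subst hf2f
      rcases (hY' f1).1 hf1 with h1 | h1
      · right
        refine ⟨rfl, ?_⟩
        have hf1F := hF.subY h1
        rw [Finset.mem_erase] at hf1F
        have hlt : f1.2 < f2.2 := lt_of_le_of_ne hle (fun he2 => hf1F.1 (pair_eq he.symm he2))
        exact hF.upY f1 h1 p hpF' (hp1.trans he) (hmax f1 hf1F.2 he.symm hlt)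
      · exact Or.inr ⟨rfl, h1.2⟩
    · left
      have hf2' : f2 ∈ F.erase f := Finset.mem_erase.2 ⟨hf2f, hf2⟩
      rcases (hY' f1).1 hf1 with h1 | h1
      · exact hF.upY f1 h1 f2 hf2' he hle
      · obtain ⟨h1a, h1b⟩ := h1
        subst h1a
        exact hF.upY p h1b f2 hf2' (he.trans hp1.symm) (le_trans (le_of_lt hp2) hle)
  · intro g1 hg1 hg1X f1 hf1 hf1Y hN hlt
    rw [hY'] at hf1Y
    push Not at hf1Y
    by_cases hff : f1 = f
    · subst hff
      have hpY : p ∉ Y := hf1Y.2 rfl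
      exact hF.cover g1 hg1 hg1X p hpF' hpY (hp1 ▸ hN) (hbet g1 hg1 hN hlt)
    · exact hF.cover g1 hg1 hg1X f1 (Finset.mem_erase.2 ⟨hff, hf1⟩) hf1Y.1 hN hlt
  · intro g1 hg1
    obtain ⟨f1, hn, h1, h2⟩ := hε g1 hg1
    have hf1 := Finset.mem_erase.1 hn.1
    refine ⟨f1, ⟨hf1.2, hn.2.1, hn.2.2.1, ?_⟩, ?_, h2⟩
    · intro f' hf' he hlt
      by_cases hff : f' = f
      · subst hff
        have hlt2 : g1.2 < p.2 := hbet g1 (hF.subX hg1) (he ▸ hn.2.1) hlt
        exact le_trans (hn.2.2.2 p hpF' (hp1.trans he) hlt2) (le_of_lt hp2)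
      · exact hn.2.2.2 f' (Finset.mem_erase.2 ⟨hff, hf'⟩) he hlt
    · rw [hY']
      push Not
      exact ⟨h1, fun he => absurd he hf1.1⟩
  · intro f1 hf1
    rcases (hY' f1).1 hf1 with h1 | h1
    · exact hδ f1 h1
    · obtain ⟨h1a, h1b⟩ := h1
      subst h1a
      obtain ⟨g1, hpr, h2, h3⟩ := hδ p h1b
      refine ⟨g1, ⟨hpr.1, hp1 ▸ hpr.2.1, lt_trans hpr.2.2.1 hp2, ?_⟩, h2, hp1 ▸ h3⟩
      intro g' hg' he hlt
      have hN' : N g'.1 f1.1 := by
        rw [he, ← hp1]; exact hpr.2.1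
      exact hpr.2.2.2 g' hg' he (hbet g' hg' hN' hlt)

/-! ### Step 1: D-stuck and C-stuck -/

theorem dStuck {N : D → C → Prop} {G : Finset (D × α)} {F : Finset (C × α)}
    (h : MinBad N G F) {X1 : Finset (D × α)} {Y1 : Finset (C × α)}
    (hF1 : Front N G F X1 Y1) (hD1 : DFeas N F X1 Y1) : X1 = ∅ := by
  classical
  by_contra hne
  obtain ⟨ε1, hε1⟩ := hD1
  obtain ⟨Z, hZ⟩ : ∃ Z : Finset (C × α), ∀ f, f ∈ Z ↔
      (f ∈ F ∧ ∃ g ∈ G, g ∉ X1 ∧ N g.1 f.1 ∧ g.2 < f.2) :=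
    ⟨F.filter (fun f => ∃ g ∈ G, g ∉ X1 ∧ N g.1 f.1 ∧ g.2 < f.2), fun f => by
      rw [Finset.mem_filter]⟩
  have hZF : Z ⊆ F := fun f hf => ((hZ f).1 hf).1
  have hZY : ∀ f ∈ Z, f ∈ Y1 := by
    intro f hf
    by_contra hfY
    obtain ⟨hfF, g, hg, hgX, hN, hlt⟩ := (hZ f).1 hf
    exact hF1.cover g hg hgX f hfF hfY hN hlt
  have hcard : (G \ X1).card + Z.card < G.card + F.card := by
    have h1 : (G \ X1).card < G.card := by
      apply Finset.card_lt_card
      rw [Finset.ssubset_iff_subset_ne]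
      refine ⟨Finset.sdiff_subset, fun he => hne ?_⟩
      rw [Finset.sdiff_eq_self_iff_disjoint] at he
      rw [Finset.eq_empty_iff_forall_notMem]
      intro x hx
      exact Finset.disjoint_left.1 he (hF1.subX hx) hx
    have h2 : Z.card ≤ F.card := Finset.card_le_card hZF
    omega
  obtain ⟨X2, Y2, hF2, ⟨ε2, hε2⟩, ⟨δ2, hδ2⟩⟩ := h.2 (G \ X1) Z hcard
  refine h.1 ⟨X1 ∪ X2, Y2, ⟨?_, ?_, ?_, ?_, ?_⟩,
    ⟨fun f => if f ∈ Z then ε2 f else ε1 f, ?_⟩, ⟨δ2, ?_⟩⟩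
  · intro x hx
    rcases Finset.mem_union.1 hx with h1 | h1
    · exact hF1.subX h1
    · exact (Finset.mem_sdiff.1 (hF2.subX h1)).1
  · exact fun f hf => hZF (hF2.subY hf)
  · intro g1 hg1 g' hg' he hle
    rcases Finset.mem_union.1 hg1 with h1 | h1
    · exact Finset.mem_union_left _ (hF1.lowX g1 h1 g' hg' he hle)
    · by_cases hX : g' ∈ X1
      · exact Finset.mem_union_left _ hX
      · exact Finset.mem_union_right _
          (hF2.lowX g1 h1 g' (Finset.mem_sdiff.2 ⟨hg', hX⟩) he hle)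
  · intro f1 hf1 f2 hf2 he hle
    obtain ⟨_, g, hg, hgX, hN, hlt⟩ := (hZ f1).1 (hF2.subY hf1)
    exact hF2.upY f1 hf1 f2 ((hZ f2).2 ⟨hf2, g, hg, hgX, by rw [he]; exact hN,
      lt_of_lt_of_le hlt hle⟩) he hle
  · intro g1 hg1 hg1X f1 hf1 hf1Y hN hlt
    rw [Finset.mem_union, not_or] at hg1X
    exact hF2.cover g1 (Finset.mem_sdiff.2 ⟨hg1, hg1X.1⟩) hg1X.2 f1
      ((hZ f1).2 ⟨hf1, g1, hg1, hg1X.1, hN, hlt⟩) hf1Y hN hlt
  · intro g hg
    rcases Finset.mem_union.1 hg with h1 | h1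
    · obtain ⟨f, hn, h2, h3⟩ := hε1 g h1
      have hfZ : f ∉ Z := fun hz => h2 (hZY f hz)
      refine ⟨f, hn, fun hy => hfZ (hF2.subY hy), ?_⟩
      simp only [hfZ, if_false]
      exact h3
    · obtain ⟨f, hn, h2, h3⟩ := hε2 g h1
      have hgG := Finset.mem_sdiff.1 (hF2.subX h1)
      refine ⟨f, ⟨hZF hn.1, hn.2.1, hn.2.2.1, ?_⟩, h2, ?_⟩
      · intro f' hf' he hlt
        exact hn.2.2.2 f' ((hZ f').2 ⟨hf', g, hgG.1, hgG.2, by rw [he]; exact hn.2.1, hlt⟩) he hlt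
      · simp only [hn.1, if_true]
        exact h3
  · intro f hf
    obtain ⟨g, hp, h2, h3⟩ := hδ2 f hf
    have hgG := Finset.mem_sdiff.1 hp.1
    refine ⟨g, ⟨hgG.1, hp.2.1, hp.2.2.1, ?_⟩, ?_, h3⟩
    · intro g' hg' he hlt
      by_cases hX : g' ∈ X1
      · by_contra hc
        push Not at hc
        exact hgG.2 (hF1.lowX g' hX g hgG.1 he.symm (le_of_lt hc))
      · exact hp.2.2.2 g' (Finset.mem_sdiff.2 ⟨hg', hX⟩) he hlt
    · rw [Finset.mem_union, not_or]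
      exact ⟨hgG.2, h2⟩

theorem cStuck {N : D → C → Prop} {G : Finset (D × α)} {F : Finset (C × α)}
    (h : MinBad N G F) {X1 : Finset (D × α)} {Y1 : Finset (C × α)}
    (hF1 : Front N G F X1 Y1) (hC1 : CFeas N G X1 Y1) : Y1 = ∅ :=
  dStuck (α := αᵒᵈ) (minBad_mirror h) (front_mirror hF1) hC1

/-! ### Step 2: all D-events but one can be served -/

theorem serve_all_but_one {N : D → C → Prop} {G : Finset (D × α)} {F : Finset (C × α)}
    (h : MinBad N G F) {g : D × α} (hg : g ∈ G) :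
    ∃ ε : C × α → Option D, ∀ g' ∈ G, g' ≠ g → ∃ f, Next N F g' f ∧ ε f = some g'.1 := by
  classical
  obtain ⟨X, Y, hF, ⟨ε, hε⟩, ⟨δ, hδ⟩⟩ := h.2 (G.erase g) F (by
    have := Finset.card_erase_lt_of_mem hg
    omega)
  obtain ⟨Z, hZ⟩ : ∃ Z : Finset (D × α), ∀ g', g' ∈ Z ↔
      (g' ∈ G ∧ ∃ f ∈ F, f ∉ Y ∧ N g'.1 f.1 ∧ g'.2 < f.2) :=
    ⟨G.filter (fun g' => ∃ f ∈ F, f ∉ Y ∧ N g'.1 f.1 ∧ g'.2 < f.2), fun g' => by
      rw [Finset.mem_filter]⟩
  have hfront : Front N G F Z Y := by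
    refine ⟨fun x hx => ((hZ x).1 hx).1, hF.subY, ?_, hF.upY, ?_⟩
    · intro g1 hg1 g' hg' he hle
      obtain ⟨_, f, hf, hfY, hN, hlt⟩ := (hZ g1).1 hg1
      exact (hZ g').2 ⟨hg', f, hf, hfY, by rw [he]; exact hN, lt_of_le_of_lt hle hlt⟩
    · intro g1 hg1 hg1Z f hf hfY hN hlt
      exact hg1Z ((hZ g1).2 ⟨hg1, f, hf, hfY, hN, hlt⟩)
  have hcf : CFeas N G Z Y := by
    let P : D × α → Prop := fun g0 => g0 ∈ G ∧ g0.1 = g.1 ∧ g0.2 < g.2 ∧
      ∀ g' ∈ G, g'.1 = g.1 → g'.2 < g.2 → g'.2 ≤ g0.2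
    refine ⟨fun x => if x = g then (if hx : ∃ g0, P g0 then δ hx.choose else none) else δ x, ?_⟩
    intro f hf
    obtain ⟨g1, hp, h1, h2⟩ := hδ f hf
    have hg1 := Finset.mem_erase.1 hp.1
    have hg1Z : g1 ∉ Z := by
      intro hz
      obtain ⟨_, f2, hf2, hf2Y, hN2, hlt2⟩ := (hZ g1).1 hz
      exact hF.cover g1 hp.1 h1 f2 hf2 hf2Y hN2 hlt2
    by_cases hA : g.1 = g1.1 ∧ g1.2 < g.2 ∧ g.2 < f.2
    · obtain ⟨hA1, hA2, hA3⟩ := hA
      refine ⟨g, ⟨hg, by rw [hA1]; exact hp.2.1, hA3, ?_⟩, ?_, ?_⟩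
      · intro g' hg' he hlt
        by_cases hgg : g' = g
        · rw [hgg]
        · exact le_trans (hp.2.2.2 g' (Finset.mem_erase.2 ⟨hgg, hg'⟩) (he.trans hA1) hlt)
            (le_of_lt hA2)
      · intro hz
        obtain ⟨_, f2, hf2, hf2Y, hN2, hlt2⟩ := (hZ g).1 hz
        exact hF.cover g1 hp.1 h1 f2 hf2 hf2Y (hA1 ▸ hN2) (lt_trans hA2 hlt2)
      · have hPg1 : P g1 := by
          refine ⟨hg1.2, hA1.symm, hA2, ?_⟩
          intro g' hg' he hlt
          have hgg : g' ≠ g := fun hc => by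
            rw [hc] at hlt
            exact lt_irrefl _ hlt
          exact hp.2.2.2 g' (Finset.mem_erase.2 ⟨hgg, hg'⟩) (he.trans hA1) (lt_trans hlt hA3)
        have hex : ∃ g0, P g0 := ⟨g1, hPg1⟩
        have hspec := hex.choose_spec
        have heq : hex.choose = g1 := by
          apply pair_eq
          · exact hspec.2.1.trans hPg1.2.1.symm
          · exact le_antisymm (hPg1.2.2.2 _ hspec.1 hspec.2.1 hspec.2.2.1)
              (hspec.2.2.2 _ hPg1.1 hPg1.2.1 hPg1.2.2.1)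
        simp only [if_true, dif_pos hex]
        rw [heq]
        exact h2
    · refine ⟨g1, ⟨hg1.2, hp.2.1, hp.2.2.1, ?_⟩, hg1Z, ?_⟩
      · intro g' hg' he hlt
        by_cases hgg : g' = g
        · subst hgg
          by_contra hc
          push Not at hc
          exact hA ⟨he, hc, hlt⟩
        · exact hp.2.2.2 g' (Finset.mem_erase.2 ⟨hgg, hg'⟩) he hlt
      · simp only [hg1.1, if_false]
        exact h2
  have hY : Y = ∅ := cStuck h hfront hcf
  refine ⟨ε, fun g' hg' hne => ?_⟩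
  obtain ⟨f, hf, hN, hlt⟩ := exists_after h hg'
  have hX : g' ∈ X := by
    by_contra hX
    exact hF.cover g' (Finset.mem_erase.2 ⟨hne, hg'⟩) hX f hf (by rw [hY]; simp) hN hlt
  obtain ⟨f', hn, _, h3⟩ := hε g' hX
  exact ⟨f', hn, h3⟩

theorem not_serve_all {N : D → C → Prop} {G : Finset (D × α)} {F : Finset (C × α)}
    (h : MinBad N G F) :
    ¬ ∃ ε : C × α → Option D, ∀ g ∈ G, ∃ f, Next N F g f ∧ ε f = some g.1 := by
  rintro ⟨ε, hε⟩
  refine h.1 ⟨G, ∅, ⟨Finset.Subset.refl _, Finset.empty_subset _, fun _ _ g' hg' _ _ => hg', ?_, ?_⟩,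
    ⟨ε, ?_⟩, ⟨fun _ => none, ?_⟩⟩
  · intro f hf
    simp at hf
  · intro g hg hgn
    exact absurd hg hgn
  · intro g hg
    obtain ⟨f, hn, he⟩ := hε g hg
    exact ⟨f, hn, by simp, he⟩
  · intro f hf
    simp at hf

/-! ### Step 3: counting -/

theorem card_lt {N : D → C → Prop} {G : Finset (D × α)} {F : Finset (C × α)}
    (h : MinBad N G F) : F.card + 1 ≤ G.card := by
  classical
  -- neighbourhoods
  let nb : Finset (D × α) → Finset (C × α) := fun T => F.filter (fun f => ∃ g ∈ T, Next N F g f)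
  have hnb : ∀ T f, f ∈ nb T ↔ (f ∈ F ∧ ∃ g ∈ T, Next N F g f) := by
    intro T f
    simp only [nb, Finset.mem_filter]
  obtain ⟨T, hT, hmax⟩ := Finset.exists_max_image G.powerset
    (fun T => (T.card : ℤ) - ((nb T).card : ℤ)) ⟨∅, Finset.mem_powerset.2 (Finset.empty_subset _)⟩
  rw [Finset.mem_powerset] at hT
  have hmax' : ∀ U ⊆ G, (U.card : ℤ) - ((nb U).card : ℤ) ≤ (T.card : ℤ) - ((nb T).card : ℤ) :=
    fun U hU => hmax U (Finset.mem_powerset.2 hU)
  -- matching of G minus T into F minus nb T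
  let t : {g // g ∈ G \ T} → Finset (C × α) := fun g => (nb {g.1}) \ nb T
  have hall : ∀ s : Finset {g // g ∈ G \ T}, s.card ≤ (s.biUnion t).card := by
    intro s
    let U : Finset (D × α) := s.map ⟨Subtype.val, Subtype.val_injective⟩
    have hUmem : ∀ g, g ∈ U → g ∈ G \ T := by
      intro g hg
      simp only [U, Finset.mem_map, Function.Embedding.coeFn_mk] at hg
      obtain ⟨a, _, rfl⟩ := hg
      exact a.2
    have hUcard : U.card = s.card := Finset.card_map _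
    have hdisj : Disjoint T U := by
      rw [Finset.disjoint_left]
      intro g hgT hgU
      exact (Finset.mem_sdiff.1 (hUmem g hgU)).2 hgT
    have hsub : T ∪ U ⊆ G := by
      intro g hg
      rcases Finset.mem_union.1 hg with h1 | h1
      · exact hT h1
      · exact (Finset.mem_sdiff.1 (hUmem g h1)).1
    have h1 := hmax' (T ∪ U) hsub
    rw [Finset.card_union_of_disjoint hdisj, hUcard] at h1
    have h2 : nb (T ∪ U) ⊆ nb T ∪ s.biUnion t := by
      intro f hf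
      rw [hnb] at hf
      obtain ⟨hfF, g, hg, hn⟩ := hf
      rw [Finset.mem_union]
      by_cases hfT : f ∈ nb T
      · exact Or.inl hfT
      · right
        rcases Finset.mem_union.1 hg with h3 | h3
        · exact absurd ((hnb T f).2 ⟨hfF, g, h3, hn⟩) hfT
        · simp only [U, Finset.mem_map, Function.Embedding.coeFn_mk] at h3
          obtain ⟨a, ha, rfl⟩ := h3
          rw [Finset.mem_biUnion]
          refine ⟨a, ha, ?_⟩
          simp only [t, Finset.mem_sdiff]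
          exact ⟨(hnb _ f).2 ⟨hfF, a.1, Finset.mem_singleton_self _, hn⟩, hfT⟩
    have h3 : (nb (T ∪ U)).card ≤ (nb T).card + (s.biUnion t).card :=
      le_trans (Finset.card_le_card h2) (Finset.card_union_le _ _)
    push_cast at h1
    have h4 : ((nb (T ∪ U)).card : ℤ) ≤ ((nb T).card : ℤ) + ((s.biUnion t).card : ℤ) := by
      exact_mod_cast h3
    have h5 : (s.card : ℤ) ≤ ((s.biUnion t).card : ℤ) := by linarith
    exact_mod_cast h5
  obtain ⟨m, hminj, hm⟩ := (Finset.all_card_le_biUnion_card_iff_exists_injective t).1 hall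
  have hm1 : ∀ g : {g // g ∈ G \ T}, Next N F g.1 (m g) ∧ m g ∉ nb T := by
    intro g
    have := hm g
    simp only [t, Finset.mem_sdiff, hnb, Finset.mem_singleton] at this
    obtain ⟨⟨_, g', hg', hn⟩, h2⟩ := this
    rw [hg'] at hn
    refine ⟨hn, ?_⟩
    rw [hnb]
    exact h2
  -- T must be G
  have hTG : T = G := by
    by_contra hne
    obtain ⟨g0, hg0, hg0T⟩ : ∃ g0 ∈ G, g0 ∉ T := by
      by_contra hc
      push Not at hc
      exact hne (Finset.Subset.antisymm hT hc)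
    obtain ⟨ε0, hε0⟩ := serve_all_but_one h hg0
    refine not_serve_all h ⟨fun f => if f ∈ nb T then ε0 f else
      (if hx : ∃ g : {g // g ∈ G \ T}, m g = f then some hx.choose.1.1 else none), ?_⟩
    intro g hg
    by_cases hgT : g ∈ T
    · obtain ⟨f, hn, he⟩ := hε0 g hg (fun hc => hg0T (hc ▸ hgT))
      refine ⟨f, hn, ?_⟩
      have : f ∈ nb T := (hnb T f).2 ⟨hn.1, g, hgT, hn⟩
      simp only [this, if_true]
      exact he
    · let a : {g // g ∈ G \ T} := ⟨g, Finset.mem_sdiff.2 ⟨hg, hgT⟩⟩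
      refine ⟨m a, (hm1 a).1, ?_⟩
      have hex : ∃ g : {g // g ∈ G \ T}, m g = m a := ⟨a, rfl⟩
      simp only [(hm1 a).2, if_false, dif_pos hex]
      have : hex.choose = a := hminj hex.choose_spec
      rw [this]
  -- nb G = F
  have hnG : nb G = F := by
    apply Finset.Subset.antisymm
    · exact Finset.filter_subset _ _
    · intro f hf
      obtain ⟨g, hg, hn⟩ := exists_next h hf
      exact (hnb G f).2 ⟨hf, g, hg, hn⟩
  by_contra hc
  push Not at hc
  rw [hTG, hnG] at hmax'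
  -- Hall for G
  let t' : {g // g ∈ G} → Finset (C × α) := fun g => nb {g.1}
  have hall' : ∀ s : Finset {g // g ∈ G}, s.card ≤ (s.biUnion t').card := by
    intro s
    let U : Finset (D × α) := s.map ⟨Subtype.val, Subtype.val_injective⟩
    have hUmem : ∀ g, g ∈ U → g ∈ G := by
      intro g hg
      simp only [U, Finset.mem_map, Function.Embedding.coeFn_mk] at hg
      obtain ⟨a, _, rfl⟩ := hg
      exact a.2
    have hUcard : U.card = s.card := Finset.card_map _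
    have h1 := hmax' U hUmem
    rw [hUcard] at h1
    have h2 : nb U ⊆ s.biUnion t' := by
      intro f hf
      rw [hnb] at hf
      obtain ⟨hfF, g, hg, hn⟩ := hf
      simp only [U, Finset.mem_map, Function.Embedding.coeFn_mk] at hg
      obtain ⟨a, ha, rfl⟩ := hg
      rw [Finset.mem_biUnion]
      exact ⟨a, ha, (hnb _ f).2 ⟨hfF, a.1, Finset.mem_singleton_self _, hn⟩⟩
    have h3 : (nb U).card ≤ (s.biUnion t').card := Finset.card_le_card h2
    have h4 : ((nb U).card : ℤ) ≤ ((s.biUnion t').card : ℤ) := by exact_mod_cast h3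
    have h6 : (G.card : ℤ) ≤ (F.card : ℤ) := by
      have : G.card ≤ F.card := by omega
      exact_mod_cast this
    have h5 : (s.card : ℤ) ≤ ((s.biUnion t').card : ℤ) := by linarith
    exact_mod_cast h5
  obtain ⟨m', hminj', hm'⟩ := (Finset.all_card_le_biUnion_card_iff_exists_injective t').1 hall'
  refine not_serve_all h ⟨fun f =>
      (if hx : ∃ g : {g // g ∈ G}, m' g = f then some hx.choose.1.1 else none), ?_⟩
  intro g hg
  let a : {g // g ∈ G} := ⟨g, hg⟩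
  have hn : Next N F g (m' a) := by
    have := hm' a
    simp only [t', hnb, Finset.mem_singleton] at this
    obtain ⟨_, g', hg', hn⟩ := this
    rw [hg'] at hn
    exact hn
  refine ⟨m' a, hn, ?_⟩
  have hex : ∃ g : {g // g ∈ G}, m' g = m' a := ⟨a, rfl⟩
  simp only [dif_pos hex]
  have : hex.choose = a := hminj' hex.choose_spec
  rw [this]

/-- The word theorem: every word has a good front. -/
theorem exists_good (N : D → C → Prop) (G : Finset (D × α)) (F : Finset (C × α)) :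
    ∃ X Y, Good N G F X Y := by
  by_contra hno
  -- minimal counterexample
  have hex : ∃ n : ℕ, ∃ (G : Finset (D × α)) (F : Finset (C × α)),
      G.card + F.card = n ∧ ¬ ∃ X Y, Good N G F X Y := ⟨_, G, F, rfl, hno⟩
  classical
  obtain ⟨G0, F0, hc, hbad⟩ := Nat.find_spec hex
  have hmin : MinBad N G0 F0 := by
    refine ⟨hbad, fun G' F' hlt => ?_⟩
    by_contra hb
    have hlt2 : G'.card + F'.card < Nat.find hex := by omega
    exact Nat.find_min hex hlt2 ⟨G', F', rfl, hb⟩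
  have h1 : F0.card + 1 ≤ G0.card := card_lt hmin
  have h2 : G0.card + 1 ≤ F0.card := card_lt (α := αᵒᵈ) (minBad_mirror (α := α) hmin)
  omega

/-- The word theorem with thresholds: a D-event `(i, x)` belongs to `X` iff `x < a i`, a C-event
`(c, y)` belongs to `Y` iff `b c ≤ y`. -/
theorem exists_thresholds [Fintype D] [Fintype C] (N : D → C → Prop)
    (posD : D → Finset ℕ) (posC : C → Finset ℕ) :
    ∃ (a : D → ℕ) (b : C → ℕ) (ε : C → ℕ → Option D) (δ : D → ℕ → Option C),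
      (∀ i c, N i c → ∀ x ∈ posD i, a i ≤ x → ∀ y ∈ posC c, y < b c → ¬ x < y) ∧
      (∀ i, ∀ x ∈ posD i, x < a i → ∃ c, N i c ∧ ∃ y ∈ posC c, x < y ∧
        (∀ y' ∈ posC c, x < y' → y ≤ y') ∧ y < b c ∧ ε c y = some i) ∧
      (∀ c, ∀ y ∈ posC c, b c ≤ y → ∃ i, N i c ∧ ∃ x ∈ posD i, x < y ∧
        (∀ x' ∈ posD i, x' < y → x' ≤ x) ∧ a i ≤ x ∧ δ i x = some c) := by
  classical
  obtain ⟨G, hG⟩ : ∃ G : Finset (D × ℕ), ∀ i x, (i, x) ∈ G ↔ x ∈ posD i := by
    refine ⟨Finset.univ.biUnion (fun i => (posD i).image (fun x => (i, x))), fun i x => ?_⟩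
    simp only [Finset.mem_biUnion, Finset.mem_univ, true_and, Finset.mem_image, Prod.mk.injEq]
    constructor
    · rintro ⟨i', x', hx', rfl, rfl⟩
      exact hx'
    · intro hx
      exact ⟨i, x, hx, rfl, rfl⟩
  obtain ⟨F, hF⟩ : ∃ F : Finset (C × ℕ), ∀ c y, (c, y) ∈ F ↔ y ∈ posC c := by
    refine ⟨Finset.univ.biUnion (fun c => (posC c).image (fun y => (c, y))), fun c y => ?_⟩
    simp only [Finset.mem_biUnion, Finset.mem_univ, true_and, Finset.mem_image, Prod.mk.injEq]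
    constructor
    · rintro ⟨i', x', hx', rfl, rfl⟩
      exact hx'
    · intro hx
      exact ⟨c, y, hx, rfl, rfl⟩
  obtain ⟨X, Y, hfr, ⟨ε, hε⟩, ⟨δ, hδ⟩⟩ := exists_good N G F
  have ha : ∀ i, ∃ a : ℕ, ∀ x ∈ posD i, (i, x) ∈ X ↔ x < a := by
    intro i
    have hex : ∃ a : ℕ, ∀ x ∈ posD i, (i, x) ∈ X → x < a :=
      ⟨(posD i).sup (fun x => x + 1), fun x hx _ =>
        lt_of_lt_of_le (Nat.lt_succ_self x) (Finset.le_sup (f := fun x => x + 1) hx)⟩
    refine ⟨Nat.find hex, fun x hx => ⟨fun h => Nat.find_spec hex x hx h, fun h => ?_⟩⟩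
    have hn := Nat.find_min hex h
    push Not at hn
    obtain ⟨x', hx', hx'X, hle⟩ := hn
    exact hfr.lowX (i, x') hx'X (i, x) ((hG i x).2 hx) rfl hle
  have hb : ∀ c, ∃ b : ℕ, ∀ y ∈ posC c, (c, y) ∈ Y ↔ b ≤ y := by
    intro c
    have hex : ∃ b : ℕ, ∀ y ∈ posC c, b ≤ y → (c, y) ∈ Y :=
      ⟨(posC c).sup (fun y => y + 1), fun y hy hle => absurd hle (not_le.2
        (lt_of_lt_of_le (Nat.lt_succ_self y) (Finset.le_sup (f := fun y => y + 1) hy)))⟩
    refine ⟨Nat.find hex, fun y hy => ⟨fun h => ?_, fun h => Nat.find_spec hex y hy h⟩⟩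
    exact Nat.find_min' hex (fun y' hy' hle => hfr.upY (c, y) h (c, y') ((hF c y').2 hy') rfl hle)
  choose a ha using ha
  choose b hb using hb
  refine ⟨a, b, fun c y => ε (c, y), fun i x => δ (i, x), ?_, ?_, ?_⟩
  · intro i c hN x hx hax y hy hyb hlt
    exact hfr.cover (i, x) ((hG i x).2 hx) (fun h => absurd ((ha i x hx).1 h) (not_lt.2 hax))
      (c, y) ((hF c y).2 hy) (fun h => absurd ((hb c y hy).1 h) (not_le.2 hyb)) hN hlt
  · intro i x hx hxa
    obtain ⟨⟨c, y⟩, hn, h1, h2⟩ := hε (i, x) ((ha i x hx).2 hxa)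
    have hy : y ∈ posC c := (hF c y).1 hn.1
    refine ⟨c, hn.2.1, y, hy, hn.2.2.1, ?_, ?_, h2⟩
    · intro y' hy' hlt
      exact hn.2.2.2 (c, y') ((hF c y').2 hy') rfl hlt
    · exact not_le.1 (fun h => h1 ((hb c y hy).2 h))
  · intro c y hy hby
    obtain ⟨⟨i, x⟩, hp, h1, h2⟩ := hδ (c, y) ((hb c y hy).2 hby)
    have hx : x ∈ posD i := (hG i x).1 hp.1
    refine ⟨i, hp.2.1, x, hx, hp.2.2.1, ?_, ?_, h2⟩
    · intro x' hx' hlt
      exact hp.2.2.2 (i, x') ((hG i x').2 hx') rfl hlt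
    · exact not_lt.1 (fun h => h1 ((ha i x hx).2 h))

end WordBL

namespace Pool.Agent.CA

open WordBL

/-- The word theorem, events as types. -/
theorem word_bl {D C G F : Type} [Finite G] [Finite F] (lG : G → D) (pG : G → ℕ) (lF : F → C)
    (pF : F → ℕ) (hG : ∀ g g', lG g = lG g' → pG g = pG g' → g = g')
    (hF : ∀ f f', lF f = lF f' → pF f = pF f' → f = f') (hne : ∀ g f, pG g ≠ pF f)
    (N : D → C → Prop) :
    ∃ (X : Set G) (Y : Set F) (eps : F → Option D) (del : G → Option C),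
      (∀ g ∈ X, ∀ g', lG g' = lG g → pG g' < pG g → g' ∈ X) ∧
      (∀ f ∈ Y, ∀ f', lF f' = lF f → pF f < pF f' → f' ∈ Y) ∧
      (∀ g, g ∉ X → ∀ f, f ∉ Y → N (lG g) (lF f) → pF f < pG g) ∧
      (∀ g ∈ X, ∃ f, N (lG g) (lF f) ∧ pG g < pF f ∧
        (∀ f', lF f' = lF f → pG g < pF f' → pF f ≤ pF f') ∧ f ∉ Y ∧ eps f = some (lG g)) ∧
      (∀ f ∈ Y, ∃ g, N (lG g) (lF f) ∧ pG g < pF f ∧
        (∀ g', lG g' = lG g → pG g' < pF f → pG g' ≤ pG g) ∧ g ∉ X ∧ del g = some (lF f)) := by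
  classical
  have _ := hG
  have _ := hF
  letI := Fintype.ofFinite G
  letI := Fintype.ofFinite F
  obtain ⟨G0, hG0⟩ : ∃ G0 : Finset (D × ℕ), ∀ p, p ∈ G0 ↔ ∃ g, (lG g, pG g) = p :=
    ⟨Finset.univ.image (fun g => (lG g, pG g)), fun p => by simp⟩
  obtain ⟨F0, hF0⟩ : ∃ F0 : Finset (C × ℕ), ∀ p, p ∈ F0 ↔ ∃ f, (lF f, pF f) = p :=
    ⟨Finset.univ.image (fun f => (lF f, pF f)), fun p => by simp⟩
  have hGm : ∀ g, (lG g, pG g) ∈ G0 := fun g => (hG0 _).2 ⟨g, rfl⟩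
  have hFm : ∀ f, (lF f, pF f) ∈ F0 := fun f => (hF0 _).2 ⟨f, rfl⟩
  obtain ⟨X, Y, hfr, ⟨ε, hε⟩, ⟨δ, hδ⟩⟩ := exists_good N G0 F0
  refine ⟨{g | (lG g, pG g) ∈ X}, {f | (lF f, pF f) ∈ Y}, fun f => ε (lF f, pF f),
    fun g => δ (lG g, pG g), ?_, ?_, ?_, ?_, ?_⟩
  · intro g hg g' he hlt
    exact hfr.lowX (lG g, pG g) hg (lG g', pG g') (hGm g') he (le_of_lt hlt)
  · intro f hf f' he hlt
    exact hfr.upY (lF f, pF f) hf (lF f', pF f') (hFm f') he (le_of_lt hlt)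
  · intro g hg f hf hN
    have h1 := hfr.cover (lG g, pG g) (hGm g) hg (lF f, pF f) (hFm f) hf hN
    have h2 := hne g f
    simp only at h1
    omega
  · intro g hg
    obtain ⟨p, hn, h1, h2⟩ := hε (lG g, pG g) hg
    obtain ⟨f, rfl⟩ := (hF0 p).1 hn.1
    refine ⟨f, hn.2.1, hn.2.2.1, ?_, h1, h2⟩
    intro f' he hlt
    exact hn.2.2.2 (lF f', pF f') (hFm f') he hlt
  · intro f hf
    obtain ⟨p, hp, h1, h2⟩ := hδ (lF f, pF f) hf
    obtain ⟨g, rfl⟩ := (hG0 p).1 hp.1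
    refine ⟨g, hp.2.1, hp.2.2.1, ?_, h1, h2⟩
    intro g' he hlt
    exact hp.2.2.2 (lG g', pG g') (hGm g') he hlt

end Pool.Agent.CA
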